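import Mathlib

/-!
# Numerical sequences attached to the complete graphs  (module T3)
-/

set_option autoImplicit false

namespace Pool.Agent.CP

open Finset

/-- `useq lam k`: upper bound for the increments of the expected life time of the contact process
on a complete graph, `k` steps below the full configuration. -/
noncomputable def useq (lam : ℝ) : ℕ → ℝ
  | 0 => 1
  | (k + 1) => lam * (k + 2) * useq lam k + 1

/-- `Lsum lam n = ∑_{k<n} lam^k k!`. -/
noncomputable def Lsum (lam : ℝ) (n : ℕ) : ℝ :=
  ∑ k ∈ range n, lam ^ k * (Nat.factorial k : ℝ)

/-- Upper bound for the probability that the contact process on the complete graph with `M`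
vertices, started with `i` infected vertices, dies out before an exponential time of rate
`eps`. -/
noncomputable def afun (lam eps : ℝ) (M i : ℕ) : ℝ :=
  (M + eps * Lsum lam (M - i)) / (M + eps * Lsum lam M)

end Pool.Agent.CP
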