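import Mathlib
import Pool.Agent.Helper11.CP.Cluster

/-!
# Facts on the extinction probabilities of complete graphs
-/

set_option autoImplicit false

namespace Pool.Agent.CP

open Finset

lemma Lsum_nonneg {lam : ℝ} (hlam : 0 ≤ lam) (n : ℕ) : 0 ≤ Lsum lam n :=
  Finset.sum_nonneg (fun k _ => by positivity)

lemma Lsum_mono {lam : ℝ} (hlam : 0 ≤ lam) {n n' : ℕ} (h : n ≤ n') : Lsum lam n ≤ Lsum lam n' := by
  unfold Lsum
  apply Finset.sum_le_sum_of_subset_of_nonneg
  · intro k hk; rw [mem_range] at hk ⊢; omega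
  · intro k _ _; positivity

lemma Lsum_succ (lam : ℝ) (n : ℕ) : Lsum lam (n + 1) = Lsum lam n + lam ^ n * (Nat.factorial n : ℝ) := by
  unfold Lsum; rw [Finset.sum_range_succ]

lemma Lsum_zero (lam : ℝ) : Lsum lam 0 = 0 := by simp [Lsum]

section
variable {lam eps : ℝ} {M : ℕ} (hlam : 0 ≤ lam) (heps : 0 ≤ eps) (hM : 1 ≤ M)
include hlam heps hM

lemma afun_den_pos : 0 < (M : ℝ) + eps * Lsum lam M := by
  have h1 : (1 : ℝ) ≤ M := by exact_mod_cast hM
  have h2 := mul_nonneg heps (Lsum_nonneg hlam M)
  linarith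

lemma afun_zero : afun lam eps M 0 = 1 := by
  unfold afun
  rw [Nat.sub_zero]
  exact div_self (afun_den_pos hlam heps hM).ne'

lemma afun_pos (i : ℕ) : 0 < afun lam eps M i := by
  unfold afun
  apply div_pos _ (afun_den_pos hlam heps hM)
  have h1 : (1 : ℝ) ≤ M := by exact_mod_cast hM
  have h2 := mul_nonneg heps (Lsum_nonneg hlam (M - i))
  linarith

lemma afun_anti : Antitone (afun lam eps M) := by
  intro i j hij
  unfold afun
  apply div_le_div_of_nonneg_right _ (afun_den_pos hlam heps hM).le
  have : Lsum lam (M - j) ≤ Lsum lam (M - i) := Lsum_mono hlam (by omega)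
  have := mul_le_mul_of_nonneg_left this heps
  linarith

lemma afun_rec {lam' : ℝ} (hlam' : lam ≤ lam') (i : ℕ) (h1 : 1 ≤ i) (hi : i ≤ M) :
    i * (afun lam eps M (i - 1) - afun lam eps M i)
      - lam' * (i * ((M : ℝ) - i) * (afun lam eps M i - afun lam eps M (i + 1)))
      ≤ eps * afun lam eps M i := by
  have hD := afun_den_pos hlam heps hM
  have hanti := afun_anti hlam heps hM (Nat.le_succ i)
  have hiM : (0 : ℝ) ≤ (M : ℝ) - i := by
    have : (i : ℝ) ≤ M := by exact_mod_cast hi
    linarith
  have h2 : 0 ≤ (i : ℝ) * ((M : ℝ) - i) * (afun lam eps M i - afun lam eps M (i + 1)) := by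
    apply mul_nonneg (mul_nonneg (Nat.cast_nonneg i) hiM)
    have : afun lam eps M (i + 1) ≤ afun lam eps M i := hanti
    linarith
  have h3 := mul_le_mul_of_nonneg_right hlam' h2
  have hpos := afun_pos hlam heps hM i
  -- reduce to lam
  suffices h : i * (afun lam eps M (i - 1) - afun lam eps M i)
      - lam * (i * ((M : ℝ) - i) * (afun lam eps M i - afun lam eps M (i + 1)))
      ≤ eps * afun lam eps M i by linarith
  set D := (M : ℝ) + eps * Lsum lam M with hDdef
  have e1 : afun lam eps M (i - 1) - afun lam eps M i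
      = eps * (lam ^ (M - i) * (Nat.factorial (M - i) : ℝ)) / D := by
    unfold afun
    rw [← hDdef]
    have : M - (i - 1) = (M - i) + 1 := by omega
    rw [this, Lsum_succ]
    field_simp
    ring
  rcases Nat.lt_or_ge i M with hlt | hge
  · have e2 : afun lam eps M i - afun lam eps M (i + 1)
        = eps * (lam ^ (M - i - 1) * (Nat.factorial (M - i - 1) : ℝ)) / D := by
      unfold afun
      rw [← hDdef]
      have h4 : M - i = (M - i - 1) + 1 := by omega
      have h5 : M - (i + 1) = M - i - 1 := by omega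
      rw [h5]
      conv_lhs => rw [h4]
      rw [Lsum_succ]
      have h6 : M - i - 1 + 1 - 1 = M - i - 1 := by omega
      rw [h6]
      field_simp
      ring
    rw [e1, e2]
    obtain ⟨k, hk⟩ : ∃ k, M - i = k + 1 := ⟨M - i - 1, by omega⟩
    have h7 : M - i - 1 = k := by omega
    have h8 : (M : ℝ) - i = k + 1 := by
      have : (M : ℝ) = i + (k + 1 : ℕ) := by
        have : M = i + (k + 1) := by omega
        exact_mod_cast this
      rw [this]; push_cast; ring
    rw [h8, hk, Nat.add_sub_cancel]
    have h9 : (i : ℝ) * (eps * (lam ^ (k + 1) * (Nat.factorial (k + 1) : ℝ)) / D)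
      - lam * (i * ((k : ℝ) + 1) * (eps * (lam ^ k * (Nat.factorial k : ℝ)) / D)) = 0 := by
      rw [Nat.factorial_succ]
      push_cast
      field_simp
      ring
    rw [h9]
    exact mul_nonneg heps hpos.le
  · have hiM' : i = M := le_antisymm hi hge
    rw [hiM'] at e1 ⊢
    rw [e1]
    unfold afun
    rw [← hDdef, Nat.sub_self, Lsum_zero]
    simp only [pow_zero, Nat.factorial_zero, Nat.cast_one, mul_one, sub_self, mul_zero, zero_mul,
      sub_zero, add_zero]
    apply le_of_eq
    field_simp

end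

end Pool.Agent.CP
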