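import Mathlib

/-!
# The generator of the contact process on finite configurations

`nb x` is the finite set of neighbours of `x`.
-/

set_option autoImplicit false

namespace Pool.Agent.CP

open Finset

variable {V : Type*} [DecidableEq V]

/-- The generator of the contact process with infection rate `lam`, where `nb x` is the finite
set of neighbours of `x`, applied to a function `f` of the (finite) set of infected vertices. -/
noncomputable def gen (nb : V → Finset V) (lam : ℝ) (f : Finset V → ℝ) (A : Finset V) : ℝ :=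
  ∑ x ∈ A, (f (A.erase x) - f A) + lam * ∑ x ∈ A, ∑ y ∈ nb x, (f (insert y A) - f A)

variable (nb : V → Finset V) (lam : ℝ)

lemma gen_add (f g : Finset V → ℝ) (A : Finset V) :
    gen nb lam (fun B => f B + g B) A = gen nb lam f A + gen nb lam g A := by
  unfold gen
  have h1 : ∑ x ∈ A, ((f (A.erase x) + g (A.erase x)) - (f A + g A))
      = ∑ x ∈ A, (f (A.erase x) - f A) + ∑ x ∈ A, (g (A.erase x) - g A) := by
    rw [← Finset.sum_add_distrib]; exact Finset.sum_congr rfl (fun x _ => by ring)
  have h2 : ∑ x ∈ A, ∑ y ∈ nb x, ((f (insert y A) + g (insert y A)) - (f A + g A))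
      = ∑ x ∈ A, ∑ y ∈ nb x, (f (insert y A) - f A)
        + ∑ x ∈ A, ∑ y ∈ nb x, (g (insert y A) - g A) := by
    rw [← Finset.sum_add_distrib]
    refine Finset.sum_congr rfl (fun x _ => ?_)
    rw [← Finset.sum_add_distrib]; exact Finset.sum_congr rfl (fun y _ => by ring)
  rw [h1, h2]; ring

lemma gen_const_mul (c : ℝ) (f : Finset V → ℝ) (A : Finset V) :
    gen nb lam (fun B => c * f B) A = c * gen nb lam f A := by
  unfold gen
  have h1 : ∑ x ∈ A, (c * f (A.erase x) - c * f A) = c * ∑ x ∈ A, (f (A.erase x) - f A) := by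
    rw [Finset.mul_sum]; exact Finset.sum_congr rfl (fun x _ => by ring)
  have h2 : ∑ x ∈ A, ∑ y ∈ nb x, (c * f (insert y A) - c * f A)
      = c * ∑ x ∈ A, ∑ y ∈ nb x, (f (insert y A) - f A) := by
    rw [Finset.mul_sum]
    refine Finset.sum_congr rfl (fun x _ => ?_)
    rw [Finset.mul_sum]; exact Finset.sum_congr rfl (fun y _ => by ring)
  rw [h1, h2]; ring

lemma gen_zero (A : Finset V) : gen nb lam (fun _ => (0 : ℝ)) A = 0 := by
  simp [gen]

lemma gen_const (c : ℝ) (A : Finset V) : gen nb lam (fun _ => c) A = 0 := by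
  simp [gen]

lemma gen_sub (f g : Finset V → ℝ) (A : Finset V) :
    gen nb lam (fun B => f B - g B) A = gen nb lam f A - gen nb lam g A := by
  have h := gen_add nb lam f (fun B => (-1) * g B) A
  rw [gen_const_mul] at h
  have h2 : (fun B => f B - g B) = (fun B => f B + (-1) * g B) := by
    funext B; ring
  rw [h2, h]; ring

lemma gen_sum {ι : Type*} (s : Finset ι) (f : ι → Finset V → ℝ) (A : Finset V) :
    gen nb lam (fun B => ∑ i ∈ s, f i B) A = ∑ i ∈ s, gen nb lam (f i) A := by
  classical
  induction s using Finset.induction_on with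
  | empty => simp [gen]
  | insert a s ha ih =>
    simp only [Finset.sum_insert ha]
    rw [gen_add nb lam (f a) (fun B => ∑ i ∈ s, f i B) A, ih]

/-- Two functions agreeing at `A` and at all one-step modifications of `A` have the same
generator at `A`. -/
lemma gen_congr {f g : Finset V → ℝ} {A : Finset V} (h0 : f A = g A)
    (h1 : ∀ x ∈ A, f (A.erase x) = g (A.erase x))
    (h2 : ∀ x ∈ A, ∀ y ∈ nb x, f (insert y A) = g (insert y A)) :
    gen nb lam f A = gen nb lam g A := by
  unfold gen
  congr 1
  · exact Finset.sum_congr rfl (fun x hx => by rw [h1 x hx, h0])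
  · congr 1
    refine Finset.sum_congr rfl (fun x hx => Finset.sum_congr rfl (fun y hy => ?_))
    rw [h2 x hx y hy, h0]

/-- If `g` touches `f` from below at `A` then its generator at `A` is smaller. -/
lemma gen_le_of_touch {f g : Finset V → ℝ} {A : Finset V} (hlam : 0 ≤ lam) (h0 : f A = g A)
    (h1 : ∀ x ∈ A, g (A.erase x) ≤ f (A.erase x))
    (h2 : ∀ x ∈ A, ∀ y ∈ nb x, g (insert y A) ≤ f (insert y A)) :
    gen nb lam g A ≤ gen nb lam f A := by
  unfold gen
  have e1 : ∑ x ∈ A, (g (A.erase x) - g A) ≤ ∑ x ∈ A, (f (A.erase x) - f A) :=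
    Finset.sum_le_sum (fun x hx => by rw [h0]; linarith [h1 x hx])
  have e2 : ∑ x ∈ A, ∑ y ∈ nb x, (g (insert y A) - g A)
      ≤ ∑ x ∈ A, ∑ y ∈ nb x, (f (insert y A) - f A) :=
    Finset.sum_le_sum (fun x hx => Finset.sum_le_sum (fun y hy => by
      rw [h0]; linarith [h2 x hx y hy]))
  have := mul_le_mul_of_nonneg_left e2 hlam
  linarith

/-- Monotone functions: the generator is monotone in the infection rate. -/
lemma gen_mono_lam {f : Finset V → ℝ} {A : Finset V} {l1 l2 : ℝ} (hl : l1 ≤ l2)
    (hf : ∀ x ∈ A, ∀ y ∈ nb x, f A ≤ f (insert y A)) :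
    gen nb l1 f A ≤ gen nb l2 f A := by
  unfold gen
  have e2 : 0 ≤ ∑ x ∈ A, ∑ y ∈ nb x, (f (insert y A) - f A) :=
    Finset.sum_nonneg (fun x hx => Finset.sum_nonneg (fun y hy => by linarith [hf x hx y hy]))
  have := mul_le_mul_of_nonneg_right hl e2
  linarith

end Pool.Agent.CP
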