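import Mathlib
import Pool.Agent.Helper11.CP.Cluster

/-!
# Auxiliary estimates for the existence of good parameters  (module T7, part 1)
-/

set_option autoImplicit false

namespace Pool.Agent.CP

open Finset Filter

/-! ### Bounds on `useq` and `Lsum` -/

lemma par_useq_lower {lam : ℝ} (h : 0 ≤ lam) (k : ℕ) :
    lam ^ k * ((k + 1).factorial : ℝ) ≤ useq lam k := by
  induction k with
  | zero => simp [useq]
  | succ k ih =>
    simp only [useq]
    have h1 : (0 : ℝ) ≤ lam * ((k : ℝ) + 2) := by positivity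
    have h2 := mul_le_mul_of_nonneg_left ih h1
    have h3 : ((k + 1 + 1).factorial : ℝ) = ((k : ℝ) + 2) * ((k + 1).factorial : ℝ) := by
      rw [Nat.factorial_succ (k + 1)]; push_cast; ring
    rw [h3, pow_succ]
    linarith [h2]

lemma par_useq_eq {lam : ℝ} (h : 0 < lam) (k : ℕ) :
    useq lam k = lam ^ k * ((k + 1).factorial : ℝ) *
      ∑ i ∈ range (k + 1), (1 / lam) ^ i / ((i + 1).factorial : ℝ) := by
  induction k with
  | zero => simp [useq]
  | succ k ih =>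
    simp only [useq]
    have h3 : ((k + 1 + 1).factorial : ℝ) = ((k : ℝ) + 2) * ((k + 1).factorial : ℝ) := by
      rw [Nat.factorial_succ (k + 1)]; push_cast; ring
    have h4 : lam ^ (k + 1) * ((k + 1 + 1).factorial : ℝ) *
        ((1 / lam) ^ (k + 1) / ((k + 1 + 1).factorial : ℝ)) = 1 := by
      have h5 : ((k + 1 + 1).factorial : ℝ) ≠ 0 := by positivity
      have h6 : lam ^ (k + 1) * (1 / lam) ^ (k + 1) = 1 := by
        rw [← mul_pow, mul_one_div_cancel h.ne', one_pow]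
      rw [mul_div_assoc', div_eq_iff h5, mul_right_comm, h6]
    rw [Finset.sum_range_succ _ (k + 1), ih]
    set S := ∑ i ∈ range (k + 1), (1 / lam) ^ i / ((i + 1).factorial : ℝ)
    rw [show lam ^ (k + 1) * ((k + 1 + 1).factorial : ℝ) *
        (S + (1 / lam) ^ (k + 1) / ((k + 1 + 1).factorial : ℝ))
        = lam ^ (k + 1) * ((k + 1 + 1).factorial : ℝ) * S + lam ^ (k + 1) *
          ((k + 1 + 1).factorial : ℝ) * ((1 / lam) ^ (k + 1) / ((k + 1 + 1).factorial : ℝ))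
        from by ring, h4, h3, pow_succ]
    ring

lemma par_useq_upper {lam : ℝ} (h : 0 < lam) (k : ℕ) :
    useq lam k ≤ Real.exp (1 / lam) * (lam ^ k * ((k + 1).factorial : ℝ)) := by
  rw [par_useq_eq h k, mul_comm]
  have h1 : ∑ i ∈ range (k + 1), (1 / lam) ^ i / ((i + 1).factorial : ℝ) ≤ Real.exp (1 / lam) := by
    refine le_trans (Finset.sum_le_sum (fun i _ => ?_))
      (Real.sum_le_exp_of_nonneg (x := 1 / lam) (by positivity) (k + 1))
    have h2 : (i.factorial : ℝ) ≤ ((i + 1).factorial : ℝ) := by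
      exact_mod_cast Nat.factorial_le (Nat.le_succ i)
    exact div_le_div_of_nonneg_left (by positivity) (by positivity) h2
  exact mul_le_mul_of_nonneg_right h1 (by positivity)

lemma par_useq_pos {lam : ℝ} (hlam : 0 ≤ lam) (k : ℕ) : 1 ≤ useq lam k := by
  induction k with
  | zero => simp [useq]
  | succ k ih =>
    simp only [useq]
    have : 0 ≤ lam * (k + 2) * useq lam k := by positivity
    linarith

lemma par_useq_ratio (k d : ℕ) :
    useq (1 / 100) (k + d) ≤ ((k : ℝ) + d + 1) ^ d * useq (1 / 100) k := by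
  induction d with
  | zero => simp
  | succ d ih =>
    have e1 : useq (1 / 100) (k + (d + 1)) = (1 / 100) * (((k + d : ℕ) : ℝ) + 2) *
      useq (1 / 100) (k + d) + 1 := rfl
    rw [e1]
    have h1 := par_useq_pos (lam := 1 / 100) (by norm_num) (k + d)
    have h2 := par_useq_pos (lam := 1 / 100) (by norm_num) k
    push_cast
    have hk : (0 : ℝ) ≤ k := Nat.cast_nonneg k
    have hd : (0 : ℝ) ≤ d := Nat.cast_nonneg d
    have h3 : (1 / 100) * ((k : ℝ) + d + 2) * useq (1 / 100) (k + d) + 1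
        ≤ ((k : ℝ) + d + 2) * useq (1 / 100) (k + d) := by nlinarith
    have h4 : ((k : ℝ) + d + 1) ^ d ≤ ((k : ℝ) + d + 2) ^ d := by
      apply pow_le_pow_left₀ (by positivity); linarith
    calc (1 / 100) * ((k : ℝ) + d + 2) * useq (1 / 100) (k + d) + 1
        ≤ ((k : ℝ) + d + 2) * useq (1 / 100) (k + d) := h3
      _ ≤ ((k : ℝ) + d + 2) * (((k : ℝ) + d + 2) ^ d * useq (1 / 100) k) := by
          apply mul_le_mul_of_nonneg_left _ (by positivity)
          exact le_trans ih (mul_le_mul_of_nonneg_right h4 (by linarith))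
      _ = ((k : ℝ) + (d + 1) + 1) ^ (d + 1) * useq (1 / 100) k := by
          rw [pow_succ]
          have : (k : ℝ) + (d + 1) + 1 = k + d + 2 := by ring
          rw [this]; ring

lemma par_Lsum_nonneg {lam : ℝ} (h : 0 ≤ lam) (n : ℕ) : 0 ≤ Lsum lam n :=
  Finset.sum_nonneg (fun k _ => by positivity)

lemma par_Lsum_ge {lam : ℝ} (h : 0 ≤ lam) (n : ℕ) :
    lam ^ n * (n.factorial : ℝ) ≤ Lsum lam (n + 1) := by
  unfold Lsum
  rw [Finset.sum_range_succ]
  have : 0 ≤ ∑ k ∈ range n, lam ^ k * (Nat.factorial k : ℝ) :=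
    Finset.sum_nonneg (fun k _ => by positivity)
  linarith

lemma par_Lsum_bound {lam : ℝ} (h : 0 < lam) :
    ∃ C : ℝ, 0 < C ∧ ∀ n, Lsum lam (n + 1) ≤ C * (lam ^ n * (n.factorial : ℝ)) := by
  obtain ⟨n0, hn0⟩ := exists_nat_ge (2 / lam)
  -- constant for n ≤ n0
  have hpos : ∀ n : ℕ, 0 < lam ^ n * (n.factorial : ℝ) := fun n => by positivity
  set C : ℝ := 2 + ∑ n ∈ range (n0 + 1), Lsum lam (n + 1) / (lam ^ n * (n.factorial : ℝ)) with hC
  have hterm : ∀ n, 0 ≤ Lsum lam (n + 1) / (lam ^ n * (n.factorial : ℝ)) := fun n =>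
    div_nonneg (par_Lsum_nonneg h.le _) (hpos n).le
  have hC2 : 2 ≤ C := by
    have := Finset.sum_nonneg (s := range (n0 + 1)) (fun n _ => hterm n)
    linarith
  refine ⟨C, by linarith, ?_⟩
  intro n
  induction n with
  | zero =>
    rw [← div_le_iff₀ (hpos 0)]
    have := Finset.single_le_sum (s := range (n0 + 1)) (fun n _ => hterm n)
      (mem_range.mpr (Nat.succ_pos n0))
    linarith
  | succ n ih =>
    by_cases hn : n + 1 ≤ n0
    · rw [← div_le_iff₀ (hpos (n + 1))]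
      have := Finset.single_le_sum (s := range (n0 + 1)) (fun n _ => hterm n)
        (mem_range.mpr (Nat.lt_succ_of_le hn))
      linarith
    · have h1 : Lsum lam (n + 1 + 1) = Lsum lam (n + 1) +
        lam ^ (n + 1) * ((n + 1).factorial : ℝ) := by
        unfold Lsum; rw [Finset.sum_range_succ]
      rw [h1]
      have h2 : (2 : ℝ) ≤ lam * ((n : ℝ) + 1) := by
        have h3 : (n0 : ℝ) ≤ (n : ℝ) + 1 := by
          have : n0 ≤ n + 1 := by omega
          exact_mod_cast this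
        have h4 : 2 / lam ≤ (n : ℝ) + 1 := le_trans hn0 h3
        rw [div_le_iff₀ h] at h4
        linarith
      have h5 : lam ^ (n + 1) * ((n + 1).factorial : ℝ)
          = (lam * ((n : ℝ) + 1)) * (lam ^ n * (n.factorial : ℝ)) := by
        rw [Nat.factorial_succ]; push_cast; ring
      rw [h5]
      have h6 := hpos n
      have h7 : 2 * (lam ^ n * (n.factorial : ℝ)) ≤
        (lam * ((n : ℝ) + 1)) * (lam ^ n * (n.factorial : ℝ)) :=
        mul_le_mul_of_nonneg_right h2 h6.le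
      nlinarith

lemma par_afun_le {lam eps : ℝ} (hlam : 0 < lam) (he : 0 < eps) (M : ℕ) (hM : 1 ≤ M) :
    afun lam eps M 1 ≤ M / (eps * Lsum lam M) + Lsum lam (M - 1) / Lsum lam M := by
  unfold afun
  obtain ⟨k, rfl⟩ := Nat.exists_eq_add_of_le' hM
  have h0 : 0 < Lsum lam (k + 1) := lt_of_lt_of_le (by positivity) (par_Lsum_ge hlam.le k)
  have h1 := par_Lsum_nonneg hlam.le (k + 1 - 1)
  calc (((k + 1 : ℕ) : ℝ) + eps * Lsum lam (k + 1 - 1)) / (((k + 1 : ℕ) : ℝ) + eps * Lsum lam (k + 1))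
      ≤ (((k + 1 : ℕ) : ℝ) + eps * Lsum lam (k + 1 - 1)) / (eps * Lsum lam (k + 1)) := by
        apply div_le_div_of_nonneg_left (by positivity) (by positivity)
        have : (0 : ℝ) ≤ ((k + 1 : ℕ) : ℝ) := Nat.cast_nonneg _
        linarith
    _ = _ := by
        field_simp

lemma par_Lsum_ratio {lam : ℝ} (h : 0 < lam) :
    ∃ C : ℝ, 0 < C ∧ ∀ M : ℕ, 2 ≤ M → Lsum lam (M - 1) / Lsum lam M ≤ C / ((M : ℝ) - 1) := by
  obtain ⟨C, hC, hb⟩ := par_Lsum_bound h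
  refine ⟨C / lam, by positivity, ?_⟩
  intro M hM
  obtain ⟨k, rfl⟩ := Nat.exists_eq_add_of_le' hM
  have e1 : k + 2 - 1 = k + 1 := by omega
  rw [e1]
  have h1 := hb k
  have h2 := par_Lsum_ge h.le (k + 1)
  have h3 : 0 < Lsum lam (k + 2) := lt_of_lt_of_le (by positivity) h2
  rw [div_le_iff₀ h3]
  have h5 : lam ^ (k + 1) * ((k + 1).factorial : ℝ)
      = (lam * ((k : ℝ) + 1)) * (lam ^ k * (k.factorial : ℝ)) := by
    rw [Nat.factorial_succ]; push_cast; ring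
  rw [h5] at h2
  have h6 : ((k + 2 : ℕ) : ℝ) - 1 = (k : ℝ) + 1 := by push_cast; ring
  rw [h6]
  have h7 : C / lam / ((k : ℝ) + 1) * ((lam * ((k : ℝ) + 1)) * (lam ^ k * (k.factorial : ℝ)))
      = C * (lam ^ k * (k.factorial : ℝ)) := by
    field_simp
  calc Lsum lam (k + 1) ≤ C * (lam ^ k * (k.factorial : ℝ)) := h1
    _ = C / lam / ((k : ℝ) + 1) * ((lam * ((k : ℝ) + 1)) * (lam ^ k * (k.factorial : ℝ))) := h7.symm
    _ ≤ C / lam / ((k : ℝ) + 1) * Lsum lam (k + 2) :=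
        mul_le_mul_of_nonneg_left h2 (by positivity)

/-- `lam0^(N-3) (N-3)! ≥ T(N) / (C2 N^4)`. -/
lemma par_useq_fact (N : ℕ) (hN : 3 ≤ N) :
    useq (1 / 100) N ≤ Real.exp 100 * ((N : ℝ) + 1) ^ 4 *
      ((1 / 100) ^ (N - 3) * ((N - 3).factorial : ℝ)) := by
  obtain ⟨k, rfl⟩ := Nat.exists_eq_add_of_le' hN
  have h1 := par_useq_upper (lam := 1 / 100) (by norm_num) (k + 3)
  have e1 : k + 3 - 3 = k := by omega
  rw [e1]
  have e2 : (1 : ℝ) / (1 / 100) = 100 := by norm_num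
  rw [e2] at h1
  refine le_trans h1 ?_
  rw [mul_assoc]
  apply mul_le_mul_of_nonneg_left _ (Real.exp_pos _).le
  have h2 : ((k + 3 + 1).factorial : ℝ) = ((k : ℝ) + 4) * (k + 3) * (k + 2) * (k + 1) *
      (k.factorial : ℝ) := by
    rw [Nat.factorial_succ, Nat.factorial_succ, Nat.factorial_succ, Nat.factorial_succ]
    push_cast; ring
  rw [h2, pow_add]
  have hk : (0 : ℝ) ≤ k := Nat.cast_nonneg k
  have h3 : ((k : ℝ) + 4) * (k + 3) * (k + 2) * (k + 1) ≤ (((k + 3 : ℕ) : ℝ) + 1) ^ 4 := by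
    push_cast
    have : ((k : ℝ) + 3 + 1) ^ 4 = (k + 4) * (k + 4) * (k + 4) * (k + 4) := by ring
    rw [this]
    gcongr <;> linarith
  have h4 : (0 : ℝ) ≤ (1 / 100) ^ k * (k.factorial : ℝ) := by positivity
  have h5 := mul_le_mul_of_nonneg_right h3 h4
  have h6 : (1 / 100 : ℝ) ^ 3 ≤ 1 := by norm_num
  calc (1 / 100 : ℝ) ^ k * (1 / 100) ^ 3 *
        (((k : ℝ) + 4) * (k + 3) * (k + 2) * (k + 1) * (k.factorial : ℝ))
      = (1 / 100) ^ 3 * (((k : ℝ) + 4) * (k + 3) * (k + 2) * (k + 1) *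
        ((1 / 100) ^ k * (k.factorial : ℝ))) := by ring
    _ ≤ 1 * (((k : ℝ) + 4) * (k + 3) * (k + 2) * (k + 1) *
        ((1 / 100) ^ k * (k.factorial : ℝ))) := by
        apply mul_le_mul_of_nonneg_right h6 (by positivity)
    _ ≤ _ := by rw [one_mul]; exact h5


/-! ### The auxiliary quantity `X` -/

/-- Auxiliary size. -/
def pX (j : ℕ) : ℕ := j ^ 60 * ((j + 1) ^ 3 + 2) ^ ((j + 1) ^ 3 - j ^ 3)

/-- The depth of the hub. -/
def pm (j : ℕ) : ℕ := Nat.clog 4 (pX j)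

lemma par_diff (j : ℕ) : (j + 1) ^ 3 - j ^ 3 = 3 * j ^ 2 + 3 * j + 1 := by
  have : (j + 1) ^ 3 = j ^ 3 + (3 * j ^ 2 + 3 * j + 1) := by ring
  omega

lemma par_X_le {j : ℕ} (hj : 8 ≤ j) : pX j ≤ j ^ (17 * j ^ 2) := by
  unfold pX
  have h1 : (j + 1) ^ 3 + 2 ≤ j ^ 4 := by
    obtain ⟨k, rfl⟩ := Nat.exists_eq_add_of_le hj
    ring_nf
    nlinarith [sq_nonneg k, Nat.zero_le (k ^ 3), Nat.zero_le (k ^ 4), Nat.zero_le (k ^ 2)]
  have h2 : (j + 1) ^ 3 - j ^ 3 ≤ 4 * j ^ 2 := by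
    rw [par_diff]
    nlinarith
  have h3 : 60 ≤ j ^ 2 := by nlinarith
  calc j ^ 60 * ((j + 1) ^ 3 + 2) ^ ((j + 1) ^ 3 - j ^ 3)
      ≤ j ^ 60 * (j ^ 4) ^ ((j + 1) ^ 3 - j ^ 3) := by
        apply Nat.mul_le_mul_left
        exact Nat.pow_le_pow_left h1 _
    _ ≤ j ^ 60 * (j ^ 4) ^ (4 * j ^ 2) := by
        apply Nat.mul_le_mul_left
        exact Nat.pow_le_pow_right (by positivity) h2
    _ = j ^ (60 + 16 * j ^ 2) := by
        rw [← pow_mul, ← pow_add]; congr 1; ring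
    _ ≤ j ^ (17 * j ^ 2) := Nat.pow_le_pow_right (by omega) (by omega)

lemma par_growth (b : ℝ) (hb : 1 < b) (K : ℕ) :
    ∀ᶠ j : ℕ in atTop, (4 * (pX j : ℝ)) ^ 5 * (j : ℝ) ^ K ≤ b ^ (j ^ 3) := by
  have h1 := tendsto_pow_const_div_const_pow_of_one_lt 86 hb
  have h2 := h1.eventually (gt_mem_nhds (zero_lt_one))
  filter_upwards [h2, eventually_ge_atTop 8, eventually_ge_atTop (K + 5)] with j h3 h4 h5
  have hbj : (0 : ℝ) < b ^ j := by positivity
  rw [div_lt_one hbj] at h3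
  have h6 : (pX j : ℝ) ≤ (j : ℝ) ^ (17 * j ^ 2) := by exact_mod_cast par_X_le h4
  have h7 : (4 : ℝ) ≤ j := by
    have : 4 ≤ j := by omega
    exact_mod_cast this
  have h8 : (1 : ℝ) ≤ j := by linarith
  calc (4 * (pX j : ℝ)) ^ 5 * (j : ℝ) ^ K
      ≤ ((j : ℝ) * (j : ℝ) ^ (17 * j ^ 2)) ^ 5 * (j : ℝ) ^ K := by
        gcongr
    _ = (j : ℝ) ^ (5 + 85 * j ^ 2 + K) := by
        rw [mul_pow, ← pow_mul, ← pow_add, ← pow_add]; congr 1; ring
    _ ≤ (j : ℝ) ^ (86 * j ^ 2) := by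
        apply pow_le_pow_right₀ h8
        nlinarith
    _ = ((j : ℝ) ^ 86) ^ (j ^ 2) := by rw [← pow_mul]
    _ ≤ (b ^ j) ^ (j ^ 2) := by
        apply pow_le_pow_left₀ (by positivity) h3.le
    _ = b ^ (j ^ 3) := by rw [← pow_mul]; congr 1; ring

lemma pX_pos {j : ℕ} (hj : 1 ≤ j) : 2 ≤ pX j := by
  unfold pX
  have h1 : 1 ≤ j ^ 60 := Nat.one_le_pow _ _ hj
  have h2 : 2 ≤ ((j + 1) ^ 3 + 2) ^ ((j + 1) ^ 3 - j ^ 3) := by
    rw [par_diff]
    calc 2 ≤ (j + 1) ^ 3 + 2 := by omega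
      _ = ((j + 1) ^ 3 + 2) ^ 1 := (pow_one _).symm
      _ ≤ _ := Nat.pow_le_pow_right (by omega) (by omega)
  nlinarith

lemma pm_pos {j : ℕ} (hj : 1 ≤ j) : 1 ≤ pm j := by
  unfold pm
  exact Nat.clog_pos (by norm_num) (pX_pos hj)

lemma le_four_pow_pm (j : ℕ) : pX j ≤ 4 ^ pm j := Nat.le_pow_clog (by norm_num) _

lemma four_pow_pm_le {j : ℕ} (hj : 1 ≤ j) : 4 ^ pm j ≤ 4 * pX j := by
  have h := Nat.pow_pred_clog_lt_self (b := 4) (by norm_num) (x := pX j)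
    (lt_of_lt_of_le one_lt_two (pX_pos hj))
  have h2 : 4 ^ pm j = 4 * 4 ^ (pm j).pred := by
    conv_lhs => rw [← Nat.succ_pred_eq_of_pos (pm_pos hj), pow_succ]
    ring
  rw [h2]
  exact Nat.mul_le_mul_left _ h.le

lemma pow250_le {j : ℕ} (hj : 1 ≤ j) : (250 : ℝ) ^ pm j ≤ (4 * (pX j : ℝ)) ^ 4 := by
  have h1 : (4 : ℝ) ^ pm j ≤ 4 * (pX j : ℝ) := by exact_mod_cast four_pow_pm_le hj
  calc (250 : ℝ) ^ pm j ≤ (4 ^ 4) ^ pm j := by
        apply pow_le_pow_left₀ (by norm_num); norm_num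
    _ = (4 ^ pm j) ^ 4 := by rw [← pow_mul, ← pow_mul, mul_comm]
    _ ≤ _ := by apply pow_le_pow_left₀ (by positivity) h1

end Pool.Agent.CP
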