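import Mathlib
import Pool.Agent.Helper11.CP.Basic

/-!
# General lemmas on the generator
-/

set_option autoImplicit false

namespace Pool.Agent.CP

open Finset

variable {V : Type*} [DecidableEq V] (nb : V → Finset V) (lam : ℝ)

/-- number of elements of `A` having `y` as a neighbour -/
def infl (A : Finset V) (y : V) : ℕ := (A.filter (fun x => y ∈ nb x)).card

lemma sum_nb_swap (A Y : Finset V) (φ : V → ℝ) (h : ∀ x ∈ A, ∀ y ∈ nb x, y ∉ Y → φ y = 0) :
    ∑ x ∈ A, ∑ y ∈ nb x, φ y = ∑ y ∈ Y, (infl nb A y : ℝ) * φ y := by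
  have h1 : ∀ x ∈ A, ∑ y ∈ nb x, φ y = ∑ y ∈ Y, if y ∈ nb x then φ y else 0 := by
    intro x hx
    rw [← Finset.sum_filter]
    have : Y.filter (fun y => y ∈ nb x) = (nb x).filter (fun y => y ∈ Y) := by
      ext y; simp only [mem_filter]; tauto
    rw [this, Finset.sum_filter]
    refine Finset.sum_congr rfl (fun y hy => ?_)
    split_ifs with hY
    · rfl
    · exact h x hx y hy hY
  rw [Finset.sum_congr rfl h1, Finset.sum_comm]
  refine Finset.sum_congr rfl (fun y _ => ?_)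
  rw [← Finset.sum_filter, Finset.sum_const, nsmul_eq_mul]
  rfl

/-- upper bound for the generator of a linear function -/
lemma gen_linear_le (hlam : 0 ≤ lam) (u : V → ℝ) (hu : ∀ v, 0 ≤ u v) (A : Finset V) :
    gen nb lam (fun B => ∑ v ∈ B, u v) A ≤ ∑ x ∈ A, (- u x + lam * ∑ y ∈ nb x, u y) := by
  unfold gen
  rw [Finset.sum_add_distrib, ← Finset.mul_sum]
  have h1 : ∑ x ∈ A, (∑ v ∈ A.erase x, u v - ∑ v ∈ A, u v) = ∑ x ∈ A, - u x := by
    refine Finset.sum_congr rfl (fun x hx => ?_)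
    rw [← Finset.add_sum_erase A u hx]; ring
  have h2 : ∑ x ∈ A, ∑ y ∈ nb x, (∑ v ∈ insert y A, u v - ∑ v ∈ A, u v)
      ≤ ∑ x ∈ A, ∑ y ∈ nb x, u y := by
    refine Finset.sum_le_sum (fun x _ => Finset.sum_le_sum (fun y _ => ?_))
    by_cases hy : y ∈ A
    · rw [Finset.insert_eq_of_mem hy]; simpa using hu y
    · rw [Finset.sum_insert hy]; linarith
  rw [h1]
  have := mul_le_mul_of_nonneg_left h2 hlam
  linarith

/-- The generator of a function depending only on the trace on `Q`, written by targets. -/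
lemma gen_eq_of_local (f : Finset V → ℝ) (Q A : Finset V)
    (h1 : ∀ x ∈ A, x ∉ Q → f (A.erase x) = f A)
    (h2 : ∀ x ∈ A, ∀ y ∈ nb x, y ∉ Q → f (insert y A) = f A) :
    gen nb lam f A = ∑ x ∈ A ∩ Q, (f (A.erase x) - f A)
      + lam * ∑ y ∈ Q \ A, (infl nb A y : ℝ) * (f (insert y A) - f A) := by
  unfold gen
  congr 1
  · rw [← Finset.sum_inter_add_sum_sdiff A Q]
    have : ∑ x ∈ A \ Q, (f (A.erase x) - f A) = 0 :=
      Finset.sum_eq_zero (fun x hx => by
        rw [mem_sdiff] at hx; rw [h1 x hx.1 hx.2]; ring)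
    rw [this, add_zero]
  · congr 1
    apply sum_nb_swap
    intro x hx y hy hyQ
    by_cases hyA : y ∈ A
    · rw [Finset.insert_eq_of_mem hyA]; ring
    · have : y ∉ Q := fun hq => hyQ (mem_sdiff.mpr ⟨hq, hyA⟩)
      rw [h2 x hx y hy this]; ring

/-! ### Cluster function for upper bounds -/

/-- `F i` if `i ≥ 1` vertices of `Q` are infected, `T * U A` if none is. -/
noncomputable def clf (Q : Finset V) (F : ℕ → ℝ) (T : ℝ) (U : Finset V → ℝ) (A : Finset V) : ℝ :=
  if (A ∩ Q).Nonempty then F (A ∩ Q).card else T * U A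

lemma inter_erase_card_of_mem {A Q : Finset V} {x : V} (hx : x ∈ A ∩ Q) :
    ((A.erase x) ∩ Q).card = (A ∩ Q).card - 1 := by
  rw [Finset.erase_inter, Finset.card_erase_of_mem hx]

lemma inter_insert_card_of_mem {A Q : Finset V} {y : V} (hy : y ∈ Q \ A) :
    ((insert y A) ∩ Q).card = (A ∩ Q).card + 1 := by
  rw [mem_sdiff] at hy
  rw [Finset.insert_inter_of_mem hy.1, Finset.card_insert_of_notMem]
  intro h; exact hy.2 (mem_inter.mp h).1

/-- Drift of the cluster function when the cluster is infected. -/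
lemma gen_clf_le_of_nonempty (hlam : 0 ≤ lam) (Q : Finset V) (F : ℕ → ℝ) (T : ℝ)
    (U : Finset V → ℝ) (A : Finset V) (Δ : ℕ → ℝ)
    (hU : ∀ B, U B ≤ 1 / 2) (hT : 0 ≤ T) (hF1 : F 1 = T)
    (hΔ : ∀ j, 1 ≤ j → F (j + 1) - F j = Δ j) (hΔ0 : ∀ j, 0 ≤ Δ j)
    (hne : (A ∩ Q).Nonempty)
    (hinfl : ∑ y ∈ Q \ A, (infl nb A y : ℝ)
      ≤ (A ∩ Q).card * ((Q.card : ℝ) - (A ∩ Q).card) + 2)
    (hrec : ∀ i : ℕ, 2 ≤ i → i ≤ Q.card →
      lam * (i * ((Q.card : ℝ) - i) + 2) * Δ i + 1 ≤ i * Δ (i - 1))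
    (h1 : lam * (((Q.card : ℝ) - 1) + 2) * Δ 1 + 1 ≤ T / 2) :
    gen nb lam (clf Q F T U) A ≤ -1 := by
  set i := (A ∩ Q).card with hi
  have hipos : 1 ≤ i := by rw [hi]; exact Finset.card_pos.mpr hne
  have hiQ : i ≤ Q.card := Finset.card_le_card Finset.inter_subset_right
  have hfA : clf Q F T U A = F i := by unfold clf; rw [if_pos hne]
  rw [gen_eq_of_local nb lam (clf Q F T U) Q A]
  rotate_left
  · intro x hx hxQ
    have : (A.erase x) ∩ Q = A ∩ Q := by
      rw [Finset.erase_inter]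
      apply Finset.erase_eq_of_notMem
      intro h; exact hxQ (mem_inter.mp h).2
    unfold clf; rw [this, if_pos hne, if_pos hne]
  · intro x hx y hy hyQ
    have : (insert y A) ∩ Q = A ∩ Q := Finset.insert_inter_of_notMem hyQ
    unfold clf; rw [this, if_pos hne, if_pos hne]
  -- infection part
  have hinf : ∑ y ∈ Q \ A, (infl nb A y : ℝ) * (clf Q F T U (insert y A) - clf Q F T U A)
      ≤ (i * ((Q.card : ℝ) - i) + 2) * Δ i := by
    have e : ∀ y ∈ Q \ A, (infl nb A y : ℝ) * (clf Q F T U (insert y A) - clf Q F T U A)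
        = (infl nb A y : ℝ) * Δ i := by
      intro y hy
      have hc := inter_insert_card_of_mem hy
      have hn : ((insert y A) ∩ Q).Nonempty := by
        rw [← Finset.card_pos, hc]; omega
      rw [hfA]
      unfold clf
      rw [if_pos hn, hc, hΔ i hipos]
    rw [Finset.sum_congr rfl e, ← Finset.sum_mul]
    exact mul_le_mul_of_nonneg_right hinfl (hΔ0 i)
  have hinf' := mul_le_mul_of_nonneg_left hinf hlam
  rcases Nat.lt_or_ge 1 i with h2 | h2
  · -- i ≥ 2
    have hrecov : ∑ x ∈ A ∩ Q, (clf Q F T U (A.erase x) - clf Q F T U A) = - (i * Δ (i - 1)) := by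
      have e : ∀ x ∈ A ∩ Q, (clf Q F T U (A.erase x) - clf Q F T U A) = - Δ (i - 1) := by
        intro x hx
        have hc := inter_erase_card_of_mem hx
        have hn : ((A.erase x) ∩ Q).Nonempty := by
          rw [← Finset.card_pos, hc, ← hi]; omega
        rw [hfA]
        unfold clf
        rw [if_pos hn, hc, ← hi, ← hΔ (i - 1) (by omega)]
        have : i - 1 + 1 = i := by omega
        rw [this]; ring
      rw [Finset.sum_congr rfl e, Finset.sum_const, nsmul_eq_mul, ← hi]; ring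
    rw [hrecov]
    have := hrec i h2 hiQ
    nlinarith [this, hinf']
  · -- i = 1
    have hi1 : i = 1 := le_antisymm h2 hipos
    have hrecov : ∑ x ∈ A ∩ Q, (clf Q F T U (A.erase x) - clf Q F T U A) ≤ - (T / 2) := by
      have e : ∀ x ∈ A ∩ Q, (clf Q F T U (A.erase x) - clf Q F T U A) ≤ - (T / 2) := by
        intro x hx
        have hc := inter_erase_card_of_mem hx
        rw [← hi, hi1] at hc
        have hn : ¬ ((A.erase x) ∩ Q).Nonempty := by
          rw [← Finset.card_pos, hc]; omega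
        rw [hfA, hi1, hF1]
        unfold clf
        rw [if_neg hn]
        have := mul_le_mul_of_nonneg_left (hU (A.erase x)) hT
        linarith
      calc ∑ x ∈ A ∩ Q, (clf Q F T U (A.erase x) - clf Q F T U A)
          ≤ ∑ x ∈ A ∩ Q, (-(T / 2)) := Finset.sum_le_sum e
        _ = - (T / 2) := by
          rw [Finset.sum_const, nsmul_eq_mul, ← hi, hi1]; ring
    rw [hi1] at hinf'
    push_cast at hinf'
    nlinarith [hinf', hrecov, h1]

/-- Drift of the cluster function when the cluster is healthy. -/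
lemma gen_clf_le_of_empty (hlam : 0 ≤ lam) (Q : Finset V) (F : ℕ → ℝ) (T : ℝ)
    (U : Finset V → ℝ) (A : Finset V)
    (hU : 0 ≤ U A) (hUQ : ∀ y ∈ Q, U (insert y A) = U A) (hT : 0 ≤ T) (hF1 : F 1 = T)
    (hne : ¬ (A ∩ Q).Nonempty) :
    gen nb lam (clf Q F T U) A ≤ T * (gen nb lam U A + lam * ∑ y ∈ Q, (infl nb A y : ℝ)) := by
  have hemp : A ∩ Q = ∅ := Finset.not_nonempty_iff_eq_empty.mp hne
  have hdisj : ∀ x ∈ A, x ∉ Q := fun x hx hq => by
    have : x ∈ A ∩ Q := mem_inter.mpr ⟨hx, hq⟩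
    rw [hemp] at this; exact absurd this (Finset.notMem_empty x)
  have hfA : clf Q F T U A = T * U A := by unfold clf; rw [if_neg hne]
  have herase : ∀ x ∈ A, clf Q F T U (A.erase x) = T * U (A.erase x) := by
    intro x hx
    unfold clf
    rw [if_neg]
    rw [Finset.erase_inter, hemp]; simp
  -- infection
  have hins : ∀ y, y ∉ Q → clf Q F T U (insert y A) = T * U (insert y A) := by
    intro y hy
    unfold clf
    rw [if_neg]
    rw [Finset.insert_inter_of_notMem hy, hemp]; simp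
  have hinsQ : ∀ y, y ∈ Q → clf Q F T U (insert y A) = T := by
    intro y hy
    have hyA : y ∈ Q \ A := mem_sdiff.mpr ⟨hy, fun h => hdisj y h hy⟩
    have hc := inter_insert_card_of_mem hyA
    rw [hemp, Finset.card_empty] at hc
    unfold clf
    rw [if_pos (by rw [← Finset.card_pos, hc]; omega), hc]
    exact hF1
  unfold gen
  have e1 : ∑ x ∈ A, (clf Q F T U (A.erase x) - clf Q F T U A)
      = T * ∑ x ∈ A, (U (A.erase x) - U A) := by
    rw [Finset.mul_sum]
    refine Finset.sum_congr rfl (fun x hx => ?_)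
    rw [herase x hx, hfA]; ring
  have e2 : ∑ x ∈ A, ∑ y ∈ nb x, (clf Q F T U (insert y A) - clf Q F T U A)
      ≤ T * ∑ x ∈ A, ∑ y ∈ nb x, (U (insert y A) - U A)
        + T * ∑ y ∈ Q, (infl nb A y : ℝ) := by
    have hsw : ∑ y ∈ Q, (infl nb A y : ℝ) = ∑ x ∈ A, ∑ y ∈ nb x, (if y ∈ Q then (1 : ℝ) else 0) := by
      rw [sum_nb_swap nb A Q (fun y => if y ∈ Q then (1 : ℝ) else 0)]
      · refine Finset.sum_congr rfl (fun y hy => ?_)
        rw [if_pos hy, mul_one]
      · intro x _ y _ hy; rw [if_neg hy]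
    rw [hsw, Finset.mul_sum, Finset.mul_sum, ← Finset.sum_add_distrib]
    refine Finset.sum_le_sum (fun x hx => ?_)
    rw [Finset.mul_sum, Finset.mul_sum, ← Finset.sum_add_distrib]
    refine Finset.sum_le_sum (fun y hy => ?_)
    by_cases hyQ : y ∈ Q
    · rw [hinsQ y hyQ, hfA, hUQ y hyQ, if_pos hyQ]
      have := mul_nonneg hT hU
      linarith
    · rw [hins y hyQ, hfA, if_neg hyQ]; linarith
  rw [e1]
  have := mul_le_mul_of_nonneg_left e2 hlam
  nlinarith [this]

end Pool.Agent.CP
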