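import Mathlib
import Pool.Agent.Helper11.CP.GenLemmas

/-!
# The contact process on a finite path  (module T2)

`pnb l j` is the set of neighbours of the vertex `j` in the path `0 - 1 - ... - (l-1)`.
The function `pfun l lam kap` is the (discounted) probability that the contact process on this
path ever emits an infection arrow from the vertex `0` to the outside.
-/

set_option autoImplicit false
set_option linter.unusedSectionVars false

namespace Pool.Agent.CP

open Finset Filter

/-- neighbours of `j` in the path `0 - 1 - ... - (l-1)`. -/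
def pnb (l j : ℕ) : Finset ℕ :=
  (if 0 < j ∧ j < l then {j - 1} else ∅) ∪ (if j + 1 < l then {j + 1} else ∅)

lemma pnb_subset_range (l j : ℕ) : pnb l j ⊆ range l := by
  intro i hi
  unfold pnb at hi
  rw [mem_union] at hi
  rw [mem_range]
  rcases hi with h | h
  · split_ifs at h with h1
    · rw [mem_singleton] at h; omega
    · simp at h
  · split_ifs at h with h1
    · rw [mem_singleton] at h; omega
    · simp at h

lemma card_pnb_le (l j : ℕ) : (pnb l j).card ≤ 2 := by
  unfold pnb
  refine le_trans (Finset.card_union_le _ _) ?_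
  have h1 : (if 0 < j ∧ j < l then ({j - 1} : Finset ℕ) else ∅).card ≤ 1 := by
    split_ifs <;> simp
  have h2 : (if j + 1 < l then ({j + 1} : Finset ℕ) else ∅).card ≤ 1 := by
    split_ifs <;> simp
  omega

/-! ### Construction by uniformisation -/

/-- normalisation constant -/
noncomputable def Lam (l : ℕ) (lam kap : ℝ) : ℝ :=
  (l : ℝ) + lam * (∑ x ∈ range l, ((pnb l x).card : ℝ)) + lam + kap + 1

/-- effect of the infection arrow from `x` to `y` -/
def arr (x y : ℕ) (A : Finset ℕ) : Finset ℕ := if x ∈ A then insert y A else A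

/-- the operator -/
noncomputable def Top (l : ℕ) (lam kap : ℝ) (u : Finset ℕ → ℝ) (A : Finset ℕ) : ℝ :=
  (∑ x ∈ range l, u (A.erase x) + lam * ∑ x ∈ range l, ∑ y ∈ pnb l x, u (arr x y A)
    + lam * (if 0 ∈ A ∧ 0 < l then 1 else u A) + u A) / Lam l lam kap

/-- iterates -/
noncomputable def pit (l : ℕ) (lam kap : ℝ) : ℕ → Finset ℕ → ℝ
  | 0 => fun _ => 0
  | (n + 1) => Top l lam kap (pit l lam kap n)

section construction

variable (l : ℕ) {lam kap : ℝ} (hlam : 0 < lam) (hk : 0 ≤ kap)
include hlam hk

lemma Lam_pos : 0 < Lam l lam kap := by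
  unfold Lam
  have h : 0 ≤ ∑ x ∈ range l, ((pnb l x).card : ℝ) := Finset.sum_nonneg (fun _ _ => by positivity)
  positivity

lemma Top_mono {u v : Finset ℕ → ℝ} {A : Finset ℕ}
    (h1 : ∀ x ∈ range l, u (A.erase x) ≤ v (A.erase x))
    (h2 : ∀ x ∈ range l, ∀ y ∈ pnb l x, u (arr x y A) ≤ v (arr x y A)) (h3 : u A ≤ v A) :
    Top l lam kap u A ≤ Top l lam kap v A := by
  unfold Top
  apply div_le_div_of_nonneg_right _ (Lam_pos l hlam hk).le
  have e1 : ∑ x ∈ range l, u (A.erase x) ≤ ∑ x ∈ range l, v (A.erase x) :=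
    Finset.sum_le_sum (fun x hx => h1 x hx)
  have e2 : ∑ x ∈ range l, ∑ y ∈ pnb l x, u (arr x y A)
      ≤ ∑ x ∈ range l, ∑ y ∈ pnb l x, v (arr x y A) :=
    Finset.sum_le_sum (fun x hx => Finset.sum_le_sum (fun y hy => h2 x hx y hy))
  have e3 : (if 0 ∈ A ∧ 0 < l then 1 else u A) ≤ (if 0 ∈ A ∧ 0 < l then 1 else v A) := by
    split_ifs
    · exact le_rfl
    · exact h3
  have e2' := mul_le_mul_of_nonneg_left e2 hlam.le
  have e3' := mul_le_mul_of_nonneg_left e3 hlam.le
  linarith

/-- The properties preserved by the operator. -/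
structure PP (l : ℕ) (u : Finset ℕ → ℝ) : Prop where
  nonneg : ∀ A, 0 ≤ u A
  le_one : ∀ A, u A ≤ 1
  empty : u ∅ = 0
  mono : ∀ A B, A ⊆ B → u A ≤ u B
  sub : ∀ A B, u (A ∪ B) ≤ u A + u B

lemma arr_mono (x y : ℕ) {A B : Finset ℕ} (h : A ⊆ B) : arr x y A ⊆ arr x y B := by
  unfold arr
  split_ifs with h1 h2 h2
  · exact Finset.insert_subset_insert _ h
  · exact absurd (h h1) h2
  · exact fun z hz => mem_insert_of_mem (h hz)
  · exact h

lemma arr_union (x y : ℕ) (A B : Finset ℕ) : arr x y (A ∪ B) = arr x y A ∪ arr x y B := by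
  unfold arr
  by_cases h1 : x ∈ A <;> by_cases h2 : x ∈ B <;> simp only [h1, h2, mem_union, or_true,
    or_false, if_true, if_false] <;> ext z <;> simp only [mem_insert, mem_union] <;> tauto

lemma PP_Top {u : Finset ℕ → ℝ} (H : PP l u) : PP l (Top l lam kap u) := by
  have hL := Lam_pos l hlam hk
  have hcard : 0 ≤ ∑ x ∈ range l, ((pnb l x).card : ℝ) :=
    Finset.sum_nonneg (fun _ _ => by positivity)
  refine ⟨fun A => ?_, fun A => ?_, ?_, fun A B h => ?_, fun A B => ?_⟩
  · unfold Top
    apply div_nonneg _ hL.le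
    have e1 : 0 ≤ ∑ x ∈ range l, u (A.erase x) := Finset.sum_nonneg (fun _ _ => H.nonneg _)
    have e2 : 0 ≤ ∑ x ∈ range l, ∑ y ∈ pnb l x, u (arr x y A) :=
      Finset.sum_nonneg (fun _ _ => Finset.sum_nonneg (fun _ _ => H.nonneg _))
    have e3 : 0 ≤ (if 0 ∈ A ∧ 0 < l then 1 else u A) := by
      split_ifs
      · exact zero_le_one
      · exact H.nonneg A
    have := H.nonneg A
    positivity
  · unfold Top
    rw [div_le_one hL]
    have e1 : ∑ x ∈ range l, u (A.erase x) ≤ l := by
      calc _ ≤ ∑ x ∈ range l, (1 : ℝ) := Finset.sum_le_sum (fun _ _ => H.le_one _)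
        _ = l := by simp
    have e2 : ∑ x ∈ range l, ∑ y ∈ pnb l x, u (arr x y A) ≤ ∑ x ∈ range l, ((pnb l x).card : ℝ) := by
      refine Finset.sum_le_sum (fun x _ => ?_)
      calc _ ≤ ∑ y ∈ pnb l x, (1 : ℝ) := Finset.sum_le_sum (fun _ _ => H.le_one _)
        _ = _ := by simp
    have e3 : (if 0 ∈ A ∧ 0 < l then 1 else u A) ≤ 1 := by
      split_ifs
      · exact le_rfl
      · exact H.le_one A
    have e4 := H.le_one A
    have e2' := mul_le_mul_of_nonneg_left e2 hlam.le
    have e3' := mul_le_mul_of_nonneg_left e3 hlam.le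
    unfold Lam
    linarith
  · unfold Top
    have e1 : ∑ x ∈ range l, u ((∅ : Finset ℕ).erase x) = 0 :=
      Finset.sum_eq_zero (fun x _ => by rw [Finset.erase_empty]; exact H.empty)
    have e2 : ∑ x ∈ range l, ∑ y ∈ pnb l x, u (arr x y ∅) = 0 :=
      Finset.sum_eq_zero (fun x _ => Finset.sum_eq_zero (fun y _ => by
        unfold arr; rw [if_neg (Finset.notMem_empty x)]; exact H.empty))
    rw [e1, e2, if_neg (fun h => Finset.notMem_empty 0 h.1), H.empty]
    simp
  · unfold Top
    apply div_le_div_of_nonneg_right _ hL.le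
    have e1 : ∑ x ∈ range l, u (A.erase x) ≤ ∑ x ∈ range l, u (B.erase x) :=
      Finset.sum_le_sum (fun x _ => H.mono _ _ (Finset.erase_subset_erase x h))
    have e2 : ∑ x ∈ range l, ∑ y ∈ pnb l x, u (arr x y A)
        ≤ ∑ x ∈ range l, ∑ y ∈ pnb l x, u (arr x y B) :=
      Finset.sum_le_sum (fun x _ => Finset.sum_le_sum (fun y _ =>
        H.mono _ _ (arr_mono hlam hk x y h)))
    have e3 : (if 0 ∈ A ∧ 0 < l then 1 else u A) ≤ (if 0 ∈ B ∧ 0 < l then 1 else u B) := by
      split_ifs with h1 h2 h2
      · exact le_rfl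
      · exact absurd ⟨h h1.1, h1.2⟩ h2
      · exact H.le_one A
      · exact H.mono _ _ h
    have e4 := H.mono _ _ h
    have e2' := mul_le_mul_of_nonneg_left e2 hlam.le
    have e3' := mul_le_mul_of_nonneg_left e3 hlam.le
    linarith
  · unfold Top
    rw [← add_div]
    apply div_le_div_of_nonneg_right _ hL.le
    have e1 : ∑ x ∈ range l, u ((A ∪ B).erase x)
        ≤ ∑ x ∈ range l, u (A.erase x) + ∑ x ∈ range l, u (B.erase x) := by
      rw [← Finset.sum_add_distrib]
      refine Finset.sum_le_sum (fun x _ => ?_)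
      rw [Finset.erase_union_distrib]
      exact H.sub _ _
    have e2 : ∑ x ∈ range l, ∑ y ∈ pnb l x, u (arr x y (A ∪ B))
        ≤ ∑ x ∈ range l, ∑ y ∈ pnb l x, u (arr x y A)
          + ∑ x ∈ range l, ∑ y ∈ pnb l x, u (arr x y B) := by
      rw [← Finset.sum_add_distrib]
      refine Finset.sum_le_sum (fun x _ => ?_)
      rw [← Finset.sum_add_distrib]
      refine Finset.sum_le_sum (fun y _ => ?_)
      rw [arr_union hlam hk]
      exact H.sub _ _
    have e3 : (if 0 ∈ A ∪ B ∧ 0 < l then 1 else u (A ∪ B))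
        ≤ (if 0 ∈ A ∧ 0 < l then 1 else u A) + (if 0 ∈ B ∧ 0 < l then 1 else u B) := by
      have hA0 := H.nonneg A
      have hB0 := H.nonneg B
      by_cases hl : 0 < l
      · by_cases h1 : 0 ∈ A
        · rw [if_pos ⟨mem_union_left _ h1, hl⟩, if_pos ⟨h1, hl⟩]
          split_ifs <;> linarith
        · by_cases h2 : 0 ∈ B
          · rw [if_pos ⟨mem_union_right _ h2, hl⟩, if_pos (c := 0 ∈ B ∧ 0 < l) ⟨h2, hl⟩]
            split_ifs <;> linarith
          · rw [if_neg, if_neg (fun h => h1 h.1), if_neg (fun h => h2 h.1)]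
            · exact H.sub _ _
            · rintro ⟨h, _⟩
              rcases mem_union.mp h with h | h
              · exact h1 h
              · exact h2 h
      · rw [if_neg (fun h => hl h.2), if_neg (fun h => hl h.2), if_neg (fun h => hl h.2)]
        exact H.sub _ _
    have e4 := H.sub A B
    have e2' := mul_le_mul_of_nonneg_left e2 hlam.le
    have e3' := mul_le_mul_of_nonneg_left e3 hlam.le
    linarith

lemma PP_pit (n : ℕ) : PP l (pit l lam kap n) := by
  induction n with
  | zero =>
    exact ⟨fun _ => le_rfl, fun _ => zero_le_one, rfl, fun _ _ _ => le_rfl,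
      fun _ _ => by simp [pit]⟩
  | succ n ih => exact PP_Top l hlam hk ih

lemma pit_le_succ (n : ℕ) (A : Finset ℕ) : pit l lam kap n A ≤ pit l lam kap (n + 1) A := by
  induction n generalizing A with
  | zero => exact (PP_pit l hlam hk 1).nonneg A
  | succ n ih =>
    exact Top_mono l hlam hk (fun x _ => ih _) (fun x _ y _ => ih _) (ih A)

/-- On subsets of the path, the operator is expressed through the generator. -/
lemma Top_eq (u : Finset ℕ → ℝ) (A : Finset ℕ) (hA : A ⊆ range l) :
    Lam l lam kap * (Top l lam kap u A - u A)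
      = gen (pnb l) lam u A + lam * (if 0 ∈ A ∧ 0 < l then 1 - u A else 0) - kap * u A := by
  have hL := Lam_pos l hlam hk
  have e0 : Lam l lam kap * Top l lam kap u A
      = ∑ x ∈ range l, u (A.erase x) + lam * ∑ x ∈ range l, ∑ y ∈ pnb l x, u (arr x y A)
    + lam * (if 0 ∈ A ∧ 0 < l then 1 else u A) + u A := by
    unfold Top
    field_simp
  have e1 : ∑ x ∈ range l, u (A.erase x) = ∑ x ∈ A, (u (A.erase x) - u A) + l * u A := by
    have h1 : ∑ x ∈ range l, (u (A.erase x) - u A) = ∑ x ∈ A, (u (A.erase x) - u A) := by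
      symm
      apply Finset.sum_subset hA
      intro x _ hx
      rw [Finset.erase_eq_of_notMem hx]; ring
    rw [← h1, Finset.sum_sub_distrib, Finset.sum_const, card_range, nsmul_eq_mul]; ring
  have e2 : ∑ x ∈ range l, ∑ y ∈ pnb l x, u (arr x y A)
      = ∑ x ∈ A, ∑ y ∈ pnb l x, (u (insert y A) - u A)
        + (∑ x ∈ range l, ((pnb l x).card : ℝ)) * u A := by
    have h1 : ∑ x ∈ range l, ∑ y ∈ pnb l x, (u (arr x y A) - u A)
        = ∑ x ∈ A, ∑ y ∈ pnb l x, (u (insert y A) - u A) := by
      symm
      have h2 : ∑ x ∈ A, ∑ y ∈ pnb l x, (u (insert y A) - u A)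
          = ∑ x ∈ A, ∑ y ∈ pnb l x, (u (arr x y A) - u A) := by
        refine Finset.sum_congr rfl (fun x hx => Finset.sum_congr rfl (fun y _ => ?_))
        unfold arr; rw [if_pos hx]
      rw [h2]
      apply Finset.sum_subset hA
      intro x _ hx
      apply Finset.sum_eq_zero
      intro y _
      unfold arr; rw [if_neg hx]; ring
    rw [← h1, Finset.sum_mul, ← Finset.sum_add_distrib]
    refine Finset.sum_congr rfl (fun x _ => ?_)
    rw [Finset.sum_sub_distrib, Finset.sum_const, nsmul_eq_mul]; ring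
  have e3 : (if 0 ∈ A ∧ 0 < l then 1 else u A) = (if 0 ∈ A ∧ 0 < l then 1 - u A else 0) + u A := by
    split_ifs <;> ring
  rw [mul_sub, e0, e1, e2, e3]
  unfold gen Lam
  ring

lemma pit_le_of_super (u : Finset ℕ → ℝ) (hu : ∀ A, 0 ≤ u A)
    (hsup : ∀ A, A ⊆ range l → gen (pnb l) lam u A + lam * (if 0 ∈ A ∧ 0 < l then 1 - u A else 0)
          ≤ kap * u A) (n : ℕ) (A : Finset ℕ) (hA : A ⊆ range l) : pit l lam kap n A ≤ u A := by
  induction n generalizing A with
  | zero => exact hu A
  | succ n ih =>
    have h1 : Top l lam kap (pit l lam kap n) A ≤ Top l lam kap u A := by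
      apply Top_mono l hlam hk
      · intro x _; exact ih _ ((Finset.erase_subset _ _).trans hA)
      · intro x hx y hy
        apply ih
        unfold arr
        split_ifs
        · intro z hz
          rcases mem_insert.mp hz with rfl | h
          · exact pnb_subset_range l x hy
          · exact hA h
        · exact hA
      · exact ih A hA
    have h2 := Top_eq l hlam hk u A hA
    have h3 := hsup A hA
    have hL := Lam_pos l hlam hk
    have h4 : Lam l lam kap * (Top l lam kap u A - u A) ≤ 0 := by linarith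
    have h5 : Top l lam kap u A - u A ≤ 0 := by
      by_contra hcon
      push Not at hcon
      have := mul_pos hL hcon
      linarith
    have h6 : pit l lam kap (n + 1) A = Top l lam kap (pit l lam kap n) A := rfl
    rw [h6]; linarith

end construction

/-- Existence of the crossing function.  `kap` is the discount rate. -/
theorem exists_pfun (l : ℕ) (lam kap : ℝ) (hlam : 0 < lam) (hk : 0 ≤ kap) :
    ∃ p : Finset ℕ → ℝ,
      (∀ A, 0 ≤ p A) ∧ (∀ A, p A ≤ 1) ∧ p ∅ = 0 ∧
      (∀ A B, A ⊆ B → p A ≤ p B) ∧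
      (∀ A B, p (A ∪ B) ≤ p A + p B) ∧
      (∀ A, p A = p (A ∩ range l)) ∧
      (∀ A, A ⊆ range l → gen (pnb l) lam p A + lam * (if 0 ∈ A ∧ 0 < l then 1 - p A else 0)
        = kap * p A) ∧
      -- minimality
      (∀ u : Finset ℕ → ℝ, (∀ A, 0 ≤ u A) →
        (∀ A, A ⊆ range l → gen (pnb l) lam u A + lam * (if 0 ∈ A ∧ 0 < l then 1 - u A else 0)
          ≤ kap * u A) → ∀ A, A ⊆ range l → p A ≤ u A) := by
  have hmono : ∀ A, Monotone (fun n => pit l lam kap n A) := fun A =>
    monotone_nat_of_le_succ (fun n => pit_le_succ l hlam hk n A)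
  have hbdd : ∀ A, BddAbove (Set.range (fun n => pit l lam kap n A)) := fun A =>
    ⟨1, by rintro _ ⟨n, rfl⟩; exact (PP_pit l hlam hk n).le_one A⟩
  set P : Finset ℕ → ℝ := fun A => ⨆ n, pit l lam kap n A with hP
  have hlim : ∀ A, Tendsto (fun n => pit l lam kap n A) atTop (nhds (P A)) := fun A =>
    tendsto_atTop_ciSup (hmono A) (hbdd A)
  have hP0 : ∀ A, 0 ≤ P A := fun A => ge_of_tendsto' (hlim A) (fun n => (PP_pit l hlam hk n).nonneg A)
  have hP1 : ∀ A, P A ≤ 1 := fun A => le_of_tendsto' (hlim A) (fun n => (PP_pit l hlam hk n).le_one A)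
  have hPe : P ∅ = 0 := by
    apply tendsto_nhds_unique (hlim ∅)
    simp only [(PP_pit l hlam hk _).empty]
    exact tendsto_const_nhds
  have hPm : ∀ A B, A ⊆ B → P A ≤ P B := fun A B h =>
    le_of_tendsto_of_tendsto' (hlim A) (hlim B) (fun n => (PP_pit l hlam hk n).mono A B h)
  have hPs : ∀ A B, P (A ∪ B) ≤ P A + P B := fun A B =>
    le_of_tendsto_of_tendsto' (hlim (A ∪ B)) ((hlim A).add (hlim B))
      (fun n => (PP_pit l hlam hk n).sub A B)
  have hTop : ∀ A, Top l lam kap P A = P A := by
    intro A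
    have h1 : Tendsto (fun n => Top l lam kap (pit l lam kap n) A) atTop
        (nhds (Top l lam kap P A)) := by
      unfold Top
      apply Tendsto.div_const
      apply Tendsto.add
      · apply Tendsto.add
        · apply Tendsto.add
          · exact tendsto_finsetSum _ (fun x _ => hlim _)
          · apply Tendsto.const_mul
            exact tendsto_finsetSum _ (fun x _ => tendsto_finsetSum _ (fun y _ => hlim _))
        · apply Tendsto.const_mul
          split_ifs
          · exact tendsto_const_nhds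
          · exact hlim A
      · exact hlim A
    have h2 : Tendsto (fun n => pit l lam kap (n + 1) A) atTop (nhds (P A)) :=
      (tendsto_add_atTop_iff_nat 1).mpr (hlim A)
    exact tendsto_nhds_unique h1 h2
  have hPeq : ∀ A, A ⊆ range l → gen (pnb l) lam P A
      + lam * (if 0 ∈ A ∧ 0 < l then 1 - P A else 0) = kap * P A := by
    intro A hA
    have h := Top_eq l hlam hk P A hA
    rw [hTop A, sub_self, mul_zero] at h
    linarith
  have hgen : ∀ A, A ⊆ range l → gen (pnb l) lam (fun B => P (B ∩ range l)) A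
      = gen (pnb l) lam P A := by
    intro A hA
    apply gen_congr
    · rw [Finset.inter_eq_left.mpr hA]
    · intro x _
      rw [Finset.inter_eq_left.mpr ((Finset.erase_subset _ _).trans hA)]
    · intro x _ y hy
      rw [Finset.inter_eq_left.mpr]
      intro z hz
      rcases mem_insert.mp hz with rfl | h
      · exact pnb_subset_range l x hy
      · exact hA h
  refine ⟨fun A => P (A ∩ range l), fun A => hP0 _, fun A => hP1 _, ?_, ?_, ?_, ?_, ?_, ?_⟩
  · simpa using hPe
  · intro A B h
    exact hPm _ _ (Finset.inter_subset_inter_right h)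
  · intro A B
    show P ((A ∪ B) ∩ range l) ≤ P (A ∩ range l) + P (B ∩ range l)
    rw [Finset.union_inter_distrib_right]
    exact hPs _ _
  · intro A
    show P (A ∩ range l) = P ((A ∩ range l) ∩ range l)
    rw [Finset.inter_assoc, Finset.inter_self]
  · intro A hA
    rw [hgen A hA]
    have := hPeq A hA
    show gen (pnb l) lam P A + lam * (if 0 ∈ A ∧ 0 < l then 1 - P (A ∩ range l) else 0)
      = kap * P (A ∩ range l)
    rw [Finset.inter_eq_left.mpr hA]
    exact this
  · intro u hu hsup A hA
    show P (A ∩ range l) ≤ u A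
    rw [Finset.inter_eq_left.mpr hA]
    exact le_of_tendsto' (hlim A) (fun n => pit_le_of_super l hlam hk u hu hsup n A hA)

/-- The crossing function. -/
noncomputable def pfun (l : ℕ) (lam kap : ℝ) : Finset ℕ → ℝ :=
  if h : 0 < lam ∧ 0 ≤ kap then (exists_pfun l lam kap h.1 h.2).choose else fun _ => 0

section
variable (l : ℕ) (lam kap : ℝ) (hlam : 0 < lam) (hk : 0 ≤ kap)
include hlam hk

lemma pfun_spec :
    (∀ A, 0 ≤ pfun l lam kap A) ∧ (∀ A, pfun l lam kap A ≤ 1) ∧ pfun l lam kap ∅ = 0 ∧
      (∀ A B, A ⊆ B → pfun l lam kap A ≤ pfun l lam kap B) ∧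
      (∀ A B, pfun l lam kap (A ∪ B) ≤ pfun l lam kap A + pfun l lam kap B) ∧
      (∀ A, pfun l lam kap A = pfun l lam kap (A ∩ range l)) ∧
      (∀ A, A ⊆ range l → gen (pnb l) lam (pfun l lam kap) A
          + lam * (if 0 ∈ A ∧ 0 < l then 1 - pfun l lam kap A else 0)
        = kap * pfun l lam kap A) ∧
      (∀ u : Finset ℕ → ℝ, (∀ A, 0 ≤ u A) →
        (∀ A, A ⊆ range l → gen (pnb l) lam u A + lam * (if 0 ∈ A ∧ 0 < l then 1 - u A else 0)
          ≤ kap * u A) → ∀ A, A ⊆ range l → pfun l lam kap A ≤ u A) := by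
  unfold pfun
  rw [dif_pos ⟨hlam, hk⟩]
  exact (exists_pfun l lam kap hlam hk).choose_spec

end

/-- Upper bound by a branching random walk. -/
theorem pfun_le_sum (l : ℕ) (lam : ℝ) (h0 : 0 < lam) (h1 : lam ≤ 1 / 10) (A : Finset ℕ) :
    pfun l lam 0 A ≤ ∑ j ∈ A, (2 * lam) ^ (j + 1) := by
  obtain ⟨p0, p1, pe, pmono, psub, ptr, peq, pmin⟩ := pfun_spec l lam 0 h0 le_rfl
  have hstep : ∀ B, B ⊆ range l → pfun l lam 0 B ≤ ∑ j ∈ B, (2 * lam) ^ (j + 1) := by
    apply pmin (fun B => ∑ j ∈ B, (2 * lam) ^ (j + 1))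
    · intro B; exact Finset.sum_nonneg (fun j _ => by positivity)
    · intro B hB
      rw [zero_mul]
      have hlin := gen_linear_le (pnb l) lam h0.le (fun j => (2 * lam) ^ (j + 1))
        (fun j => by positivity) B
      have hsig : (if 0 ∈ B ∧ 0 < l then 1 - ∑ j ∈ B, (2 * lam) ^ (j + 1) else 0)
          ≤ ∑ x ∈ B, (if x = 0 then (1 : ℝ) else 0) := by
        rw [Finset.sum_ite_eq']
        have hn : 0 ≤ ∑ j ∈ B, (2 * lam) ^ (j + 1) := Finset.sum_nonneg (fun j _ => by positivity)
        split_ifs with h2 h3 h3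
        · linarith
        · exact absurd h2.1 h3
        · exact zero_le_one
        · exact le_rfl
      have hsig' := mul_le_mul_of_nonneg_left hsig h0.le
      rw [Finset.mul_sum] at hsig'
      refine le_trans (add_le_add hlin hsig') ?_
      rw [← Finset.sum_add_distrib]
      apply Finset.sum_nonpos
      intro x hx
      have hnb : ∑ y ∈ pnb l x, (2 * lam) ^ (y + 1)
          ≤ (if x = 0 then 0 else (2 * lam) ^ x) + (2 * lam) ^ (x + 2) := by
        unfold pnb
        have hu := Finset.sum_union_inter (s₁ := if 0 < x ∧ x < l then ({x - 1} : Finset ℕ) else ∅)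
          (s₂ := if x + 1 < l then ({x + 1} : Finset ℕ) else ∅)
          (f := fun y => (2 * lam) ^ (y + 1))
        have hi : 0 ≤ ∑ y ∈ (if 0 < x ∧ x < l then ({x - 1} : Finset ℕ) else ∅)
            ∩ (if x + 1 < l then ({x + 1} : Finset ℕ) else ∅), (2 * lam) ^ (y + 1) :=
          Finset.sum_nonneg (fun j _ => by positivity)
        have a1 : ∑ y ∈ (if 0 < x ∧ x < l then ({x - 1} : Finset ℕ) else ∅), (2 * lam) ^ (y + 1)
            ≤ (if x = 0 then 0 else (2 * lam) ^ x) := by
          split_ifs with h2 h3 h3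
          · omega
          · rw [Finset.sum_singleton]
            have : x - 1 + 1 = x := by omega
            rw [this]
          · simp
          · rw [Finset.sum_empty]; positivity
        have a2 : ∑ y ∈ (if x + 1 < l then ({x + 1} : Finset ℕ) else ∅), (2 * lam) ^ (y + 1)
            ≤ (2 * lam) ^ (x + 2) := by
          split_ifs
          · rw [Finset.sum_singleton]
          · rw [Finset.sum_empty]; positivity
        linarith
      have hnb' := mul_le_mul_of_nonneg_left hnb h0.le
      by_cases hx0 : x = 0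
      · subst hx0
        rw [if_pos rfl] at hnb'
        rw [if_pos rfl]
        have h3 : lam * lam ≤ lam * (1 / 10) := mul_le_mul_of_nonneg_left h1 h0.le
        have h4 : lam * (lam * lam) ≤ lam * (1 / 100) := by nlinarith
        norm_num at hnb' ⊢
        nlinarith
      · rw [if_neg hx0] at hnb'
        rw [if_neg hx0, mul_zero, add_zero]
        have hp : (0 : ℝ) ≤ (2 * lam) ^ x := by positivity
        have e1 : (2 * lam) ^ (x + 1) = (2 * lam) ^ x * (2 * lam) := pow_succ _ _
        have e2 : (2 * lam) ^ (x + 2) = (2 * lam) ^ x * (2 * lam) ^ 2 := by rw [← pow_add]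
        rw [e2] at hnb'
        rw [e1]
        have h3 : lam ^ 2 ≤ 1 / 100 := by nlinarith
        have h5 : (2 * lam) ^ x * (- (2 * lam) + lam * (1 + (2 * lam) ^ 2)) ≤ 0 := by
          apply mul_nonpos_of_nonneg_of_nonpos hp
          nlinarith
        nlinarith
  rw [ptr A]
  refine le_trans (hstep _ Finset.inter_subset_right) ?_
  exact Finset.sum_le_sum_of_subset_of_nonneg Finset.inter_subset_left
    (fun j _ _ => by positivity)

/-- Comparison of two paths. -/
lemma pfun_le_longer (l : ℕ) (lam : ℝ) (h0 : 0 < lam) (B : Finset ℕ) (hB : B ⊆ range l) :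
    pfun l lam 0 B ≤ pfun (l + 1) lam 0 B := by
  obtain ⟨-, -, -, -, -, -, -, pmin⟩ := pfun_spec l lam 0 h0 le_rfl
  obtain ⟨p0, p1, pe, pmono, psub, ptr, peq, -⟩ := pfun_spec (l + 1) lam 0 h0 le_rfl
  apply pmin _ p0 _ B hB
  intro A hA
  have hA' : A ⊆ range (l + 1) := hA.trans (by
    intro x hx; rw [mem_range] at hx ⊢; omega)
  have h1 := peq A hA'
  have h2 : gen (pnb l) lam (pfun (l + 1) lam 0) A ≤ gen (pnb (l + 1)) lam (pfun (l + 1) lam 0) A := by
    unfold gen
    have e : ∑ x ∈ A, ∑ y ∈ pnb l x, (pfun (l + 1) lam 0 (insert y A) - pfun (l + 1) lam 0 A)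
        ≤ ∑ x ∈ A, ∑ y ∈ pnb (l + 1) x,
          (pfun (l + 1) lam 0 (insert y A) - pfun (l + 1) lam 0 A) := by
      refine Finset.sum_le_sum (fun x _ => ?_)
      apply Finset.sum_le_sum_of_subset_of_nonneg
      · intro y hy
        unfold pnb at hy ⊢
        rw [mem_union] at hy ⊢
        rcases hy with hy | hy
        · left
          split_ifs at hy with h3
          · rw [if_pos ⟨h3.1, by omega⟩]; exact hy
          · simp at hy
        · right
          split_ifs at hy with h3
          · rw [if_pos (by omega)]; exact hy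
          · simp at hy
      · intro y _ _
        have := pmono _ _ (Finset.subset_insert y A)
        linarith
    have := mul_le_mul_of_nonneg_left e h0.le
    linarith
  have h3 : (if 0 ∈ A ∧ 0 < l then 1 - pfun (l + 1) lam 0 A else 0)
      ≤ (if 0 ∈ A ∧ 0 < l + 1 then 1 - pfun (l + 1) lam 0 A else 0) := by
    have := p1 A
    split_ifs with h4 h5 h5
    · exact le_rfl
    · exact absurd ⟨h4.1, by omega⟩ h5
    · linarith
    · exact le_rfl
  have h3' := mul_le_mul_of_nonneg_left h3 h0.le
  linarith

/-- One more vertex costs at most a factor `lam / (1 + lam)`. -/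
theorem pfun_step (l : ℕ) (hl : 1 ≤ l) (lam : ℝ) (h0 : 0 < lam) (_h1 : lam ≤ 1 / 10) :
    lam / (1 + lam) * pfun l lam 0 {l - 1} ≤ pfun (l + 1) lam 0 {l} := by
  obtain ⟨p0, p1, pe, pmono, psub, ptr, peq, -⟩ := pfun_spec (l + 1) lam 0 h0 le_rfl
  have h1 := pfun_le_longer l lam h0 {l - 1} (by
    intro x hx; rw [mem_singleton] at hx; rw [mem_range]; omega)
  have h2 := peq {l} (by intro x hx; rw [mem_singleton] at hx; rw [mem_range]; omega)
  rw [if_neg (by rintro ⟨h, _⟩; rw [mem_singleton] at h; omega), mul_zero, add_zero, zero_mul] at h2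
  unfold gen at h2
  rw [Finset.sum_singleton, Finset.sum_singleton] at h2
  have hpnb : pnb (l + 1) l = {l - 1} := by
    unfold pnb
    rw [if_pos ⟨by omega, by omega⟩, if_neg (by omega), Finset.union_empty]
  have her : ({l} : Finset ℕ).erase l = ∅ := by simp
  rw [hpnb, Finset.sum_singleton, her, pe] at h2
  have h3 : pfun (l + 1) lam 0 {l - 1} ≤ pfun (l + 1) lam 0 (insert (l - 1) {l}) := by
    apply pmono
    intro x hx
    rw [mem_singleton] at hx
    rw [hx]; exact mem_insert_self _ _
  rw [div_mul_eq_mul_div, div_le_iff₀ (by linarith)]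
  have h4 : lam * pfun l lam 0 {l - 1} ≤ lam * pfun (l + 1) lam 0 (insert (l - 1) {l}) :=
    mul_le_mul_of_nonneg_left (le_trans h1 h3) h0.le
  linarith

theorem pfun_one (lam : ℝ) (h0 : 0 < lam) : pfun 1 lam 0 {0} = lam / (1 + lam) := by
  obtain ⟨p0, p1, pe, pmono, psub, ptr, peq, -⟩ := pfun_spec 1 lam 0 h0 le_rfl
  have h2 := peq {0} (by intro x hx; rw [mem_singleton] at hx; rw [mem_range]; omega)
  rw [if_pos ⟨mem_singleton_self 0, one_pos⟩, zero_mul] at h2
  unfold gen at h2
  rw [Finset.sum_singleton, Finset.sum_singleton] at h2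
  have hpnb : pnb 1 0 = ∅ := by
    unfold pnb; simp
  have her : ({0} : Finset ℕ).erase 0 = ∅ := by simp
  rw [hpnb, Finset.sum_empty, her, pe] at h2
  rw [eq_div_iff (by linarith)]
  linarith

lemma gen_nonneg_of_zero' {V : Type*} [DecidableEq V] (nb : V → Finset V) {lam : ℝ}
    (hlam : 0 ≤ lam) {f : Finset V → ℝ} (hf : ∀ B, 0 ≤ f B) {A : Finset V}
    (h0 : f A = 0) : 0 ≤ gen nb lam f A := by
  unfold gen
  have e1 : 0 ≤ ∑ x ∈ A, (f (A.erase x) - f A) :=
    Finset.sum_nonneg (fun x _ => by rw [h0]; linarith [hf (A.erase x)])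
  have e2 : 0 ≤ ∑ x ∈ A, ∑ y ∈ nb x, (f (insert y A) - f A) :=
    Finset.sum_nonneg (fun x _ => Finset.sum_nonneg (fun y _ => by
      rw [h0]; linarith [hf (insert y A)]))
  have := mul_nonneg hlam e2
  linarith

lemma pfun_pos_all (l : ℕ) {lam kap : ℝ} (hlam : 0 < lam) (hkap : 0 ≤ kap) (j : ℕ) (hj : j < l) :
    0 < pfun l lam kap {j} := by
  obtain ⟨p0, p1, pe, pmono, psub, ptr, peq, -⟩ := pfun_spec l lam kap hlam hkap
  set p := pfun l lam kap with hp
  induction j with
  | zero =>
    rcases (p0 {0}).lt_or_eq with h | h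
    · exact h
    · exfalso
      have h1 := peq {0} (by intro i hi; rw [mem_singleton] at hi; rw [mem_range]; omega)
      rw [if_pos ⟨mem_singleton_self 0, hj⟩, ← h, mul_zero, sub_zero, mul_one] at h1
      have h2 := gen_nonneg_of_zero' (pnb l) hlam.le p0 h.symm
      linarith
  | succ j ih =>
    have ih' := ih (by omega)
    rcases (p0 {j + 1}).lt_or_eq with h | h
    · exact h
    · exfalso
      have h1 := peq {j + 1} (by intro i hi; rw [mem_singleton] at hi; rw [mem_range]; omega)
      rw [if_neg (by rintro ⟨h2, _⟩; rw [mem_singleton] at h2; omega), ← h, mul_zero, mul_zero,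
        add_zero] at h1
      unfold gen at h1
      rw [Finset.sum_singleton, Finset.sum_singleton] at h1
      have h2 : 0 ≤ p (({j + 1} : Finset ℕ).erase (j + 1)) - p {j + 1} := by
        rw [← h, sub_zero]; exact p0 _
      have h3 : p (insert j {j + 1}) - p {j + 1}
          ≤ ∑ y ∈ pnb l (j + 1), (p (insert y {j + 1}) - p {j + 1}) := by
        apply Finset.single_le_sum (f := fun y => p (insert y {j + 1}) - p {j + 1})
        · intro y _
          have := pmono _ _ (Finset.subset_insert y {j + 1})
          linarith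
        · unfold pnb
          rw [mem_union]; left
          rw [if_pos ⟨by omega, hj⟩, mem_singleton]; omega
      have h4 : p {j} ≤ p (insert j {j + 1}) := by
        apply pmono
        intro i hi
        rw [mem_singleton] at hi
        rw [hi]; exact mem_insert_self _ _
      rw [← h, sub_zero] at h3
      have h5 : 0 < lam * (p (insert j {j + 1})) := mul_pos hlam (by linarith)
      have h6 : lam * p (insert j {j + 1})
          ≤ lam * ∑ y ∈ pnb l (j + 1), (p (insert y {j + 1}) - 0) :=
        mul_le_mul_of_nonneg_left h3 hlam.le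
      rw [← h] at h1 h2
      linarith

/-- A small discount costs at most a factor `2`. -/
theorem pfun_discount (l : ℕ) (hl : 1 ≤ l) (lam kap : ℝ) (h0 : 0 < lam) (h1 : lam ≤ 1 / 10)
    (hk : 0 < kap)
    (hk2 : kap * (2 * (1 + Real.log (1 / pfun l lam 0 {l - 1}))) ≤ 1 - 3 * lam) :
    pfun l lam 0 {l - 1} / 2 ≤ pfun l lam kap {l - 1} := by
  obtain ⟨p0, p1, pe, pmono, psub, ptr, peq, pmin⟩ := pfun_spec l lam 0 h0 le_rfl
  obtain ⟨k0, k1, ke, kmono, ksub, ktr, keq, kmin⟩ := pfun_spec l lam kap h0 hk.le
  set p := pfun l lam 0 with hp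
  set pk := pfun l lam kap with hpk
  -- positivity
  have ppos : ∀ A, A ⊆ range l → A.Nonempty → 0 < p A := by
    rintro A hA ⟨j, hj⟩
    have h2 := pfun_pos_all l h0 le_rfl j (mem_range.mp (hA hj))
    refine lt_of_lt_of_le h2 (pmono _ _ ?_)
    intro i hi
    rw [mem_singleton] at hi
    rw [hi]; exact hj
  have hpk_le : ∀ A, A ⊆ range l → pk A ≤ p A := by
    apply kmin p p0
    intro A hA
    have := peq A hA
    rw [zero_mul] at this
    rw [this]
    exact mul_nonneg hk.le (p0 A)
  -- entropy function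
  set F : Finset ℕ → ℝ := fun B => p B * (1 + Real.log ((B.card : ℝ) / p B)) with hF
  have hFt : ∀ B, 0 ≤ F B := by
    intro B
    simp only [hF]
    rcases (p0 B).lt_or_eq with h | h
    · apply mul_nonneg h.le
      have hBne : B.Nonempty := by
        rw [Finset.nonempty_iff_ne_empty]
        intro hB
        rw [hB, pe] at h
        exact lt_irrefl _ h
      have hc : (1 : ℝ) ≤ B.card := by exact_mod_cast Finset.card_pos.mpr hBne
      have : 0 ≤ Real.log ((B.card : ℝ) / p B) := by
        apply Real.log_nonneg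
        rw [le_div_iff₀ h, one_mul]
        exact le_trans (p1 B) hc
      linarith
    · rw [← h, zero_mul]
  -- tangent inequality
  have htan : ∀ x y x' y' : ℝ, 0 < x → 0 < y → 0 ≤ x' → 0 ≤ y' → (y' = 0 → x' = 0) →
      x' * (1 + Real.log (y' / x')) ≤ Real.log (y / x) * x' + x / y * y' := by
    intro x y x' y' hx hy hx' hy' hz
    rcases hx'.lt_or_eq with h | h
    · have hy'' : 0 < y' := by
        rcases hy'.lt_or_eq with h2 | h2
        · exact h2
        · exact absurd (hz h2.symm) h.ne'
      have h2 : Real.log ((y' / x') * (x / y)) ≤ (y' / x') * (x / y) - 1 :=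
        Real.log_le_sub_one_of_pos (by positivity)
      have h3 : Real.log ((y' / x') * (x / y)) = Real.log (y' / x') - Real.log (y / x) := by
        rw [Real.log_mul (by positivity) (by positivity), Real.log_div hx.ne' hy.ne',
          Real.log_div hy.ne' hx.ne']
        ring
      rw [h3] at h2
      have h4 : x' * (Real.log (y' / x') - Real.log (y / x)) ≤ x' * ((y' / x') * (x / y) - 1) :=
        mul_le_mul_of_nonneg_left h2 hx'
      have h5 : x' * ((y' / x') * (x / y) - 1) = x / y * y' - x' := by
        field_simp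
      rw [h5] at h4
      linarith
    · rw [← h, zero_mul, mul_zero, zero_add]
      positivity
  -- supersolution property of F
  have hFsup : ∀ A, A ⊆ range l →
      gen (pnb l) lam F A - lam * (if 0 ∈ A ∧ 0 < l then F A else 0) ≤ - ((1 - 2 * lam) * p A) := by
    intro A hA
    rcases A.eq_empty_or_nonempty with rfl | hne
    · unfold gen
      simp [pe]
    · have hx := ppos A hA hne
      have hc : (1 : ℝ) ≤ A.card := by exact_mod_cast Finset.card_pos.mpr hne
      have hy : (0 : ℝ) < A.card := by linarith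
      have hcancel : p A / A.card * A.card = p A := div_mul_cancel₀ _ hy.ne'
      have htouch : gen (pnb l) lam F A ≤ gen (pnb l) lam
          (fun B => Real.log ((A.card : ℝ) / p A) * p B + p A / A.card * (∑ v ∈ B, (1 : ℝ))) A := by
        have hle : ∀ B, F B ≤ Real.log ((A.card : ℝ) / p A) * p B
            + p A / A.card * (∑ v ∈ B, (1 : ℝ)) := by
          intro B
          rw [Finset.sum_const, nsmul_eq_mul, mul_one]
          apply htan (p A) A.card (p B) B.card hx hy (p0 B) (Nat.cast_nonneg _)
          intro hB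
          have : B = ∅ := by
            rw [← Finset.card_eq_zero]; exact_mod_cast hB
          rw [this]; exact pe
        apply gen_le_of_touch (pnb l) lam h0.le
        · simp only [hF]
          rw [Finset.sum_const, nsmul_eq_mul, mul_one, hcancel]
          ring
        · intro x _; exact hle _
        · intro x _ y _; exact hle _
      rw [gen_add, gen_const_mul, gen_const_mul] at htouch
      have hlin := gen_linear_le (pnb l) lam h0.le (fun _ => (1 : ℝ)) (fun _ => zero_le_one) A
      have hlin2 : gen (pnb l) lam (fun B => ∑ v ∈ B, (1 : ℝ)) A ≤ - ((1 - 2 * lam) * A.card) := by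
        refine le_trans hlin ?_
        have : ∀ x ∈ A, (- (1 : ℝ) + lam * ∑ y ∈ pnb l x, (1 : ℝ)) ≤ - (1 - 2 * lam) := by
          intro x _
          rw [Finset.sum_const, nsmul_eq_mul, mul_one]
          have hcard : ((pnb l x).card : ℝ) ≤ 2 := by exact_mod_cast card_pnb_le l x
          nlinarith
        refine le_trans (Finset.sum_le_sum this) ?_
        rw [Finset.sum_const, nsmul_eq_mul]
        linarith
      have hpe := peq A hA
      rw [zero_mul] at hpe
      have hlog : 0 ≤ Real.log ((A.card : ℝ) / p A) := by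
        apply Real.log_nonneg
        rw [le_div_iff₀ hx, one_mul]
        exact le_trans (p1 A) hc
      have h2 : p A / A.card * gen (pnb l) lam (fun B => ∑ v ∈ B, (1 : ℝ)) A
          ≤ - ((1 - 2 * lam) * p A) := by
        have := mul_le_mul_of_nonneg_left hlin2 (show 0 ≤ p A / A.card from div_nonneg hx.le hy.le)
        refine le_trans this (le_of_eq ?_)
        calc p A / A.card * (- ((1 - 2 * lam) * A.card))
            = - ((1 - 2 * lam) * (p A / A.card * A.card)) := by ring
          _ = _ := by rw [hcancel]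
      split_ifs with hc0
      · rw [if_pos hc0] at hpe
        have h3 : gen (pnb l) lam p A = - (lam * (1 - p A)) := by linarith
        rw [h3] at htouch
        simp only [hF] at htouch ⊢
        have h4 : 0 ≤ lam * Real.log ((A.card : ℝ) / p A) := mul_nonneg h0.le hlog
        have h5 : 0 ≤ lam * p A := mul_nonneg h0.le hx.le
        nlinarith
      · rw [if_neg hc0, mul_zero, add_zero] at hpe
        rw [hpe, mul_zero] at htouch
        linarith
  -- comparison
  have h12 : 0 < 1 - 2 * lam := by linarith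
  have hcomp : ∀ A, A ⊆ range l → p A ≤ pk A + kap / (1 - 2 * lam) * F A := by
    apply pmin (fun A => pk A + kap / (1 - 2 * lam) * F A)
    · intro A
      have := k0 A
      have := hFt A
      positivity
    · intro A hA
      rw [zero_mul, gen_add, gen_const_mul]
      have h2 := keq A hA
      have h3 := hFsup A hA
      have h4 := hpk_le A hA
      have h5 : kap / (1 - 2 * lam)
          * (gen (pnb l) lam F A - lam * (if 0 ∈ A ∧ 0 < l then F A else 0))
          ≤ - (kap * p A) := by
        have := mul_le_mul_of_nonneg_left h3 (show 0 ≤ kap / (1 - 2 * lam) by positivity)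
        refine le_trans this (le_of_eq ?_)
        field_simp
      have h6 : kap * pk A ≤ kap * p A := mul_le_mul_of_nonneg_left h4 hk.le
      split_ifs with hc0
      · rw [if_pos hc0] at h2 h5
        linarith
      · rw [if_neg hc0] at h2 h5
        linarith
  have hsub : ({l - 1} : Finset ℕ) ⊆ range l := by
    intro x hx; rw [mem_singleton] at hx; rw [mem_range]; omega
  have h2 := hcomp {l - 1} hsub
  have hx := ppos {l - 1} hsub (Finset.singleton_nonempty _)
  have h3 : F {l - 1} = p {l - 1} * (1 + Real.log (1 / p {l - 1})) := by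
    simp only [hF]
    rw [card_singleton, Nat.cast_one]
  rw [h3] at h2
  have h4 : kap / (1 - 2 * lam) * (1 + Real.log (1 / p {l - 1})) ≤ 1 / 2 := by
    rw [div_mul_eq_mul_div, div_le_iff₀ h12]
    linarith
  have h5 := mul_le_mul_of_nonneg_right h4 hx.le
  linarith

end Pool.Agent.CP
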