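import Mathlib
import Pool.Agent.Helper11.CP.ParamsAux
import Pool.Agent.Helper11.CP.PathFn

/-!
# Existence of good parameters  (module T7)

Constants: critical rate `1/100`, branching number `16`.
-/

set_option autoImplicit false

namespace Pool.Agent.CP

open Finset Filter

/-- `Tn lam N = 2 * useq lam N`. -/
noncomputable def Tn (lam : ℝ) (N : ℕ) : ℝ := 2 * useq lam N

/-- twice the crossing probability of the path with `l` vertices, at rate `1/100`. -/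
noncomputable def qn (l : ℕ) : ℝ := 2 * pfun l (1 / 100) 0 {l - 1}

/-- single step factor -/
noncomputable def c1 (kap : ℝ) : ℝ := (1 / 100) / (1 + 1 / 100 + kap)

/-- hub step factor -/
noncomputable def c16 (kap : ℝ) : ℝ := (16 / 100) / (1 + 16 / 100 + kap)

/-- factor for the entrance into the core of a cluster with `N` vertices -/
noncomputable def ce (kap : ℝ) (N : ℕ) : ℝ :=
  ((1 / 100) * ((N : ℝ) - 2)) / (1 + (1 / 100) * ((N : ℝ) - 2) + kap)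

/-- forward crossing value -/
noncomputable def qf (kap : ℝ) (m l N' : ℕ) : ℝ :=
  c1 kap * c16 kap ^ m * (c1 kap * (ce kap N' * pfun l (1 / 100) kap {l - 1}))

/-- upward crossing value -/
noncomputable def qu (kap : ℝ) (m l N : ℕ) : ℝ :=
  c1 kap * (pfun l (1 / 100) kap {l - 1} * (c1 kap ^ (m + 1) * ce kap N))

/-- The parameters of the graph: cluster sizes `N`, depths `m` of the hubs, lengths `l` of the long
paths, discount rates `kap`. -/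
structure GoodParams (N m l : ℕ → ℕ) (kap : ℕ → ℝ) : Prop where
  hN : ∀ n, 4 ≤ N n
  hm : ∀ n, 1 ≤ m n
  hl : ∀ n, 1 ≤ l n
  hkap0 : ∀ n, 0 < kap n
  hkap1 : ∀ n, kap n ≤ 1 / 100
  hF : ∀ n, 64 * (1 / 100) ^ 3 * (1 / 50) * Tn (1 / 100) (N n) * Tn (1 / 100) (N (n + 1))
      * (1 / 250) ^ (m n) * qn (l n) ^ 2 ≤ 1
  hB : ∀ n, 16 * (1 / 100) ^ 2 * Tn (1 / 100) (N (n + 1)) * qn (l n) ^ 2 ≤ 1
  hmono : ∀ n, N n ≤ N (n + 1)
  hsub : ∀ lam : ℝ, 0 < lam → lam < 1 / 100 →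
    ∃ n1, ∀ n, n1 ≤ n → Tn lam (N (n + 1)) * qn (l n) ≤ 1
  hfwd : ∀ n, afun (1 / 100) (kap n * qf (kap n) (m n) (l n) (N (n + 1)) / 8) (N n - 2) 1
      ≤ 1 / ((n : ℝ) + 2) ^ 2
  hup : ∀ lam : ℝ, 1 / 100 < lam →
    ∃ n1, ∀ n, n1 ≤ n →
      afun lam (kap n * qu (kap n) (m n) (l n) (N n) / 8) (N (n + 1) - 2) 1
        ≤ 1 / ((n : ℝ) + 2) ^ 2

/-! ### Facts on the crossing probabilities at rate `1/100` -/

lemma pp_nonneg (l : ℕ) : 0 ≤ pfun l (1 / 100) 0 {l - 1} :=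
  (pfun_spec l (1 / 100) 0 (by norm_num) le_rfl).1 _

lemma pp_le_one (l : ℕ) : pfun l (1 / 100) 0 {l - 1} ≤ 1 :=
  (pfun_spec l (1 / 100) 0 (by norm_num) le_rfl).2.1 _

lemma pp_le (l : ℕ) (hl : 1 ≤ l) : pfun l (1 / 100) 0 {l - 1} ≤ (1 / 50) ^ l := by
  have h := pfun_le_sum l (1 / 100) (by norm_num) (by norm_num) {l - 1}
  rw [sum_singleton] at h
  have e1 : l - 1 + 1 = l := by omega
  rw [e1] at h
  norm_num at h ⊢
  exact h

lemma pp_step (l : ℕ) (hl : 1 ≤ l) :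
    pfun l (1 / 100) 0 {l - 1} ≤ 101 * pfun (l + 1) (1 / 100) 0 {l + 1 - 1} := by
  have h := pfun_step l hl (1 / 100) (by norm_num) (by norm_num)
  have e1 : l + 1 - 1 = l := by omega
  rw [e1]
  have e2 : (1 / 100 : ℝ) / (1 + 1 / 100) = 1 / 101 := by norm_num
  rw [e2] at h
  linarith

lemma pp_pos (l : ℕ) (hl : 1 ≤ l) : 0 < pfun l (1 / 100) 0 {l - 1} := by
  induction l, hl using Nat.le_induction with
  | base =>
    have h := pfun_one (1 / 100) (by norm_num)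
    simp only [Nat.sub_self]
    rw [h]; norm_num
  | succ l hl ih =>
    have := pp_step l hl
    linarith

lemma qn_nonneg (l : ℕ) : 0 ≤ qn l := by unfold qn; linarith [pp_nonneg l]

lemma qn_pos (l : ℕ) (hl : 1 ≤ l) : 0 < qn l := by unfold qn; linarith [pp_pos l hl]

lemma qn_le (l : ℕ) (hl : 1 ≤ l) : qn l ≤ 2 * (1 / 50) ^ l := by
  unfold qn; linarith [pp_le l hl]

lemma qn_step (l : ℕ) (hl : 1 ≤ l) : qn l ≤ 101 * qn (l + 1) := by
  unfold qn; linarith [pp_step l hl]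

lemma qn_one : qn 1 = 2 / 101 := by
  unfold qn
  have h := pfun_one (1 / 100) (by norm_num)
  simp only [Nat.sub_self]
  rw [h]; norm_num

/-! ### The choice of the length -/

/-- the factor of `qn^2` in the condition `hF`. -/
noncomputable def pA (j : ℕ) : ℝ :=
  64 * (1 / 100) ^ 3 * (1 / 50) * Tn (1 / 100) (j ^ 3) * Tn (1 / 100) ((j + 1) ^ 3)
      * (1 / 250) ^ (pm j)

lemma pTn_pos (N : ℕ) : 2 ≤ Tn (1 / 100) N := by
  unfold Tn; linarith [par_useq_pos (lam := 1 / 100) (by norm_num) N]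

lemma pA_pos (j : ℕ) : 0 < pA j := by
  unfold pA
  have h1 := pTn_pos (j ^ 3)
  have h2 := pTn_pos ((j + 1) ^ 3)
  positivity

lemma exists_plen (j : ℕ) : ∃ l, 1 ≤ l ∧ pA j * qn l ^ 2 ≤ 1 := by
  have h1 : Tendsto (fun l : ℕ => pA j * (2 * (1 / 50 : ℝ) ^ l) ^ 2) atTop
      (nhds (pA j * (2 * 0) ^ 2)) := by
    refine Tendsto.const_mul _ (Tendsto.pow (Tendsto.const_mul _ ?_) 2)
    exact tendsto_pow_atTop_nhds_zero_of_lt_one (by norm_num) (by norm_num)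
  have h2 : pA j * (2 * 0) ^ 2 < 1 := by norm_num
  have h3 := h1.eventually (gt_mem_nhds h2)
  obtain ⟨l, hl1, hl2⟩ := (h3.and (eventually_ge_atTop 1)).exists
  refine ⟨l, hl2, le_trans ?_ hl1.le⟩
  apply mul_le_mul_of_nonneg_left _ (pA_pos j).le
  exact pow_le_pow_left₀ (qn_nonneg l) (qn_le l hl2) 2

open Classical in
/-- the length of the paths -/
noncomputable def pl (j : ℕ) : ℕ := Nat.find (exists_plen j)

open Classical in
lemma pl_pos (j : ℕ) : 1 ≤ pl j := (Nat.find_spec (exists_plen j)).1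

open Classical in
lemma pl_hF (j : ℕ) : pA j * qn (pl j) ^ 2 ≤ 1 := (Nat.find_spec (exists_plen j)).2

/-- the discount rate -/
noncomputable def pk (j : ℕ) : ℝ :=
  min (1 / 100) ((97 / 100) / (2 * (1 + Real.log (1 / pfun (pl j) (1 / 100) 0 {pl j - 1}))))

lemma plog_nonneg (j : ℕ) : 0 ≤ Real.log (1 / pfun (pl j) (1 / 100) 0 {pl j - 1}) := by
  apply Real.log_nonneg
  rw [le_div_iff₀ (pp_pos _ (pl_pos j)), one_mul]
  exact pp_le_one _

lemma pk_pos (j : ℕ) : 0 < pk j := by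
  unfold pk
  have := plog_nonneg j
  apply lt_min (by norm_num)
  positivity

lemma pk_le (j : ℕ) : pk j ≤ 1 / 100 := min_le_left _ _

lemma pk_disc (j : ℕ) : qn (pl j) / 4 ≤ pfun (pl j) (1 / 100) (pk j) {pl j - 1} := by
  have h := pfun_discount (pl j) (pl_pos j) (1 / 100) (pk j) (by norm_num) (by norm_num)
    (pk_pos j) ?_
  · unfold qn; linarith
  · have h1 := plog_nonneg j
    have h2 : pk j ≤ (97 / 100) / (2 * (1 + Real.log (1 / pfun (pl j) (1 / 100) 0 {pl j - 1}))) :=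
      min_le_right _ _
    have h3 : 0 < 2 * (1 + Real.log (1 / pfun (pl j) (1 / 100) 0 {pl j - 1})) := by positivity
    rw [le_div_iff₀ h3] at h2
    linarith

/-! ### Asymptotic facts -/

lemma ev_T_large : ∀ᶠ j : ℕ in atTop, (2 : ℝ) ^ (j ^ 3) ≤ Tn (1 / 100) (j ^ 3) := by
  have h1 := FloorSemiring.tendsto_pow_div_factorial_atTop (200 : ℝ)
  have h2 := h1.eventually (gt_mem_nhds (zero_lt_one))
  have h3 : Tendsto (fun j : ℕ => j ^ 3) atTop atTop := tendsto_pow_atTop (by norm_num)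
  filter_upwards [h3.eventually h2] with j hj
  rw [div_lt_one (by positivity)] at hj
  have h4 := par_useq_lower (lam := 1 / 100) (by norm_num) (j ^ 3)
  have h5 : ((j ^ 3).factorial : ℝ) ≤ ((j ^ 3 + 1).factorial : ℝ) := by
    exact_mod_cast Nat.factorial_le (Nat.le_succ _)
  have h6 : (1 / 100 : ℝ) ^ (j ^ 3) * 200 ^ (j ^ 3) = 2 ^ (j ^ 3) := by
    rw [← mul_pow]; norm_num
  unfold Tn
  have h7 : (1 / 100 : ℝ) ^ (j ^ 3) * 200 ^ (j ^ 3) ≤
      (1 / 100 : ℝ) ^ (j ^ 3) * ((j ^ 3 + 1).factorial : ℝ) :=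
    mul_le_mul_of_nonneg_left (by linarith) (by positivity)
  have h8 := par_useq_pos (lam := 1 / 100) (by norm_num) (j ^ 3)
  linarith

lemma par_T_mono (j : ℕ) : Tn (1 / 100) (j ^ 3) ≤ Tn (1 / 100) ((j + 1) ^ 3) := by
  have h : ∀ k, useq (1 / 100) k ≤ useq (1 / 100) (k + 1) := by
    intro k
    induction k with
    | zero => simp only [useq]; norm_num
    | succ k ih =>
      have h1 : (0 : ℝ) ≤ k := Nat.cast_nonneg k
      have h2 := par_useq_pos (lam := 1 / 100) (by norm_num) k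
      have e1 : useq (1 / 100) (k + 1 + 1) = (1 / 100) * ((k + 1 : ℕ) + 2) *
        useq (1 / 100) (k + 1) + 1 := rfl
      have e2 : useq (1 / 100) (k + 1) = (1 / 100) * (k + 2) * useq (1 / 100) k + 1 := rfl
      rw [e1]
      conv_lhs => rw [e2]
      push_cast
      have h3 : (1 / 100) * ((k : ℝ) + 2) ≤ (1 / 100) * ((k : ℝ) + 1 + 2) := by nlinarith
      have h4 : 0 ≤ (1 / 100) * ((k : ℝ) + 2) := by positivity
      have h5 := mul_le_mul h3 ih (by linarith) (by linarith)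
      linarith
  have h2 := monotone_nat_of_le_succ h
  unfold Tn
  have : j ^ 3 ≤ (j + 1) ^ 3 := Nat.pow_le_pow_left (Nat.le_succ j) 3
  linarith [h2 this]

/-- `T' ≤ R T` and `j^60 R ≤ X`. -/
lemma par_T_ratio (j : ℕ) : (j : ℝ) ^ 60 * Tn (1 / 100) ((j + 1) ^ 3) ≤
    (pX j : ℝ) * Tn (1 / 100) (j ^ 3) := by
  have hle : j ^ 3 ≤ (j + 1) ^ 3 := Nat.pow_le_pow_left (Nat.le_succ j) 3
  have h := par_useq_ratio (j ^ 3) ((j + 1) ^ 3 - j ^ 3)
  have e1 : j ^ 3 + ((j + 1) ^ 3 - j ^ 3) = (j + 1) ^ 3 := by omega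
  have e2 : ((j ^ 3 : ℕ) : ℝ) + (((j + 1) ^ 3 - j ^ 3 : ℕ) : ℝ) + 1 = (((j + 1) ^ 3 + 1 : ℕ) : ℝ) := by
    rw [← Nat.cast_add, e1]; push_cast; ring
  rw [e2, e1] at h
  unfold Tn pX
  have h3 : ((((j + 1) ^ 3 + 1 : ℕ) : ℝ)) ^ ((j + 1) ^ 3 - j ^ 3) ≤
      ((((j + 1) ^ 3 + 2 : ℕ) : ℝ)) ^ ((j + 1) ^ 3 - j ^ 3) := by
    apply pow_le_pow_left₀ (by positivity)
    exact_mod_cast Nat.le_succ _
  have h4 := par_useq_pos (lam := 1 / 100) (by norm_num) (j ^ 3)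
  have h5 : useq (1 / 100) ((j + 1) ^ 3) ≤
      ((((j + 1) ^ 3 + 2 : ℕ) : ℝ)) ^ ((j + 1) ^ 3 - j ^ 3) * useq (1 / 100) (j ^ 3) :=
    le_trans h (mul_le_mul_of_nonneg_right h3 (by linarith))
  have h6 : ((j ^ 60 * ((j + 1) ^ 3 + 2) ^ ((j + 1) ^ 3 - j ^ 3) : ℕ) : ℝ)
      = (j : ℝ) ^ 60 * ((((j + 1) ^ 3 + 2 : ℕ) : ℝ)) ^ ((j + 1) ^ 3 - j ^ 3) := by
    push_cast; ring
  rw [h6]
  have h7 : (0 : ℝ) ≤ (j : ℝ) ^ 60 := pow_nonneg (Nat.cast_nonneg j) 60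
  have := mul_le_mul_of_nonneg_left h5 h7
  linarith

/-- hB and the fact that `l = 1` does not satisfy `hF`. -/
lemma ev_pow250 : ∀ᶠ j : ℕ in atTop, 10 ^ 12 * (250 : ℝ) ^ pm j ≤ Tn (1 / 100) (j ^ 3) := by
  filter_upwards [ev_T_large, par_growth 2 (by norm_num) 1, eventually_ge_atTop 1,
    (tendsto_natCast_atTop_atTop (R := ℝ)).eventually_ge_atTop (10 ^ 12)] with
    j h1 h2 hj1 h4
  have h5 := pow250_le hj1
  have h6 : (2 : ℝ) ≤ pX j := by exact_mod_cast pX_pos hj1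
  have h7 : (4 * (pX j : ℝ)) ^ 4 ≤ (4 * (pX j : ℝ)) ^ 5 :=
    pow_le_pow_right₀ (by linarith) (by norm_num)
  calc 10 ^ 12 * (250 : ℝ) ^ pm j ≤ (j : ℝ) * (4 * (pX j : ℝ)) ^ 5 := by
        apply mul_le_mul h4 (le_trans h5 h7) (by positivity) (by positivity)
    _ = (4 * (pX j : ℝ)) ^ 5 * (j : ℝ) ^ 1 := by rw [pow_one, mul_comm]
    _ ≤ _ := le_trans h2 h1

/-- (Q1) -/
lemma ev_Q1 : ∀ᶠ j : ℕ in atTop, 1 ≤ 101 ^ 2 * (pA j * qn (pl j) ^ 2) := by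
  filter_upwards [ev_pow250, eventually_ge_atTop 1] with j h1 hj1
  have hT := pTn_pos (j ^ 3)
  have hT' := pTn_pos ((j + 1) ^ 3)
  -- l ≥ 2
  have hl2 : pl j ≠ 1 := by
    intro hcon
    have h2 := pl_hF j
    rw [hcon, qn_one] at h2
    have h3 : (1 / 250 : ℝ) ^ pm j * (250 : ℝ) ^ pm j = 1 := by
      rw [← mul_pow]; norm_num
    have h4 : 10 ^ 12 ≤ Tn (1 / 100) (j ^ 3) * (1 / 250 : ℝ) ^ pm j := by
      have h5 : (0 : ℝ) ≤ (1 / 250 : ℝ) ^ pm j := by positivity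
      have h6 := mul_le_mul_of_nonneg_right h1 h5
      nlinarith
    unfold pA at h2
    nlinarith
  obtain ⟨k, hk⟩ := Nat.exists_eq_add_of_le' (show 2 ≤ pl j by have := pl_pos j; omega)
  have hk1 : k + 1 < pl j := by omega
  classical
  have hmin : ¬ (1 ≤ k + 1 ∧ pA j * qn (k + 1) ^ 2 ≤ 1) := by
    have : k + 1 < Nat.find (exists_plen j) := by
      have e : pl j = Nat.find (exists_plen j) := by unfold pl; congr!
      rw [← e]; exact hk1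
    exact Nat.find_min (exists_plen j) this
  have h7 : 1 < pA j * qn (k + 1) ^ 2 := by
    by_contra hcon
    exact hmin ⟨by omega, not_lt.mp hcon⟩
  have h8 := qn_step (k + 1) (by omega)
  have h9 : qn (k + 1) ^ 2 ≤ (101 * qn (k + 1 + 1)) ^ 2 :=
    pow_le_pow_left₀ (qn_nonneg _) h8 2
  have e2 : pl j = k + 1 + 1 := by omega
  rw [e2]
  have h10 := mul_le_mul_of_nonneg_left h9 (pA_pos j).le
  nlinarith


/-- (Q2) -/
lemma par_Q2 {j : ℕ} (h : 1 ≤ 101 ^ 2 * (pA j * qn (pl j) ^ 2)) :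
    1 ≤ 101 * Tn (1 / 100) ((j + 1) ^ 3) * qn (pl j) := by
  have hT := pTn_pos (j ^ 3)
  have hT' := pTn_pos ((j + 1) ^ 3)
  have hTT := par_T_mono j
  have hq := qn_nonneg (pl j)
  have h1 : pA j ≤ Tn (1 / 100) ((j + 1) ^ 3) ^ 2 := by
    unfold pA
    have e1 : (1 / 250 : ℝ) ^ pm j ≤ 1 := pow_le_one₀ (by norm_num) (by norm_num)
    have e2 : Tn (1 / 100) (j ^ 3) * Tn (1 / 100) ((j + 1) ^ 3) ≤
        Tn (1 / 100) ((j + 1) ^ 3) ^ 2 := by nlinarith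
    have e3 : 0 ≤ Tn (1 / 100) (j ^ 3) * Tn (1 / 100) ((j + 1) ^ 3) := by positivity
    calc 64 * (1 / 100 : ℝ) ^ 3 * (1 / 50) * Tn (1 / 100) (j ^ 3) * Tn (1 / 100) ((j + 1) ^ 3)
      * (1 / 250) ^ (pm j) = (64 * (1 / 100 : ℝ) ^ 3 * (1 / 50)) *
        ((Tn (1 / 100) (j ^ 3) * Tn (1 / 100) ((j + 1) ^ 3)) * (1 / 250) ^ (pm j)) := by ring
      _ ≤ 1 * ((Tn (1 / 100) (j ^ 3) * Tn (1 / 100) ((j + 1) ^ 3)) * 1) := by
        apply mul_le_mul (by norm_num) _ (by positivity) (by norm_num)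
        exact mul_le_mul_of_nonneg_left e1 e3
      _ ≤ _ := by linarith
  have h2 : 1 ≤ (101 * Tn (1 / 100) ((j + 1) ^ 3) * qn (pl j)) ^ 2 := by
    have h3 := mul_le_mul_of_nonneg_right h1 (sq_nonneg (qn (pl j)))
    nlinarith
  by_contra hcon
  have h4 : (101 * Tn (1 / 100) ((j + 1) ^ 3) * qn (pl j)) ^ 2 < 1 := by
    have h5 : 0 ≤ 101 * Tn (1 / 100) ((j + 1) ^ 3) * qn (pl j) := by positivity
    have h6 := not_le.mp hcon
    nlinarith
  linarith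

/-- (Q3) -/
lemma par_Q3 {j : ℕ} (h : 1 ≤ 101 ^ 2 * (pA j * qn (pl j) ^ 2)) :
    (j : ℝ) ^ 30 ≤ 101 * (c16 (pk j) ^ pm j * qn (pl j) * Tn (1 / 100) (j ^ 3)) := by
  have hT := pTn_pos (j ^ 3)
  have hT' := pTn_pos ((j + 1) ^ 3)
  have hq := qn_nonneg (pl j)
  have hk0 := pk_pos j
  have hk1 := pk_le j
  set T := Tn (1 / 100) (j ^ 3) with hTdef
  set T' := Tn (1 / 100) ((j + 1) ^ 3) with hTdef'
  set q := qn (pl j) with hqdef
  have hc : (4 / 250 : ℝ) ≤ c16 (pk j) ^ 2 := by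
    unfold c16
    have h1 : (0.1265 : ℝ) ≤ (16 / 100) / (1 + 16 / 100 + pk j) := by
      rw [le_div_iff₀ (by linarith)]
      nlinarith
    nlinarith
  have hc0 : 0 ≤ c16 (pk j) := by unfold c16; positivity
  have hX : (pX j : ℝ) ≤ 4 ^ pm j := by exact_mod_cast le_four_pow_pm j
  have hA : pA j ≤ T * T' * (1 / 250) ^ pm j := by
    unfold pA
    rw [← hTdef, ← hTdef']
    have e3 : 0 ≤ T * T' * (1 / 250 : ℝ) ^ (pm j) := by positivity
    nlinarith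
  have h1 : 1 ≤ 101 ^ 2 * (T * T' * (1 / 250) ^ pm j * q ^ 2) := by
    refine le_trans h ?_
    have := mul_le_mul_of_nonneg_right hA (sq_nonneg q)
    nlinarith
  have hrat := par_T_ratio j
  rw [← hTdef, ← hTdef'] at hrat
  -- j^60 ≤ (101 * c16^m q T)^2
  have hj0 : (0 : ℝ) ≤ (j : ℝ) ^ 60 := pow_nonneg (Nat.cast_nonneg j) 60
  have h2 : (j : ℝ) ^ 60 ≤ 101 ^ 2 * (T * (pX j * T) * (1 / 250) ^ pm j * q ^ 2) := by
    have h3 := mul_le_mul_of_nonneg_left h1 hj0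
    rw [mul_one] at h3
    refine le_trans h3 ?_
    have h4 : (j : ℝ) ^ 60 * (101 ^ 2 * (T * T' * (1 / 250) ^ pm j * q ^ 2))
        = 101 ^ 2 * (T * ((j : ℝ) ^ 60 * T') * (1 / 250) ^ pm j * q ^ 2) := by ring
    rw [h4]
    gcongr
  have h5 : (j : ℝ) ^ 60 ≤ 101 ^ 2 * (T * ((4 : ℝ) ^ pm j * T) * (1 / 250) ^ pm j * q ^ 2) := by
    refine le_trans h2 ?_
    gcongr
  have h6 : (4 : ℝ) ^ pm j * (1 / 250) ^ pm j ≤ (c16 (pk j) ^ pm j) ^ 2 := by
    rw [← mul_pow, ← pow_mul, mul_comm (pm j) 2, pow_mul]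
    apply pow_le_pow_left₀ (by positivity)
    linarith
  have h7 : (j : ℝ) ^ 60 ≤ (101 * (c16 (pk j) ^ pm j * q * T)) ^ 2 := by
    refine le_trans h5 ?_
    have h8 : 101 ^ 2 * (T * ((4 : ℝ) ^ pm j * T) * (1 / 250) ^ pm j * q ^ 2)
        = (101 * T * q) ^ 2 * ((4 : ℝ) ^ pm j * (1 / 250) ^ pm j) := by ring
    have h9 : (101 * (c16 (pk j) ^ pm j * q * T)) ^ 2 =
        (101 * T * q) ^ 2 * (c16 (pk j) ^ pm j) ^ 2 := by ring
    rw [h8, h9]
    exact mul_le_mul_of_nonneg_left h6 (sq_nonneg _)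
  have h10 : ((j : ℝ) ^ 30) ^ 2 ≤ (101 * (c16 (pk j) ^ pm j * q * T)) ^ 2 := by
    rw [← pow_mul]; exact h7
  exact (sq_le_sq₀ (pow_nonneg (Nat.cast_nonneg j) 30) (by positivity)).mp h10

/-- lower bound for the discount rate -/
lemma par_kap {j : ℕ} (hj : 1 ≤ j) (h : 1 ≤ 101 ^ 2 * (pA j * qn (pl j) ^ 2)) :
    1 / (1000 * (j : ℝ) ^ 6) ≤ pk j := by
  have hQ2 := par_Q2 h
  have hT' := pTn_pos ((j + 1) ^ 3)
  have hjr : (1 : ℝ) ≤ j := by exact_mod_cast hj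
  have hj6 : (1 : ℝ) ≤ (j : ℝ) ^ 6 := one_le_pow₀ hjr
  have hp := pp_pos (pl j) (pl_pos j)
  have hq : qn (pl j) = 2 * pfun (pl j) (1 / 100) 0 {pl j - 1} := rfl
  set p := pfun (pl j) (1 / 100) 0 {pl j - 1} with hpdef
  -- upper bound for T'
  set N' : ℕ := (j + 1) ^ 3 with hN'
  have hTle : Tn (1 / 100) N' ≤ 2 * ((N' : ℝ) + 1) ^ N' := by
    have h1 := par_useq_ratio 0 N'
    simp only [Nat.cast_zero, zero_add] at h1
    have h2 : useq (1 / 100) 0 = 1 := rfl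
    rw [h2, mul_one] at h1
    unfold Tn; linarith
  have hN'pos : (1 : ℝ) ≤ N' := by
    have : 1 ≤ N' := Nat.one_le_pow _ _ (by omega)
    exact_mod_cast this
  have hlogle : Real.log (1 / p) ≤ 403 + (N' : ℝ) ^ 2 := by
    have h1 : 1 / p ≤ 404 * ((N' : ℝ) + 1) ^ N' := by
      rw [div_le_iff₀ hp]
      rw [hq] at hQ2
      have h3 : Tn (1 / 100) N' * p ≤ 2 * ((N' : ℝ) + 1) ^ N' * p :=
        mul_le_mul_of_nonneg_right hTle hp.le
      nlinarith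
    have h2 : Real.log (1 / p) ≤ Real.log (404 * ((N' : ℝ) + 1) ^ N') :=
      Real.log_le_log (by positivity) h1
    rw [Real.log_mul (by norm_num) (by positivity), Real.log_pow] at h2
    have h3 : Real.log 404 ≤ 403 := by
      have := Real.log_le_sub_one_of_pos (show (0 : ℝ) < 404 by norm_num)
      linarith
    have h4 : Real.log ((N' : ℝ) + 1) ≤ N' := by
      have := Real.log_le_sub_one_of_pos (show (0 : ℝ) < (N' : ℝ) + 1 by linarith)
      linarith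
    have h5 : (N' : ℝ) * Real.log ((N' : ℝ) + 1) ≤ (N' : ℝ) * N' :=
      mul_le_mul_of_nonneg_left h4 (by linarith)
    nlinarith
  have hN'le : (N' : ℝ) ≤ 8 * (j : ℝ) ^ 3 := by
    rw [hN']
    push_cast
    have : ((j : ℝ) + 1) ^ 3 ≤ (2 * (j : ℝ)) ^ 3 := by
      apply pow_le_pow_left₀ (by positivity); linarith
    calc ((j : ℝ) + 1) ^ 3 ≤ (2 * (j : ℝ)) ^ 3 := this
      _ = 8 * (j : ℝ) ^ 3 := by ring
  have hN'2 : (N' : ℝ) ^ 2 ≤ 64 * (j : ℝ) ^ 6 := by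
    calc (N' : ℝ) ^ 2 ≤ (8 * (j : ℝ) ^ 3) ^ 2 := pow_le_pow_left₀ (by positivity) hN'le 2
      _ = 64 * (j : ℝ) ^ 6 := by ring
  have hlog0 := plog_nonneg j
  rw [← hpdef] at hlog0
  unfold pk
  rw [← hpdef]
  apply le_min
  · apply div_le_div_of_nonneg_left (by norm_num) (by norm_num)
    nlinarith
  · rw [div_le_div_iff₀ (by positivity) (by positivity)]
    nlinarith

lemma par_c1 {k : ℝ} (h0 : 0 < k) (h1 : k ≤ 1 / 100) : 1 / 102 ≤ c1 k := by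
  unfold c1
  rw [div_le_div_iff₀ (by norm_num) (by linarith)]
  linarith

lemma par_ce {k : ℝ} (h0 : 0 < k) (h1 : k ≤ 1 / 100) (N : ℕ) (hN : 104 ≤ N) :
    1 / 2 ≤ ce k N := by
  unfold ce
  have h2 : (104 : ℝ) ≤ N := by exact_mod_cast hN
  rw [div_le_div_iff₀ (by norm_num) (by nlinarith)]
  nlinarith

lemma par_T_le_Lsum (N : ℕ) (hN : 3 ≤ N) :
    Tn (1 / 100) N ≤ 2 * Real.exp 100 * ((N : ℝ) + 1) ^ 4 *
      ((1 / 100) ^ (N - 3) * ((N - 3).factorial : ℝ)) := by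
  have := par_useq_fact N hN
  unfold Tn
  linarith

lemma ev_fwd : ∀ᶠ j : ℕ in atTop,
    afun (1 / 100) (pk j * qf (pk j) (pm j) (pl j) ((j + 1) ^ 3) / 8) (j ^ 3 - 2) 1
      ≤ 1 / ((j : ℝ) + 2) ^ 2 := by
  obtain ⟨C, hC, hratio⟩ := par_Lsum_ratio (lam := 1 / 100) (by norm_num)
  set C3 : ℝ := 101 * (1000 * 102 ^ 2 * 64) * (32 * Real.exp 100) with hC3
  have hC3pos : 0 < C3 := by positivity
  filter_upwards [ev_Q1, eventually_ge_atTop 10,
    (tendsto_natCast_atTop_atTop (R := ℝ)).eventually_ge_atTop (9 * (C3 + 2 * C))] with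
    j hQ1 hj hjC
  have hj1 : 1 ≤ j := by omega
  have hjr : (10 : ℝ) ≤ j := by exact_mod_cast hj
  have hN3 : 1000 ≤ j ^ 3 := by
    calc 1000 = 10 ^ 3 := by norm_num
      _ ≤ j ^ 3 := Nat.pow_le_pow_left hj 3
  have hN3' : j ^ 3 ≤ (j + 1) ^ 3 := Nat.pow_le_pow_left (Nat.le_succ j) 3
  have hk0 := pk_pos j
  have hk1 := pk_le j
  have hkap := par_kap hj1 hQ1
  have hQ3 := par_Q3 hQ1
  have hc1 := par_c1 hk0 hk1
  have hce := par_ce hk0 hk1 ((j + 1) ^ 3) (by omega)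
  have hpk := pk_disc j
  have hq := qn_pos (pl j) (pl_pos j)
  have hc16 : 0 < c16 (pk j) := by unfold c16; positivity
  have hT := pTn_pos (j ^ 3)
  set q := qn (pl j) with hqdef
  set T := Tn (1 / 100) (j ^ 3) with hTdef
  set cm := c16 (pk j) ^ pm j with hcm
  have hcm0 : 0 < cm := by positivity
  -- the rate
  set eps := pk j * qf (pk j) (pm j) (pl j) ((j + 1) ^ 3) / 8 with heps
  have heps_ge : cm * q / ((1000 * 102 ^ 2 * 64) * (j : ℝ) ^ 6) ≤ eps := by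
    rw [heps]
    unfold qf
    have e1 : 1 / 1000 / (j : ℝ) ^ 6 ≤ pk j := by
      rw [div_div]; exact hkap
    have e2 : 1 / 102 * cm * (1 / 102 * (1 / 2 * (q / 4))) ≤
        c1 (pk j) * cm * (c1 (pk j) * (ce (pk j) ((j + 1) ^ 3) *
          pfun (pl j) (1 / 100) (pk j) {pl j - 1})) := by
      gcongr
    have e3 : 0 ≤ 1 / 102 * cm * (1 / 102 * (1 / 2 * (q / 4))) := by positivity
    calc cm * q / ((1000 * 102 ^ 2 * 64) * (j : ℝ) ^ 6)
        = (1 / 1000 / (j : ℝ) ^ 6) * (1 / 102 * cm * (1 / 102 * (1 / 2 * (q / 4)))) / 8 := by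
          field_simp; norm_num
      _ ≤ _ := by
          gcongr
  have heps0 : 0 < eps := lt_of_lt_of_le (by positivity) heps_ge
  -- Lsum
  have e0 : j ^ 3 - 2 = (j ^ 3 - 3) + 1 := by omega
  have hLge := par_Lsum_ge (lam := 1 / 100) (by norm_num) (j ^ 3 - 3)
  rw [← e0] at hLge
  have hTL := par_T_le_Lsum (j ^ 3) (by omega)
  rw [← hTdef] at hTL
  set L := Lsum (1 / 100) (j ^ 3 - 2) with hL
  have hN4 : (((j ^ 3 : ℕ) : ℝ) + 1) ^ 4 ≤ 16 * (j : ℝ) ^ 12 := by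
    have : ((j ^ 3 : ℕ) : ℝ) + 1 ≤ 2 * (j : ℝ) ^ 3 := by
      push_cast
      have : (1 : ℝ) ≤ (j : ℝ) ^ 3 := one_le_pow₀ (by linarith)
      linarith
    calc (((j ^ 3 : ℕ) : ℝ) + 1) ^ 4 ≤ (2 * (j : ℝ) ^ 3) ^ 4 :=
          pow_le_pow_left₀ (by positivity) this 4
      _ = 16 * (j : ℝ) ^ 12 := by ring
  have hTL2 : T ≤ 32 * Real.exp 100 * (j : ℝ) ^ 12 * L := by
    refine le_trans hTL ?_
    calc 2 * Real.exp 100 * (((j ^ 3 : ℕ) : ℝ) + 1) ^ 4 *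
          ((1 / 100) ^ (j ^ 3 - 3) * ((j ^ 3 - 3).factorial : ℝ))
        ≤ 2 * Real.exp 100 * (16 * (j : ℝ) ^ 12) * L := by
          gcongr
      _ = _ := by ring
  have hLpos : 0 < L := by
    have : 0 < 32 * Real.exp 100 * (j : ℝ) ^ 12 * L := by linarith
    exact pos_of_mul_pos_right this (by positivity)
  have hepsL : (j : ℝ) ^ 12 / C3 ≤ eps * L := by
    have f1 : (j : ℝ) ^ 30 ≤ 101 * (cm * q * (32 * Real.exp 100 * (j : ℝ) ^ 12 * L)) := by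
      refine le_trans hQ3 ?_
      gcongr
    have f2 : cm * q ≤ eps * ((1000 * 102 ^ 2 * 64) * (j : ℝ) ^ 6) := by
      rwa [div_le_iff₀ (by positivity)] at heps_ge
    have f3 : (j : ℝ) ^ 30 ≤ 101 * (eps * ((1000 * 102 ^ 2 * 64) * (j : ℝ) ^ 6) *
        (32 * Real.exp 100 * (j : ℝ) ^ 12 * L)) := by
      refine le_trans f1 ?_
      gcongr
    have f4 : 101 * (eps * ((1000 * 102 ^ 2 * 64) * (j : ℝ) ^ 6) *
        (32 * Real.exp 100 * (j : ℝ) ^ 12 * L)) = (eps * L * C3) * (j : ℝ) ^ 18 := by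
      rw [hC3]; ring
    rw [f4] at f3
    have f5 : (j : ℝ) ^ 30 = (j : ℝ) ^ 12 * (j : ℝ) ^ 18 := by rw [← pow_add]
    rw [f5] at f3
    rw [div_le_iff₀ hC3pos]
    exact le_of_mul_le_mul_right f3 (by positivity)
  refine le_trans (par_afun_le (by norm_num) heps0 (j ^ 3 - 2) (by omega)) ?_
  have g1 : ((j ^ 3 - 2 : ℕ) : ℝ) / (eps * L) ≤ C3 / (j : ℝ) ^ 3 := by
    have g2 : ((j ^ 3 - 2 : ℕ) : ℝ) ≤ (j : ℝ) ^ 3 := by
      have : j ^ 3 - 2 ≤ j ^ 3 := Nat.sub_le _ _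
      exact_mod_cast this
    calc ((j ^ 3 - 2 : ℕ) : ℝ) / (eps * L) ≤ (j : ℝ) ^ 3 / ((j : ℝ) ^ 12 / C3) := by
          apply div_le_div₀ (by positivity) g2 (by positivity) hepsL
      _ = C3 / (j : ℝ) ^ 9 := by field_simp
      _ ≤ C3 / (j : ℝ) ^ 3 := by
          apply div_le_div_of_nonneg_left hC3pos.le (by positivity)
          apply pow_le_pow_right₀ (by linarith) (by norm_num)
  have g3 : Lsum (1 / 100) (j ^ 3 - 2 - 1) / L ≤ 2 * C / (j : ℝ) ^ 3 := by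
    refine le_trans (hratio (j ^ 3 - 2) (by omega)) ?_
    have g4 : ((j ^ 3 - 2 : ℕ) : ℝ) = (j : ℝ) ^ 3 - 2 := by
      rw [Nat.cast_sub (by omega)]; push_cast; ring
    rw [g4]
    have g5 : (1000 : ℝ) ≤ (j : ℝ) ^ 3 := by exact_mod_cast hN3
    rw [div_le_div_iff₀ (by linarith) (by linarith)]
    nlinarith
  calc ((j ^ 3 - 2 : ℕ) : ℝ) / (eps * L) + Lsum (1 / 100) (j ^ 3 - 2 - 1) / L
      ≤ C3 / (j : ℝ) ^ 3 + 2 * C / (j : ℝ) ^ 3 := add_le_add g1 g3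
    _ = (C3 + 2 * C) / (j : ℝ) ^ 3 := by ring
    _ ≤ 1 / ((j : ℝ) + 2) ^ 2 := by
      rw [div_le_div_iff₀ (by positivity) (by positivity)]
      have g6 : ((j : ℝ) + 2) ^ 2 ≤ 9 * (j : ℝ) ^ 2 := by nlinarith
      have g7 : 0 ≤ C3 + 2 * C := by positivity
      calc (C3 + 2 * C) * ((j : ℝ) + 2) ^ 2 ≤ (C3 + 2 * C) * (9 * (j : ℝ) ^ 2) :=
            mul_le_mul_of_nonneg_left g6 g7
        _ = (9 * (C3 + 2 * C)) * (j : ℝ) ^ 2 := by ring
        _ ≤ (j : ℝ) * (j : ℝ) ^ 2 := mul_le_mul_of_nonneg_right hjC (by positivity)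
        _ = 1 * (j : ℝ) ^ 3 := by ring

lemma par_final {K j : ℝ} (hK : 0 ≤ K) (hj : 10 ≤ j) (h : 9 * K ≤ j) :
    K / j ^ 3 ≤ 1 / (j + 2) ^ 2 := by
  rw [div_le_div_iff₀ (by positivity) (by positivity)]
  have g6 : (j + 2) ^ 2 ≤ 9 * j ^ 2 := by nlinarith
  calc K * (j + 2) ^ 2 ≤ K * (9 * j ^ 2) := mul_le_mul_of_nonneg_left g6 hK
    _ = (9 * K) * j ^ 2 := by ring
    _ ≤ j * j ^ 2 := mul_le_mul_of_nonneg_right h (by positivity)
    _ = 1 * j ^ 3 := by ring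

lemma ev_up (lam : ℝ) (hlam : 1 / 100 < lam) : ∀ᶠ j : ℕ in atTop,
    afun lam (pk j * qu (pk j) (pm j) (pl j) (j ^ 3) / 8) ((j + 1) ^ 3 - 2) 1
      ≤ 1 / ((j : ℝ) + 2) ^ 2 := by
  have hlam0 : 0 < lam := by linarith
  obtain ⟨C, hC, hratio⟩ := par_Lsum_ratio (lam := lam) hlam0
  set C4 : ℝ := 101 * (1000 * 102 ^ 2 * 64) * (2 * Real.exp 100 * 6561) with hC4
  have hC4pos : 0 < C4 := by positivity
  have hb : 1 < 100 * lam := by linarith
  filter_upwards [ev_Q1, eventually_ge_atTop 10, par_growth (100 * lam) hb 24,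
    (tendsto_natCast_atTop_atTop (R := ℝ)).eventually_ge_atTop (9 * (8 * C4 + 2 * C))] with
    j hQ1 hj hgrow hjC
  have hj1 : 1 ≤ j := by omega
  have hjr : (10 : ℝ) ≤ j := by exact_mod_cast hj
  have hN3 : 1000 ≤ j ^ 3 := by
    calc 1000 = 10 ^ 3 := by norm_num
      _ ≤ j ^ 3 := Nat.pow_le_pow_left hj 3
  have hN3' : j ^ 3 + 3 ≤ (j + 1) ^ 3 := by
    have := par_diff j
    have h2 : j ^ 3 ≤ (j + 1) ^ 3 := Nat.pow_le_pow_left (Nat.le_succ j) 3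
    have h3 : 3 ≤ 3 * j := by omega
    omega
  have hk0 := pk_pos j
  have hk1 := pk_le j
  have hkap := par_kap hj1 hQ1
  have hQ2 := par_Q2 hQ1
  have hc1 := par_c1 hk0 hk1
  have hc1' : 0 < c1 (pk j) := by linarith
  have hce := par_ce hk0 hk1 (j ^ 3) (by omega)
  have hpk := pk_disc j
  have hq := qn_pos (pl j) (pl_pos j)
  have hp0 : 0 ≤ pfun (pl j) (1 / 100) (pk j) {pl j - 1} := by linarith
  have hT' := pTn_pos ((j + 1) ^ 3)
  have hXpos : (2 : ℝ) ≤ pX j := by exact_mod_cast pX_pos hj1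
  set q := qn (pl j) with hqdef
  set T' := Tn (1 / 100) ((j + 1) ^ 3) with hTdef'
  set X := (pX j : ℝ) with hX
  -- the rate
  set eps := pk j * qu (pk j) (pm j) (pl j) (j ^ 3) / 8 with heps
  have hpow : 1 / (4 * X) ^ 4 ≤ (1 / 102 : ℝ) ^ (pm j) := by
    have h1 := pow250_le hj1
    rw [← hX] at h1
    have h2 : (102 : ℝ) ^ pm j ≤ (250 : ℝ) ^ pm j := pow_le_pow_left₀ (by norm_num) (by norm_num) _
    rw [one_div_pow]
    exact one_div_le_one_div_of_le (by positivity) (le_trans h2 h1)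
  have heps_ge : q * (1 / (4 * X) ^ 4) / ((1000 * 102 ^ 2 * 64) * (j : ℝ) ^ 6) ≤ eps := by
    rw [heps]
    unfold qu
    have e1 : 1 / 1000 / (j : ℝ) ^ 6 ≤ pk j := by
      rw [div_div]; exact hkap
    have e2 : 1 / 102 * (q / 4 * ((1 / 102) ^ (pm j + 1) * (1 / 2))) ≤
        c1 (pk j) * (pfun (pl j) (1 / 100) (pk j) {pl j - 1} *
          (c1 (pk j) ^ (pm j + 1) * ce (pk j) (j ^ 3))) := by
      gcongr
    have e3 : 1 / 102 * (q / 4 * ((1 / (4 * X) ^ 4 * (1 / 102)) * (1 / 2))) ≤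
        1 / 102 * (q / 4 * ((1 / 102) ^ (pm j + 1) * (1 / 2))) := by
      rw [pow_succ (1 / 102 : ℝ) (pm j)]
      gcongr
    have e4 := le_trans e3 e2
    calc q * (1 / (4 * X) ^ 4) / ((1000 * 102 ^ 2 * 64) * (j : ℝ) ^ 6)
        = (1 / 1000 / (j : ℝ) ^ 6) *
          (1 / 102 * (q / 4 * ((1 / (4 * X) ^ 4 * (1 / 102)) * (1 / 2)))) / 8 := by
          field_simp; norm_num
      _ ≤ _ := by
          gcongr
  have heps0 : 0 < eps := lt_of_lt_of_le (by positivity) heps_ge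
  -- Lsum
  have e0 : (j + 1) ^ 3 - 2 = ((j + 1) ^ 3 - 3) + 1 := by omega
  have hLge := par_Lsum_ge (lam := lam) hlam0.le ((j + 1) ^ 3 - 3)
  rw [← e0] at hLge
  have hTL := par_T_le_Lsum ((j + 1) ^ 3) (by omega)
  rw [← hTdef'] at hTL
  set L := Lsum lam ((j + 1) ^ 3 - 2) with hL
  have hN4 : ((((j + 1) ^ 3 : ℕ) : ℝ) + 1) ^ 4 ≤ 6561 * (j : ℝ) ^ 12 := by
    have h1 : (((j + 1) ^ 3 : ℕ) : ℝ) + 1 ≤ 9 * (j : ℝ) ^ 3 := by
      push_cast
      have h2 : (1 : ℝ) ≤ (j : ℝ) ^ 3 := one_le_pow₀ (by linarith)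
      have h3 : ((j : ℝ) + 1) ^ 3 ≤ (2 * (j : ℝ)) ^ 3 := by
        apply pow_le_pow_left₀ (by positivity); linarith
      have h4 : (2 * (j : ℝ)) ^ 3 = 8 * (j : ℝ) ^ 3 := by ring
      linarith
    calc ((((j + 1) ^ 3 : ℕ) : ℝ) + 1) ^ 4 ≤ (9 * (j : ℝ) ^ 3) ^ 4 :=
          pow_le_pow_left₀ (by positivity) h1 4
      _ = 6561 * (j : ℝ) ^ 12 := by ring
  -- comparison of the factorial terms
  have hpl : (100 * lam) ^ (j ^ 3) * ((1 / 100) ^ ((j + 1) ^ 3 - 3) *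
      (((j + 1) ^ 3 - 3).factorial : ℝ)) ≤ L := by
    refine le_trans ?_ hLge
    have h1 : lam ^ ((j + 1) ^ 3 - 3) = (100 * lam) ^ ((j + 1) ^ 3 - 3) *
        (1 / 100) ^ ((j + 1) ^ 3 - 3) := by
      rw [← mul_pow]; congr 1; ring
    rw [h1, mul_assoc]
    gcongr ?_ * _
    apply pow_le_pow_right₀ hb.le
    omega
  have hbj : 0 < (100 * lam) ^ (j ^ 3) := by positivity
  have hTL2 : (100 * lam) ^ (j ^ 3) * T' ≤ (2 * Real.exp 100 * 6561) * (j : ℝ) ^ 12 * L := by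
    calc (100 * lam) ^ (j ^ 3) * T' ≤ (100 * lam) ^ (j ^ 3) * (2 * Real.exp 100 *
          ((((j + 1) ^ 3 : ℕ) : ℝ) + 1) ^ 4 *
          ((1 / 100) ^ ((j + 1) ^ 3 - 3) * (((j + 1) ^ 3 - 3).factorial : ℝ))) := by
          gcongr
      _ = 2 * Real.exp 100 * ((((j + 1) ^ 3 : ℕ) : ℝ) + 1) ^ 4 * ((100 * lam) ^ (j ^ 3) *
          ((1 / 100) ^ ((j + 1) ^ 3 - 3) * (((j + 1) ^ 3 - 3).factorial : ℝ))) := by ring
      _ ≤ 2 * Real.exp 100 * (6561 * (j : ℝ) ^ 12) * L := by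
          gcongr
      _ = _ := by ring
  have hLpos : 0 < L := by
    have h1 : 0 < (100 * lam) ^ (j ^ 3) * T' := by positivity
    have h2 : 0 < (2 * Real.exp 100 * 6561) * (j : ℝ) ^ 12 * L := lt_of_lt_of_le h1 hTL2
    exact pos_of_mul_pos_right h2 (by positivity)
  have hepsL : (100 * lam) ^ (j ^ 3) / ((4 * X) ^ 4 * C4 * (j : ℝ) ^ 18) ≤ eps * L := by
    have f2 : q ≤ eps * ((1000 * 102 ^ 2 * 64) * (j : ℝ) ^ 6) * (4 * X) ^ 4 := by
      rw [div_le_iff₀ (by positivity), mul_one_div, div_le_iff₀ (by positivity)] at heps_ge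
      linarith
    rw [div_le_iff₀ (by positivity)]
    calc (100 * lam) ^ (j ^ 3) = (100 * lam) ^ (j ^ 3) * 1 := (mul_one _).symm
      _ ≤ (100 * lam) ^ (j ^ 3) * (101 * T' * q) := by gcongr
      _ = 101 * q * ((100 * lam) ^ (j ^ 3) * T') := by ring
      _ ≤ 101 * (eps * ((1000 * 102 ^ 2 * 64) * (j : ℝ) ^ 6) * (4 * X) ^ 4) *
          ((2 * Real.exp 100 * 6561) * (j : ℝ) ^ 12 * L) := by
          gcongr
      _ = eps * L * ((4 * X) ^ 4 * C4 * (j : ℝ) ^ 18) := by rw [hC4]; ring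
  refine le_trans (par_afun_le hlam0 heps0 ((j + 1) ^ 3 - 2) (by omega)) ?_
  have g0 : (((j + 1) ^ 3 : ℕ) : ℝ) ≤ 8 * (j : ℝ) ^ 3 := by
    push_cast
    have h3 : ((j : ℝ) + 1) ^ 3 ≤ (2 * (j : ℝ)) ^ 3 := by
      apply pow_le_pow_left₀ (by positivity); linarith
    have h4 : (2 * (j : ℝ)) ^ 3 = 8 * (j : ℝ) ^ 3 := by ring
    linarith
  have g1 : (((j + 1) ^ 3 - 2 : ℕ) : ℝ) / (eps * L) ≤ 8 * C4 / (j : ℝ) ^ 3 := by
    have g2 : (((j + 1) ^ 3 - 2 : ℕ) : ℝ) ≤ 8 * (j : ℝ) ^ 3 := by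
      refine le_trans ?_ g0
      have : (j + 1) ^ 3 - 2 ≤ (j + 1) ^ 3 := Nat.sub_le _ _
      exact_mod_cast this
    have g9 : (4 * X) ^ 4 * (j : ℝ) ^ 24 ≤ (100 * lam) ^ (j ^ 3) := by
      refine le_trans ?_ hgrow
      have : (4 * X) ^ 4 ≤ (4 * X) ^ 5 := pow_le_pow_right₀ (by linarith) (by norm_num)
      exact mul_le_mul_of_nonneg_right this (pow_nonneg (by linarith) _)
    calc (((j + 1) ^ 3 - 2 : ℕ) : ℝ) / (eps * L)
        ≤ (8 * (j : ℝ) ^ 3) / ((100 * lam) ^ (j ^ 3) / ((4 * X) ^ 4 * C4 * (j : ℝ) ^ 18)) := by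
          apply div_le_div₀ (by positivity) g2 (by positivity) hepsL
      _ = 8 * C4 * ((4 * X) ^ 4 * (j : ℝ) ^ 21) / (100 * lam) ^ (j ^ 3) := by
          rw [div_div_eq_mul_div]
          congr 1
          ring
      _ ≤ 8 * C4 / (j : ℝ) ^ 3 := by
          rw [div_le_div_iff₀ (by positivity) (by positivity)]
          have g10 : (4 * X) ^ 4 * (j : ℝ) ^ 21 * (j : ℝ) ^ 3 = (4 * X) ^ 4 * (j : ℝ) ^ 24 := by
            rw [mul_assoc, ← pow_add]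
          calc 8 * C4 * ((4 * X) ^ 4 * (j : ℝ) ^ 21) * (j : ℝ) ^ 3
              = 8 * C4 * ((4 * X) ^ 4 * (j : ℝ) ^ 21 * (j : ℝ) ^ 3) := by ring
            _ = 8 * C4 * ((4 * X) ^ 4 * (j : ℝ) ^ 24) := by rw [g10]
            _ ≤ 8 * C4 * (100 * lam) ^ (j ^ 3) :=
                mul_le_mul_of_nonneg_left g9 (by positivity)
  have g3 : Lsum lam ((j + 1) ^ 3 - 2 - 1) / L ≤ 2 * C / (j : ℝ) ^ 3 := by
    refine le_trans (hratio ((j + 1) ^ 3 - 2) (by omega)) ?_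
    have g4 : (((j + 1) ^ 3 - 2 : ℕ) : ℝ) = (((j + 1) ^ 3 : ℕ) : ℝ) - 2 := by
      rw [Nat.cast_sub (by omega)]; push_cast; ring
    rw [g4]
    have g5 : (1000 : ℝ) ≤ (j : ℝ) ^ 3 := by exact_mod_cast hN3
    have g6 : (j : ℝ) ^ 3 + 3 ≤ (((j + 1) ^ 3 : ℕ) : ℝ) := by exact_mod_cast hN3'
    rw [div_le_div_iff₀ (by linarith) (by linarith)]
    nlinarith
  calc (((j + 1) ^ 3 - 2 : ℕ) : ℝ) / (eps * L) + Lsum lam ((j + 1) ^ 3 - 2 - 1) / L
      ≤ 8 * C4 / (j : ℝ) ^ 3 + 2 * C / (j : ℝ) ^ 3 := add_le_add g1 g3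
    _ = (8 * C4 + 2 * C) / (j : ℝ) ^ 3 := by ring
    _ ≤ 1 / ((j : ℝ) + 2) ^ 2 := by
      exact par_final (by positivity) hjr hjC

lemma ev_sub (lam : ℝ) (h0 : 0 < lam) (hlam : lam < 1 / 100) : ∀ᶠ j : ℕ in atTop,
    Tn lam ((j + 1) ^ 3) * qn (pl j) ≤ 1 := by
  have hb : 1 < 1 / (100 * lam) := by
    rw [lt_div_iff₀ (by positivity)]; linarith
  set D : ℝ := Real.exp (1 / lam) ^ 2 * 10 ^ 6 with hD
  have hDpos : 0 < D := by positivity
  filter_upwards [par_growth (1 / (100 * lam)) hb 1, eventually_ge_atTop 1,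
    (tendsto_natCast_atTop_atTop (R := ℝ)).eventually_ge_atTop D] with j hgrow hj1 hjD
  have hT := pTn_pos (j ^ 3)
  have hT' := pTn_pos ((j + 1) ^ 3)
  have hq := qn_nonneg (pl j)
  have hF := pl_hF j
  have hrat := par_T_ratio j
  have h250 := pow250_le hj1
  have hXpos : (2 : ℝ) ≤ pX j := by exact_mod_cast pX_pos hj1
  have hjr : (1 : ℝ) ≤ j := by exact_mod_cast hj1
  set q := qn (pl j) with hqdef
  set T := Tn (1 / 100) (j ^ 3) with hTdef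
  set T' := Tn (1 / 100) ((j + 1) ^ 3) with hTdef'
  set X := (pX j : ℝ) with hX
  set s : ℝ := (100 * lam) ^ (j ^ 3) with hs
  have hs0 : 0 < s := by positivity
  have hTT : Tn lam ((j + 1) ^ 3) ≤ Real.exp (1 / lam) * s * T' := by
    have h1 := par_useq_upper h0 ((j + 1) ^ 3)
    have h2 := par_useq_lower (lam := 1 / 100) (by norm_num) ((j + 1) ^ 3)
    have h3 : lam ^ ((j + 1) ^ 3) = (100 * lam) ^ ((j + 1) ^ 3) * (1 / 100) ^ ((j + 1) ^ 3) := by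
      rw [← mul_pow]; congr 1; ring
    have h4 : (100 * lam) ^ ((j + 1) ^ 3) ≤ s := by
      rw [hs]
      apply pow_le_pow_of_le_one (by positivity) (by linarith)
      exact Nat.pow_le_pow_left (Nat.le_succ j) 3
    rw [hTdef']
    unfold Tn
    calc 2 * useq lam ((j + 1) ^ 3)
        ≤ 2 * (Real.exp (1 / lam) * (lam ^ ((j + 1) ^ 3) * (((j + 1) ^ 3 + 1).factorial : ℝ))) := by
          linarith
      _ = 2 * (Real.exp (1 / lam) * (100 * lam) ^ ((j + 1) ^ 3) *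
          ((1 / 100) ^ ((j + 1) ^ 3) * (((j + 1) ^ 3 + 1).factorial : ℝ))) := by
          rw [h3]; ring
      _ ≤ 2 * (Real.exp (1 / lam) * s * useq (1 / 100) ((j + 1) ^ 3)) := by
          gcongr
      _ = _ := by ring
  have hTn0 : 0 ≤ Tn lam ((j + 1) ^ 3) := by
    unfold Tn; linarith [par_useq_pos h0.le ((j + 1) ^ 3)]
  -- T T' q^2 ≤ 10^6 * 250^m
  have hF2 : T * T' * q ^ 2 ≤ 10 ^ 6 * (4 * X) ^ 4 := by
    have h1 : (1 / 250 : ℝ) ^ pm j * (250 : ℝ) ^ pm j = 1 := by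
      rw [← mul_pow]; norm_num
    have h2 : pA j * (250 : ℝ) ^ pm j = 64 * (1 / 100) ^ 3 * (1 / 50) * T * T' := by
      unfold pA
      rw [← hTdef, ← hTdef', mul_assoc, h1, mul_one]
    have h3 : pA j * q ^ 2 * (250 : ℝ) ^ pm j ≤ 1 * (250 : ℝ) ^ pm j :=
      mul_le_mul_of_nonneg_right hF (by positivity)
    have h4 : pA j * q ^ 2 * (250 : ℝ) ^ pm j = 64 * (1 / 100) ^ 3 * (1 / 50) *
        (T * T' * q ^ 2) := by
      calc pA j * q ^ 2 * (250 : ℝ) ^ pm j = pA j * (250 : ℝ) ^ pm j * q ^ 2 := by ring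
        _ = _ := by rw [h2]; ring
    rw [h4] at h3
    have h5 : 0 ≤ T * T' * q ^ 2 := by positivity
    nlinarith
  have hT'T : T' ≤ X * T := by
    have h1 : (1 : ℝ) ≤ (j : ℝ) ^ 60 := one_le_pow₀ hjr
    nlinarith
  have hsq : (Tn lam ((j + 1) ^ 3) * q) ^ 2 ≤ 1 := by
    have h1 : (Tn lam ((j + 1) ^ 3) * q) ^ 2 ≤ (Real.exp (1 / lam) * s * T' * q) ^ 2 := by
      apply pow_le_pow_left₀ (by positivity)
      exact mul_le_mul_of_nonneg_right hTT hq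
    refine le_trans h1 ?_
    have h2 : T' * (T' * q ^ 2) ≤ X * (T * T' * q ^ 2) := by
      have : 0 ≤ T' * q ^ 2 := by positivity
      calc T' * (T' * q ^ 2) ≤ X * T * (T' * q ^ 2) := mul_le_mul_of_nonneg_right hT'T this
        _ = _ := by ring
    have hs1 : s ≤ 1 := by
      rw [hs]; exact pow_le_one₀ (by positivity) (by linarith)
    calc (Real.exp (1 / lam) * s * T' * q) ^ 2
        = Real.exp (1 / lam) ^ 2 * s ^ 2 * (T' * (T' * q ^ 2)) := by ring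
      _ ≤ Real.exp (1 / lam) ^ 2 * s ^ 2 * (X * (10 ^ 6 * (4 * X) ^ 4)) := by
          apply mul_le_mul_of_nonneg_left _ (by positivity)
          exact le_trans h2 (mul_le_mul_of_nonneg_left hF2 (by linarith))
      _ ≤ Real.exp (1 / lam) ^ 2 * (s * 1) * (X * (10 ^ 6 * (4 * X) ^ 4)) := by
          gcongr
          rw [sq]; exact mul_le_mul_of_nonneg_left hs1 hs0.le
      _ = D * (s * (X * (4 * X) ^ 4)) := by rw [hD]; ring
      _ ≤ (j : ℝ) * (s * ((4 * X) * (4 * X) ^ 4)) := by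
          gcongr
          linarith
      _ = s * ((4 * X) ^ 5 * (j : ℝ) ^ 1) := by ring
      _ ≤ s * (1 / (100 * lam)) ^ (j ^ 3) := by gcongr
      _ = 1 := by
          rw [hs, ← mul_pow, mul_one_div_cancel (by positivity), one_pow]
  by_contra hcon
  have h1 := not_le.mp hcon
  nlinarith

lemma par_hB {j : ℕ} (h : 10 ^ 12 * (250 : ℝ) ^ pm j ≤ Tn (1 / 100) (j ^ 3)) :
    16 * (1 / 100) ^ 2 * Tn (1 / 100) ((j + 1) ^ 3) * qn (pl j) ^ 2 ≤ 1 := by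
  have hF := pl_hF j
  have hT' := pTn_pos ((j + 1) ^ 3)
  have h3 : (1 / 250 : ℝ) ^ pm j * (250 : ℝ) ^ pm j = 1 := by
    rw [← mul_pow]; norm_num
  have h4 : 10 ^ 12 ≤ Tn (1 / 100) (j ^ 3) * (1 / 250 : ℝ) ^ pm j := by
    have h5 : (0 : ℝ) ≤ (1 / 250 : ℝ) ^ pm j := by positivity
    have h6 := mul_le_mul_of_nonneg_right h h5
    nlinarith
  refine le_trans ?_ hF
  apply mul_le_mul_of_nonneg_right _ (sq_nonneg _)
  unfold pA
  calc 16 * (1 / 100 : ℝ) ^ 2 * Tn (1 / 100) ((j + 1) ^ 3)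
      ≤ (64 * (1 / 100) ^ 3 * (1 / 50) * 10 ^ 12) * Tn (1 / 100) ((j + 1) ^ 3) := by
        apply mul_le_mul_of_nonneg_right _ (by linarith)
        norm_num
    _ ≤ (64 * (1 / 100) ^ 3 * (1 / 50) * (Tn (1 / 100) (j ^ 3) * (1 / 250 : ℝ) ^ pm j)) *
        Tn (1 / 100) ((j + 1) ^ 3) := by
        apply mul_le_mul_of_nonneg_right _ (by linarith)
        apply mul_le_mul_of_nonneg_left h4 (by norm_num)
    _ = _ := by ring

theorem exists_goodParams : ∃ (N m l : ℕ → ℕ) (kap : ℕ → ℝ), GoodParams N m l kap := by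
  obtain ⟨n0, hn0⟩ := eventually_atTop.mp (ev_pow250.and (ev_fwd.and (eventually_ge_atTop 2)))
  have hadd : ∀ n, n + 1 + n0 = (n + n0) + 1 := fun n => by ring
  refine ⟨fun n => (n + n0) ^ 3, fun n => pm (n + n0), fun n => pl (n + n0),
    fun n => pk (n + n0), ?_⟩
  constructor
  · intro n
    have := (hn0 (n + n0) (by omega)).2.2
    calc 4 ≤ 2 ^ 3 := by norm_num
      _ ≤ (n + n0) ^ 3 := Nat.pow_le_pow_left this 3
  · intro n
    have := (hn0 (n + n0) (by omega)).2.2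
    exact pm_pos (by omega)
  · intro n; exact pl_pos _
  · intro n; exact pk_pos _
  · intro n; exact pk_le _
  · intro n
    have := pl_hF (n + n0)
    unfold pA at this
    simp only [hadd]
    exact this
  · intro n
    simp only [hadd]
    exact par_hB (hn0 (n + n0) (by omega)).1
  · intro n
    exact Nat.pow_le_pow_left (by omega) 3
  · intro lam h0 h1
    obtain ⟨n1, hn1⟩ := eventually_atTop.mp (ev_sub lam h0 h1)
    refine ⟨n1, fun n hn => ?_⟩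
    simp only [hadd]
    exact hn1 (n + n0) (by omega)
  · intro n
    simp only [hadd]
    refine le_trans (hn0 (n + n0) (by omega)).2.1 ?_
    apply one_div_le_one_div_of_le (by positivity)
    apply pow_le_pow_left₀ (by positivity)
    push_cast
    have : (0 : ℝ) ≤ n0 := Nat.cast_nonneg _
    linarith
  · intro lam h1
    obtain ⟨n1, hn1⟩ := eventually_atTop.mp (ev_up lam h1)
    refine ⟨n1, fun n hn => ?_⟩
    simp only [hadd]
    refine le_trans (hn1 (n + n0) (by omega)) ?_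
    apply one_div_le_one_div_of_le (by positivity)
    apply pow_le_pow_left₀ (by positivity)
    push_cast
    have : (0 : ℝ) ≤ n0 := Nat.cast_nonneg _
    linarith

end Pool.Agent.CP
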