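import Mathlib
import Pool.Agent.Helper11.CP.GenLemmas
import Pool.Agent.Helper11.CP.PathFn

/-!
# Transport of path functions into a graph
-/

set_option autoImplicit false

namespace Pool.Agent.CP

open Finset

variable {V : Type*} [DecidableEq V] (nb : V → Finset V) (lam : ℝ)

/-- the positions `j < l` such that `e j` is infected -/
def pull (l : ℕ) (e : ℕ → V) (A : Finset V) : Finset ℕ := (range l).filter (fun j => e j ∈ A)

lemma mem_pull {l : ℕ} {e : ℕ → V} {A : Finset V} {j : ℕ} :
    j ∈ pull l e A ↔ j < l ∧ e j ∈ A := by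
  simp [pull]

lemma pull_subset (l : ℕ) (e : ℕ → V) (A : Finset V) : pull l e A ⊆ range l :=
  Finset.filter_subset _ _

lemma pull_mono {l : ℕ} {e : ℕ → V} {A B : Finset V} (h : A ⊆ B) : pull l e A ⊆ pull l e B := by
  intro j hj
  rw [mem_pull] at hj ⊢
  exact ⟨hj.1, h hj.2⟩

lemma pull_erase_of_notMem {l : ℕ} {e : ℕ → V} {A : Finset V} {x : V}
    (hx : ∀ j < l, e j ≠ x) : pull l e (A.erase x) = pull l e A := by
  ext j
  simp only [mem_pull, mem_erase]
  constructor
  · rintro ⟨h1, _, h3⟩; exact ⟨h1, h3⟩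
  · rintro ⟨h1, h3⟩; exact ⟨h1, hx j h1, h3⟩

lemma pull_insert_of_notMem {l : ℕ} {e : ℕ → V} {A : Finset V} {x : V}
    (hx : ∀ j < l, e j ≠ x) : pull l e (insert x A) = pull l e A := by
  ext j
  simp only [mem_pull, mem_insert]
  constructor
  · rintro ⟨h1, h2⟩
    exact ⟨h1, h2.resolve_left (hx j h1)⟩
  · rintro ⟨h1, h3⟩; exact ⟨h1, Or.inr h3⟩

lemma pull_erase_of_mem {l : ℕ} {e : ℕ → V} (he : ∀ j < l, ∀ j' < l, e j = e j' → j = j')
    {A : Finset V} {i : ℕ} (hi : i < l) : pull l e (A.erase (e i)) = (pull l e A).erase i := by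
  ext j
  simp only [mem_pull, mem_erase]
  constructor
  · rintro ⟨h1, h2, h3⟩
    exact ⟨fun h => h2 (by rw [h]), h1, h3⟩
  · rintro ⟨h1, h2, h3⟩
    exact ⟨h2, fun h => h1 (he j h2 i hi h), h3⟩

lemma pull_insert_of_mem {l : ℕ} {e : ℕ → V} (he : ∀ j < l, ∀ j' < l, e j = e j' → j = j')
    {A : Finset V} {i : ℕ} (hi : i < l) : pull l e (insert (e i) A) = insert i (pull l e A) := by
  ext j
  simp only [mem_pull, mem_insert]
  constructor
  · rintro ⟨h1, h2 | h2⟩
    · exact Or.inl (he j h1 i hi h2)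
    · exact Or.inr ⟨h1, h2⟩
  · rintro (h | ⟨h1, h2⟩)
    · exact ⟨h ▸ hi, Or.inl (by rw [h])⟩
    · exact ⟨h1, Or.inr h2⟩

/-- Data of a path embedded in the graph. -/
structure PathEmb (l : ℕ) (e : ℕ → V) : Prop where
  inj : ∀ j < l, ∀ j' < l, e j = e j' → j = j'
  adj : ∀ j < l, ∀ j' < l, (e j' ∈ nb (e j) ↔ j' ∈ pnb l j)

lemma pnb_subset (l j : ℕ) : pnb l j ⊆ range l := by
  intro i hi
  unfold pnb at hi
  rw [mem_union] at hi
  rw [mem_range]
  rcases hi with h | h
  · split_ifs at h with h1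
    · rw [mem_singleton] at h; omega
    · simp at h
  · split_ifs at h with h1
    · rw [mem_singleton] at h; omega
    · simp at h

/-- Formula for the generator of `g ∘ pull`. -/
lemma gen_pull_eq {l : ℕ} {e : ℕ → V} (hE : PathEmb nb l e) (g : Finset ℕ → ℝ) (A : Finset V) :
    gen nb lam (fun B => g (pull l e B)) A
      = ∑ j ∈ pull l e A, (g ((pull l e A).erase j) - g (pull l e A))
        + lam * ∑ j ∈ range l \ pull l e A,
          (infl nb A (e j) : ℝ) * (g (insert j (pull l e A)) - g (pull l e A)) := by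
  set Q : Finset V := (range l).image e with hQ
  have hQmem : ∀ x, x ∉ Q → ∀ j < l, e j ≠ x := by
    intro x hx j hj h
    exact hx (by rw [hQ, mem_image]; exact ⟨j, mem_range.mpr hj, h⟩)
  rw [gen_eq_of_local nb lam (fun B => g (pull l e B)) Q A]
  rotate_left
  · intro x _ hx
    simp only [pull_erase_of_notMem (hQmem x hx)]
  · intro x _ y _ hy
    simp only [pull_insert_of_notMem (hQmem y hy)]
  have hinj : Set.InjOn e (range l : Finset ℕ) := by
    intro i hi j hj h
    rw [Finset.mem_coe, mem_range] at hi hj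
    exact hE.inj i hi j hj h
  congr 1
  · have h1 : A ∩ Q = (pull l e A).image e := by
      ext x
      simp only [mem_inter, hQ, mem_image, mem_pull, mem_range]
      constructor
      · rintro ⟨hx, j, hj, rfl⟩; exact ⟨j, ⟨hj, hx⟩, rfl⟩
      · rintro ⟨j, ⟨hj, hx⟩, rfl⟩; exact ⟨hx, j, hj, rfl⟩
    rw [h1, Finset.sum_image]
    · refine Finset.sum_congr rfl (fun j hj => ?_)
      rw [mem_pull] at hj
      simp only [pull_erase_of_mem hE.inj hj.1]
    · intro i hi j hj h
      exact hinj (pull_subset l e A hi) (pull_subset l e A hj) h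
  · congr 1
    have h1 : Q \ A = (range l \ pull l e A).image e := by
      ext x
      simp only [mem_sdiff, hQ, mem_image, mem_pull, mem_range]
      constructor
      · rintro ⟨⟨j, hj, rfl⟩, hx⟩; exact ⟨j, ⟨hj, fun h => hx h.2⟩, rfl⟩
      · rintro ⟨j, ⟨hj, hx⟩, rfl⟩; exact ⟨⟨j, hj, rfl⟩, fun h => hx ⟨hj, h⟩⟩
    rw [h1, Finset.sum_image]
    · refine Finset.sum_congr rfl (fun j hj => ?_)
      rw [mem_sdiff, mem_range] at hj
      simp only [pull_insert_of_mem hE.inj hj.1]
    · intro i hi j hj h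
      exact hinj (mem_sdiff.mp hi).1 (mem_sdiff.mp hj).1 h

/-- Formula for the generator on the path itself. -/
lemma gen_pnb_eq (l : ℕ) (g : Finset ℕ → ℝ) (B : Finset ℕ) (hB : B ⊆ range l) :
    gen (pnb l) lam g B
      = ∑ j ∈ B, (g (B.erase j) - g B)
        + lam * ∑ j ∈ range l \ B, (infl (pnb l) B j : ℝ) * (g (insert j B) - g B) := by
  unfold gen
  congr 2
  rw [sum_nb_swap (pnb l) B (range l \ B) (fun y => g (insert y B) - g B)]
  intro x hx y hy hyn
  by_cases hyB : y ∈ B
  · rw [Finset.insert_eq_of_mem hyB]; ring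
  · exfalso
    exact hyn (mem_sdiff.mpr ⟨pnb_subset l x hy, hyB⟩)

lemma infl_pull_le {l : ℕ} {e : ℕ → V} (hE : PathEmb nb l e) (A : Finset V) {j : ℕ} (hj : j < l) :
    infl (pnb l) (pull l e A) j ≤ infl nb A (e j) := by
  unfold infl
  have : ((pull l e A).filter (fun x => j ∈ pnb l x)).image e ⊆ A.filter (fun x => e j ∈ nb x) := by
    intro x hx
    rw [mem_image] at hx
    obtain ⟨i, hi, rfl⟩ := hx
    rw [mem_filter, mem_pull] at hi
    rw [mem_filter]
    exact ⟨hi.1.2, (hE.adj i hi.1.1 j hj).mpr hi.2⟩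
  calc _ = (((pull l e A).filter (fun x => j ∈ pnb l x)).image e).card := by
        rw [Finset.card_image_of_injOn]
        intro i hi k hk h
        rw [Finset.mem_coe, mem_filter, mem_pull] at hi hk
        exact hE.inj i hi.1.1 k hk.1.1 h
    _ ≤ _ := Finset.card_le_card this

lemma infl_le_pull {l : ℕ} {e : ℕ → V} (hE : PathEmb nb l e) (A : Finset V) {j : ℕ} (hj : j < l)
    (E : ℕ) (hext : (A.filter (fun x => e j ∈ nb x ∧ ∀ i < l, e i ≠ x)).card ≤ E) :
    infl nb A (e j) ≤ infl (pnb l) (pull l e A) j + E := by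
  unfold infl
  have : A.filter (fun x => e j ∈ nb x) ⊆
      ((pull l e A).filter (fun x => j ∈ pnb l x)).image e
        ∪ A.filter (fun x => e j ∈ nb x ∧ ∀ i < l, e i ≠ x) := by
    intro x hx
    rw [mem_filter] at hx
    rw [mem_union]
    by_cases h : ∀ i < l, e i ≠ x
    · right; rw [mem_filter]; exact ⟨hx.1, hx.2, h⟩
    · left
      push Not at h
      obtain ⟨i, hi, rfl⟩ := h
      rw [mem_image]
      refine ⟨i, ?_, rfl⟩
      rw [mem_filter, mem_pull]
      exact ⟨⟨hi, hx.1⟩, (hE.adj i hi j hj).mp hx.2⟩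
  calc _ ≤ (((pull l e A).filter (fun x => j ∈ pnb l x)).image e
        ∪ A.filter (fun x => e j ∈ nb x ∧ ∀ i < l, e i ≠ x)).card := Finset.card_le_card this
    _ ≤ _ := Finset.card_union_le _ _
    _ ≤ _ := Nat.add_le_add Finset.card_image_le hext

/-- Upper bound for the generator of a monotone subadditive path function. -/
lemma gen_pull_le {l : ℕ} {e : ℕ → V} (hE : PathEmb nb l e) (hlam : 0 ≤ lam) (g : Finset ℕ → ℝ)
    (hmono : ∀ A B, A ⊆ B → g A ≤ g B) (hsub : ∀ A B, g (A ∪ B) ≤ g A + g B)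
    (A : Finset V) (E : ℕ → ℕ)
    (hext : ∀ j < l, (A.filter (fun x => e j ∈ nb x ∧ ∀ i < l, e i ≠ x)).card ≤ E j) :
    gen nb lam (fun B => g (pull l e B)) A
      ≤ gen (pnb l) lam g (pull l e A) + lam * ∑ j ∈ range l, (E j : ℝ) * g {j} := by
  rw [gen_pull_eq nb lam hE, gen_pnb_eq lam l g _ (pull_subset l e A)]
  have hg0 : ∀ j, 0 ≤ g {j} := by
    intro j
    have h1 := hmono ∅ {j} (Finset.empty_subset _)
    have h2 := hsub ∅ ∅
    rw [Finset.empty_union] at h2
    linarith
  have hins : ∀ j, 0 ≤ g (insert j (pull l e A)) - g (pull l e A) ∧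
      g (insert j (pull l e A)) - g (pull l e A) ≤ g {j} := by
    intro j
    constructor
    · have := hmono _ _ (Finset.subset_insert j (pull l e A)); linarith
    · have := hsub {j} (pull l e A)
      rw [← Finset.insert_eq] at this; linarith
  have key : ∑ j ∈ range l \ pull l e A,
          (infl nb A (e j) : ℝ) * (g (insert j (pull l e A)) - g (pull l e A))
      ≤ ∑ j ∈ range l \ pull l e A,
          (infl (pnb l) (pull l e A) j : ℝ) * (g (insert j (pull l e A)) - g (pull l e A))
        + ∑ j ∈ range l, (E j : ℝ) * g {j} := by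
    have h1 : ∑ j ∈ range l \ pull l e A, (E j : ℝ) * g {j} ≤ ∑ j ∈ range l, (E j : ℝ) * g {j} :=
      Finset.sum_le_sum_of_subset_of_nonneg Finset.sdiff_subset
        (fun j _ _ => mul_nonneg (Nat.cast_nonneg _) (hg0 j))
    refine le_trans ?_ (add_le_add_right h1 _)
    rw [← Finset.sum_add_distrib]
    refine Finset.sum_le_sum (fun j hj => ?_)
    rw [mem_sdiff, mem_range] at hj
    have h2 := infl_le_pull nb hE A hj.1 (E j) (hext j hj.1)
    have h3 : (infl nb A (e j) : ℝ) ≤ infl (pnb l) (pull l e A) j + E j := by exact_mod_cast h2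
    have h4 := mul_le_mul_of_nonneg_right h3 (hins j).1
    have h5 := mul_le_mul_of_nonneg_left (hins j).2 (Nat.cast_nonneg (E j) (α := ℝ))
    linarith
  have := mul_le_mul_of_nonneg_left key hlam
  linarith

/-- Lower bound for the generator of a monotone path function. -/
lemma gen_pull_ge {l : ℕ} {e : ℕ → V} (hE : PathEmb nb l e) (hlam : 0 ≤ lam) (g : Finset ℕ → ℝ)
    (hmono : ∀ A B, A ⊆ B → g A ≤ g B) (A : Finset V) :
    gen (pnb l) lam g (pull l e A) ≤ gen nb lam (fun B => g (pull l e B)) A := by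
  rw [gen_pull_eq nb lam hE, gen_pnb_eq lam l g _ (pull_subset l e A)]
  have key : ∑ j ∈ range l \ pull l e A,
          (infl (pnb l) (pull l e A) j : ℝ) * (g (insert j (pull l e A)) - g (pull l e A))
      ≤ ∑ j ∈ range l \ pull l e A,
          (infl nb A (e j) : ℝ) * (g (insert j (pull l e A)) - g (pull l e A)) := by
    refine Finset.sum_le_sum (fun j hj => ?_)
    rw [mem_sdiff, mem_range] at hj
    have h2 := infl_pull_le nb hE A hj.1
    have h3 : (infl (pnb l) (pull l e A) j : ℝ) ≤ infl nb A (e j) := by exact_mod_cast h2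
    have := hmono _ _ (Finset.subset_insert j (pull l e A))
    exact mul_le_mul_of_nonneg_right h3 (by linarith)
  have := mul_le_mul_of_nonneg_left key hlam
  linarith

/-- Lower bound for a function `v` touched from below by `c * p ∘ pull`, where `p` is the crossing
function, when the vertex `t` is the target of the path. -/
lemma gen_path_witness {l : ℕ} {e : ℕ → V} (hE : PathEmb nb l e) (hl : 0 < l)
    {lam0 kap c : ℝ} (hlam0 : 0 < lam0) (hkap : 0 ≤ kap) (hc : 0 ≤ c) (hlam : lam0 ≤ lam)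
    (v : Finset V → ℝ) (A : Finset V) (t : V)
    (hte : ∀ j < l, e j ≠ t) (htA : t ∉ A) (htnb : t ∈ nb (e 0))
    (hv : v A = c * pfun l lam0 kap (pull l e A))
    (hvp : ∀ B, c * pfun l lam0 kap (pull l e B) ≤ v B)
    (hvt : ∀ B, t ∈ B → c ≤ v B) :
    kap * v A ≤ gen nb lam v A := by
  obtain ⟨p0, p1, pe, pmono, psub, ptr, peq, -⟩ := pfun_spec l lam0 kap hlam0 hkap
  set p := pfun l lam0 kap with hp
  have hlam' : 0 ≤ lam := le_trans hlam0.le hlam
  set φ : Finset V → ℝ := fun B => if t ∈ B then c else c * p (pull l e B) with hφ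
  have htouch : gen nb lam φ A ≤ gen nb lam v A := by
    have hle : ∀ B, φ B ≤ v B := by
      intro B
      simp only [hφ]
      split_ifs with h
      · exact hvt B h
      · exact hvp B
    apply gen_le_of_touch nb lam hlam'
    · rw [hv]; simp only [hφ]; rw [if_neg htA]
    · intro x _; exact hle _
    · intro x _ y _; exact hle _
  -- compute gen φ A
  have hpull : gen (pnb l) lam0 p (pull l e A) ≤ gen nb lam (fun B => p (pull l e B)) A := by
    refine le_trans ?_ (gen_pull_ge nb lam hE hlam' p pmono A)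
    apply gen_mono_lam (pnb l) hlam
    intro x _ y _
    exact pmono _ _ (Finset.subset_insert _ _)
  have heq := peq (pull l e A) (pull_subset l e A)
  have hcomp : gen nb lam (fun B => c * p (pull l e B)) A
      + lam * (infl nb A t : ℝ) * (c - c * p (pull l e A)) ≤ gen nb lam φ A := by
    unfold gen
    have e1 : ∑ x ∈ A, (φ (A.erase x) - φ A)
        = ∑ x ∈ A, (c * p (pull l e (A.erase x)) - c * p (pull l e A)) := by
      refine Finset.sum_congr rfl (fun x _ => ?_)
      simp only [hφ]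
      rw [if_neg htA, if_neg (fun h => htA (mem_of_mem_erase h))]
    have hsw : (infl nb A t : ℝ) * (c - c * p (pull l e A))
        = ∑ x ∈ A, ∑ y ∈ nb x, (if y = t then (c - c * p (pull l e A)) else 0) := by
      rw [sum_nb_swap nb A {t} (fun y => if y = t then (c - c * p (pull l e A)) else 0)]
      · rw [Finset.sum_singleton, if_pos rfl]
      · intro x _ y _ hy
        rw [mem_singleton] at hy; rw [if_neg hy]
    have e2 : ∑ x ∈ A, ∑ y ∈ nb x, (φ (insert y A) - φ A)
        = ∑ x ∈ A, ∑ y ∈ nb x, (c * p (pull l e (insert y A)) - c * p (pull l e A))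
          + (infl nb A t : ℝ) * (c - c * p (pull l e A)) := by
      rw [hsw, ← Finset.sum_add_distrib]
      refine Finset.sum_congr rfl (fun x _ => ?_)
      rw [← Finset.sum_add_distrib]
      refine Finset.sum_congr rfl (fun y _ => ?_)
      simp only [hφ]
      by_cases hy : y = t
      · subst hy
        rw [if_pos (mem_insert_self _ _), if_neg htA, if_pos rfl,
          pull_insert_of_notMem hte]
        ring
      · rw [if_neg htA, if_neg hy, if_neg, add_zero]
        intro h
        rcases mem_insert.mp h with h | h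
        · exact hy h.symm
        · exact htA h
    rw [e1, e2]
    apply le_of_eq; ring
  have hinfl : (if 0 ∈ pull l e A ∧ 0 < l then (1 : ℝ) else 0) ≤ (infl nb A t : ℝ) := by
    split_ifs with h
    · have h0 : e 0 ∈ A := (mem_pull.mp h.1).2
      have : 1 ≤ infl nb A t := by
        unfold infl
        exact Finset.card_pos.mpr ⟨e 0, mem_filter.mpr ⟨h0, htnb⟩⟩
      exact_mod_cast this
    · exact Nat.cast_nonneg _
  have hpA1 := p1 (pull l e A)
  rw [gen_const_mul] at hcomp
  have h1 : c * gen (pnb l) lam0 p (pull l e A) ≤ c * gen nb lam (fun B => p (pull l e B)) A :=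
    mul_le_mul_of_nonneg_left hpull hc
  have h2 : lam0 * (if 0 ∈ pull l e A ∧ 0 < l then 1 - p (pull l e A) else 0) * c
      ≤ lam * (infl nb A t : ℝ) * (c - c * p (pull l e A)) := by
    have h3 : (if 0 ∈ pull l e A ∧ 0 < l then 1 - p (pull l e A) else 0)
        = (if 0 ∈ pull l e A ∧ 0 < l then (1 : ℝ) else 0) * (1 - p (pull l e A)) := by
      split_ifs <;> ring
    rw [h3]
    have h4 : 0 ≤ (1 - p (pull l e A)) * c := mul_nonneg (by linarith) hc
    have h5 : (0 : ℝ) ≤ (if 0 ∈ pull l e A ∧ 0 < l then (1 : ℝ) else 0) := by split_ifs <;> norm_num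
    have h6 : lam0 * (if 0 ∈ pull l e A ∧ 0 < l then (1 : ℝ) else 0) ≤ lam * (infl nb A t : ℝ) :=
      mul_le_mul hlam hinfl h5 hlam'
    have := mul_le_mul_of_nonneg_right h6 h4
    linarith
  rw [hv]
  nlinarith [h1, h2, hcomp, htouch, heq]

/-- Lower bound for a function `v` attaining its value at an infected vertex. -/
lemma gen_vertex_witness (hlam : 0 ≤ lam) (v : Finset V → ℝ) (A : Finset V) (x0 : V) (hx0 : x0 ∈ A)
    (r' : ℝ) (C : Finset V) (hC : C ⊆ nb x0)
    (hmono : ∀ x ∈ A, ∀ y ∈ nb x, v A ≤ v (insert y A))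
    (h0 : 0 ≤ v (A.erase x0)) (h1 : ∀ x ∈ A, x ≠ x0 → v A ≤ v (A.erase x))
    (h2 : ∀ y ∈ C, r' ≤ v (insert y A)) :
    - v A + lam * (C.card * (r' - v A)) ≤ gen nb lam v A := by
  unfold gen
  have e1 : - v A ≤ ∑ x ∈ A, (v (A.erase x) - v A) := by
    rw [← Finset.add_sum_erase A _ hx0]
    have : 0 ≤ ∑ x ∈ A.erase x0, (v (A.erase x) - v A) :=
      Finset.sum_nonneg (fun x hx => by
        rw [mem_erase] at hx
        linarith [h1 x hx.2 hx.1])
    linarith
  have e2 : (C.card : ℝ) * (r' - v A) ≤ ∑ x ∈ A, ∑ y ∈ nb x, (v (insert y A) - v A) := by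
    have h3 : ∑ y ∈ nb x0, (v (insert y A) - v A) ≤ ∑ x ∈ A, ∑ y ∈ nb x, (v (insert y A) - v A) :=
      Finset.single_le_sum (f := fun x => ∑ y ∈ nb x, (v (insert y A) - v A))
        (fun x hx => Finset.sum_nonneg (fun y hy => by linarith [hmono x hx y hy])) hx0
    have h4 : ∑ y ∈ C, (v (insert y A) - v A) ≤ ∑ y ∈ nb x0, (v (insert y A) - v A) :=
      Finset.sum_le_sum_of_subset_of_nonneg hC
        (fun y hy _ => by linarith [hmono x0 hx0 y hy])
    have h5 : (C.card : ℝ) * (r' - v A) ≤ ∑ y ∈ C, (v (insert y A) - v A) := by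
      rw [← nsmul_eq_mul, ← Finset.sum_const]
      exact Finset.sum_le_sum (fun y hy => by linarith [h2 y hy])
    linarith
  have := mul_le_mul_of_nonneg_left e2 hlam
  linarith

end Pool.Agent.CP
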