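import Mathlib
import Pool.Agent.Helper11.CP.PathGen

/-!
# The graph
-/

set_option autoImplicit false

namespace Pool.Agent.CP

open Finset

/-- Vertices: `cl n x i` is the `i`-th vertex of the `x`-th cluster (complete graph) of level `n`,
`hb n k x` is the `x`-th vertex at depth `k` of the hubs (trees) of level `n`, and `pa n j x` is
the `j`-th vertex of the `x`-th long path of level `n`. -/
inductive Vx where
  | cl (n x i : ℕ)
  | hb (n k x : ℕ)
  | pa (n j x : ℕ)
  deriving DecidableEq

/-- Number of clusters of level `n`. -/
def W (m : ℕ → ℕ) : ℕ → ℕ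
  | 0 => 1
  | (n + 1) => W m n * 16 ^ (m n)

lemma W_pos (m : ℕ → ℕ) (n : ℕ) : 0 < W m n := by
  induction n with
  | zero => exact Nat.one_pos
  | succ n ih => exact Nat.mul_pos ih (pow_pos (by norm_num) _)

variable (N m l : ℕ → ℕ)

/-- The vertices of the graph. -/
def valid : Vx → Prop
  | .cl n x i => x < W m n ∧ i < N n
  | .hb n k x => k ≤ m n ∧ x < W m n * 16 ^ k
  | .pa n j x => j < l n ∧ x < W m (n + 1)

instance : DecidablePred (valid N m l) := fun v => by
  cases v <;> unfold valid <;> infer_instance

/-- The last vertex of the path leading to the `x`-th cluster of level `n`. -/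
def upv : ℕ → ℕ → Finset Vx
  | 0, _ => ∅
  | (n + 1), x => {.pa n (l n - 1) x}

/-- The vertex above `hb n k x`. -/
def hup (n : ℕ) : ℕ → ℕ → Vx
  | 0, x => .cl n x (N n - 1)
  | (k + 1), x => .hb n k (x / 16)

/-- The vertices below `hb n k x`. -/
def hdown (n k x : ℕ) : Finset Vx :=
  if k < m n then (range 16).image (fun d => .hb n (k + 1) (16 * x + d)) else {.pa n 0 x}

/-- The vertex above `pa n j x`. -/
def pup (n : ℕ) : ℕ → ℕ → Vx
  | 0, x => .hb n (m n) x
  | (j + 1), x => .pa n j x

/-- The vertex below `pa n j x`. -/
def pdown (n j x : ℕ) : Vx :=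
  if j + 1 < l n then .pa n (j + 1) x else .cl (n + 1) x 0

/-- Neighbours (for vertices of the graph). -/
def nb0 : Vx → Finset Vx
  | .cl n x i => ((range (N n)).erase i).image (.cl n x)
      ∪ ((if i + 1 = N n then {.hb n 0 x} else ∅) ∪ (if i = 0 then upv l n x else ∅))
  | .hb n k x => {hup N n k x} ∪ hdown m n k x
  | .pa n j x => {pup m n j x} ∪ {pdown l n j x}

/-- Neighbours. -/
def nbG (v : Vx) : Finset Vx := if valid N m l v then nb0 N m l v else ∅

/-- Adjacency downwards (from the root) or inside a cluster. -/
def down : Vx → Vx → Prop
  | .cl n x i, .cl n' x' i' => n = n' ∧ x = x' ∧ i ≠ i'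
  | .cl n x i, .hb n' k x' => n = n' ∧ k = 0 ∧ x = x' ∧ i + 1 = N n
  | .cl _ _ _, .pa _ _ _ => False
  | .hb _ _ _, .cl _ _ _ => False
  | .hb n k x, .hb n' k' x' => n = n' ∧ k' = k + 1 ∧ x = x' / 16
  | .hb n k x, .pa n' j x' => n = n' ∧ k = m n ∧ j = 0 ∧ x = x'
  | .pa n j x, .cl n' x' i => n' = n + 1 ∧ i = 0 ∧ x = x' ∧ j + 1 = l n
  | .pa _ _ _, .hb _ _ _ => False
  | .pa n j x, .pa n' j' x' => n = n' ∧ j' = j + 1 ∧ x = x'

lemma mem_nbG_iff (hl : ∀ n, 1 ≤ l n) (hN : ∀ n, 1 ≤ N n) (v w : Vx) :
    w ∈ nbG N m l v ↔ valid N m l v ∧ valid N m l w ∧ (down N m l v w ∨ down N m l w v) := by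
  unfold nbG
  by_cases hv : valid N m l v
  swap
  · rw [if_neg hv]; simp [hv]
  rw [if_pos hv]
  simp only [hv, true_and]
  cases v with
  | cl n x i =>
    obtain ⟨hx, hi⟩ := hv
    cases w with
    | cl n' x' i' =>
      simp only [nb0, mem_union, mem_image, mem_erase, mem_range, Vx.cl.injEq, valid, down]
      constructor
      · rintro (⟨a, ⟨h1, h2⟩, h3, h4, h5⟩ | h | h)
        · subst h3; subst h4; subst h5
          exact ⟨⟨hx, h2⟩, Or.inl ⟨rfl, rfl, fun h => h1 h.symm⟩⟩
        · split_ifs at h <;> simp at h
        · exfalso
          split_ifs at h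
          · cases n with
            | zero => simp [upv] at h
            | succ n => simp [upv] at h
          · simp at h
      · rintro ⟨⟨h1, h2⟩, ⟨h3, h4, h5⟩ | ⟨h3, h4, h5⟩⟩
        · subst h3; subst h4
          exact Or.inl ⟨i', ⟨fun h => h5 h.symm, h2⟩, rfl, rfl, rfl⟩
        · subst h3; subst h4
          exact Or.inl ⟨i', ⟨h5, h2⟩, rfl, rfl, rfl⟩
    | hb n' k x' =>
      simp only [nb0, mem_union, mem_image, mem_erase, mem_range, valid, down, or_false, reduceCtorEq,
        and_false, exists_false, false_or]
      constructor
      · rintro (h | h)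
        · split_ifs at h with h1
          · rw [mem_singleton, Vx.hb.injEq] at h
            obtain ⟨h2, h3, h4⟩ := h
            subst h2; subst h3; subst h4
            exact ⟨⟨Nat.zero_le _, by simpa using hx⟩, rfl, rfl, rfl, h1⟩
          · simp at h
        · exfalso
          split_ifs at h
          · cases n with
            | zero => simp [upv] at h
            | succ n => simp [upv] at h
          · simp at h
      · rintro ⟨⟨h1, h2⟩, h3, h4, h5, h6⟩
        subst h3; subst h4; subst h5
        left; rw [if_pos h6]; exact mem_singleton_self _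
    | pa n' j x' =>
      simp only [nb0, mem_union, mem_image, mem_erase, mem_range, valid, down, false_or, reduceCtorEq,
        and_false, exists_false]
      constructor
      · rintro (h | h)
        · split_ifs at h <;> simp at h
        · split_ifs at h with h1
          · cases n with
            | zero => simp [upv] at h
            | succ n =>
              simp only [upv, mem_singleton, Vx.pa.injEq] at h
              obtain ⟨h2, h3, h4⟩ := h
              subst h2; subst h3; subst h4
              have := hl n'
              exact ⟨⟨by omega, hx⟩, rfl, h1, rfl, by omega⟩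
          · simp at h
      · rintro ⟨⟨h1, h2⟩, h3, h4, h5, h6⟩
        subst h3; subst h4; subst h5
        right
        rw [if_pos rfl]
        simp only [upv, mem_singleton, Vx.pa.injEq]
        exact ⟨trivial, by omega, trivial⟩
  | hb n k x =>
    obtain ⟨hk, hx⟩ := hv
    cases w with
    | cl n' x' i' =>
      simp only [nb0, mem_union, mem_singleton, valid, down, false_or]
      constructor
      · rintro (h | h)
        · cases k with
          | zero =>
            simp only [hup, Vx.cl.injEq] at h
            obtain ⟨h2, h3, h4⟩ := h
            subst h2; subst h3; subst h4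
            have := hN n'
            exact ⟨⟨by simpa using hx, by omega⟩, rfl, rfl, rfl, by omega⟩
          | succ k => simp [hup] at h
        · exfalso
          unfold hdown at h
          split_ifs at h
          · simp at h
          · simp at h
      · rintro ⟨⟨h1, h2⟩, h3, h4, h5, h6⟩
        subst h3; subst h4; subst h5
        left
        simp only [hup, Vx.cl.injEq]
        exact ⟨trivial, trivial, by omega⟩
    | hb n' k' x' =>
      simp only [nb0, mem_union, mem_singleton, valid, down]
      constructor
      · rintro (h | h)
        · cases k with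
          | zero => simp [hup] at h
          | succ k =>
            simp only [hup, Vx.hb.injEq] at h
            obtain ⟨h2, h3, h4⟩ := h
            subst h2; subst h3; subst h4
            refine ⟨⟨by omega, ?_⟩, Or.inr ⟨rfl, rfl, rfl⟩⟩
            rw [Nat.div_lt_iff_lt_mul (by norm_num)]
            calc x < W m n' * 16 ^ (k' + 1) := hx
              _ = W m n' * 16 ^ k' * 16 := by rw [pow_succ]; ring
        · unfold hdown at h
          split_ifs at h with h1
          · simp only [mem_image, mem_range, Vx.hb.injEq] at h
            obtain ⟨d, hd, h2, h3, h4⟩ := h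
            subst h2; subst h3; subst h4
            refine ⟨⟨by omega, ?_⟩, Or.inl ⟨rfl, rfl, by omega⟩⟩
            calc 16 * x + d < 16 * (x + 1) := by omega
              _ ≤ 16 * (W m n * 16 ^ k) := Nat.mul_le_mul_left _ hx
              _ = W m n * 16 ^ (k + 1) := by rw [pow_succ]; ring
          · simp at h
      · rintro ⟨⟨h1, h2⟩, ⟨h3, h4, h5⟩ | ⟨h3, h4, h5⟩⟩
        · subst h3; subst h4; subst h5
          right
          unfold hdown
          rw [if_pos (by omega)]
          simp only [mem_image, mem_range, Vx.hb.injEq]
          exact ⟨x' % 16, Nat.mod_lt _ (by norm_num), trivial, trivial, by omega⟩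
        · subst h3; subst h4; subst h5
          left; simp only [hup]
    | pa n' j x' =>
      simp only [nb0, mem_union, mem_singleton, valid, down, or_false]
      constructor
      · rintro (h | h)
        · cases k with
          | zero => simp [hup] at h
          | succ k => simp [hup] at h
        · unfold hdown at h
          split_ifs at h with h1
          · simp at h
          · simp only [mem_singleton, Vx.pa.injEq] at h
            obtain ⟨h2, h3, h4⟩ := h
            subst h2; subst h3; subst h4
            have hkm : k = m n' := by omega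
            subst hkm
            have := hl n'
            exact ⟨⟨by omega, hx⟩, rfl, rfl, rfl, rfl⟩
      · rintro ⟨⟨h1, h2⟩, h3, h4, h5, h6⟩
        subst h3; subst h4; subst h5; subst h6
        right
        unfold hdown
        rw [if_neg (lt_irrefl _)]
        exact mem_singleton_self _
  | pa n j x =>
    obtain ⟨hj, hx⟩ := hv
    cases w with
    | cl n' x' i' =>
      simp only [nb0, mem_union, mem_singleton, valid, down, or_false]
      constructor
      · rintro (h | h)
        · cases j with
          | zero => simp [pup] at h
          | succ j => simp [pup] at h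
        · unfold pdown at h
          split_ifs at h with h1
          simp only [Vx.cl.injEq] at h
          obtain ⟨h2, h3, h4⟩ := h
          subst h2; subst h3; subst h4
          have := hN (n + 1)
          exact ⟨⟨hx, by omega⟩, rfl, rfl, rfl, by omega⟩
      · rintro ⟨⟨h1, h2⟩, h3, h4, h5, h6⟩
        subst h3; subst h4; subst h5
        right
        unfold pdown
        rw [if_neg (by omega)]
    | hb n' k' x' =>
      simp only [nb0, mem_union, mem_singleton, valid, down, false_or]
      constructor
      · rintro (h | h)
        · cases j with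
          | zero =>
            simp only [pup, Vx.hb.injEq] at h
            obtain ⟨h2, h3, h4⟩ := h
            subst h2; subst h3; subst h4
            exact ⟨⟨le_rfl, hx⟩, rfl, rfl, rfl, rfl⟩
          | succ j => simp [pup] at h
        · unfold pdown at h
          split_ifs at h
      · rintro ⟨⟨h1, h2⟩, h3, h4, h5, h6⟩
        subst h3; subst h4; subst h5; subst h6
        left; simp only [pup]
    | pa n' j' x' =>
      simp only [nb0, mem_union, mem_singleton, valid, down]
      constructor
      · rintro (h | h)
        · cases j with
          | zero => simp [pup] at h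
          | succ j =>
            simp only [pup, Vx.pa.injEq] at h
            obtain ⟨h2, h3, h4⟩ := h
            subst h2; subst h3; subst h4
            exact ⟨⟨by omega, hx⟩, Or.inr ⟨rfl, rfl, rfl⟩⟩
        · unfold pdown at h
          split_ifs at h with h1
          simp only [Vx.pa.injEq] at h
          obtain ⟨h2, h3, h4⟩ := h
          subst h2; subst h3; subst h4
          exact ⟨⟨h1, hx⟩, Or.inl ⟨rfl, rfl, rfl⟩⟩
      · rintro ⟨⟨h1, h2⟩, ⟨h3, h4, h5⟩ | ⟨h3, h4, h5⟩⟩
        · subst h3; subst h4; subst h5
          right; unfold pdown; rw [if_pos h1]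
        · subst h3; subst h4; subst h5
          left; simp only [pup]

lemma nbG_symm (hl : ∀ n, 1 ≤ l n) (hN : ∀ n, 1 ≤ N n) {v w : Vx} (h : w ∈ nbG N m l v) :
    v ∈ nbG N m l w := by
  rw [mem_nbG_iff N m l hl hN] at h ⊢
  exact ⟨h.2.1, h.1, h.2.2.symm⟩

end Pool.Agent.CP
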