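import Mathlib
import Pool.Agent.Helper11.CP.Graph

/-!
# The long paths inside the graph
-/

set_option autoImplicit false

namespace Pool.Agent.CP

open Finset

variable (N m l : ℕ → ℕ)

/-- indicator -/
def ind {V : Type*} [DecidableEq V] (A : Finset V) (v : V) : ℝ := if v ∈ A then 1 else 0

lemma ind_nonneg {V : Type*} [DecidableEq V] (A : Finset V) (v : V) : 0 ≤ ind A v := by
  unfold ind; split_ifs <;> norm_num

lemma ind_le_one {V : Type*} [DecidableEq V] (A : Finset V) (v : V) : ind A v ≤ 1 := by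
  unfold ind; split_ifs <;> norm_num

lemma ite_and_mul_ind {V : Type*} [DecidableEq V] (A : Finset V) (v : V) (j i : ℕ)
    (g : Finset ℕ → ℝ) :
    (if j = i ∧ v ∈ A then (1 : ℝ) else 0) * g {j} = if j = i then ind A v * g {i} else 0 := by
  unfold ind
  by_cases h : j = i
  · subst h
    by_cases h2 : v ∈ A
    · simp [h2]
    · simp [h2]
  · simp [h]

/-- path read from the hub -/
def eup (n y : ℕ) : ℕ → Vx := fun j => .pa n j y

/-- path read from the cluster of the next level -/
def edn (n y : ℕ) : ℕ → Vx := fun j => .pa n (l n - 1 - j) y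

variable (hl : ∀ n, 1 ≤ l n) (hN : ∀ n, 1 ≤ N n)
include hl hN

lemma pathEmb_up (n y : ℕ) (hy : y < W m (n + 1)) :
    PathEmb (nbG N m l) (l n) (eup n y) where
  inj := by
    intro j _ j' _ h
    simp only [eup, Vx.pa.injEq] at h
    exact h.2.1
  adj := by
    intro j hj j' hj'
    rw [mem_nbG_iff N m l hl hN]
    simp only [eup, valid, down, pnb, mem_union]
    constructor
    · rintro ⟨_, _, ⟨_, h, _⟩ | ⟨_, h, _⟩⟩
      · right; rw [if_pos (by omega)]; rw [mem_singleton]; exact h
      · left; rw [if_pos (by omega)]; rw [mem_singleton]; omega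
    · rintro (h | h)
      · split_ifs at h with h1
        · rw [mem_singleton] at h
          exact ⟨⟨hj, hy⟩, ⟨hj', hy⟩, Or.inr ⟨trivial, by omega, trivial⟩⟩
        · simp at h
      · split_ifs at h with h1
        · rw [mem_singleton] at h
          exact ⟨⟨hj, hy⟩, ⟨hj', hy⟩, Or.inl ⟨trivial, h, trivial⟩⟩
        · simp at h

lemma pathEmb_dn (n y : ℕ) (hy : y < W m (n + 1)) :
    PathEmb (nbG N m l) (l n) (edn l n y) where
  inj := by
    intro j hj j' hj' h
    simp only [edn, Vx.pa.injEq] at h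
    omega
  adj := by
    intro j hj j' hj'
    rw [mem_nbG_iff N m l hl hN]
    simp only [edn, valid, down, pnb, mem_union]
    constructor
    · rintro ⟨_, _, ⟨_, h, _⟩ | ⟨_, h, _⟩⟩
      · left; rw [if_pos (by omega)]; rw [mem_singleton]; omega
      · right; rw [if_pos (by omega)]; rw [mem_singleton]; omega
    · rintro (h | h)
      · split_ifs at h with h1
        · rw [mem_singleton] at h
          exact ⟨⟨by omega, hy⟩, ⟨by omega, hy⟩, Or.inl ⟨trivial, by omega, trivial⟩⟩
        · simp at h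
      · split_ifs at h with h1
        · rw [mem_singleton] at h
          exact ⟨⟨by omega, hy⟩, ⟨by omega, hy⟩, Or.inr ⟨trivial, by omega, trivial⟩⟩
        · simp at h

lemma ext_nb_pa {n j y : ℕ} {v : Vx} (h : Vx.pa n j y ∈ nbG N m l v)
    (hv : ∀ i < l n, Vx.pa n i y ≠ v) :
    (j = 0 ∧ v = .hb n (m n) y) ∨ (j = l n - 1 ∧ v = .cl (n + 1) y 0) := by
  rw [mem_nbG_iff N m l hl hN] at h
  obtain ⟨h1, h2, h3⟩ := h
  cases v with
  | cl n' x i =>
    simp only [down, false_or] at h3
    obtain ⟨h4, h5, h6, h7⟩ := h3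
    subst h4; subst h5; subst h6
    right; exact ⟨by omega, rfl⟩
  | hb n' k x =>
    simp only [down, or_false] at h3
    obtain ⟨h4, h5, h6, h7⟩ := h3
    subst h4; subst h5; subst h6; subst h7
    left; exact ⟨rfl, rfl⟩
  | pa n' j' x =>
    exfalso
    simp only [down] at h3
    simp only [valid] at h1
    rcases h3 with ⟨h4, h5, h6⟩ | ⟨h4, h5, h6⟩
    · subst h4; subst h6
      exact hv j' h1.1 rfl
    · subst h4; subst h6
      exact hv j' h1.1 rfl

/-- Upper bound for functions of the path read from the hub. -/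
lemma gen_up_le {lam : ℝ} (hlam : 0 ≤ lam) (n y : ℕ) (hy : y < W m (n + 1)) (g : Finset ℕ → ℝ)
    (hmono : ∀ A B, A ⊆ B → g A ≤ g B) (hsub : ∀ A B, g (A ∪ B) ≤ g A + g B) (A : Finset Vx) :
    gen (nbG N m l) lam (fun B => g (pull (l n) (eup n y) B)) A
      ≤ gen (pnb (l n)) lam g (pull (l n) (eup n y) A)
        + lam * (ind A (.hb n (m n) y) * g {0} + ind A (.cl (n + 1) y 0) * g {l n - 1}) := by
  have hln := hl n
  refine le_trans (gen_pull_le (nbG N m l) lam (pathEmb_up N m l hl hN n y hy) hlam g hmono hsub A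
    (fun j => (if j = 0 ∧ Vx.hb n (m n) y ∈ A then 1 else 0)
      + (if j = l n - 1 ∧ Vx.cl (n + 1) y 0 ∈ A then 1 else 0)) ?_) ?_
  · intro j hj
    have hsubset : A.filter (fun x => eup n y j ∈ nbG N m l x ∧ ∀ i < l n, eup n y i ≠ x)
        ⊆ (if j = 0 ∧ Vx.hb n (m n) y ∈ A then {Vx.hb n (m n) y} else ∅)
          ∪ (if j = l n - 1 ∧ Vx.cl (n + 1) y 0 ∈ A then {Vx.cl (n + 1) y 0} else ∅) := by
      intro x hx
      rw [mem_filter] at hx
      rw [mem_union]
      rcases ext_nb_pa N m l hl hN hx.2.1 hx.2.2 with ⟨h1, h2⟩ | ⟨h1, h2⟩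
      · left; rw [if_pos ⟨h1, h2 ▸ hx.1⟩, h2]; exact mem_singleton_self _
      · right; rw [if_pos ⟨h1, h2 ▸ hx.1⟩, h2]; exact mem_singleton_self _
    refine le_trans (Finset.card_le_card hsubset) (le_trans (Finset.card_union_le _ _) ?_)
    apply Nat.add_le_add
    · split_ifs <;> simp
    · split_ifs <;> simp
  · apply le_of_eq
    congr 1
    congr 1
    have h1 : ∀ j ∈ range (l n), (((if j = 0 ∧ Vx.hb n (m n) y ∈ A then 1 else 0)
      + (if j = l n - 1 ∧ Vx.cl (n + 1) y 0 ∈ A then 1 else 0) : ℕ) : ℝ) * g {j}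
      = (if j = 0 then ind A (.hb n (m n) y) * g {0} else 0)
        + (if j = l n - 1 then ind A (.cl (n + 1) y 0) * g {l n - 1} else 0) := by
      intro j _
      push_cast
      rw [add_mul]
      congr 1
      · exact ite_and_mul_ind A _ j 0 g
      · exact ite_and_mul_ind A _ j (l n - 1) g
    rw [Finset.sum_congr rfl h1, Finset.sum_add_distrib, Finset.sum_ite_eq' (range (l n)) 0,
      Finset.sum_ite_eq' (range (l n)) (l n - 1),
      if_pos (mem_range.mpr (by omega)), if_pos (mem_range.mpr (by omega))]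

/-- Upper bound for functions of the path read from the next cluster. -/
lemma gen_dn_le {lam : ℝ} (hlam : 0 ≤ lam) (n y : ℕ) (hy : y < W m (n + 1)) (g : Finset ℕ → ℝ)
    (hmono : ∀ A B, A ⊆ B → g A ≤ g B) (hsub : ∀ A B, g (A ∪ B) ≤ g A + g B) (A : Finset Vx) :
    gen (nbG N m l) lam (fun B => g (pull (l n) (edn l n y) B)) A
      ≤ gen (pnb (l n)) lam g (pull (l n) (edn l n y) A)
        + lam * (ind A (.cl (n + 1) y 0) * g {0} + ind A (.hb n (m n) y) * g {l n - 1}) := by
  have hln := hl n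
  refine le_trans (gen_pull_le (nbG N m l) lam (pathEmb_dn N m l hl hN n y hy) hlam g hmono hsub A
    (fun j => (if j = 0 ∧ Vx.cl (n + 1) y 0 ∈ A then 1 else 0)
      + (if j = l n - 1 ∧ Vx.hb n (m n) y ∈ A then 1 else 0)) ?_) ?_
  · intro j hj
    have hsubset : A.filter (fun x => edn l n y j ∈ nbG N m l x ∧ ∀ i < l n, edn l n y i ≠ x)
        ⊆ (if j = 0 ∧ Vx.cl (n + 1) y 0 ∈ A then {Vx.cl (n + 1) y 0} else ∅)
          ∪ (if j = l n - 1 ∧ Vx.hb n (m n) y ∈ A then {Vx.hb n (m n) y} else ∅) := by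
      intro x hx
      rw [mem_filter] at hx
      rw [mem_union]
      have hx2 : ∀ i < l n, Vx.pa n i y ≠ x := by
        intro i hi
        have := hx.2.2 (l n - 1 - i) (by omega)
        unfold edn at this
        have e : l n - 1 - (l n - 1 - i) = i := by omega
        rwa [e] at this
      rcases ext_nb_pa N m l hl hN hx.2.1 hx2 with ⟨h1, h2⟩ | ⟨h1, h2⟩
      · right; rw [if_pos ⟨by omega, h2 ▸ hx.1⟩, h2]; exact mem_singleton_self _
      · left; rw [if_pos ⟨by omega, h2 ▸ hx.1⟩, h2]; exact mem_singleton_self _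
    refine le_trans (Finset.card_le_card hsubset) (le_trans (Finset.card_union_le _ _) ?_)
    apply Nat.add_le_add
    · split_ifs <;> simp
    · split_ifs <;> simp
  · apply le_of_eq
    congr 1
    congr 1
    have h1 : ∀ j ∈ range (l n), (((if j = 0 ∧ Vx.cl (n + 1) y 0 ∈ A then 1 else 0)
      + (if j = l n - 1 ∧ Vx.hb n (m n) y ∈ A then 1 else 0) : ℕ) : ℝ) * g {j}
      = (if j = 0 then ind A (.cl (n + 1) y 0) * g {0} else 0)
        + (if j = l n - 1 then ind A (.hb n (m n) y) * g {l n - 1} else 0) := by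
      intro j _
      push_cast
      rw [add_mul]
      congr 1
      · exact ite_and_mul_ind A _ j 0 g
      · exact ite_and_mul_ind A _ j (l n - 1) g
    rw [Finset.sum_congr rfl h1, Finset.sum_add_distrib, Finset.sum_ite_eq' (range (l n)) 0,
      Finset.sum_ite_eq' (range (l n)) (l n - 1),
      if_pos (mem_range.mpr (by omega)), if_pos (mem_range.mpr (by omega))]

end Pool.Agent.CP
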