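import Mathlib
import Pool.Agent.Helper11.CP.Paths
import Pool.Agent.Helper11.CP.Params

/-!
# Upper bounds for functions of the hubs
-/

set_option autoImplicit false

namespace Pool.Agent.CP

open Finset

variable (N m l : ℕ → ℕ)

/-- weight function of a hub -/
def hubW (n : ℕ) (α : ℕ → ℕ → ℝ) : Vx → ℝ
  | .hb n' k x => if n' = n ∧ k ≤ m n ∧ x < W m n * 16 ^ k then α k x else 0
  | _ => 0

lemma hubW_nonneg (n : ℕ) (α : ℕ → ℕ → ℝ) (hα : ∀ k x, 0 ≤ α k x) (v : Vx) :
    0 ≤ hubW m n α v := by
  cases v with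
  | cl n' x i => simp [hubW]
  | hb n' k x => simp only [hubW]; split_ifs; exacts [hα _ _, le_rfl]
  | pa n' j x => simp [hubW]

lemma sum_union_le_of_nonneg {V : Type*} [DecidableEq V] (f : V → ℝ) (hf : ∀ v, 0 ≤ f v)
    (s t : Finset V) : ∑ v ∈ s ∪ t, f v ≤ ∑ v ∈ s, f v + ∑ v ∈ t, f v := by
  have := Finset.sum_union_inter (s₁ := s) (s₂ := t) (f := f)
  have h2 : 0 ≤ ∑ v ∈ s ∩ t, f v := Finset.sum_nonneg (fun v _ => hf v)
  linarith

lemma hubSum_cl (n : ℕ) (α : ℕ → ℕ → ℝ) (hα : ∀ k x, 0 ≤ α k x) (n' x i : ℕ)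
    (hv : valid N m l (.cl n' x i)) :
    ∑ w ∈ nbG N m l (.cl n' x i), hubW m n α w ≤ if n' = n ∧ i + 1 = N n then α 0 x else 0 := by
  have hnn := hubW_nonneg m n α hα
  unfold nbG
  rw [if_pos hv]
  simp only [nb0]
  refine le_trans (sum_union_le_of_nonneg _ hnn _ _) ?_
  have h1 : ∑ v ∈ ((range (N n')).erase i).image (Vx.cl n' x), hubW m n α v = 0 := by
    apply Finset.sum_eq_zero
    intro v hv
    rw [mem_image] at hv
    obtain ⟨j, _, rfl⟩ := hv
    rfl
  rw [h1, zero_add]
  refine le_trans (sum_union_le_of_nonneg _ hnn _ _) ?_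
  have h2 : ∑ v ∈ (if i = 0 then upv l n' x else ∅), hubW m n α v = 0 := by
    apply Finset.sum_eq_zero
    intro v hv
    split_ifs at hv
    · cases n' with
      | zero => simp [upv] at hv
      | succ n' =>
        simp only [upv, mem_singleton] at hv
        subst hv; rfl
    · simp at hv
  rw [h2, add_zero]
  by_cases h3 : i + 1 = N n'
  · rw [if_pos h3, Finset.sum_singleton]
    simp only [hubW]
    by_cases h4 : n' = n
    · subst h4
      rw [if_pos (c := n' = n' ∧ i + 1 = N n') ⟨rfl, h3⟩]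
      split_ifs
      · exact le_rfl
      · exact hα _ _
    · rw [if_neg (fun h => h4 h.1), if_neg (fun h => h4 h.1)]
  · rw [if_neg h3, Finset.sum_empty]
    split_ifs
    · exact hα _ _
    · exact le_rfl

lemma hubSum_pa (n : ℕ) (α : ℕ → ℕ → ℝ) (hα : ∀ k x, 0 ≤ α k x) (n' j x : ℕ)
    (hv : valid N m l (.pa n' j x)) :
    ∑ w ∈ nbG N m l (.pa n' j x), hubW m n α w ≤ if n' = n ∧ j = 0 then α (m n) x else 0 := by
  have hnn := hubW_nonneg m n α hα
  unfold nbG
  rw [if_pos hv]
  simp only [nb0]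
  refine le_trans (sum_union_le_of_nonneg _ hnn _ _) ?_
  rw [Finset.sum_singleton, Finset.sum_singleton]
  have h1 : hubW m n α (pdown l n' j x) = 0 := by
    unfold pdown
    split_ifs <;> rfl
  rw [h1, add_zero]
  cases j with
  | zero =>
    simp only [pup, hubW]
    by_cases h4 : n' = n
    · subst h4
      rw [if_pos (c := n' = n' ∧ True) ⟨rfl, trivial⟩]
      split_ifs
      · exact le_rfl
      · exact hα _ _
    · rw [if_neg (fun h => h4 h.1), if_neg (fun h => h4 h.1)]
  | succ j =>
    simp only [pup, hubW]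
    rw [if_neg (by omega)]

lemma hubSum_hb_ne (n : ℕ) (α : ℕ → ℕ → ℝ) (n' k x : ℕ) (hn : n' ≠ n)
    (hv : valid N m l (.hb n' k x)) :
    ∑ w ∈ nbG N m l (.hb n' k x), hubW m n α w ≤ 0 := by
  unfold nbG
  rw [if_pos hv]
  apply le_of_eq
  apply Finset.sum_eq_zero
  intro v hv
  simp only [nb0, mem_union, mem_singleton] at hv
  rcases hv with hv | hv
  · subst hv
    cases k with
    | zero => rfl
    | succ k =>
      simp only [hup, hubW]
      rw [if_neg (fun h => hn h.1)]
  · unfold hdown at hv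
    split_ifs at hv
    · rw [mem_image] at hv
      obtain ⟨d, _, rfl⟩ := hv
      simp only [hubW]
      rw [if_neg (fun h => hn h.1)]
    · rw [mem_singleton] at hv
      subst hv; rfl

lemma hubSum_hb (n : ℕ) (α : ℕ → ℕ → ℝ) (hα : ∀ k x, 0 ≤ α k x) (k x : ℕ)
    (hv : valid N m l (.hb n k x)) :
    ∑ w ∈ nbG N m l (.hb n k x), hubW m n α w ≤ (if k = 0 then 0 else α (k - 1) (x / 16))
      + (if k < m n then ∑ d ∈ range 16, α (k + 1) (16 * x + d) else 0) := by
  have hnn := hubW_nonneg m n α hα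
  unfold nbG
  rw [if_pos hv]
  simp only [nb0]
  refine le_trans (sum_union_le_of_nonneg _ hnn _ _) ?_
  apply add_le_add
  · rw [Finset.sum_singleton]
    cases k with
    | zero => simp [hup, hubW]
    | succ k =>
      simp only [hup, hubW]
      rw [if_neg (Nat.succ_ne_zero k)]
      split_ifs
      · exact le_rfl
      · exact hα _ _
  · unfold hdown
    split_ifs with h
    · rw [Finset.sum_image]
      · refine Finset.sum_le_sum (fun d _ => ?_)
        simp only [hubW]
        split_ifs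
        · exact le_rfl
        · exact hα _ _
      · intro d _ d' _ hdd
        simp only [Vx.hb.injEq] at hdd
        omega
    · rw [Finset.sum_singleton]
      simp [hubW]

/-- value of the path function -/
noncomputable def gl (l : ℕ) (B : Finset ℕ) : ℝ := 2 * pfun l (1 / 100) 0 B

lemma sum_ind_swap {V : Type*} [DecidableEq V] (A : Finset V) (M : ℕ) (c : ℕ → ℝ) (P : ℕ → V) :
    ∑ y ∈ range M, c y * ind A (P y)
      = ∑ v ∈ A, ∑ y ∈ range M, (if v = P y then c y else 0) := by
  rw [Finset.sum_comm]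
  refine Finset.sum_congr rfl (fun y _ => ?_)
  rw [Finset.sum_ite_eq']
  unfold ind
  split_ifs <;> simp

lemma sum_ite_P_eq {V : Type*} [DecidableEq V] {M : ℕ} (c : ℕ → ℝ) {P : ℕ → V}
    (hP : Function.Injective P) {x : ℕ} (hx : x < M) :
    ∑ y ∈ range M, (if P x = P y then c y else 0) = c x := by
  have : ∀ y ∈ range M, (if P x = P y then c y else 0) = if x = y then c y else 0 := by
    intro y _
    by_cases h : x = y
    · rw [if_pos h, if_pos (by rw [h])]
    · rw [if_neg h, if_neg (fun h' => h (hP h'))]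
  rw [Finset.sum_congr rfl this, Finset.sum_ite_eq, if_pos (mem_range.mpr hx)]

lemma sum_ite_P_ne {V : Type*} [DecidableEq V] {M : ℕ} (c : ℕ → ℝ) {P : ℕ → V} {v : V}
    (h : ∀ y < M, v ≠ P y) :
    ∑ y ∈ range M, (if v = P y then c y else 0) = 0 := by
  apply Finset.sum_eq_zero
  intro y hy
  rw [if_neg (h y (mem_range.mp hy))]

lemma gl_nonneg (l : ℕ) (B : Finset ℕ) : 0 ≤ gl l B := by
  obtain ⟨p0, -⟩ := pfun_spec l (1 / 100) 0 (by norm_num) le_rfl
  unfold gl
  have := p0 B
  linarith

lemma gl_mono (l : ℕ) (A B : Finset ℕ) (h : A ⊆ B) : gl l A ≤ gl l B := by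
  obtain ⟨-, -, -, p3, -⟩ := pfun_spec l (1 / 100) 0 (by norm_num) le_rfl
  unfold gl
  have := p3 A B h
  linarith

lemma gl_sub (l : ℕ) (A B : Finset ℕ) : gl l (A ∪ B) ≤ gl l A + gl l B := by
  obtain ⟨-, -, -, -, p4, -⟩ := pfun_spec l (1 / 100) 0 (by norm_num) le_rfl
  unfold gl
  have := p4 A B
  linarith

lemma gl_empty (l : ℕ) : gl l ∅ = 0 := by
  obtain ⟨-, -, p2, -⟩ := pfun_spec l (1 / 100) 0 (by norm_num) le_rfl
  unfold gl
  rw [p2]; ring

/-- branching bound -/
lemma pfun_le_tail (l : ℕ) (B : Finset ℕ) (hB : B ⊆ range l) :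
    pfun l (1 / 100) 0 B ≤ 1 / 49 := by
  have h := pfun_le_sum l (1 / 100) (by norm_num) (by norm_num) B
  refine le_trans h ?_
  have h2 : ∑ j ∈ B, (2 * (1 / 100 : ℝ)) ^ (j + 1)
      ≤ ∑ j ∈ range l, (2 * (1 / 100 : ℝ)) ^ (j + 1) :=
    Finset.sum_le_sum_of_subset_of_nonneg hB (fun j _ _ => by positivity)
  refine le_trans h2 ?_
  have h3 : ∑ j ∈ range l, (2 * (1 / 100 : ℝ)) ^ (j + 1)
      = (1 / 50) * ∑ j ∈ range l, (1 / 50 : ℝ) ^ j := by
    rw [Finset.mul_sum]
    refine Finset.sum_congr rfl (fun j _ => ?_)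
    rw [pow_succ]; norm_num; ring
  rw [h3, geom_sum_eq (by norm_num)]
  have h4 : (0 : ℝ) ≤ (1 / 50 : ℝ) ^ l := by positivity
  rw [mul_div_assoc', div_le_iff_of_neg (by norm_num)]
  nlinarith

lemma gl_le (l : ℕ) (B : Finset ℕ) (hB : B ⊆ range l) : gl l B ≤ 2 / 49 := by
  unfold gl
  have := pfun_le_tail l B hB
  linarith

/-- generator inequality of the path function -/
lemma gen_gl_le (l : ℕ) (hl : 1 ≤ l) {lam : ℝ} (hlam1 : lam ≤ 1 / 100)
    (B : Finset ℕ) (hB : B ⊆ range l) :
    gen (pnb l) lam (gl l) B ≤ - ((1 / 100) * (if 0 ∈ B then 1 else 0)) := by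
  obtain ⟨p0, p1, p2, p3, p4, p5, p6, -⟩ := pfun_spec l (1 / 100) 0 (by norm_num) le_rfl
  have h1 : gen (pnb l) lam (gl l) B ≤ gen (pnb l) (1 / 100) (gl l) B := by
    apply gen_mono_lam (pnb l) hlam1
    intro x _ y _
    exact gl_mono l _ _ (Finset.subset_insert _ _)
  refine le_trans h1 ?_
  have h2 : gen (pnb l) (1 / 100) (gl l) B = 2 * gen (pnb l) (1 / 100) (pfun l (1 / 100) 0) B := by
    unfold gl
    rw [gen_const_mul]
  rw [h2]
  have h3 := p6 B hB
  have h4 := pfun_le_tail l B hB
  split_ifs with h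
  · rw [if_pos ⟨h, by omega⟩] at h3
    linarith
  · rw [if_neg (fun h' => h h'.1)] at h3
    linarith

/-- The potential of a hub. -/
noncomputable def Phi (n : ℕ) (α : ℕ → ℕ → ℝ) (A : Finset Vx) : ℝ :=
  ∑ v ∈ A, hubW m n α v
    + ∑ y ∈ range (W m (n + 1)), α (m n) y * gl (l n) (pull (l n) (eup n y) A)

lemma gen_Phi_le (hl : ∀ n, 1 ≤ l n) (hN : ∀ n, 1 ≤ N n) {lam : ℝ} (hlam : 0 ≤ lam)
    (hlam1 : lam ≤ 1 / 100) (n : ℕ) (α : ℕ → ℕ → ℝ) (hα : ∀ k x, 0 ≤ α k x) (ξ ζ : ℕ → ℝ)
    (hrec : ∀ k x, k ≤ m n → x < W m n * 16 ^ k →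
      - α k x + lam * ((if k = 0 then 0 else α (k - 1) (x / 16))
        + (if k < m n then ∑ d ∈ range 16, α (k + 1) (16 * x + d) else α (m n) x * (2 / 49)))
      ≤ - (if k = 0 then ξ x else 0) - (if k = m n then ζ x else 0))
    (A : Finset Vx) (hA : ∀ v ∈ A, valid N m l v) :
    gen (nbG N m l) lam (Phi m l n α) A
      ≤ - ∑ x ∈ range (W m n), ξ x * ind A (.hb n 0 x)
        - ∑ y ∈ range (W m (n + 1)), ζ y * ind A (.hb n (m n) y)
        + lam * ∑ x ∈ range (W m n), α 0 x * ind A (.cl n x (N n - 1))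
        + lam * qn (l n) * ∑ y ∈ range (W m (n + 1)), α (m n) y * ind A (.cl (n + 1) y 0) := by
  have hln := hl n
  have hNn := hN n
  have hnn := hubW_nonneg m n α hα
  have hq : gl (l n) {l n - 1} = qn (l n) := rfl
  have hg0 : gl (l n) {0} ≤ 2 / 49 := gl_le _ _ (by
    intro j hj; rw [mem_singleton] at hj; rw [mem_range]; omega)
  -- split the generator
  have hsplit : gen (nbG N m l) lam (Phi m l n α) A
      = gen (nbG N m l) lam (fun B => ∑ v ∈ B, hubW m n α v) A
        + ∑ y ∈ range (W m (n + 1)), α (m n) y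
          * gen (nbG N m l) lam (fun B => gl (l n) (pull (l n) (eup n y) B)) A := by
    have : Phi m l n α = fun B => ∑ v ∈ B, hubW m n α v
      + ∑ y ∈ range (W m (n + 1)), α (m n) y * gl (l n) (pull (l n) (eup n y) B) := rfl
    rw [this, gen_add, gen_sum]
    congr 1
    refine Finset.sum_congr rfl (fun y _ => ?_)
    rw [gen_const_mul]
  rw [hsplit]
  have hlin := gen_linear_le (nbG N m l) lam hlam (hubW m n α) hnn A
  have hpath : ∑ y ∈ range (W m (n + 1)), α (m n) y
          * gen (nbG N m l) lam (fun B => gl (l n) (pull (l n) (eup n y) B)) A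
      ≤ ∑ y ∈ range (W m (n + 1)), (- ((1 / 100) * α (m n) y)) * ind A (.pa n 0 y)
        + ∑ y ∈ range (W m (n + 1)), (lam * (α (m n) y * (2 / 49))) * ind A (.hb n (m n) y)
        + ∑ y ∈ range (W m (n + 1)), (lam * qn (l n) * α (m n) y) * ind A (.cl (n + 1) y 0) := by
    rw [← Finset.sum_add_distrib, ← Finset.sum_add_distrib]
    refine Finset.sum_le_sum (fun y hy => ?_)
    rw [mem_range] at hy
    have h1 := gen_up_le N m l hl hN hlam n y hy (gl (l n)) (gl_mono _) (gl_sub _) A
    have h2 := gen_gl_le (l n) hln hlam1 (pull (l n) (eup n y) A) (pull_subset _ _ _)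
    have h3 : (if 0 ∈ pull (l n) (eup n y) A then (1 : ℝ) else 0) = ind A (.pa n 0 y) := by
      unfold ind
      have : 0 ∈ pull (l n) (eup n y) A ↔ Vx.pa n 0 y ∈ A := by
        rw [mem_pull]; simp only [eup]; exact ⟨fun h => h.2, fun h => ⟨by omega, h⟩⟩
      simp only [this]
    rw [h3] at h2
    rw [hq] at h1
    have h4 : ind A (.hb n (m n) y) * gl (l n) {0} ≤ ind A (.hb n (m n) y) * (2 / 49) :=
      mul_le_mul_of_nonneg_left hg0 (ind_nonneg _ _)
    have h5 := mul_le_mul_of_nonneg_left h4 hlam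
    have h6 : gen (nbG N m l) lam (fun B => gl (l n) (pull (l n) (eup n y) B)) A
        ≤ - ((1 / 100) * ind A (.pa n 0 y)) + lam * (ind A (.hb n (m n) y) * (2 / 49))
          + lam * (ind A (.cl (n + 1) y 0) * qn (l n)) := by
      nlinarith
    have h7 := mul_le_mul_of_nonneg_left h6 (hα (m n) y)
    refine le_trans h7 (le_of_eq ?_)
    ring
  refine le_trans (add_le_add hlin hpath) ?_
  -- swap the sums
  have e1 := sum_ind_swap A (W m (n + 1)) (fun y => - ((1 / 100) * α (m n) y)) (Vx.pa n 0)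
  have e2 := sum_ind_swap A (W m (n + 1)) (fun y => (lam * (α (m n) y * (2 / 49)))) (Vx.hb n (m n))
  have e3 := sum_ind_swap A (W m (n + 1)) (fun y => lam * qn (l n) * α (m n) y)
    (fun y => Vx.cl (n + 1) y 0)
  have e4 := sum_ind_swap A (W m n) ξ (Vx.hb n 0)
  have e5 := sum_ind_swap A (W m (n + 1)) ζ (Vx.hb n (m n))
  have e6 := sum_ind_swap A (W m n) (α 0) (fun x => Vx.cl n x (N n - 1))
  have e7 : lam * qn (l n) * ∑ y ∈ range (W m (n + 1)), α (m n) y * ind A (.cl (n + 1) y 0)
      = ∑ y ∈ range (W m (n + 1)), (lam * qn (l n) * α (m n) y) * ind A (.cl (n + 1) y 0) := by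
    rw [Finset.mul_sum]
    exact Finset.sum_congr rfl (fun y _ => by ring)
  rw [e7, e1, e2, e3, e4, e5, e6]
  have hW : W m (n + 1) = W m n * 16 ^ (m n) := rfl
  have hI1 : Function.Injective (Vx.pa n 0) := fun a b h => by simpa using h
  have hI2 : Function.Injective (Vx.hb n (m n)) := fun a b h => by simpa using h
  have hI3 : Function.Injective (fun y => Vx.cl (n + 1) y 0) := fun a b h => by simpa using h
  have hI4 : Function.Injective (Vx.hb n 0) := fun a b h => by simpa using h
  have hI6 : Function.Injective (fun x => Vx.cl n x (N n - 1)) := fun a b h => by simpa using h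
  have key : ∀ v ∈ A,
      (- hubW m n α v + lam * ∑ w ∈ nbG N m l v, hubW m n α w)
      + (∑ y ∈ range (W m (n + 1)), (if v = Vx.pa n 0 y then - ((1 / 100) * α (m n) y) else 0))
      + (∑ y ∈ range (W m (n + 1)),
          (if v = Vx.hb n (m n) y then lam * (α (m n) y * (2 / 49)) else 0))
      ≤ - (∑ x ∈ range (W m n), (if v = Vx.hb n 0 x then ξ x else 0))
        - (∑ y ∈ range (W m (n + 1)), (if v = Vx.hb n (m n) y then ζ y else 0))
        + lam * (∑ x ∈ range (W m n), (if v = Vx.cl n x (N n - 1) then α 0 x else 0)) := by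
    intro v hv
    have hval := hA v hv
    cases v with
    | cl n' x i =>
      rw [sum_ite_P_ne _ (P := Vx.pa n 0) (by intro y _ h; simp at h),
        sum_ite_P_ne _ (P := Vx.hb n (m n)) (by intro y _ h; simp at h),
        sum_ite_P_ne _ (P := Vx.hb n 0) (by intro y _ h; simp at h),
        sum_ite_P_ne _ (P := Vx.hb n (m n)) (by intro y _ h; simp at h)]
      have h1 := hubSum_cl N m l n α hα n' x i hval
      have h2 := mul_le_mul_of_nonneg_left h1 hlam
      have h3 : hubW m n α (.cl n' x i) = 0 := rfl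
      rw [h3]
      by_cases h4 : n' = n ∧ i + 1 = N n
      · rw [if_pos h4] at h2
        obtain ⟨h5, h6⟩ := h4
        subst h5
        have h7 : i = N n' - 1 := by omega
        subst h7
        have h8 := sum_ite_P_eq (α 0) hI6 (x := x) (M := W m n') hval.1
        rw [h8]
        linarith
      · rw [if_neg h4] at h2
        have h8 : ∑ x_1 ∈ range (W m n), (if Vx.cl n' x i = Vx.cl n x_1 (N n - 1) then α 0 x_1 else 0)
            = 0 := by
          apply sum_ite_P_ne (P := fun x => Vx.cl n x (N n - 1))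
          intro y _ h
          simp only [Vx.cl.injEq] at h
          apply h4
          exact ⟨h.1, by omega⟩
        rw [h8]
        linarith
    | hb n' k x =>
      rw [sum_ite_P_ne _ (P := Vx.pa n 0) (by intro y _ h; simp at h)]
      have h8 : ∑ x_1 ∈ range (W m n), (if Vx.hb n' k x = Vx.cl n x_1 (N n - 1) then α 0 x_1 else 0)
            = 0 := by
          apply sum_ite_P_ne (P := fun x => Vx.cl n x (N n - 1))
          intro y _ h
          simp at h
      rw [h8]
      by_cases hn : n' = n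
      · subst hn
        obtain ⟨hk, hx⟩ := hval
        have h1 := hubSum_hb N m l n' α hα k x ⟨hk, hx⟩
        have h2 := mul_le_mul_of_nonneg_left h1 hlam
        have h3 : hubW m n' α (.hb n' k x) = α k x := by
          simp only [hubW]; rw [if_pos ⟨trivial, hk, hx⟩]
        rw [h3]
        have h4 := hrec k x hk hx
        -- the sum over hb n 0
        have s1 : ∑ x_1 ∈ range (W m n'), (if Vx.hb n' k x = Vx.hb n' 0 x_1 then ξ x_1 else 0)
            = if k = 0 then ξ x else 0 := by
          by_cases h0 : k = 0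
          · subst h0
            rw [if_pos rfl]
            exact sum_ite_P_eq ξ hI4 (by simpa using hx)
          · rw [if_neg h0]
            apply sum_ite_P_ne (P := Vx.hb n' 0)
            intro y _ h
            simp only [Vx.hb.injEq] at h
            exact h0 h.2.1
        have s2 : ∀ c : ℕ → ℝ, ∑ y ∈ range (W m (n' + 1)),
            (if Vx.hb n' k x = Vx.hb n' (m n') y then c y else 0)
            = if k = m n' then c x else 0 := by
          intro c
          by_cases h0 : k = m n'
          · subst h0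
            rw [if_pos rfl]
            exact sum_ite_P_eq c hI2 (by rw [hW]; exact hx)
          · rw [if_neg h0]
            apply sum_ite_P_ne (P := Vx.hb n' (m n'))
            intro y _ h
            simp only [Vx.hb.injEq] at h
            exact h0 h.2.1
        rw [s1, s2, s2]
        by_cases hkm : k = m n'
        · subst hkm
          rw [if_neg (lt_irrefl _)] at h2 h4
          rw [if_pos rfl] at h4 ⊢
          rw [if_pos rfl]
          nlinarith
        · have hkm' : k < m n' := lt_of_le_of_ne hk hkm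
          rw [if_pos hkm'] at h2 h4
          rw [if_neg hkm] at h4 ⊢
          rw [if_neg hkm]
          nlinarith
      · have h1 := hubSum_hb_ne N m l n α n' k x hn hval
        have h2 := mul_le_mul_of_nonneg_left h1 hlam
        have h3 : hubW m n α (.hb n' k x) = 0 := by
          simp only [hubW]; rw [if_neg (fun h => hn h.1)]
        rw [h3, sum_ite_P_ne _ (P := Vx.hb n 0) (by intro y _ h; simp [hn] at h),
          sum_ite_P_ne _ (P := Vx.hb n (m n)) (by intro y _ h; simp [hn] at h),
          sum_ite_P_ne _ (P := Vx.hb n (m n)) (by intro y _ h; simp [hn] at h)]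
        linarith
    | pa n' j x =>
      rw [sum_ite_P_ne _ (P := Vx.hb n (m n)) (by intro y _ h; simp at h),
        sum_ite_P_ne _ (P := Vx.hb n 0) (by intro y _ h; simp at h),
        sum_ite_P_ne _ (P := Vx.hb n (m n)) (by intro y _ h; simp at h)]
      have h8 : ∑ x_1 ∈ range (W m n), (if Vx.pa n' j x = Vx.cl n x_1 (N n - 1) then α 0 x_1 else 0)
            = 0 := by
          apply sum_ite_P_ne (P := fun x => Vx.cl n x (N n - 1))
          intro y _ h
          simp at h
      rw [h8]
      have h1 := hubSum_pa N m l n α hα n' j x hval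
      have h2 := mul_le_mul_of_nonneg_left h1 hlam
      have h3 : hubW m n α (.pa n' j x) = 0 := rfl
      rw [h3]
      by_cases h4 : n' = n ∧ j = 0
      · obtain ⟨h5, h6⟩ := h4
        subst h5; subst h6
        rw [if_pos ⟨rfl, rfl⟩] at h2
        have h9 := sum_ite_P_eq (fun y => - ((1 / 100) * α (m n') y)) hI1 (x := x)
          (M := W m (n' + 1)) hval.2
        rw [h9]
        have := hα (m n') x
        nlinarith
      · rw [if_neg h4] at h2
        rw [sum_ite_P_ne _ (P := Vx.pa n 0) (by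
          intro y _ h
          simp only [Vx.pa.injEq] at h
          exact h4 ⟨h.1, h.2.1⟩)]
        linarith
  have hsum := Finset.sum_le_sum key
  simp only [Finset.sum_add_distrib, Finset.sum_sub_distrib, Finset.sum_neg_distrib,
    ← Finset.mul_sum] at hsum ⊢
  linarith

end Pool.Agent.CP
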