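import Mathlib
import Pool.Agent.Helper11.CP.Hub

/-!
# Facts on the clusters
-/

set_option autoImplicit false

namespace Pool.Agent.CP

open Finset

lemma useq_pos {lam : ℝ} (hlam : 0 ≤ lam) (k : ℕ) : 1 ≤ useq lam k := by
  induction k with
  | zero => simp [useq]
  | succ k ih =>
    simp only [useq]
    have : 0 ≤ lam * (k + 2) * useq lam k := by
      have h1 : (0 : ℝ) ≤ k := Nat.cast_nonneg k
      have h2 : 0 ≤ lam * ((k : ℝ) + 2) := mul_nonneg hlam (by linarith)
      exact mul_nonneg h2 (by linarith)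
    linarith

lemma useq_le_succ {lam : ℝ} (hlam : 0 ≤ lam) (k : ℕ) : useq lam k ≤ useq lam (k + 1) := by
  induction k with
  | zero => simp only [useq]; nlinarith
  | succ k ih =>
    have h1 : (0 : ℝ) ≤ k := Nat.cast_nonneg k
    have h2 := useq_pos hlam k
    have e1 : useq lam (k + 1 + 1) = lam * ((k + 1 : ℕ) + 2) * useq lam (k + 1) + 1 := rfl
    have e2 : useq lam (k + 1) = lam * (k + 2) * useq lam k + 1 := rfl
    rw [e1]
    conv_lhs => rw [e2]
    push_cast
    have h3 : lam * ((k : ℝ) + 2) ≤ lam * ((k : ℝ) + 1 + 2) := by nlinarith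
    have h4 : 0 ≤ lam * ((k : ℝ) + 2) := by positivity
    have h5 := mul_le_mul h3 ih (by linarith) (by linarith)
    linarith

lemma useq_mono {lam : ℝ} (hlam : 0 ≤ lam) {k k' : ℕ} (h : k ≤ k') : useq lam k ≤ useq lam k' :=
  monotone_nat_of_le_succ (useq_le_succ hlam) h

lemma useq_mono_lam {lam lam' : ℝ} (hlam : 0 ≤ lam) (h : lam ≤ lam') (k : ℕ) :
    useq lam k ≤ useq lam' k := by
  induction k with
  | zero => simp [useq]
  | succ k ih =>
    simp only [useq]
    have h1 : (0 : ℝ) ≤ k := Nat.cast_nonneg k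
    have h2 := useq_pos hlam k
    have h3 : lam * ((k : ℝ) + 2) ≤ lam' * (k + 2) := by nlinarith
    have h4 : 0 ≤ lam * ((k : ℝ) + 2) := mul_nonneg hlam (by linarith)
    have := mul_le_mul h3 ih (by linarith) (by linarith)
    linarith

lemma Tn_pos {lam : ℝ} (hlam : 0 ≤ lam) (k : ℕ) : 0 < Tn lam k := by
  unfold Tn; linarith [useq_pos hlam k]

lemma Tn_mono {lam : ℝ} (hlam : 0 ≤ lam) {k k' : ℕ} (h : k ≤ k') : Tn lam k ≤ Tn lam k' := by
  unfold Tn; linarith [useq_mono hlam h]

lemma Tn_mono_lam {lam lam' : ℝ} (hlam : 0 ≤ lam) (h : lam ≤ lam') (k : ℕ) :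
    Tn lam k ≤ Tn lam' k := by
  unfold Tn; linarith [useq_mono_lam hlam h k]

/-- the value of a cluster with `i` infected vertices -/
noncomputable def Ff (lam : ℝ) (M : ℕ) (i : ℕ) : ℝ :=
  Tn lam M + ∑ j ∈ Finset.Ico 1 i, useq lam (M - j)

lemma Ff_one (lam : ℝ) (M : ℕ) : Ff lam M 1 = Tn lam M := by simp [Ff]

lemma Ff_succ (lam : ℝ) (M : ℕ) (j : ℕ) (hj : 1 ≤ j) :
    Ff lam M (j + 1) - Ff lam M j = useq lam (M - j) := by
  unfold Ff
  rw [Finset.sum_Ico_succ_top hj]; ring

lemma Ff_nonneg {lam : ℝ} (hlam : 0 ≤ lam) (M i : ℕ) : 0 ≤ Ff lam M i := by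
  unfold Ff
  have h1 := (Tn_pos hlam M).le
  have h2 : 0 ≤ ∑ j ∈ Finset.Ico 1 i, useq lam (M - j) :=
    Finset.sum_nonneg (fun j _ => by linarith [useq_pos hlam (M - j)])
  linarith

lemma useq_rec {lam : ℝ} (hlam : 0 ≤ lam) (M : ℕ) (i : ℕ) (h2 : 2 ≤ i) (hi : i ≤ M) :
    lam * (i * ((M : ℝ) - i) + 2) * useq lam (M - i) + 1 ≤ i * useq lam (M - (i - 1)) := by
  obtain ⟨k, rfl⟩ := Nat.exists_eq_add_of_le hi
  have e1 : i + k - i = k := by omega
  have e2 : i + k - (i - 1) = k + 1 := by omega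
  rw [e1, e2]
  simp only [useq]
  push_cast
  have h3 := useq_pos hlam k
  have h4 : (2 : ℝ) ≤ i := by exact_mod_cast h2
  have h5 : (0 : ℝ) ≤ k := Nat.cast_nonneg k
  have h6 : 0 ≤ lam * useq lam k := mul_nonneg hlam (by linarith)
  nlinarith [mul_nonneg h6 (by linarith : (0 : ℝ) ≤ i - 1)]

lemma useq_one {lam : ℝ} (M : ℕ) (hM : 1 ≤ M) :
    lam * (((M : ℝ) - 1) + 2) * useq lam (M - 1) + 1 ≤ Tn lam M / 2 := by
  obtain ⟨k, rfl⟩ := Nat.exists_eq_add_of_le hM
  have e1 : 1 + k - 1 = k := by omega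
  rw [e1]
  unfold Tn
  rw [show 1 + k = k + 1 by ring]
  simp only [useq]
  push_cast
  apply le_of_eq; ring

variable (N m l : ℕ → ℕ)

/-- the cluster -/
def clus (n x : ℕ) : Finset Vx := (range (N n)).image (Vx.cl n x)

lemma mem_clus {n x : ℕ} {v : Vx} : v ∈ clus N n x ↔ ∃ i, i < N n ∧ v = .cl n x i := by
  unfold clus
  rw [mem_image]
  constructor
  · rintro ⟨i, hi, rfl⟩; exact ⟨i, mem_range.mp hi, rfl⟩
  · rintro ⟨i, hi, rfl⟩; exact ⟨i, mem_range.mpr hi, rfl⟩

lemma card_clus (n x : ℕ) : (clus N n x).card = N n := by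
  unfold clus
  rw [Finset.card_image_of_injective, card_range]
  intro a b h
  simpa using h

lemma ext_nb_clus (hl : ∀ n, 1 ≤ l n) (hN : ∀ n, 1 ≤ N n) {n x i : ℕ} {v : Vx}
    (h : Vx.cl n x i ∈ nbG N m l v) (hv : v ∉ clus N n x) :
    (i + 1 = N n ∧ v = .hb n 0 x) ∨ (i = 0 ∧ v ∈ upv l n x) := by
  rw [mem_nbG_iff N m l hl hN] at h
  obtain ⟨h1, h2, h3⟩ := h
  cases v with
  | cl n' x' i' =>
    exfalso
    apply hv
    rw [mem_clus]
    simp only [down] at h3
    rcases h3 with ⟨h4, h5, h6⟩ | ⟨h4, h5, h6⟩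
    · subst h4; subst h5; exact ⟨i', h1.2, rfl⟩
    · subst h4; subst h5; exact ⟨i', h1.2, rfl⟩
  | hb n' k x' =>
    simp only [down, false_or] at h3
    obtain ⟨h4, h5, h6, h7⟩ := h3
    subst h4; subst h5; subst h6
    exact Or.inl ⟨h7, rfl⟩
  | pa n' j x' =>
    simp only [down, or_false] at h3
    obtain ⟨h4, h5, h6, h7⟩ := h3
    subst h4; subst h5; subst h6
    right
    refine ⟨rfl, ?_⟩
    simp only [upv, mem_singleton, Vx.pa.injEq]
    exact ⟨trivial, by omega, trivial⟩

/-- indicator of the last vertex of the path leading to the cluster -/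
noncomputable def iup (A : Finset Vx) (n x : ℕ) : ℝ := ∑ v ∈ upv l n x, ind A v

lemma iup_nonneg (A : Finset Vx) (n x : ℕ) : 0 ≤ iup l A n x :=
  Finset.sum_nonneg (fun v _ => ind_nonneg A v)

lemma card_upv_le (n x : ℕ) : (upv l n x).card ≤ 1 := by
  cases n with
  | zero => simp [upv]
  | succ n => simp [upv]

lemma iup_le_one (A : Finset Vx) (n x : ℕ) : iup l A n x ≤ 1 := by
  unfold iup
  calc ∑ v ∈ upv l n x, ind A v ≤ ∑ v ∈ upv l n x, (1 : ℝ) :=
        Finset.sum_le_sum (fun v _ => ind_le_one A v)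
    _ = (upv l n x).card := by simp
    _ ≤ 1 := by exact_mod_cast card_upv_le l n x

lemma inflow_le (hl : ∀ n, 1 ≤ l n) (hN : ∀ n, 1 ≤ N n) (n x : ℕ) (A : Finset Vx) :
    ∑ y ∈ clus N n x \ A, (infl (nbG N m l) A y : ℝ)
      ≤ (A ∩ clus N n x).card * ((clus N n x \ A).card : ℝ) + ind A (.hb n 0 x) + iup l A n x := by
  have h1 : ∀ y ∈ clus N n x \ A, (infl (nbG N m l) A y : ℝ)
      ≤ (A ∩ clus N n x).card
        + (if y = .cl n x (N n - 1) then ind A (.hb n 0 x) else 0)
        + (if y = .cl n x 0 then iup l A n x else 0) := by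
    intro y hy
    rw [mem_sdiff] at hy
    obtain ⟨i, hi, rfl⟩ := (mem_clus N).mp hy.1
    have hsub : A.filter (fun v => Vx.cl n x i ∈ nbG N m l v) ⊆
        (A ∩ clus N n x) ∪ (({v ∈ A | v = .hb n 0 x ∧ i + 1 = N n} : Finset Vx)
          ∪ ({v ∈ A | v ∈ upv l n x ∧ i = 0} : Finset Vx)) := by
      intro v hv
      rw [mem_filter] at hv
      rw [mem_union, mem_union, mem_filter, mem_filter, mem_inter]
      by_cases hc : v ∈ clus N n x
      · exact Or.inl ⟨hv.1, hc⟩
      · rcases ext_nb_clus N m l hl hN hv.2 hc with ⟨h3, h4⟩ | ⟨h3, h4⟩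
        · exact Or.inr (Or.inl ⟨hv.1, h4, h3⟩)
        · exact Or.inr (Or.inr ⟨hv.1, h4, h3⟩)
    have hcard : (infl (nbG N m l) A (.cl n x i)) ≤ (A ∩ clus N n x).card
        + (({v ∈ A | v = .hb n 0 x ∧ i + 1 = N n} : Finset Vx).card
          + ({v ∈ A | v ∈ upv l n x ∧ i = 0} : Finset Vx).card) := by
      unfold infl
      exact le_trans (Finset.card_le_card hsub) (le_trans (Finset.card_union_le _ _)
        (Nat.add_le_add_left (Finset.card_union_le _ _) _))
    have hA1 : ((({v ∈ A | v = .hb n 0 x ∧ i + 1 = N n} : Finset Vx).card : ℕ) : ℝ)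
        ≤ (if Vx.cl n x i = .cl n x (N n - 1) then ind A (.hb n 0 x) else 0) := by
      by_cases h : i + 1 = N n
      · rw [if_pos (by rw [← h]; rfl)]
        unfold ind
        split_ifs with h5
        · have : ({v ∈ A | v = .hb n 0 x ∧ i + 1 = N n} : Finset Vx) ⊆ {.hb n 0 x} := by
            intro v hv; rw [mem_filter] at hv; rw [mem_singleton]; exact hv.2.1
          have := Finset.card_le_card this
          rw [card_singleton] at this
          exact_mod_cast this
        · have : ({v ∈ A | v = .hb n 0 x ∧ i + 1 = N n} : Finset Vx) = ∅ := by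
            apply Finset.filter_eq_empty_iff.mpr
            rintro v hv ⟨h6, _⟩
            exact h5 (h6 ▸ hv)
          rw [this]; simp
      · have : ({v ∈ A | v = .hb n 0 x ∧ i + 1 = N n} : Finset Vx) = ∅ := by
          apply Finset.filter_eq_empty_iff.mpr
          rintro v hv ⟨_, h6⟩
          exact h h6
        rw [this]
        simp only [card_empty, Nat.cast_zero]
        split_ifs
        · exact ind_nonneg _ _
        · exact le_rfl
    have hA2 : ((({v ∈ A | v ∈ upv l n x ∧ i = 0} : Finset Vx).card : ℕ) : ℝ)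
        ≤ (if Vx.cl n x i = .cl n x 0 then iup l A n x else 0) := by
      by_cases h : i = 0
      · rw [if_pos (by rw [h])]
        have e : ({v ∈ A | v ∈ upv l n x ∧ i = 0} : Finset Vx) = {v ∈ upv l n x | v ∈ A} := by
          ext v; simp only [mem_filter]; tauto
        rw [e]
        unfold iup ind
        rw [Finset.card_filter]
        push_cast
        exact le_rfl
      · have : ({v ∈ A | v ∈ upv l n x ∧ i = 0} : Finset Vx) = ∅ := by
          apply Finset.filter_eq_empty_iff.mpr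
          rintro v hv ⟨_, h6⟩
          exact h h6
        rw [this]
        simp only [card_empty, Nat.cast_zero]
        split_ifs
        · exact iup_nonneg _ _ _ _
        · exact le_rfl
    have hcard' : (infl (nbG N m l) A (.cl n x i) : ℝ) ≤ (A ∩ clus N n x).card
        + ((({v ∈ A | v = .hb n 0 x ∧ i + 1 = N n} : Finset Vx).card : ℝ)
          + ({v ∈ A | v ∈ upv l n x ∧ i = 0} : Finset Vx).card) := by exact_mod_cast hcard
    linarith
  refine le_trans (Finset.sum_le_sum h1) ?_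
  rw [Finset.sum_add_distrib, Finset.sum_add_distrib, Finset.sum_const, nsmul_eq_mul,
    Finset.sum_ite_eq', Finset.sum_ite_eq']
  have h2 : (if Vx.cl n x (N n - 1) ∈ clus N n x \ A then ind A (.hb n 0 x) else 0)
      ≤ ind A (.hb n 0 x) := by
    split_ifs
    · exact le_rfl
    · exact ind_nonneg _ _
  have h3 : (if Vx.cl n x 0 ∈ clus N n x \ A then iup l A n x else 0) ≤ iup l A n x := by
    split_ifs
    · exact le_rfl
    · exact iup_nonneg _ _ _ _
  nlinarith

lemma inflow_le_nonempty (hl : ∀ n, 1 ≤ l n) (hN : ∀ n, 1 ≤ N n) (n x : ℕ) (A : Finset Vx) :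
    ∑ y ∈ clus N n x \ A, (infl (nbG N m l) A y : ℝ)
      ≤ (A ∩ clus N n x).card * (((clus N n x).card : ℝ) - (A ∩ clus N n x).card) + 2 := by
  have h := inflow_le N m l hl hN n x A
  have h2 : ((clus N n x \ A).card : ℝ) = ((clus N n x).card : ℝ) - (A ∩ clus N n x).card := by
    have := Finset.card_sdiff_add_card_inter (clus N n x) A
    rw [Finset.inter_comm (clus N n x) A] at this
    have h3 : ((clus N n x \ A).card : ℝ) + (A ∩ clus N n x).card = (clus N n x).card := by
      exact_mod_cast this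
    linarith
  rw [h2] at h
  have h3 := ind_le_one A (.hb n 0 x)
  have h4 := iup_le_one l A n x
  linarith

lemma inflow_le_empty (hl : ∀ n, 1 ≤ l n) (hN : ∀ n, 1 ≤ N n) (n x : ℕ) (A : Finset Vx)
    (hne : ¬ (A ∩ clus N n x).Nonempty) :
    ∑ y ∈ clus N n x, (infl (nbG N m l) A y : ℝ) ≤ ind A (.hb n 0 x) + iup l A n x := by
  have h := inflow_le N m l hl hN n x A
  rw [Finset.not_nonempty_iff_eq_empty] at hne
  rw [hne] at h
  have h2 : clus N n x \ A = clus N n x := by
    rw [Finset.sdiff_eq_self_iff_disjoint, Finset.disjoint_iff_inter_eq_empty, Finset.inter_comm]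
    exact hne
  rw [h2] at h
  simpa using h

end Pool.Agent.CP
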