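import Mathlib
import Pool.Agent.Helper11.CP.PathGen

/-!
# Functions defined by maxima, with growth
-/

set_option autoImplicit false

namespace Pool.Agent.CP

open Finset

section fmax

variable {ι : Type*}

/-- maximum of finitely many numbers and `0` -/
noncomputable def fmax (s : Finset ι) (g : ι → ℝ) : ℝ := s.fold max 0 g

lemma fmax_nonneg (s : Finset ι) (g : ι → ℝ) : 0 ≤ fmax s g := by
  unfold fmax
  rw [Finset.le_fold_max]
  exact Or.inl le_rfl

lemma le_fmax {s : Finset ι} (g : ι → ℝ) {i : ι} (hi : i ∈ s) : g i ≤ fmax s g := by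
  unfold fmax
  rw [Finset.le_fold_max]
  exact Or.inr ⟨i, hi, le_rfl⟩

lemma fmax_le {s : Finset ι} {g : ι → ℝ} {c : ℝ} (hc : 0 ≤ c) (h : ∀ i ∈ s, g i ≤ c) :
    fmax s g ≤ c := by
  unfold fmax
  rw [Finset.fold_max_le]
  exact ⟨hc, h⟩

lemma fmax_cases (s : Finset ι) (g : ι → ℝ) : fmax s g = 0 ∨ ∃ i ∈ s, fmax s g = g i := by
  by_contra hcon
  push Not at hcon
  obtain ⟨h0, h1⟩ := hcon
  have hpos : 0 < fmax s g := lt_of_le_of_ne (fmax_nonneg s g) (Ne.symm h0)
  have : fmax s g < fmax s g := by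
    conv_lhs => unfold fmax
    rw [Finset.fold_max_lt]
    exact ⟨hpos, fun i hi => lt_of_le_of_ne (le_fmax g hi) (Ne.symm (h1 i hi))⟩
  exact lt_irrefl _ this

lemma fmax_mono {s t : Finset ι} {g : ι → ℝ} (h : s ⊆ t) : fmax s g ≤ fmax t g :=
  fmax_le (fmax_nonneg _ _) (fun _ hi => le_fmax g (h hi))

lemma fmax_mono_fun {s : Finset ι} {g g' : ι → ℝ} (h : ∀ i ∈ s, g i ≤ g' i) :
    fmax s g ≤ fmax s g' :=
  fmax_le (fmax_nonneg _ _) (fun i hi => le_trans (h i hi) (le_fmax g' hi))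

end fmax

variable {V : Type*} [DecidableEq V] (nb : V → Finset V) (lam : ℝ)

lemma gen_nonneg_of_zero (hlam : 0 ≤ lam) {f : Finset V → ℝ} (hf : ∀ B, 0 ≤ f B) {A : Finset V}
    (h0 : f A = 0) : 0 ≤ gen nb lam f A := by
  unfold gen
  have e1 : 0 ≤ ∑ x ∈ A, (f (A.erase x) - f A) :=
    Finset.sum_nonneg (fun x _ => by rw [h0]; linarith [hf (A.erase x)])
  have e2 : 0 ≤ ∑ x ∈ A, ∑ y ∈ nb x, (f (insert y A) - f A) :=
    Finset.sum_nonneg (fun x _ => Finset.sum_nonneg (fun y _ => by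
      rw [h0]; linarith [hf (insert y A)]))
  have := mul_nonneg hlam e2
  linarith

/-- A function given by values of the infected vertices and by crossing functions of paths. -/
noncomputable def wit {ι : Type*} (lam0 kap : ℝ) (val : V → ℝ) (Y : Finset ι) (L : ι → ℕ)
    (e : ι → ℕ → V) (t : ι → V) (B : Finset V) : ℝ :=
  max (fmax B val) (fmax Y (fun y => val (t y) * pfun (L y) lam0 kap (pull (L y) (e y) B)))

structure WitHyp {ι : Type*} (lam0 kap : ℝ) (val : V → ℝ) (term : V → Prop) (Y : Finset ι)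
    (L : ι → ℕ) (e : ι → ℕ → V) (t : ι → V) : Prop where
  val0 : ∀ w, 0 ≤ val w
  val1 : ∀ w, val w ≤ 1
  emb : ∀ y ∈ Y, PathEmb nb (L y) (e y)
  Lpos : ∀ y ∈ Y, 0 < L y
  tne : ∀ y ∈ Y, ∀ j < L y, e y j ≠ t y
  tnb : ∀ y ∈ Y, t y ∈ nb (e y 0)
  step : ∀ w, ¬ term w → 0 < val w → ∃ C : Finset V, C ⊆ nb w ∧ ∃ r : ℝ,
    (∀ c ∈ C, r ≤ wit lam0 kap val Y L e t {c}) ∧
      kap * val w ≤ - val w + lam0 * (C.card * (r - val w))

section wit

variable {ι : Type*} {lam0 kap : ℝ} {val : V → ℝ} {term : V → Prop} {Y : Finset ι}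
    {L : ι → ℕ} {e : ι → ℕ → V} {t : ι → V}

lemma wit_nonneg (B : Finset V) : 0 ≤ wit lam0 kap val Y L e t B :=
  le_max_of_le_left (fmax_nonneg _ _)

lemma val_le_wit {B : Finset V} {w : V} (hw : w ∈ B) : val w ≤ wit lam0 kap val Y L e t B :=
  le_max_of_le_left (le_fmax val hw)

lemma path_le_wit {B : Finset V} {y : ι} (hy : y ∈ Y) :
    val (t y) * pfun (L y) lam0 kap (pull (L y) (e y) B) ≤ wit lam0 kap val Y L e t B :=
  le_max_of_le_right (le_fmax (fun y => val (t y) * pfun (L y) lam0 kap (pull (L y) (e y) B)) hy)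

lemma wit_cases (B : Finset V) : wit lam0 kap val Y L e t B = 0
    ∨ (∃ w ∈ B, wit lam0 kap val Y L e t B = val w)
    ∨ (∃ y ∈ Y, wit lam0 kap val Y L e t B
      = val (t y) * pfun (L y) lam0 kap (pull (L y) (e y) B)) := by
  unfold wit
  rcases max_choice (fmax B val)
    (fmax Y (fun y => val (t y) * pfun (L y) lam0 kap (pull (L y) (e y) B))) with h | h
  · rw [h]
    rcases fmax_cases B val with h' | ⟨w, hw, h'⟩
    · exact Or.inl h'
    · exact Or.inr (Or.inl ⟨w, hw, h'⟩)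
  · rw [h]
    rcases fmax_cases Y (fun y => val (t y) * pfun (L y) lam0 kap (pull (L y) (e y) B))
      with h' | ⟨y, hy, h'⟩
    · exact Or.inl h'
    · exact Or.inr (Or.inr ⟨y, hy, h'⟩)

lemma wit_mono (hlam0 : 0 < lam0) (hkap : 0 ≤ kap) (hval : ∀ w, 0 ≤ val w) (A B : Finset V)
    (h : A ⊆ B) : wit lam0 kap val Y L e t A ≤ wit lam0 kap val Y L e t B := by
  unfold wit
  apply max_le_max
  · exact fmax_mono h
  · apply fmax_mono_fun
    intro y _
    obtain ⟨-, -, -, pmono, -⟩ := pfun_spec (L y) lam0 kap hlam0 hkap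
    exact mul_le_mul_of_nonneg_left (pmono _ _ (pull_mono h)) (hval _)

lemma wit_empty (hlam0 : 0 < lam0) (hkap : 0 ≤ kap) : wit lam0 kap val Y L e t ∅ = 0 := by
  apply le_antisymm _ (wit_nonneg _)
  unfold wit
  apply max_le
  · exact fmax_le le_rfl (fun i hi => absurd hi (Finset.notMem_empty i))
  · apply fmax_le le_rfl
    intro y _
    obtain ⟨-, -, pe, -⟩ := pfun_spec (L y) lam0 kap hlam0 hkap
    have : pull (L y) (e y) (∅ : Finset V) = ∅ := by
      ext j; simp [mem_pull]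
    rw [this, pe, mul_zero]

lemma wit_le_one (hlam0 : 0 < lam0) (hkap : 0 ≤ kap)
    (hval1 : ∀ w, val w ≤ 1) (B : Finset V) : wit lam0 kap val Y L e t B ≤ 1 := by
  unfold wit
  apply max_le
  · exact fmax_le zero_le_one (fun i _ => hval1 i)
  · apply fmax_le zero_le_one
    intro y _
    obtain ⟨p0, p1, -⟩ := pfun_spec (L y) lam0 kap hlam0 hkap
    exact mul_le_one₀ (hval1 _) (p0 _) (p1 _)

lemma wit_erase_of_val_zero {z : V} (hlam0 : 0 < lam0) (hkap : 0 ≤ kap) (hval : ∀ w, 0 ≤ val w)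
    (hz : val z = 0) (hze : ∀ y ∈ Y, ∀ j < L y, e y j ≠ z)
    (B : Finset V) : wit lam0 kap val Y L e t (B.erase z) = wit lam0 kap val Y L e t B := by
  apply le_antisymm
  · exact wit_mono hlam0 hkap hval _ _ (Finset.erase_subset _ _)
  · rcases wit_cases (lam0 := lam0) (kap := kap) (val := val) (Y := Y) (L := L) (e := e) (t := t) B
      with h | ⟨w, hw, h⟩ | ⟨y, hy, h⟩
    · rw [h]; exact wit_nonneg _
    · rw [h]
      by_cases hwz : w = z
      · rw [hwz, hz]; exact wit_nonneg _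
      · exact val_le_wit (mem_erase.mpr ⟨hwz, hw⟩)
    · rw [h, ← pull_erase_of_notMem (A := B) (hze y hy)]
      exact path_le_wit hy

lemma wit_insert_of_val_zero {z : V} (hlam0 : 0 < lam0) (hkap : 0 ≤ kap) (hval : ∀ w, 0 ≤ val w)
    (hz : val z = 0) (hze : ∀ y ∈ Y, ∀ j < L y, e y j ≠ z)
    (B : Finset V) : wit lam0 kap val Y L e t (insert z B) = wit lam0 kap val Y L e t B := by
  have h1 := wit_erase_of_val_zero (t := t) hlam0 hkap hval hz hze (insert z B)
  have h2 := wit_erase_of_val_zero (t := t) hlam0 hkap hval hz hze B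
  rw [← h1, ← h2]
  congr 1
  ext w
  simp only [mem_erase, mem_insert]
  tauto

/-- Growth of the function `wit`. -/
theorem gen_wit_ge (H : WitHyp nb lam0 kap val term Y L e t) (hlam0 : 0 < lam0) (hkap : 0 ≤ kap)
    (hlam : lam0 ≤ lam) (A : Finset V) (hA : ∀ w ∈ A, ¬ term w) :
    kap * wit lam0 kap val Y L e t A ≤ gen nb lam (wit lam0 kap val Y L e t) A := by
  have hlam' : 0 ≤ lam := le_trans hlam0.le hlam
  have hvertex : ∀ w ∈ A, wit lam0 kap val Y L e t A = val w →
      kap * wit lam0 kap val Y L e t A ≤ gen nb lam (wit lam0 kap val Y L e t) A := by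
    intro w hw hv
    rcases (H.val0 w).lt_or_eq with hpos | hz
    · obtain ⟨C, hC, r, hr, hstep⟩ := H.step w (hA w hw) hpos
      have h1 := gen_vertex_witness nb lam hlam' (wit lam0 kap val Y L e t) A w hw r C hC
        (fun x _ y _ => wit_mono hlam0 hkap H.val0 _ _ (Finset.subset_insert _ _))
        (wit_nonneg _)
        (fun x _ hxw => by
          rw [hv]; exact val_le_wit (mem_erase.mpr ⟨fun h => hxw h.symm, hw⟩))
        (fun y hy => le_trans (hr y hy) (wit_mono hlam0 hkap H.val0 _ _ (by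
          intro z hz; rw [mem_singleton] at hz; rw [hz]; exact mem_insert_self _ _)))
      refine le_trans ?_ h1
      rw [hv]
      have h2 : 0 ≤ (C.card : ℝ) * (r - val w) := by
        by_contra hneg
        push Not at hneg
        have : lam0 * ((C.card : ℝ) * (r - val w)) < 0 := mul_neg_of_pos_of_neg hlam0 hneg
        have h3 : 0 ≤ kap * val w := mul_nonneg hkap hpos.le
        linarith
      have h3 : lam0 * ((C.card : ℝ) * (r - val w)) ≤ lam * ((C.card : ℝ) * (r - val w)) :=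
        mul_le_mul_of_nonneg_right hlam h2
      linarith
    · have h0 : wit lam0 kap val Y L e t A = 0 := by rw [hv]; exact hz.symm
      rw [h0, mul_zero]
      exact gen_nonneg_of_zero nb lam hlam' (fun B => wit_nonneg B) h0
  rcases wit_cases (lam0 := lam0) (kap := kap) (val := val) (Y := Y) (L := L) (e := e) (t := t) A
    with h | ⟨w, hw, h⟩ | ⟨y, hy, h⟩
  · rw [h, mul_zero]
    exact gen_nonneg_of_zero nb lam hlam' (fun B => wit_nonneg B) h
  · exact hvertex w hw h
  · by_cases htA : t y ∈ A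
    · apply hvertex (t y) htA
      apply le_antisymm _ (val_le_wit htA)
      rw [h]
      obtain ⟨p0, p1, -⟩ := pfun_spec (L y) lam0 kap hlam0 hkap
      calc val (t y) * pfun (L y) lam0 kap (pull (L y) (e y) A) ≤ val (t y) * 1 :=
            mul_le_mul_of_nonneg_left (p1 _) (H.val0 _)
        _ = val (t y) := mul_one _
    · exact gen_path_witness nb lam (H.emb y hy) (H.Lpos y hy) hlam0 hkap (H.val0 (t y)) hlam
        (wit lam0 kap val Y L e t) A (t y) (H.tne y hy) htA (H.tnb y hy) h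
        (fun B => path_le_wit hy) (fun B hB => val_le_wit hB)

end wit

end Pool.Agent.CP
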