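import Mathlib
import Pool.Agent.Helper11.CP.GenLemmas

/-!
# The basic subharmonic function attached to a core
-/

set_option autoImplicit false

namespace Pool.Agent.CP

open Finset

variable {V : Type*} [DecidableEq V] (nb : V → Finset V) (lam : ℝ)

/-- Product rule when every transition changes at most one of the factors. -/
lemma gen_mul_of_indep (α w : Finset V → ℝ) (A : Finset V)
    (h1 : ∀ x ∈ A, α (A.erase x) = α A ∨ w (A.erase x) = w A)
    (h2 : ∀ x ∈ A, ∀ y ∈ nb x, α (insert y A) = α A ∨ w (insert y A) = w A) :
    gen nb lam (fun B => α B * w B) A = α A * gen nb lam w A + w A * gen nb lam α A := by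
  unfold gen
  have e1 : ∑ x ∈ A, (α (A.erase x) * w (A.erase x) - α A * w A)
      = α A * ∑ x ∈ A, (w (A.erase x) - w A) + w A * ∑ x ∈ A, (α (A.erase x) - α A) := by
    rw [Finset.mul_sum, Finset.mul_sum, ← Finset.sum_add_distrib]
    refine Finset.sum_congr rfl (fun x hx => ?_)
    rcases h1 x hx with h | h <;> rw [h] <;> ring
  have e2 : ∑ x ∈ A, ∑ y ∈ nb x, (α (insert y A) * w (insert y A) - α A * w A)
      = α A * ∑ x ∈ A, ∑ y ∈ nb x, (w (insert y A) - w A)
        + w A * ∑ x ∈ A, ∑ y ∈ nb x, (α (insert y A) - α A) := by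
    rw [Finset.mul_sum, Finset.mul_sum, ← Finset.sum_add_distrib]
    refine Finset.sum_congr rfl (fun x hx => ?_)
    rw [Finset.mul_sum, Finset.mul_sum, ← Finset.sum_add_distrib]
    refine Finset.sum_congr rfl (fun y hy => ?_)
    rcases h2 x hx y hy with h | h <;> rw [h] <;> ring
  rw [e1, e2]; ring

/-- The function `α B = a (#(B ∩ C))`. -/
noncomputable def cardFun (C : Finset V) (a : ℕ → ℝ) (B : Finset V) : ℝ := a (B ∩ C).card

lemma cardFun_erase_of_notMem {C A : Finset V} (a : ℕ → ℝ) {x : V} (hx : x ∉ C) :
    cardFun C a (A.erase x) = cardFun C a A := by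
  unfold cardFun
  rw [Finset.erase_inter, Finset.erase_eq_of_notMem]
  intro h; exact hx (mem_inter.mp h).2

lemma cardFun_insert_of_notMem {C A : Finset V} (a : ℕ → ℝ) {x : V} (hx : x ∉ C) :
    cardFun C a (insert x A) = cardFun C a A := by
  unfold cardFun
  rw [Finset.insert_inter_of_notMem hx]

lemma gen_cardFun (C A : Finset V) (a : ℕ → ℝ) :
    gen nb lam (cardFun C a) A
      = (A ∩ C).card * (a ((A ∩ C).card - 1) - a (A ∩ C).card)
        + lam * ((∑ y ∈ C \ A, (infl nb A y : ℝ)) * (a ((A ∩ C).card + 1) - a (A ∩ C).card)) := by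
  rw [gen_eq_of_local nb lam (cardFun C a) C A]
  rotate_left
  · intro x _ hx; exact cardFun_erase_of_notMem a hx
  · intro x _ y _ hy; exact cardFun_insert_of_notMem a hy
  congr 1
  · have : ∀ x ∈ A ∩ C, cardFun C a (A.erase x) - cardFun C a A
        = a ((A ∩ C).card - 1) - a (A ∩ C).card := by
      intro x hx
      unfold cardFun
      rw [inter_erase_card_of_mem hx]
    rw [Finset.sum_congr rfl this, Finset.sum_const, nsmul_eq_mul]
  · congr 1
    rw [Finset.sum_mul]
    refine Finset.sum_congr rfl (fun y hy => ?_)
    unfold cardFun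
    rw [inter_insert_card_of_mem hy]

/-- In a clique `C` the inflow into the healthy part is at least `i * (M - i)`. -/
lemma infl_core_ge (C A : Finset V) (hCC : ∀ z ∈ C, C.erase z ⊆ nb z) :
    ((A ∩ C).card : ℝ) * ((C.card : ℝ) - (A ∩ C).card) ≤ ∑ y ∈ C \ A, (infl nb A y : ℝ) := by
  have h1 : ∀ y ∈ C \ A, ((A ∩ C).card : ℝ) ≤ (infl nb A y : ℝ) := by
    intro y hy
    rw [mem_sdiff] at hy
    have : (A ∩ C) ⊆ A.filter (fun x => y ∈ nb x) := by
      intro x hx
      rw [mem_inter] at hx
      rw [mem_filter]
      refine ⟨hx.1, hCC x hx.2 (mem_erase.mpr ⟨?_, hy.1⟩)⟩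
      rintro rfl; exact hy.2 hx.1
    exact_mod_cast Finset.card_le_card this
  have h2 : ∑ y ∈ C \ A, ((A ∩ C).card : ℝ) ≤ ∑ y ∈ C \ A, (infl nb A y : ℝ) :=
    Finset.sum_le_sum h1
  rw [Finset.sum_const, nsmul_eq_mul] at h2
  have h3 : ((C \ A).card : ℝ) = (C.card : ℝ) - (A ∩ C).card := by
    have := Finset.card_sdiff_add_card_inter C A
    rw [Finset.inter_comm] at this
    have h4 : ((C \ A).card : ℝ) + ((A ∩ C).card : ℝ) = (C.card : ℝ) := by exact_mod_cast this
    linarith
  rw [h3] at h2
  linarith [h2]

/-- The function `Ψ`. -/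
noncomputable def psi (C : Finset V) (a : ℕ → ℝ) (q : ℝ) (v : Finset V → ℝ) (B : Finset V) : ℝ :=
  max (1 - (1 + q / 2) * (cardFun C a B * (1 - v B))) (1 - cardFun C a B)

structure PsiHyp (C : Finset V) (b : V) (a : ℕ → ℝ) (q kap : ℝ) (v : Finset V → ℝ) : Prop where
  hb : b ∉ C
  hCb : ∀ z ∈ C, b ∈ nb z
  hCC : ∀ z ∈ C, C.erase z ⊆ nb z
  a0 : a 0 = 1
  apos : ∀ i, 0 < a i
  aanti : Antitone a
  arec : ∀ i : ℕ, 1 ≤ i → i ≤ C.card →
    i * (a (i - 1) - a i) - lam * (i * ((C.card : ℝ) - i) * (a i - a (i + 1)))
      ≤ kap * q / 8 * a i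
  v0 : ∀ B, 0 ≤ v B
  v1 : ∀ B, v B ≤ 1
  vmono : ∀ A B, A ⊆ B → v A ≤ v B
  verase : ∀ A, ∀ z ∈ C, v (A.erase z) = v A
  vinsert : ∀ A, ∀ z ∈ C, v (insert z A) = v A
  vq : ∀ A, b ∈ A → q ≤ v A
  q0 : 0 < q
  q1 : q ≤ 1
  kap0 : 0 < kap
  kap1 : kap ≤ lam

lemma gen_cardFun_le {C : Finset V} {b : V} {a : ℕ → ℝ} {q kap : ℝ} {v : Finset V → ℝ}
    (H : PsiHyp nb lam C b a q kap v) (A : Finset V) (hlam : 0 ≤ lam) :
    gen nb lam (cardFun C a) A ≤ kap * q / 8 * cardFun C a A := by
  rw [gen_cardFun]
  set i := (A ∩ C).card with hi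
  have hiC : i ≤ C.card := Finset.card_le_card Finset.inter_subset_right
  have hin := infl_core_ge nb C A H.hCC
  rw [← hi] at hin
  have hd : a (i + 1) ≤ a i := H.aanti (Nat.le_succ i)
  have hmul : lam * ((∑ y ∈ C \ A, (infl nb A y : ℝ)) * (a (i + 1) - a i))
      ≤ lam * ((i * ((C.card : ℝ) - i)) * (a (i + 1) - a i)) := by
    apply mul_le_mul_of_nonneg_left _ hlam
    apply mul_le_mul_of_nonpos_right hin
    linarith
  rcases Nat.eq_zero_or_pos i with h0 | h0
  · rw [h0] at hmul ⊢
    have h3 : cardFun C a A = a 0 := by unfold cardFun; rw [← hi, h0]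
    rw [h3]
    have := H.apos 0
    have hk := mul_pos (mul_pos H.kap0 H.q0) this
    push_cast at hmul ⊢
    nlinarith [hmul]
  · have h3 : cardFun C a A = a i := by unfold cardFun; rw [← hi]
    rw [h3]
    have := H.arec i h0 hiC
    nlinarith [this, hmul]

lemma psi_nonneg {C : Finset V} {b : V} {a : ℕ → ℝ} {q kap : ℝ} {v : Finset V → ℝ}
    (H : PsiHyp nb lam C b a q kap v) (A : Finset V) : 0 ≤ psi C a q v A := by
  unfold psi
  apply le_max_of_le_right
  have : cardFun C a A ≤ a 0 := H.aanti (Nat.zero_le _)
  rw [H.a0] at this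
  linarith

lemma psi_le_one {C : Finset V} {b : V} {a : ℕ → ℝ} {q kap : ℝ} {v : Finset V → ℝ}
    (H : PsiHyp nb lam C b a q kap v) (A : Finset V) : psi C a q v A ≤ 1 := by
  unfold psi
  have h1 := H.apos (A ∩ C).card
  have h2 := H.v1 A
  have h3 : 0 ≤ (1 + q / 2) * (cardFun C a A * (1 - v A)) := by
    have := H.q0
    unfold cardFun
    apply mul_nonneg (by linarith)
    exact mul_nonneg h1.le (by linarith)
  have h4 : 0 < cardFun C a A := h1
  exact max_le (by linarith) (by linarith)

/-- Main lemma: `Ψ` is subharmonic with growth. -/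
theorem gen_psi_ge {C : Finset V} {b : V} {a : ℕ → ℝ} {q kap : ℝ} {v : Finset V → ℝ}
    (H : PsiHyp nb lam C b a q kap v) (A : Finset V) (hv : kap * v A ≤ gen nb lam v A) :
    a C.card * (kap * q / 8) * psi C a q v A ≤ gen nb lam (psi C a q v) A := by
  have hlam : 0 ≤ lam := le_trans H.kap0.le H.kap1
  have hk := H.kap0
  have hq := H.q0
  have hq1 := H.q1
  have hkq : 0 < kap * q := mul_pos hk hq
  set i := (A ∩ C).card with hi
  have hiC : i ≤ C.card := Finset.card_le_card Finset.inter_subset_right
  have haC : a C.card ≤ cardFun C a A := H.aanti hiC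
  have haC0 := H.apos C.card
  have hcf0 : 0 < cardFun C a A := H.apos _
  have hcf1 : cardFun C a A ≤ 1 := by
    have : cardFun C a A ≤ a 0 := H.aanti (Nat.zero_le _)
    rwa [H.a0] at this
  have hv0 := H.v0 A
  have hv1 := H.v1 A
  have hgc := gen_cardFun_le nb lam H A hlam
  have hpsi1 := psi_le_one nb lam H A
  have hpsi0 := psi_nonneg nb lam H A
  by_cases hcase : 1 - cardFun C a A ≤ 1 - (1 + q / 2) * (cardFun C a A * (1 - v A))
  · -- first branch is the maximum
    have hA : psi C a q v A = 1 - (1 + q / 2) * (cardFun C a A * (1 - v A)) := by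
      unfold psi; exact max_eq_left hcase
    have htouch : gen nb lam (fun B => 1 - (1 + q / 2) * (cardFun C a B * (1 - v B))) A
        ≤ gen nb lam (psi C a q v) A := by
      apply gen_le_of_touch nb lam hlam
      · exact hA
      · intro x _; exact le_max_left _ _
      · intro x _ y _; exact le_max_left _ _
    have hcomp : gen nb lam (fun B => 1 - (1 + q / 2) * (cardFun C a B * (1 - v B))) A
        = (1 + q / 2) * (cardFun C a A * gen nb lam v A - (1 - v A) * gen nb lam (cardFun C a) A) := by
      rw [gen_sub nb lam (fun _ => 1) (fun B => (1 + q / 2) * (cardFun C a B * (1 - v B))) A,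
        gen_const, gen_const_mul, gen_mul_of_indep nb lam (cardFun C a) (fun B => 1 - v B) A]
      · rw [gen_sub nb lam (fun _ => 1) v A, gen_const]; ring
      · intro x _
        by_cases hx : x ∈ C
        · right; simp only [H.verase A x hx]
        · left; exact cardFun_erase_of_notMem a hx
      · intro x _ y _
        by_cases hy : y ∈ C
        · right; simp only [H.vinsert A y hy]
        · left; exact cardFun_insert_of_notMem a hy
    rw [hcomp] at htouch
    -- θ bound
    have hvθ : q / 3 ≤ v A := by
      have h1 : (1 + q / 2) * (1 - v A) ≤ 1 := by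
        have h2 : (1 + q / 2) * (cardFun C a A * (1 - v A)) ≤ cardFun C a A := by linarith
        have h3 : cardFun C a A * ((1 + q / 2) * (1 - v A)) ≤ cardFun C a A * 1 := by
          calc cardFun C a A * ((1 + q / 2) * (1 - v A))
              = (1 + q / 2) * (cardFun C a A * (1 - v A)) := by ring
            _ ≤ cardFun C a A * 1 := by linarith
        exact le_of_mul_le_mul_left h3 hcf0
      nlinarith [h1]
    have e1 : cardFun C a A * (kap * v A) ≤ cardFun C a A * gen nb lam v A :=
      mul_le_mul_of_nonneg_left hv hcf0.le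
    have e2 : (1 - v A) * gen nb lam (cardFun C a) A ≤ (1 - v A) * (kap * q / 8 * cardFun C a A) :=
      mul_le_mul_of_nonneg_left hgc (by linarith)
    have e3 : (1 - v A) * (kap * q / 8 * cardFun C a A) ≤ kap * q / 8 * cardFun C a A := by
      have : 0 ≤ kap * q / 8 * cardFun C a A := by positivity
      nlinarith
    have e4 : kap * (q / 3) * cardFun C a A ≤ cardFun C a A * (kap * v A) := by
      have : kap * (q / 3) ≤ kap * v A := mul_le_mul_of_nonneg_left hvθ hk.le
      nlinarith
    have e5 : kap * q / 8 * cardFun C a A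
        ≤ cardFun C a A * gen nb lam v A - (1 - v A) * gen nb lam (cardFun C a) A := by
      have : 0 ≤ kap * q * cardFun C a A := by positivity
      nlinarith
    have e6 : kap * q / 8 * cardFun C a A ≤ (1 + q / 2) *
        (cardFun C a A * gen nb lam v A - (1 - v A) * gen nb lam (cardFun C a) A) := by
      have : 0 ≤ kap * q / 8 * cardFun C a A := by positivity
      nlinarith
    have e7 : a C.card * (kap * q / 8) * psi C a q v A ≤ kap * q / 8 * cardFun C a A := by
      have h1 : a C.card * (kap * q / 8) * psi C a q v A ≤ a C.card * (kap * q / 8) * 1 :=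
        mul_le_mul_of_nonneg_left hpsi1 (by positivity)
      have h2 : a C.card * (kap * q / 8) ≤ cardFun C a A * (kap * q / 8) :=
        mul_le_mul_of_nonneg_right haC (by positivity)
      linarith
    linarith
  · -- second branch is the maximum
    push Not at hcase
    have hA : psi C a q v A = 1 - cardFun C a A := by
      unfold psi; exact max_eq_right hcase.le
    -- v A < q, so b is not infected
    have hvq : v A < q := by
      by_contra hcon
      push Not at hcon
      have h1 : (1 + q / 2) * (1 - v A) ≤ 1 := by nlinarith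
      have h3 : cardFun C a A * ((1 + q / 2) * (1 - v A)) ≤ cardFun C a A * 1 :=
        mul_le_mul_of_nonneg_left h1 hcf0.le
      nlinarith
    have hbA : b ∉ A := fun hb => absurd (H.vq A hb) (not_le.mpr hvq)
    rcases Nat.eq_zero_or_pos i with h0 | h0
    · -- core empty: Ψ = 0
      have hz : psi C a q v A = 0 := by
        rw [hA]; unfold cardFun; rw [← hi, h0, H.a0]; ring
      rw [hz, mul_zero]
      unfold gen
      have e1 : 0 ≤ ∑ x ∈ A, (psi C a q v (A.erase x) - psi C a q v A) :=
        Finset.sum_nonneg (fun x _ => by rw [hz]; linarith [psi_nonneg nb lam H (A.erase x)])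
      have e2 : 0 ≤ ∑ x ∈ A, ∑ y ∈ nb x, (psi C a q v (insert y A) - psi C a q v A) :=
        Finset.sum_nonneg (fun x _ => Finset.sum_nonneg (fun y _ => by
          rw [hz]; linarith [psi_nonneg nb lam H (insert y A)]))
      have := mul_nonneg hlam e2
      linarith
    · -- core nonempty
      set w : Finset V → ℝ := fun B => if b ∈ B then (1 + q / 2) * (1 - q) else 1 with hw
      have htouch : gen nb lam (fun B => 1 - cardFun C a B * w B) A
          ≤ gen nb lam (psi C a q v) A := by
        have hle : ∀ B, 1 - cardFun C a B * w B ≤ psi C a q v B := by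
          intro B
          have hcB : 0 < cardFun C a B := H.apos _
          by_cases hbB : b ∈ B
          · have hwB : w B = (1 + q / 2) * (1 - q) := by rw [hw]; simp [hbB]
            rw [hwB]
            refine le_trans ?_ (le_max_left _ _)
            have := H.vq B hbB
            have h1 : cardFun C a B * (1 - v B) ≤ cardFun C a B * (1 - q) :=
              mul_le_mul_of_nonneg_left (by linarith) hcB.le
            have h2 : (1 + q / 2) * (cardFun C a B * (1 - v B))
                ≤ (1 + q / 2) * (cardFun C a B * (1 - q)) :=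
              mul_le_mul_of_nonneg_left h1 (by linarith)
            nlinarith
          · have hwB : w B = 1 := by rw [hw]; simp [hbB]
            rw [hwB, mul_one]
            exact le_max_right _ _
        apply gen_le_of_touch nb lam hlam
        · rw [hA, hw]; simp [hbA]
        · intro x _; exact hle _
        · intro x _ y _; exact hle _
      have hcomp : gen nb lam (fun B => 1 - cardFun C a B * w B) A
          = - (cardFun C a A * gen nb lam w A + w A * gen nb lam (cardFun C a) A) := by
        rw [gen_sub nb lam (fun _ => 1) (fun B => cardFun C a B * w B) A,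
          gen_const, gen_mul_of_indep nb lam (cardFun C a) w A]
        · ring
        · intro x _
          by_cases hx : x ∈ C
          · right
            have hxb : x ≠ b := fun h => H.hb (h ▸ hx)
            simp only [hw]
            have : b ∈ A.erase x ↔ b ∈ A := by
              rw [mem_erase]; exact ⟨fun h => h.2, fun h => ⟨hxb.symm, h⟩⟩
            simp only [this]
          · left; exact cardFun_erase_of_notMem a hx
        · intro x _ y _
          by_cases hy : y ∈ C
          · right
            have hyb : y ≠ b := fun h => H.hb (h ▸ hy)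
            simp only [hw]
            have : b ∈ insert y A ↔ b ∈ A := by
              rw [mem_insert]; exact ⟨fun h => h.resolve_left hyb.symm, fun h => Or.inr h⟩
            simp only [this]
          · left; exact cardFun_insert_of_notMem a hy
      have hwA : w A = 1 := by rw [hw]; simp [hbA]
      have hgw : gen nb lam w A ≤ - (lam * (i * (q / 2))) := by
        rw [gen_eq_of_local nb lam w {b} A]
        · have e0 : A ∩ {b} = ∅ := by
            ext x; simp only [mem_inter, mem_singleton, Finset.notMem_empty, iff_false, not_and]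
            rintro hx rfl; exact hbA hx
          have e00 : ({b} : Finset V) \ A = {b} := by
            ext x; simp only [mem_sdiff, mem_singleton]
            exact ⟨fun h => h.1, fun h => ⟨h, h ▸ hbA⟩⟩
          rw [e0, e00, Finset.sum_empty, Finset.sum_singleton, zero_add, hwA]
          have hins : w (insert b A) = (1 + q / 2) * (1 - q) := by rw [hw]; simp
          rw [hins]
          have hinfl : (i : ℝ) ≤ (infl nb A b : ℝ) := by
            have : (A ∩ C) ⊆ A.filter (fun x => b ∈ nb x) := by
              intro x hx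
              rw [mem_inter] at hx
              rw [mem_filter]
              exact ⟨hx.1, H.hCb x hx.2⟩
            exact_mod_cast Finset.card_le_card this
          have h1 : (1 + q / 2) * (1 - q) - 1 ≤ - (q / 2) := by nlinarith
          have h2 : (infl nb A b : ℝ) * ((1 + q / 2) * (1 - q) - 1) ≤ - (i * (q / 2)) := by
            have h3 : (infl nb A b : ℝ) * ((1 + q / 2) * (1 - q) - 1)
                ≤ (infl nb A b : ℝ) * (-(q / 2)) :=
              mul_le_mul_of_nonneg_left h1 (Nat.cast_nonneg _)
            have h4 : (i : ℝ) * (q / 2) ≤ (infl nb A b : ℝ) * (q / 2) :=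
              mul_le_mul_of_nonneg_right hinfl (by linarith)
            linarith
          have := mul_le_mul_of_nonneg_left h2 hlam
          linarith
        · intro x _ hx
          rw [mem_singleton] at hx
          simp only [hw]
          have : b ∈ A.erase x ↔ b ∈ A := by
            rw [mem_erase]; exact ⟨fun h => h.2, fun h => ⟨fun hbx => hx hbx.symm, h⟩⟩
          simp only [this]
        · intro x _ y _ hy
          rw [mem_singleton] at hy
          simp only [hw]
          have : b ∈ insert y A ↔ b ∈ A := by
            rw [mem_insert]; exact ⟨fun h => h.resolve_left (fun hby => hy hby.symm), fun h => Or.inr h⟩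
          simp only [this]
      rw [hcomp, hwA] at htouch
      have e1 : cardFun C a A * gen nb lam w A ≤ cardFun C a A * (- (lam * (i * (q / 2)))) :=
        mul_le_mul_of_nonneg_left hgw hcf0.le
      have hi1 : (1 : ℝ) ≤ i := by exact_mod_cast h0
      have e2 : kap * (q / 2) ≤ lam * (i * (q / 2)) := by
        have h1 : kap ≤ lam * i := by nlinarith [H.kap1]
        nlinarith
      have e3 : cardFun C a A * (kap * (q / 2)) ≤ cardFun C a A * (lam * (i * (q / 2))) :=
        mul_le_mul_of_nonneg_left e2 hcf0.le
      have e7 : a C.card * (kap * q / 8) * psi C a q v A ≤ kap * q / 8 * cardFun C a A := by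
        have h1 : a C.card * (kap * q / 8) * psi C a q v A ≤ a C.card * (kap * q / 8) * 1 :=
          mul_le_mul_of_nonneg_left hpsi1 (by positivity)
        have h2 : a C.card * (kap * q / 8) ≤ cardFun C a A * (kap * q / 8) :=
          mul_le_mul_of_nonneg_right haC (by positivity)
        linarith
      have : 0 ≤ kap * q * cardFun C a A := by positivity
      nlinarith

end Pool.Agent.CP
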