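import Mathlib
import Pool.Agent.Helper11.CP.ClusterFacts

/-!
# Upper potential: the function of one cluster
-/

set_option autoImplicit false

namespace Pool.Agent.CP

open Finset

variable (N m l : ℕ → ℕ)

/-- weights of the subtree below the cluster `x` -/
noncomputable def alphaX (x : ℕ) (k y : ℕ) : ℝ := if y / 16 ^ k = x then (1 / 50) ^ (k + 1) else 0

lemma alphaX_nonneg (x k y : ℕ) : 0 ≤ alphaX x k y := by
  unfold alphaX; split_ifs <;> positivity

lemma div_pow_pred (y k : ℕ) (hk : k ≠ 0) : (y / 16) / 16 ^ (k - 1) = y / 16 ^ k := by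
  rw [Nat.div_div_eq_div_mul]
  congr 1
  rw [← pow_succ']
  congr 1
  omega

lemma div_pow_succ' (y d k : ℕ) (hd : d < 16) : (16 * y + d) / 16 ^ (k + 1) = y / 16 ^ k := by
  rw [pow_succ', ← Nat.div_div_eq_div_mul]
  congr 1
  omega

lemma alphaX_rec {lam : ℝ} (hlam : 0 ≤ lam) (hlam1 : lam ≤ 1 / 100) (n x : ℕ) (k y : ℕ)
    (_hk : k ≤ m n) (_hy : y < W m n * 16 ^ k) :
    - alphaX x k y + lam * ((if k = 0 then 0 else alphaX x (k - 1) (y / 16))
        + (if k < m n then ∑ d ∈ range 16, alphaX x (k + 1) (16 * y + d)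
          else alphaX x (m n) y * (2 / 49)))
      ≤ - (if k = 0 then (if y = x then (1 / 100) else 0) else 0) - (if k = m n then 0 else 0) := by
  have hsum : ∑ d ∈ range 16, alphaX x (k + 1) (16 * y + d)
      = 16 * (if y / 16 ^ k = x then (1 / 50) ^ (k + 2) else 0) := by
    have : ∀ d ∈ range 16, alphaX x (k + 1) (16 * y + d)
        = (if y / 16 ^ k = x then (1 / 50 : ℝ) ^ (k + 2) else 0) := by
      intro d hd
      unfold alphaX
      rw [div_pow_succ' y d k (mem_range.mp hd)]
    rw [Finset.sum_congr rfl this, Finset.sum_const, card_range, nsmul_eq_mul]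
    norm_num
  rw [hsum]
  have h3 : (if k < m n then 16 * (if y / 16 ^ k = x then (1 / 50 : ℝ) ^ (k + 2) else 0)
          else alphaX x (m n) y * (2 / 49))
      ≤ (if y / 16 ^ k = x then (1 / 50 : ℝ) ^ (k + 1) else 0) * (16 / 50) := by
    split_ifs with h1 h2 h2
    · rw [pow_succ]; linarith
    · norm_num
    · have hkm : k = m n := by omega
      unfold alphaX
      rw [← hkm, if_pos h2]
      have : (0 : ℝ) ≤ (1 / 50) ^ (k + 1) := by positivity
      nlinarith
    · have hkm : k = m n := by omega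
      unfold alphaX
      rw [← hkm, if_neg h2]
      norm_num
  by_cases hk0 : k = 0
  · subst hk0
    simp only [pow_zero, Nat.div_one, if_true, zero_add, pow_one] at h3 ⊢
    unfold alphaX at *
    simp only [pow_zero, Nat.div_one, zero_add, pow_one] at h3 ⊢
    have h4 := mul_le_mul_of_nonneg_left h3 hlam
    split_ifs at h4 ⊢ <;> nlinarith
  · rw [if_neg hk0, if_neg hk0]
    have h5 : alphaX x (k - 1) (y / 16) = (if y / 16 ^ k = x then (1 / 50) ^ k else 0) := by
      unfold alphaX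
      rw [div_pow_pred y k hk0]
      have : k - 1 + 1 = k := by omega
      rw [this]
    rw [h5]
    have h4 := mul_le_mul_of_nonneg_left h3 hlam
    have h9 : (if k = m n then (0 : ℝ) else 0) = 0 := by split_ifs <;> rfl
    rw [h9]
    unfold alphaX at *
    generalize (if k < m n then 16 * (if y / 16 ^ k = x then (1 / 50 : ℝ) ^ (k + 2) else 0)
          else (if y / 16 ^ m n = x then (1 / 50 : ℝ) ^ (m n + 1) else 0) * (2 / 49)) = Z at h3 h4 ⊢
    by_cases h6 : y / 16 ^ k = x
    · rw [if_pos h6] at h4 ⊢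
      rw [if_pos h6]
      have h7 : (0 : ℝ) ≤ (1 / 50) ^ k := by positivity
      have h8 : lam * ((1 / 50 : ℝ) ^ k + (1 / 50 : ℝ) ^ (k + 1) * (16 / 50))
          ≤ (1 / 100) * ((1 / 50 : ℝ) ^ k + (1 / 50 : ℝ) ^ (k + 1) * (16 / 50)) :=
        mul_le_mul_of_nonneg_right hlam1 (by positivity)
      rw [pow_succ] at h4 h8 ⊢
      nlinarith
    · rw [if_neg h6] at h4 ⊢
      rw [if_neg h6]
      nlinarith

/-- The function of the path arriving at the cluster. -/
noncomputable def Dn : ℕ → ℕ → Finset Vx → ℝ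
  | 0, _ => fun _ => 0
  | (n + 1), x => fun A => gl (l n) (pull (l n) (edn l n x) A)

lemma Dn_nonneg (n x : ℕ) (A : Finset Vx) : 0 ≤ Dn l n x A := by
  cases n with
  | zero => exact le_rfl
  | succ n => exact gl_nonneg _ _

lemma Dn_le (n x : ℕ) (A : Finset Vx) : Dn l n x A ≤ 2 / 49 := by
  cases n with
  | zero => simp only [Dn]; norm_num
  | succ n => exact gl_le _ _ (pull_subset _ _ _)

/-- inflow from the hub above -/
noncomputable def hubUp : ℕ → ℕ → Finset Vx → ℝ
  | 0, _ => fun _ => 0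
  | (n + 1), x => fun A => qn (l n) * ind A (.hb n (m n) x)

lemma hubUp_nonneg (n x : ℕ) (A : Finset Vx) : 0 ≤ hubUp m l n x A := by
  cases n with
  | zero => exact le_rfl
  | succ n => exact mul_nonneg (qn_nonneg _) (ind_nonneg _ _)

lemma gen_Dn_le (hl : ∀ n, 1 ≤ l n) (hN : ∀ n, 1 ≤ N n) {lam : ℝ} (hlam : 0 ≤ lam)
    (hlam1 : lam ≤ 1 / 100) (n x : ℕ) (hx : x < W m n) (A : Finset Vx)
    (h0 : Vx.cl n x 0 ∉ A) :
    gen (nbG N m l) lam (Dn l n x) A ≤ - (lam * iup l A n x) + lam * hubUp m l n x A := by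
  cases n with
  | zero =>
    have : gen (nbG N m l) lam (Dn l 0 x) A = 0 := gen_zero _ _ _
    rw [this]
    simp [iup, upv, hubUp]
  | succ n =>
    have hln := hl n
    have h1 := gen_dn_le N m l hl hN hlam n x hx (gl (l n)) (gl_mono _) (gl_sub _) A
    have h2 := gen_gl_le (l n) hln hlam1 (pull (l n) (edn l n x) A) (pull_subset _ _ _)
    have h3 : (if 0 ∈ pull (l n) (edn l n x) A then (1 : ℝ) else 0)
        = ind A (.pa n (l n - 1) x) := by
      unfold ind
      have : 0 ∈ pull (l n) (edn l n x) A ↔ Vx.pa n (l n - 1) x ∈ A := by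
        rw [mem_pull]; simp only [edn, Nat.sub_zero]; exact ⟨fun h => h.2, fun h => ⟨by omega, h⟩⟩
      simp only [this]
    have h4 : iup l A (n + 1) x = ind A (.pa n (l n - 1) x) := by
      unfold iup upv; rw [Finset.sum_singleton]
    rw [h3, ← h4] at h2
    have h5 : ind A (.cl (n + 1) x 0) = 0 := by unfold ind; rw [if_neg h0]
    rw [h5] at h1
    have h6 : gl (l n) {l n - 1} = qn (l n) := rfl
    rw [h6] at h1
    have h7 := iup_nonneg l A (n + 1) x
    have h8 : lam * iup l A (n + 1) x ≤ 1 / 100 * iup l A (n + 1) x :=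
      mul_le_mul_of_nonneg_right hlam1 h7
    have h9 : hubUp m l (n + 1) x A = qn (l n) * ind A (.hb n (m n) x) := rfl
    rw [h9]
    have h10 : gen (nbG N m l) lam (Dn l (n + 1) x) A
      = gen (nbG N m l) lam (fun B => gl (l n) (pull (l n) (edn l n x) B)) A := rfl
    rw [h10]
    nlinarith

/-- The outer function of a cluster. -/
noncomputable def Uf (n x : ℕ) (A : Finset Vx) : ℝ := Phi m l n (alphaX x) A + Dn l n x A

lemma Phi_nonneg (n : ℕ) (α : ℕ → ℕ → ℝ) (hα : ∀ k x, 0 ≤ α k x) (A : Finset Vx) :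
    0 ≤ Phi m l n α A := by
  unfold Phi
  exact add_nonneg (Finset.sum_nonneg (fun v _ => hubW_nonneg m n α hα v))
    (Finset.sum_nonneg (fun y _ => mul_nonneg (hα _ _) (gl_nonneg _ _)))

lemma Uf_nonneg (n x : ℕ) (A : Finset Vx) : 0 ≤ Uf m l n x A :=
  add_nonneg (Phi_nonneg m l n _ (alphaX_nonneg x) A) (Dn_nonneg l n x A)

lemma card_div_le (M k x : ℕ) : ((range M).filter (fun y => y / 16 ^ k = x)).card ≤ 16 ^ k := by
  have : (range M).filter (fun y => y / 16 ^ k = x) ⊆ Finset.Ico (x * 16 ^ k) (x * 16 ^ k + 16 ^ k) := by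
    intro y hy
    rw [mem_filter] at hy
    rw [mem_Ico]
    have h1 := Nat.div_add_mod y (16 ^ k)
    have h2 := Nat.mod_lt y (show 0 < 16 ^ k by positivity)
    rw [hy.2] at h1
    constructor
    · rw [mul_comm]; omega
    · rw [mul_comm]; omega
  have h := Finset.card_le_card this
  rw [Nat.card_Ico, Nat.add_sub_cancel_left] at h
  exact h

lemma sum_alphaX_le (x k M : ℕ) : ∑ y ∈ range M, alphaX x k y ≤ (1 / 50) * (16 / 50) ^ k := by
  unfold alphaX
  rw [← Finset.sum_filter, Finset.sum_const, nsmul_eq_mul]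
  have h1 : ((((range M).filter (fun y => y / 16 ^ k = x)).card : ℕ) : ℝ) ≤ 16 ^ k := by
    exact_mod_cast card_div_le M k x
  calc _ ≤ (16 : ℝ) ^ k * (1 / 50) ^ (k + 1) := mul_le_mul_of_nonneg_right h1 (by positivity)
    _ = _ := by rw [pow_succ]; rw [div_pow, div_pow]; ring

lemma hubW_eq_sum (n : ℕ) (α : ℕ → ℕ → ℝ) (v : Vx) :
    hubW m n α v = ∑ k ∈ range (m n + 1), ∑ y ∈ range (W m n * 16 ^ k),
      (if v = .hb n k y then α k y else 0) := by
  cases v with
  | cl n' x i => simp [hubW]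
  | hb n' k x =>
    simp only [hubW]
    split_ifs with h
    · obtain ⟨h1, h2, h3⟩ := h
      subst h1
      rw [Finset.sum_eq_single k, Finset.sum_eq_single x]
      · rw [if_pos rfl]
      · intro y _ hy
        rw [if_neg]
        intro h; simp only [Vx.hb.injEq] at h; exact hy h.2.2.symm
      · intro h; exact absurd (mem_range.mpr h3) h
      · intro k' _ hk
        apply Finset.sum_eq_zero
        intro y _
        rw [if_neg]
        intro h; simp only [Vx.hb.injEq] at h; exact hk h.2.1.symm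
      · intro h; exact absurd (mem_range.mpr (by omega)) h
    · symm
      apply Finset.sum_eq_zero
      intro k' hk'
      apply Finset.sum_eq_zero
      intro y hy
      rw [if_neg]
      intro h'
      simp only [Vx.hb.injEq] at h'
      obtain ⟨h1, h2, h3⟩ := h'
      subst h1; subst h2; subst h3
      rw [mem_range] at hk' hy
      exact h ⟨rfl, by omega, hy⟩
  | pa n' j x => simp [hubW]

lemma sum_hubW_le (n : ℕ) (α : ℕ → ℕ → ℝ) (hα : ∀ k x, 0 ≤ α k x) (A : Finset Vx) :
    ∑ v ∈ A, hubW m n α v ≤ ∑ k ∈ range (m n + 1), ∑ y ∈ range (W m n * 16 ^ k), α k y := by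
  have h1 : ∑ v ∈ A, hubW m n α v
      = ∑ k ∈ range (m n + 1), ∑ y ∈ range (W m n * 16 ^ k), α k y * ind A (.hb n k y) := by
    rw [Finset.sum_congr rfl (fun v _ => hubW_eq_sum m n α v), Finset.sum_comm]
    refine Finset.sum_congr rfl (fun k _ => ?_)
    rw [sum_ind_swap]
  rw [h1]
  refine Finset.sum_le_sum (fun k _ => Finset.sum_le_sum (fun y _ => ?_))
  have := mul_le_mul_of_nonneg_left (ind_le_one A (.hb n k y)) (hα k y)
  linarith

lemma Uf_le (n x : ℕ) (A : Finset Vx) : Uf m l n x A ≤ 1 / 2 := by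
  unfold Uf Phi
  have h1 := sum_hubW_le m n (alphaX x) (alphaX_nonneg x) A
  have h2 : ∑ k ∈ range (m n + 1), ∑ y ∈ range (W m n * 16 ^ k), alphaX x k y ≤ 1 / 34 := by
    calc _ ≤ ∑ k ∈ range (m n + 1), (1 / 50 : ℝ) * (16 / 50) ^ k :=
          Finset.sum_le_sum (fun k _ => sum_alphaX_le x k _)
      _ = (1 / 50) * ∑ k ∈ range (m n + 1), (16 / 50 : ℝ) ^ k := by rw [Finset.mul_sum]
      _ ≤ 1 / 34 := by
        rw [geom_sum_eq (by norm_num)]
        have h4 : (0 : ℝ) ≤ (16 / 50 : ℝ) ^ (m n + 1) := by positivity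
        rw [mul_div_assoc', div_le_iff_of_neg (by norm_num)]
        nlinarith
  have h3 : ∑ y ∈ range (W m (n + 1)), alphaX x (m n) y * gl (l n) (pull (l n) (eup n y) A)
      ≤ 1 / 50 := by
    calc _ ≤ ∑ y ∈ range (W m (n + 1)), alphaX x (m n) y * (2 / 49) := by
          refine Finset.sum_le_sum (fun y _ => ?_)
          exact mul_le_mul_of_nonneg_left (gl_le _ _ (pull_subset _ _ _)) (alphaX_nonneg _ _ _)
      _ = (∑ y ∈ range (W m (n + 1)), alphaX x (m n) y) * (2 / 49) := by rw [Finset.sum_mul]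
      _ ≤ ((1 / 50) * (16 / 50) ^ (m n)) * (2 / 49) :=
          mul_le_mul_of_nonneg_right (sum_alphaX_le _ _ _) (by norm_num)
      _ ≤ 1 / 50 := by
        have h5 : (16 / 50 : ℝ) ^ (m n) ≤ 1 := pow_le_one₀ (by norm_num) (by norm_num)
        nlinarith
  have h4 := Dn_le l n x A
  linarith

/-- inflow terms for the cluster `(n, x)` -/
noncomputable def Ein (n x : ℕ) (A : Finset Vx) : ℝ :=
  qn (l n) * ∑ y ∈ range (W m (n + 1)), alphaX x (m n) y * ind A (.cl (n + 1) y 0)
    + hubUp m l n x A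

lemma Ein_nonneg (n x : ℕ) (A : Finset Vx) : 0 ≤ Ein m l n x A := by
  unfold Ein
  refine add_nonneg (mul_nonneg (qn_nonneg _) (Finset.sum_nonneg (fun y _ =>
    mul_nonneg (alphaX_nonneg _ _ _) (ind_nonneg _ _)))) (hubUp_nonneg _ _ _ _ _)

/-- The function of the cluster `(n, x)`. -/
noncomputable def fcl (lam : ℝ) (n x : ℕ) : Finset Vx → ℝ :=
  clf (clus N n x) (Ff lam (N n)) (Tn lam (N n)) (Uf m l n x)

lemma fcl_nonneg {lam : ℝ} (hlam : 0 ≤ lam) (n x : ℕ) (A : Finset Vx) :
    0 ≤ fcl N m l lam n x A := by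
  unfold fcl clf
  split_ifs
  · exact Ff_nonneg hlam _ _
  · exact mul_nonneg (Tn_pos hlam _).le (Uf_nonneg _ _ _ _ _)

lemma gen_Uf_le (hl : ∀ n, 1 ≤ l n) (hN : ∀ n, 1 ≤ N n) {lam : ℝ} (hlam : 0 ≤ lam)
    (hlam1 : lam ≤ 1 / 100) (n x : ℕ) (hx : x < W m n) (A : Finset Vx)
    (hA : ∀ v ∈ A, valid N m l v) (hne : ¬ (A ∩ clus N n x).Nonempty) :
    gen (nbG N m l) lam (Uf m l n x) A + lam * ∑ y ∈ clus N n x, (infl (nbG N m l) A y : ℝ)
      ≤ lam * Ein m l n x A := by
  have hNn := hN n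
  have hnot : ∀ i, i < N n → Vx.cl n x i ∉ A := by
    intro i hi h
    apply hne
    exact ⟨.cl n x i, mem_inter.mpr ⟨h, (mem_clus N).mpr ⟨i, hi, rfl⟩⟩⟩
  have h1 := gen_Phi_le N m l hl hN hlam hlam1 n (alphaX x) (alphaX_nonneg x)
    (fun y => if y = x then (1 / 100) else 0) (fun _ => 0)
    (fun k y hk hy => alphaX_rec m hlam hlam1 n x k y hk hy) A hA
  have h2 := gen_Dn_le N m l hl hN hlam hlam1 n x hx A (hnot 0 (by omega))
  have h3 := inflow_le_empty N m l hl hN n x A hne
  have h4 := mul_le_mul_of_nonneg_left h3 hlam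
  have h5 : gen (nbG N m l) lam (Uf m l n x) A
      = gen (nbG N m l) lam (Phi m l n (alphaX x)) A + gen (nbG N m l) lam (Dn l n x) A :=
    gen_add _ _ _ _ _
  have e1 : ∑ x_1 ∈ range (W m n), (if x_1 = x then (1 / 100 : ℝ) else 0) * ind A (.hb n 0 x_1)
      = (1 / 100) * ind A (.hb n 0 x) := by
    rw [Finset.sum_eq_single x]
    · rw [if_pos rfl]
    · intro y _ hy; rw [if_neg hy, zero_mul]
    · intro h; exact absurd (mem_range.mpr hx) h
  have e2 : ∑ y ∈ range (W m (n + 1)), (0 : ℝ) * ind A (.hb n (m n) y) = 0 := by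
    apply Finset.sum_eq_zero; intro y _; ring
  have e3 : ∑ x_1 ∈ range (W m n), alphaX x 0 x_1 * ind A (.cl n x_1 (N n - 1)) = 0 := by
    apply Finset.sum_eq_zero
    intro y _
    unfold alphaX
    by_cases hy : y / 16 ^ 0 = x
    · have hyx : y = x := by simpa using hy
      subst hyx
      have : ind A (.cl n y (N n - 1)) = 0 := by
        unfold ind; rw [if_neg (hnot _ (by omega))]
      rw [this, mul_zero]
    · rw [if_neg hy, zero_mul]
  rw [e1, e2, e3] at h1
  have h6 : lam * ind A (.hb n 0 x) ≤ 1 / 100 * ind A (.hb n 0 x) :=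
    mul_le_mul_of_nonneg_right hlam1 (ind_nonneg _ _)
  rw [h5]
  unfold Ein
  nlinarith

lemma gen_fcl_le (hl : ∀ n, 1 ≤ l n) (hN : ∀ n, 1 ≤ N n) {lam : ℝ} (hlam : 0 ≤ lam)
    (hlam1 : lam ≤ 1 / 100) (n x : ℕ) (hx : x < W m n) (A : Finset Vx)
    (hA : ∀ v ∈ A, valid N m l v) :
    gen (nbG N m l) lam (fcl N m l lam n x) A
      ≤ - (if (A ∩ clus N n x).Nonempty then 1 else 0) + Tn lam (N n) * (lam * Ein m l n x A) := by
  have hT := (Tn_pos hlam (N n)).le
  by_cases hne : (A ∩ clus N n x).Nonempty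
  · rw [if_pos hne]
    have h := gen_clf_le_of_nonempty (nbG N m l) lam hlam (clus N n x) (Ff lam (N n))
      (Tn lam (N n)) (Uf m l n x) A (fun j => useq lam (N n - j)) (Uf_le m l n x) hT
      (Ff_one _ _) (fun j hj => Ff_succ _ _ j hj)
      (fun j => by linarith [useq_pos hlam (N n - j)]) hne
      (inflow_le_nonempty N m l hl hN n x A)
      (by
        intro i h2 hi
        rw [card_clus] at hi ⊢
        exact useq_rec hlam (N n) i h2 hi)
      (by rw [card_clus]; exact useq_one (N n) (hN n))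
    have h2 : 0 ≤ Tn lam (N n) * (lam * Ein m l n x A) :=
      mul_nonneg hT (mul_nonneg hlam (Ein_nonneg _ _ _ _ _))
    unfold fcl
    linarith
  · rw [if_neg hne]
    have h := gen_clf_le_of_empty (nbG N m l) lam hlam (clus N n x) (Ff lam (N n))
      (Tn lam (N n)) (Uf m l n x) A (Uf_nonneg _ _ _ _ _) (by
        intro y hy
        obtain ⟨i, hi, rfl⟩ := (mem_clus N).mp hy
        unfold Uf Phi
        have e1 : ∑ v ∈ insert (Vx.cl n x i) A, hubW m n (alphaX x) v
            = ∑ v ∈ A, hubW m n (alphaX x) v := by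
          by_cases hA' : Vx.cl n x i ∈ A
          · rw [Finset.insert_eq_of_mem hA']
          · rw [Finset.sum_insert hA']
            have : hubW m n (alphaX x) (.cl n x i) = 0 := rfl
            rw [this, zero_add]
        have e2 : ∀ y, pull (l n) (eup n y) (insert (Vx.cl n x i) A) = pull (l n) (eup n y) A := by
          intro y
          apply pull_insert_of_notMem
          intro j _ h
          simp [eup] at h
        have e3 : Dn l n x (insert (Vx.cl n x i) A) = Dn l n x A := by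
          cases n with
          | zero => rfl
          | succ n =>
            simp only [Dn]
            rw [pull_insert_of_notMem]
            intro j _ h
            simp [edn] at h
        rw [e1, e3]
        simp only [e2]) hT (Ff_one _ _) hne
    have h2 := gen_Uf_le N m l hl hN hlam hlam1 n x hx A hA hne
    have h3 := mul_le_mul_of_nonneg_left h2 hT
    unfold fcl
    linarith

end Pool.Agent.CP
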