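import Mathlib
import Pool.Agent.Helper11.CP.UpperA

/-!
# Upper potential: one level
-/

set_option autoImplicit false

namespace Pool.Agent.CP

open Finset

variable (N m l : ℕ → ℕ)

/-- level -/
def lev : Vx → ℕ
  | .cl n _ _ => n
  | .hb n _ _ => n
  | .pa n _ _ => n

/-- counting weights of hubs and paths -/
def linW (n : ℕ) : Vx → ℝ
  | .cl _ _ _ => 0
  | .hb n' _ _ => if n' = n then 1 else 0
  | .pa n' _ _ => if n' = n then 1 else 0

lemma linW_nonneg (n : ℕ) (v : Vx) : 0 ≤ linW n v := by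
  cases v <;> simp only [linW] <;> (try split_ifs) <;> norm_num

lemma linW_le_one (n : ℕ) (v : Vx) : linW n v ≤ 1 := by
  cases v <;> simp only [linW] <;> (try split_ifs) <;> norm_num

noncomputable def zz (n : ℕ) (A : Finset Vx) : ℝ :=
  ∑ y ∈ range (W m (n + 1)), ind A (.hb n (m n) y)

noncomputable def bb (n : ℕ) (A : Finset Vx) : ℝ := ∑ x ∈ range (W m n), ind A (.cl n x (N n - 1))

noncomputable def aa (n : ℕ) (A : Finset Vx) : ℝ := ∑ x ∈ range (W m n), ind A (.cl n x 0)

noncomputable def II (n : ℕ) (A : Finset Vx) : ℝ :=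
  ∑ x ∈ range (W m n), if (A ∩ clus N n x).Nonempty then 1 else 0

noncomputable def hh (n : ℕ) (A : Finset Vx) : ℝ := ∑ v ∈ A, linW n v

lemma zz_nonneg (n : ℕ) (A : Finset Vx) : 0 ≤ zz m n A :=
  Finset.sum_nonneg (fun _ _ => ind_nonneg _ _)

lemma bb_nonneg (n : ℕ) (A : Finset Vx) : 0 ≤ bb N m n A :=
  Finset.sum_nonneg (fun _ _ => ind_nonneg _ _)

lemma aa_nonneg (n : ℕ) (A : Finset Vx) : 0 ≤ aa m n A :=
  Finset.sum_nonneg (fun _ _ => ind_nonneg _ _)

lemma II_nonneg (n : ℕ) (A : Finset Vx) : 0 ≤ II N m n A :=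
  Finset.sum_nonneg (fun _ _ => by split_ifs <;> norm_num)

lemma hh_nonneg (n : ℕ) (A : Finset Vx) : 0 ≤ hh n A :=
  Finset.sum_nonneg (fun _ _ => linW_nonneg _ _)

lemma ind_le_II (n x i : ℕ) (hi : i < N n) (A : Finset Vx) :
    ind A (.cl n x i) ≤ if (A ∩ clus N n x).Nonempty then 1 else 0 := by
  unfold ind
  split_ifs with h1 h2 h2
  · exact le_rfl
  · exact absurd ⟨.cl n x i, mem_inter.mpr ⟨h1, (mem_clus N).mpr ⟨i, hi, rfl⟩⟩⟩ h2
  · norm_num
  · exact le_rfl

lemma aa_le_II (hN : ∀ n, 1 ≤ N n) (n : ℕ) (A : Finset Vx) : aa m n A ≤ II N m n A :=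
  Finset.sum_le_sum (fun x _ => ind_le_II N n x 0 (hN n) A)

lemma bb_le_II (hN : ∀ n, 1 ≤ N n) (n : ℕ) (A : Finset Vx) : bb N m n A ≤ II N m n A :=
  Finset.sum_le_sum (fun x _ => ind_le_II N n x (N n - 1) (by have := hN n; omega) A)

/-- upward inflow -/
noncomputable def zup : ℕ → Finset Vx → ℝ
  | 0 => fun _ => 0
  | (n + 1) => fun A => qn (l n) * zz m n A

lemma zup_nonneg (n : ℕ) (A : Finset Vx) : 0 ≤ zup m l n A := by
  cases n with
  | zero => exact le_rfl
  | succ n => exact mul_nonneg (qn_nonneg _) (zz_nonneg _ _ _)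

lemma sum_Ein_le (n : ℕ) (A : Finset Vx) :
    ∑ x ∈ range (W m n), Ein m l n x A
      ≤ qn (l n) * (1 / 50) ^ (m n + 1) * aa m (n + 1) A + zup m l n A := by
  unfold Ein
  rw [Finset.sum_add_distrib]
  apply add_le_add
  · rw [← Finset.mul_sum, mul_assoc]
    refine mul_le_mul_of_nonneg_left ?_ (qn_nonneg _)
    rw [Finset.sum_comm]
    unfold aa
    rw [Finset.mul_sum]
    refine Finset.sum_le_sum (fun y _ => ?_)
    rw [← Finset.sum_mul]
    refine mul_le_mul_of_nonneg_right ?_ (ind_nonneg _ _)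
    unfold alphaX
    rw [Finset.sum_ite_eq]
    split_ifs
    · exact le_rfl
    · positivity
  · cases n with
    | zero => simp [hubUp, zup]
    | succ n =>
      simp only [hubUp, zup, zz]
      rw [Finset.mul_sum]

/-- weights for the sum `S_n` -/
noncomputable def betaW (n : ℕ) (s : ℝ) (k : ℕ) (_y : ℕ) : ℝ := s * (1 / 5) ^ (m n - k)

lemma betaW_nonneg (n : ℕ) {s : ℝ} (hs : 0 ≤ s) (k y : ℕ) : 0 ≤ betaW m n s k y := by
  unfold betaW; positivity

lemma betaW_rec {lam : ℝ} (_hlam : 0 ≤ lam) (hlam1 : lam ≤ 1 / 100) (n : ℕ) (hm : 1 ≤ m n)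
    {s : ℝ} (hs : 0 ≤ s) (k y : ℕ) (hk : k ≤ m n) :
    - betaW m n s k y + lam * ((if k = 0 then 0 else betaW m n s (k - 1) (y / 16))
        + (if k < m n then ∑ d ∈ range 16, betaW m n s (k + 1) (16 * y + d)
          else betaW m n s (m n) y * (2 / 49)))
      ≤ - (if k = 0 then 0 else 0) - (if k = m n then s / 2 else 0) := by
  unfold betaW
  rw [Finset.sum_const, card_range, nsmul_eq_mul]
  have e0 : (if k = 0 then (0 : ℝ) else 0) = 0 := by split_ifs <;> rfl
  rw [e0]
  have h1 : (if k = 0 then 0 else s * (1 / 5 : ℝ) ^ (m n - (k - 1))) ≤ s * (1 / 5) ^ (m n - k + 1) := by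
    split_ifs with h
    · positivity
    · have : m n - (k - 1) = m n - k + 1 := by omega
      rw [this]
  by_cases hkm : k = m n
  · subst hkm
    rw [if_neg (lt_irrefl _), if_pos rfl]
    have h2 : (if m n = 0 then 0 else s * (1 / 5 : ℝ) ^ (m n - (m n - 1))) ≤ s * (1 / 5) := by
      refine le_trans h1 ?_
      simp
    have h3 : (0 : ℝ) ≤ (if m n = 0 then 0 else s * (1 / 5 : ℝ) ^ (m n - (m n - 1)))
      + s * (1 / 5) ^ (m n - m n) * (2 / 49) := by
      split_ifs <;> positivity
    have h4 := mul_le_mul_of_nonneg_right hlam1 h3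
    simp only [Nat.sub_self, pow_zero, mul_one] at h4 ⊢
    nlinarith
  · have hkm' : k < m n := lt_of_le_of_ne hk hkm
    rw [if_pos hkm', if_neg hkm]
    obtain ⟨j, hj⟩ := Nat.exists_eq_add_of_lt hkm'
    have e1 : m n - k = j + 1 := by omega
    have e2 : m n - (k + 1) = j := by omega
    rw [e1] at h1
    rw [e1, e2]
    have h2 : (0 : ℝ) ≤ s * (1 / 5) ^ j := by positivity
    have h3 : (0 : ℝ) ≤ (if k = 0 then 0 else s * (1 / 5 : ℝ) ^ (m n - (k - 1)))
      + ((16 : ℕ) : ℝ) * (s * (1 / 5) ^ j) := by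
      split_ifs <;> positivity
    have h4 := mul_le_mul_of_nonneg_right hlam1 h3
    rw [pow_succ, pow_succ] at h1
    rw [pow_succ]
    push_cast at h4 ⊢
    nlinarith

lemma gen_S_le (hl : ∀ n, 1 ≤ l n) (hN : ∀ n, 1 ≤ N n) {lam : ℝ} (hlam : 0 ≤ lam)
    (hlam1 : lam ≤ 1 / 100) (n : ℕ) (hm : 1 ≤ m n) {s : ℝ} (hs : 0 ≤ s) (A : Finset Vx)
    (hA : ∀ v ∈ A, valid N m l v) :
    gen (nbG N m l) lam (Phi m l n (betaW m n s)) A
      ≤ - (s / 2 * zz m n A) + lam * (s * (1 / 5) ^ (m n)) * bb N m n A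
        + lam * qn (l n) * s * aa m (n + 1) A := by
  have h := gen_Phi_le N m l hl hN hlam hlam1 n (betaW m n s) (betaW_nonneg m n hs)
    (fun _ => 0) (fun _ => s / 2)
    (fun k y hk _ => betaW_rec m hlam hlam1 n hm hs k y hk) A hA
  refine le_trans h (le_of_eq ?_)
  have e0 : ∑ x ∈ range (W m n), (0 : ℝ) * ind A (.hb n 0 x) = 0 :=
    Finset.sum_eq_zero (fun _ _ => by ring)
  rw [e0]
  unfold zz bb aa betaW
  simp only [Nat.sub_zero, Nat.sub_self, pow_zero, mul_one]
  rw [← Finset.mul_sum, ← Finset.mul_sum, ← Finset.mul_sum]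
  ring

/-! ### The linear part -/

lemma linW_nb_le (_hl : ∀ n, 1 ≤ l n) (hN : ∀ n, 1 ≤ N n) (n : ℕ) (v : Vx)
    (hv : valid N m l v) :
    ∑ w ∈ nbG N m l v, linW n w ≤ 17 * linW n v
      + (∑ x ∈ range (W m n), (if v = .cl n x (N n - 1) then 1 else 0))
      + (∑ y ∈ range (W m (n + 1)), (if v = .cl (n + 1) y 0 then 1 else 0)) := by
  have hnn := linW_nonneg n
  have hNn := hN n
  unfold nbG
  rw [if_pos hv]
  have hI6 : Function.Injective (fun x => Vx.cl n x (N n - 1)) := fun a b h => by simpa using h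
  have hI3 : Function.Injective (fun y => Vx.cl (n + 1) y 0) := fun a b h => by simpa using h
  cases v with
  | cl n' x i =>
    simp only [nb0]
    refine le_trans (sum_union_le_of_nonneg _ hnn _ _) ?_
    have h1 : ∑ v ∈ ((range (N n')).erase i).image (Vx.cl n' x), linW n v = 0 := by
      apply Finset.sum_eq_zero
      intro v hv
      rw [mem_image] at hv
      obtain ⟨j, _, rfl⟩ := hv
      rfl
    rw [h1, zero_add]
    refine le_trans (sum_union_le_of_nonneg _ hnn _ _) ?_
    have h2 : linW n (.cl n' x i) = 0 := rfl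
    rw [h2, mul_zero, zero_add]
    apply add_le_add
    · by_cases h3 : i + 1 = N n'
      · rw [if_pos h3, Finset.sum_singleton]
        simp only [linW]
        by_cases h4 : n' = n
        · subst h4
          rw [if_pos rfl]
          have h5 : i = N n' - 1 := by omega
          subst h5
          have := sum_ite_P_eq (fun _ => (1 : ℝ)) hI6 (x := x) (M := W m n') hv.1
          rw [this]
        · rw [if_neg h4]
          exact Finset.sum_nonneg (fun _ _ => by split_ifs <;> norm_num)
      · rw [if_neg h3, Finset.sum_empty]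
        exact Finset.sum_nonneg (fun _ _ => by split_ifs <;> norm_num)
    · by_cases h3 : i = 0
      · rw [if_pos h3]
        subst h3
        cases n' with
        | zero =>
          simp only [upv, Finset.sum_empty]
          exact Finset.sum_nonneg (fun _ _ => by split_ifs <;> norm_num)
        | succ n' =>
          simp only [upv, Finset.sum_singleton, linW]
          by_cases h4 : n' = n
          · subst h4
            rw [if_pos rfl]
            have := sum_ite_P_eq (fun _ => (1 : ℝ)) hI3 (x := x) (M := W m (n' + 1)) hv.1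
            rw [this]
          · rw [if_neg h4]
            exact Finset.sum_nonneg (fun _ _ => by split_ifs <;> norm_num)
      · rw [if_neg h3, Finset.sum_empty]
        exact Finset.sum_nonneg (fun _ _ => by split_ifs <;> norm_num)
  | hb n' k x =>
    have hs1 : 0 ≤ ∑ x_1 ∈ range (W m n), (if Vx.hb n' k x = .cl n x_1 (N n - 1) then (1 : ℝ) else 0) :=
      Finset.sum_nonneg (fun _ _ => by split_ifs <;> norm_num)
    have hs2 : 0 ≤ ∑ y ∈ range (W m (n + 1)), (if Vx.hb n' k x = .cl (n + 1) y 0 then (1 : ℝ) else 0) :=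
      Finset.sum_nonneg (fun _ _ => by split_ifs <;> norm_num)
    have h17 : ∑ w ∈ nb0 N m l (.hb n' k x), linW n w ≤ 17 * linW n (.hb n' k x) := by
      simp only [nb0]
      refine le_trans (sum_union_le_of_nonneg _ hnn _ _) ?_
      rw [Finset.sum_singleton]
      have h1 : linW n (hup N n' k x) ≤ linW n (.hb n' k x) := by
        cases k with
        | zero => simp only [hup]; exact hnn _
        | succ k => simp only [hup, linW]; exact le_rfl
      have h2 : ∑ w ∈ hdown m n' k x, linW n w ≤ 16 * linW n (.hb n' k x) := by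
        have h3 : ∀ w ∈ hdown m n' k x, linW n w = linW n (.hb n' k x) := by
          intro w hw
          unfold hdown at hw
          split_ifs at hw
          · rw [mem_image] at hw
            obtain ⟨d, _, rfl⟩ := hw
            rfl
          · rw [mem_singleton] at hw
            subst hw; rfl
        rw [Finset.sum_congr rfl h3, Finset.sum_const, nsmul_eq_mul]
        refine mul_le_mul_of_nonneg_right ?_ (hnn _)
        have : (hdown m n' k x).card ≤ 16 := by
          unfold hdown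
          split_ifs
          · refine le_trans Finset.card_image_le ?_
            rw [card_range]
          · simp
        exact_mod_cast this
      linarith
    linarith
  | pa n' j x =>
    have hs1 : 0 ≤ ∑ x_1 ∈ range (W m n), (if Vx.pa n' j x = .cl n x_1 (N n - 1) then (1 : ℝ) else 0) :=
      Finset.sum_nonneg (fun _ _ => by split_ifs <;> norm_num)
    have hs2 : 0 ≤ ∑ y ∈ range (W m (n + 1)), (if Vx.pa n' j x = .cl (n + 1) y 0 then (1 : ℝ) else 0) :=
      Finset.sum_nonneg (fun _ _ => by split_ifs <;> norm_num)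
    have h17 : ∑ w ∈ nb0 N m l (.pa n' j x), linW n w ≤ 17 * linW n (.pa n' j x) := by
      simp only [nb0]
      refine le_trans (sum_union_le_of_nonneg _ hnn _ _) ?_
      rw [Finset.sum_singleton, Finset.sum_singleton]
      have h1 : linW n (pup m n' j x) ≤ linW n (.pa n' j x) := by
        cases j with
        | zero => simp only [pup, linW]; exact le_rfl
        | succ j => simp only [pup, linW]; exact le_rfl
      have h2 : linW n (pdown l n' j x) ≤ linW n (.pa n' j x) := by
        unfold pdown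
        split_ifs
        · simp only [linW]; exact le_rfl
        · exact hnn _
      have := hnn (.pa n' j x)
      linarith
    linarith

lemma gen_hh_le (hl : ∀ n, 1 ≤ l n) (hN : ∀ n, 1 ≤ N n) {lam : ℝ} (hlam : 0 ≤ lam)
    (hlam1 : lam ≤ 1 / 100) (n : ℕ) (A : Finset Vx) (hA : ∀ v ∈ A, valid N m l v) :
    gen (nbG N m l) lam (hh n) A
      ≤ - (hh n A / 2) + lam * bb N m n A + lam * aa m (n + 1) A := by
  have h1 := gen_linear_le (nbG N m l) lam hlam (linW n) (linW_nonneg n) A
  refine le_trans h1 ?_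
  have e1 := sum_ind_swap A (W m n) (fun _ => (1 : ℝ)) (fun x => Vx.cl n x (N n - 1))
  have e2 := sum_ind_swap A (W m (n + 1)) (fun _ => (1 : ℝ)) (fun x => Vx.cl (n + 1) x 0)
  simp only [one_mul] at e1 e2
  unfold bb aa hh
  rw [e1, e2, Finset.mul_sum, Finset.mul_sum, Finset.sum_div, ← Finset.sum_neg_distrib,
    ← Finset.sum_add_distrib, ← Finset.sum_add_distrib]
  refine Finset.sum_le_sum (fun v hv => ?_)
  have h2 := linW_nb_le N m l hl hN n v (hA v hv)
  have h3 := mul_le_mul_of_nonneg_left h2 hlam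
  have h4 : lam * (17 * linW n v) ≤ 1 / 100 * (17 * linW n v) :=
    mul_le_mul_of_nonneg_right hlam1 (by linarith [linW_nonneg n v])
  have h5 := linW_nonneg n v
  linarith

/-- The function of level `n`. -/
noncomputable def Flev (lam : ℝ) (c η s : ℕ → ℝ) (n : ℕ) (B : Finset Vx) : ℝ :=
  c n * (∑ x ∈ range (W m n), fcl N m l lam n x B) + (Phi m l n (betaW m n (s n)) B + η n * hh n B)

lemma Flev_nonneg {lam : ℝ} (hlam : 0 ≤ lam) {c η s : ℕ → ℝ} (hc : ∀ n, 0 ≤ c n)
    (hη : ∀ n, 0 ≤ η n) (hs : ∀ n, 0 ≤ s n) (n : ℕ) (B : Finset Vx) :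
    0 ≤ Flev N m l lam c η s n B := by
  unfold Flev
  have h1 := Phi_nonneg m l n (betaW m n (s n)) (betaW_nonneg m n (hs n)) B
  have h2 := mul_nonneg (hη n) (hh_nonneg n B)
  have h3 := mul_nonneg (hc n) (Finset.sum_nonneg (s := range (W m n))
    (fun x _ => fcl_nonneg N m l hlam n x B))
  linarith

lemma gen_Flev_le (hl : ∀ n, 1 ≤ l n) (hN : ∀ n, 1 ≤ N n) (hm : ∀ n, 1 ≤ m n) {lam : ℝ}
    (hlam : 0 ≤ lam) (hlam1 : lam ≤ 1 / 100) {c η s : ℕ → ℝ} (hc : ∀ n, 0 ≤ c n)
    (hη : ∀ n, 0 ≤ η n) (hs : ∀ n, 0 ≤ s n) (n : ℕ) (A : Finset Vx)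
    (hA : ∀ v ∈ A, valid N m l v) :
    gen (nbG N m l) lam (Flev N m l lam c η s n) A
      ≤ c n * (- II N m n A + Tn lam (N n) * (lam *
          (qn (l n) * (1 / 50) ^ (m n + 1) * aa m (n + 1) A + zup m l n A)))
        + ((- (s n / 2 * zz m n A) + lam * (s n * (1 / 5) ^ (m n)) * bb N m n A
          + lam * qn (l n) * s n * aa m (n + 1) A)
        + η n * (- (hh n A / 2) + lam * bb N m n A + lam * aa m (n + 1) A)) := by
  have h0 : gen (nbG N m l) lam (Flev N m l lam c η s n) A
      = c n * (∑ x ∈ range (W m n), gen (nbG N m l) lam (fcl N m l lam n x) A)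
        + (gen (nbG N m l) lam (Phi m l n (betaW m n (s n))) A
          + η n * gen (nbG N m l) lam (hh n) A) := by
    unfold Flev
    rw [gen_add, gen_add, gen_const_mul, gen_const_mul, gen_sum]
  rw [h0]
  have hT := (Tn_pos hlam (N n)).le
  have h1 : ∑ x ∈ range (W m n), gen (nbG N m l) lam (fcl N m l lam n x) A
      ≤ - II N m n A + Tn lam (N n) * (lam *
          (qn (l n) * (1 / 50) ^ (m n + 1) * aa m (n + 1) A + zup m l n A)) := by
    calc _ ≤ ∑ x ∈ range (W m n), (- (if (A ∩ clus N n x).Nonempty then (1 : ℝ) else 0)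
            + Tn lam (N n) * (lam * Ein m l n x A)) :=
          Finset.sum_le_sum (fun x hx => gen_fcl_le N m l hl hN hlam hlam1 n x
            (mem_range.mp hx) A hA)
      _ = - II N m n A + Tn lam (N n) * (lam * ∑ x ∈ range (W m n), Ein m l n x A) := by
          rw [Finset.sum_add_distrib, Finset.sum_neg_distrib, Finset.mul_sum, Finset.mul_sum]
          rfl
      _ ≤ _ := by
          have := mul_le_mul_of_nonneg_left
            (mul_le_mul_of_nonneg_left (sum_Ein_le m l n A) hlam) hT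
          linarith
  have h2 := gen_S_le N m l hl hN hlam hlam1 n (hm n) (hs n) A hA
  have h3 := gen_hh_le N m l hl hN hlam hlam1 n A hA
  have h4 := mul_le_mul_of_nonneg_left h1 (hc n)
  have h5 := mul_le_mul_of_nonneg_left h3 (hη n)
  linarith

end Pool.Agent.CP
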