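import Mathlib
import Pool.Agent.Helper11.CP.UpperB

/-!
# Upper potential: the sum over the levels
-/

set_option autoImplicit false

namespace Pool.Agent.CP

open Finset

section general

variable {V : Type*} [DecidableEq V] (nb : V → Finset V) (lam : ℝ)

/-- sum of functions vanishing beyond a level depending on the configuration -/
noncomputable def lfsum (F : ℕ → Finset V → ℝ) (top : Finset V → ℕ) (B : Finset V) : ℝ :=
  ∑ n ∈ range (top B), F n B

omit [DecidableEq V] in
lemma lfsum_eq {F : ℕ → Finset V → ℝ} {top : Finset V → ℕ}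
    (htop : ∀ B n, top B ≤ n → F n B = 0) (B : Finset V) (K : ℕ) (hK : top B ≤ K) :
    lfsum F top B = ∑ n ∈ range K, F n B := by
  unfold lfsum
  apply Finset.sum_subset
  · intro n hn; rw [mem_range] at hn ⊢; omega
  · intro n _ hn
    rw [mem_range, not_lt] at hn
    exact htop B n hn

lemma gen_lfsum {F : ℕ → Finset V → ℝ} {top : Finset V → ℕ}
    (htop : ∀ B n, top B ≤ n → F n B = 0) (A : Finset V) :
    ∃ K0, ∀ K, K0 ≤ K → gen nb lam (lfsum F top) A = ∑ n ∈ range K, gen nb lam (F n) A := by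
  set S : Finset (Finset V) := insert A (A.image (fun x => A.erase x)
    ∪ (A.biUnion nb).image (fun y => insert y A)) with hS
  refine ⟨S.sup top, fun K hK => ?_⟩
  have hle : ∀ B ∈ S, top B ≤ K := fun B hB => le_trans (Finset.le_sup (f := top) hB) hK
  rw [← gen_sum nb lam (range K) F A]
  apply gen_congr nb lam
  · exact lfsum_eq htop A K (hle A (by rw [hS]; exact mem_insert_self _ _))
  · intro x hx
    apply lfsum_eq htop _ K (hle _ _)
    rw [hS, mem_insert, mem_union, mem_image]
    exact Or.inr (Or.inl ⟨x, hx, rfl⟩)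
  · intro x hx y hy
    apply lfsum_eq htop _ K (hle _ _)
    rw [hS, mem_insert, mem_union]
    right; right
    rw [mem_image]
    exact ⟨y, mem_biUnion.mpr ⟨x, hx, hy⟩, rfl⟩

end general

variable (N m l : ℕ → ℕ)

/-- all levels of `B` are smaller than `topv B - 1` -/
def topv (B : Finset Vx) : ℕ := B.sup (fun v => lev v + 2)

lemma lev_lt_topv {B : Finset Vx} {v : Vx} (hv : v ∈ B) {n : ℕ} (hn : topv B ≤ n) :
    lev v + 2 ≤ n :=
  le_trans (Finset.le_sup (f := fun v => lev v + 2) hv) hn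

lemma hubW_eq_zero {n : ℕ} {α : ℕ → ℕ → ℝ} {v : Vx} (h : lev v ≠ n) : hubW m n α v = 0 := by
  cases v with
  | cl n' x i => rfl
  | hb n' k x =>
    simp only [hubW]
    rw [if_neg]
    rintro ⟨h1, _⟩
    exact h h1
  | pa n' j x => rfl

lemma linW_eq_zero {n : ℕ} {v : Vx} (h : lev v ≠ n) : linW n v = 0 := by
  cases v with
  | cl n' x i => rfl
  | hb n' k x =>
    simp only [linW]
    rw [if_neg]
    intro h1
    exact h h1
  | pa n' j x =>
    simp only [linW]
    rw [if_neg]
    intro h1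
    exact h h1

lemma pull_eq_empty {n j0 : ℕ} (e : ℕ → Vx) (he : ∀ j, lev (e j) = n) {B : Finset Vx}
    (h : ∀ v ∈ B, lev v ≠ n) : pull j0 e B = ∅ := by
  apply Finset.filter_eq_empty_iff.mpr
  intro j _ hj
  exact h _ hj (he j)

lemma Phi_eq_zero {n : ℕ} {α : ℕ → ℕ → ℝ} {B : Finset Vx} (h : ∀ v ∈ B, lev v ≠ n) :
    Phi m l n α B = 0 := by
  unfold Phi
  rw [Finset.sum_eq_zero (fun v hv => hubW_eq_zero m (h v hv)), zero_add]
  apply Finset.sum_eq_zero
  intro y _
  rw [pull_eq_empty (n := n) (eup n y) (fun j => rfl) h, gl_empty, mul_zero]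

lemma Dn_eq_zero {n x : ℕ} {B : Finset Vx} (h : ∀ v ∈ B, lev v + 1 ≠ n) :
    Dn l n x B = 0 := by
  cases n with
  | zero => rfl
  | succ n =>
    simp only [Dn]
    rw [pull_eq_empty (n := n) (edn l n x) (fun j => rfl) (fun v hv hn => h v hv (by omega)),
      gl_empty]

lemma clus_disj {n x : ℕ} {B : Finset Vx} (h : ∀ v ∈ B, lev v ≠ n) :
    ¬ (B ∩ clus N n x).Nonempty := by
  rintro ⟨v, hv⟩
  rw [mem_inter] at hv
  obtain ⟨i, _, rfl⟩ := (mem_clus N).mp hv.2
  exact h _ hv.1 rfl

lemma Flev_eq_zero (lam : ℝ) (c η s : ℕ → ℝ) (B : Finset Vx) (n : ℕ) (hn : topv B ≤ n) :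
    Flev N m l lam c η s n B = 0 := by
  have h1 : ∀ v ∈ B, lev v ≠ n := fun v hv h => by have := lev_lt_topv hv hn; omega
  have h2 : ∀ v ∈ B, lev v + 1 ≠ n := fun v hv h => by have := lev_lt_topv hv hn; omega
  unfold Flev
  rw [Phi_eq_zero m l h1]
  have h3 : hh n B = 0 := Finset.sum_eq_zero (fun v hv => linW_eq_zero (h1 v hv))
  have h4 : ∑ x ∈ range (W m n), fcl N m l lam n x B = 0 := by
    apply Finset.sum_eq_zero
    intro x _
    unfold fcl clf
    rw [if_neg (clus_disj N h1)]
    unfold Uf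
    rw [Phi_eq_zero m l h1, Dn_eq_zero l h2]
    ring
  rw [h3, h4]; ring

/-- The total upper potential. -/
noncomputable def fup (lam : ℝ) (c η s : ℕ → ℝ) : Finset Vx → ℝ :=
  lfsum (Flev N m l lam c η s) topv

lemma fup_nonneg {lam : ℝ} (hlam : 0 ≤ lam) {c η s : ℕ → ℝ} (hc : ∀ n, 0 ≤ c n)
    (hη : ∀ n, 0 ≤ η n) (hs : ∀ n, 0 ≤ s n) (B : Finset Vx) : 0 ≤ fup N m l lam c η s B := by
  unfold fup lfsum
  exact Finset.sum_nonneg (fun n _ => Flev_nonneg N m l hlam hc hη hs n B)

lemma II_eq_zero {n : ℕ} {B : Finset Vx} (h : ∀ v ∈ B, lev v ≠ n) : II N m n B = 0 := by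
  unfold II
  apply Finset.sum_eq_zero
  intro x _
  rw [if_neg (clus_disj N h)]

lemma sum_shift_le {d : ℕ → ℝ} (K : ℕ) (h0 : 0 ≤ d 0) (hK : d K ≤ 0) :
    ∑ n ∈ range K, d (n + 1) ≤ ∑ n ∈ range K, d n := by
  have h1 := Finset.sum_range_succ d K
  have h2 := Finset.sum_range_succ' d K
  linarith

/-- The main inequality for the upper potential. -/
theorem gen_fup_le (hl : ∀ n, 1 ≤ l n) (hN : ∀ n, 1 ≤ N n) (hm : ∀ n, 1 ≤ m n) {lam : ℝ}
    (hlam : 0 ≤ lam) (hlam1 : lam ≤ 1 / 100) {c : ℕ → ℝ} (hc : ∀ n, 0 < c n)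
    (hF : ∀ n, 2 * (1 / 100) ^ 2 * (c (n + 1) * Tn lam (N (n + 1)) * qn (l n)) * (1 / 5) ^ (m n)
      ≤ c n / 4)
    (hB : ∀ n, c n * Tn lam (N n) * (1 / 100) * (1 / 50) ^ (m n + 1) * qn (l n)
      + 2 * (1 / 100) ^ 2 * (c (n + 1) * Tn lam (N (n + 1)) * qn (l n)) * qn (l n)
        ≤ c (n + 1) / 4)
    (A : Finset Vx) (hA : ∀ v ∈ A, valid N m l v) :
    gen (nbG N m l) lam (fup N m l lam c (fun n => min (c n) (c (n + 1)))
      (fun n => 2 * (1 / 100) * (c (n + 1) * Tn lam (N (n + 1)) * qn (l n)))) A ≤ 0 ∧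
    ∀ v ∈ A, gen (nbG N m l) lam (fup N m l lam c (fun n => min (c n) (c (n + 1)))
      (fun n => 2 * (1 / 100) * (c (n + 1) * Tn lam (N (n + 1)) * qn (l n)))) A
      ≤ - (min (c (lev v)) (c (lev v + 1)) / 4) := by
  set η : ℕ → ℝ := fun n => min (c n) (c (n + 1)) with hη
  set s : ℕ → ℝ := fun n => 2 * (1 / 100) * (c (n + 1) * Tn lam (N (n + 1)) * qn (l n)) with hs
  have hη0 : ∀ n, 0 < η n := fun n => lt_min (hc n) (hc (n + 1))
  have hs0 : ∀ n, 0 ≤ s n := by
    intro n
    have h1 := hc (n + 1)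
    have h2 := Tn_pos hlam (N (n + 1))
    have h3 := qn_nonneg (l n)
    simp only [hs]
    positivity
  obtain ⟨K0, hK0⟩ := gen_lfsum (nbG N m l) lam (F := Flev N m l lam c η s) (top := topv)
    (fun B n hn => Flev_eq_zero N m l lam c η s B n hn) A
  set K := max K0 (topv A) with hK
  have hgen : gen (nbG N m l) lam (fup N m l lam c η s) A
      = ∑ n ∈ range K, gen (nbG N m l) lam (Flev N m l lam c η s n) A :=
    hK0 K (le_max_left _ _)
  have hKtop : topv A ≤ K := le_max_right _ _
  have hIK : II N m K A = 0 := II_eq_zero N m (fun v hv h => by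
    have := lev_lt_topv hv hKtop; omega)
  -- per-level bound
  set P : ℕ → ℝ := fun n => c n * Tn lam (N n) * lam * zup m l n A with hP
  have hlevel : ∀ n, gen (nbG N m l) lam (Flev N m l lam c η s n) A
      ≤ - (11 / 16) * (c n * II N m n A) + (5 / 16) * (c (n + 1) * II N m (n + 1) A)
        + P n - P (n + 1) - η n / 2 * hh n A := by
    intro n
    have h := gen_Flev_le N m l hl hN hm hlam hlam1 (fun n => (hc n).le) (fun n => (hη0 n).le)
      hs0 n A hA
    refine le_trans h ?_
    have hc0 := hc n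
    have hc1 := hc (n + 1)
    have hT0 := Tn_pos hlam (N n)
    have hT1 := Tn_pos hlam (N (n + 1))
    have hq := qn_nonneg (l n)
    have hI0 := II_nonneg N m n A
    have hI1 := II_nonneg N m (n + 1) A
    have ha0 := aa_nonneg m (n + 1) A
    have ha1 := aa_le_II N m hN (n + 1) A
    have hb0 := bb_nonneg N m n A
    have hb1 := bb_le_II N m hN n A
    have hz0 := zz_nonneg m n A
    have hF' := hF n
    have hB' := hB n
    have hηc : η n ≤ c n := min_le_left _ _
    have hηc' : η n ≤ c (n + 1) := min_le_right _ _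
    have hη' := (hη0 n).le
    -- terms
    have t1 : lam * (s n * (1 / 5) ^ (m n)) * bb N m n A ≤ c n / 4 * II N m n A := by
      have e1 : lam * (s n * (1 / 5) ^ (m n)) ≤ c n / 4 := by
        refine le_trans (mul_le_mul_of_nonneg_right hlam1 (mul_nonneg (hs0 n) (by positivity))) ?_
        refine le_trans (le_of_eq ?_) hF'
        simp only [hs]; ring
      exact mul_le_mul e1 hb1 hb0 (by linarith)
    have t2 : c n * (Tn lam (N n) * (lam * (qn (l n) * (1 / 50) ^ (m n + 1) * aa m (n + 1) A)))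
        + lam * qn (l n) * s n * aa m (n + 1) A ≤ c (n + 1) / 4 * II N m (n + 1) A := by
      have e1 : c n * (Tn lam (N n) * (lam * (qn (l n) * (1 / 50) ^ (m n + 1))))
          + lam * qn (l n) * s n ≤ c (n + 1) / 4 := by
        refine le_trans ?_ hB'
        have e2 : c n * (Tn lam (N n) * (lam * (qn (l n) * (1 / 50) ^ (m n + 1))))
          ≤ c n * Tn lam (N n) * (1 / 100) * (1 / 50) ^ (m n + 1) * qn (l n) := by
          have : lam * (c n * Tn lam (N n) * (1 / 50) ^ (m n + 1) * qn (l n))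
            ≤ (1 / 100) * (c n * Tn lam (N n) * (1 / 50) ^ (m n + 1) * qn (l n)) :=
            mul_le_mul_of_nonneg_right hlam1 (by positivity)
          nlinarith
        have e3 : lam * qn (l n) * s n
          ≤ 2 * (1 / 100) ^ 2 * (c (n + 1) * Tn lam (N (n + 1)) * qn (l n)) * qn (l n) := by
          have : lam * (qn (l n) * s n) ≤ (1 / 100) * (qn (l n) * s n) :=
            mul_le_mul_of_nonneg_right hlam1 (mul_nonneg hq (hs0 n))
          refine le_trans (le_of_eq (by ring)) (le_trans this (le_of_eq ?_))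
          simp only [hs]; ring
        linarith
      calc _ = (c n * (Tn lam (N n) * (lam * (qn (l n) * (1 / 50) ^ (m n + 1))))
          + lam * qn (l n) * s n) * aa m (n + 1) A := by ring
        _ ≤ _ := mul_le_mul e1 ha1 ha0 (by linarith)
    have t3 : P (n + 1) ≤ s n / 2 * zz m n A := by
      simp only [hP, hs, zup]
      have : lam * (c (n + 1) * Tn lam (N (n + 1)) * (qn (l n) * zz m n A))
          ≤ (1 / 100) * (c (n + 1) * Tn lam (N (n + 1)) * (qn (l n) * zz m n A)) :=
        mul_le_mul_of_nonneg_right hlam1 (by positivity)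
      linarith
    have t4 : η n * (lam * bb N m n A) ≤ 1 / 16 * (c n * II N m n A) := by
      have e1 : lam * bb N m n A ≤ 1 / 100 * II N m n A :=
        mul_le_mul hlam1 hb1 hb0 (by norm_num)
      have e2 : η n * (lam * bb N m n A) ≤ c n * (1 / 100 * II N m n A) :=
        mul_le_mul hηc e1 (mul_nonneg hlam hb0) hc0.le
      have e3 : 0 ≤ c n * II N m n A := mul_nonneg hc0.le hI0
      linarith
    have t5 : η n * (lam * aa m (n + 1) A) ≤ 1 / 16 * (c (n + 1) * II N m (n + 1) A) := by
      have e1 : lam * aa m (n + 1) A ≤ 1 / 100 * II N m (n + 1) A :=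
        mul_le_mul hlam1 ha1 ha0 (by norm_num)
      have e2 : η n * (lam * aa m (n + 1) A) ≤ c (n + 1) * (1 / 100 * II N m (n + 1) A) :=
        mul_le_mul hηc' e1 (mul_nonneg hlam ha0) hc1.le
      have e3 : 0 ≤ c (n + 1) * II N m (n + 1) A := mul_nonneg hc1.le hI1
      linarith
    have hPn : P n = c n * (Tn lam (N n) * (lam * zup m l n A)) := by simp only [hP]; ring
    rw [hPn]
    have hexp : c n * (- II N m n A + Tn lam (N n) * (lam *
          (qn (l n) * (1 / 50) ^ (m n + 1) * aa m (n + 1) A + zup m l n A)))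
        + ((- (s n / 2 * zz m n A) + lam * (s n * (1 / 5) ^ (m n)) * bb N m n A
          + lam * qn (l n) * s n * aa m (n + 1) A)
        + η n * (- (hh n A / 2) + lam * bb N m n A + lam * aa m (n + 1) A))
      = - (c n * II N m n A)
        + (c n * (Tn lam (N n) * (lam * (qn (l n) * (1 / 50) ^ (m n + 1) * aa m (n + 1) A)))
          + lam * qn (l n) * s n * aa m (n + 1) A)
        + c n * (Tn lam (N n) * (lam * zup m l n A))
        - s n / 2 * zz m n A + lam * (s n * (1 / 5) ^ (m n)) * bb N m n A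
        - η n / 2 * hh n A + η n * (lam * bb N m n A) + η n * (lam * aa m (n + 1) A) := by
      ring
    rw [hexp]
    linarith
  have htot : gen (nbG N m l) lam (fup N m l lam c η s) A
      ≤ - (1 / 4) * ∑ n ∈ range K, c n * II N m n A - ∑ n ∈ range K, η n / 2 * hh n A := by
    rw [hgen]
    refine le_trans (Finset.sum_le_sum (fun n _ => hlevel n)) ?_
    have e1 : ∑ n ∈ range K, (- (11 / 16) * (c n * II N m n A)
        + (5 / 16) * (c (n + 1) * II N m (n + 1) A) + P n - P (n + 1) - η n / 2 * hh n A)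
        = - (11 / 16) * ∑ n ∈ range K, c n * II N m n A
          + (5 / 16) * ∑ n ∈ range K, c (n + 1) * II N m (n + 1) A
          + ∑ n ∈ range K, (P n - P (n + 1)) - ∑ n ∈ range K, η n / 2 * hh n A := by
      rw [Finset.mul_sum, Finset.mul_sum, ← Finset.sum_add_distrib, ← Finset.sum_add_distrib,
        ← Finset.sum_sub_distrib]
      exact Finset.sum_congr rfl (fun n _ => by ring)
    rw [e1, Finset.sum_range_sub']
    have e2 : ∑ n ∈ range K, c (n + 1) * II N m (n + 1) A ≤ ∑ n ∈ range K, c n * II N m n A :=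
      sum_shift_le (d := fun n => c n * II N m n A) K
        (mul_nonneg (hc 0).le (II_nonneg _ _ _ _)) (by rw [hIK, mul_zero])
    have e3 : P 0 = 0 := by simp only [hP, zup]; ring
    have e4 : 0 ≤ P K := by
      simp only [hP]
      exact mul_nonneg (mul_nonneg (mul_nonneg (hc K).le (Tn_pos hlam _).le) hlam)
        (zup_nonneg _ _ _ _)
    have e5 : 0 ≤ ∑ n ∈ range K, c n * II N m n A :=
      Finset.sum_nonneg (fun n _ => mul_nonneg (hc n).le (II_nonneg _ _ _ _))
    linarith
  have hcI : ∀ n, 0 ≤ c n * II N m n A := fun n => mul_nonneg (hc n).le (II_nonneg _ _ _ _)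
  have hηh : ∀ n, 0 ≤ η n / 2 * hh n A := fun n =>
    mul_nonneg (by linarith [hη0 n]) (hh_nonneg _ _)
  have s1 : 0 ≤ ∑ n ∈ range K, c n * II N m n A := Finset.sum_nonneg (fun n _ => hcI n)
  have s2 : 0 ≤ ∑ n ∈ range K, η n / 2 * hh n A := Finset.sum_nonneg (fun n _ => hηh n)
  refine ⟨by linarith, ?_⟩
  intro v hv
  have hlevK : lev v ∈ range K := by
    rw [mem_range]; have := lev_lt_topv hv hKtop; omega
  have s3 : c (lev v) * II N m (lev v) A ≤ ∑ n ∈ range K, c n * II N m n A :=
    Finset.single_le_sum (f := fun n => c n * II N m n A) (fun n _ => hcI n) hlevK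
  have s4 : η (lev v) / 2 * hh (lev v) A ≤ ∑ n ∈ range K, η n / 2 * hh n A :=
    Finset.single_le_sum (f := fun n => η n / 2 * hh n A) (fun n _ => hηh n) hlevK
  have hval := hA v hv
  have hηc : η (lev v) ≤ c (lev v) := min_le_left _ _
  have hη' := (hη0 (lev v)).le
  have hgoal : min (c (lev v)) (c (lev v + 1)) = η (lev v) := rfl
  rw [hgoal]
  cases v with
  | cl n x i =>
    simp only [lev] at *
    have h1 : 1 ≤ II N m n A := by
      unfold II
      refine le_trans ?_ (Finset.single_le_sum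
        (f := fun x => if (A ∩ clus N n x).Nonempty then (1 : ℝ) else 0)
        (fun x _ => by split_ifs <;> norm_num) (mem_range.mpr hval.1))
      rw [if_pos ⟨_, mem_inter.mpr ⟨hv, (mem_clus N).mpr ⟨i, hval.2, rfl⟩⟩⟩]
    have h2 : c n ≤ c n * II N m n A := by nlinarith [(hc n)]
    linarith
  | hb n k x =>
    simp only [lev] at *
    have h1 : 1 ≤ hh n A := by
      unfold hh
      refine le_trans ?_ (Finset.single_le_sum (f := fun v => linW n v)
        (fun v _ => linW_nonneg n v) hv)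
      simp [linW]
    have h2 : η n / 2 ≤ η n / 2 * hh n A := by nlinarith
    linarith
  | pa n j x =>
    simp only [lev] at *
    have h1 : 1 ≤ hh n A := by
      unfold hh
      refine le_trans ?_ (Finset.single_le_sum (f := fun v => linW n v)
        (fun v _ => linW_nonneg n v) hv)
      simp [linW]
    have h2 : η n / 2 ≤ η n / 2 * hh n A := by nlinarith
    linarith

end Pool.Agent.CP
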