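import Mathlib
import Pool.Agent.Helper11.CP.LowerA
import Pool.Agent.Helper11.CP.AFacts
import Pool.Agent.Helper11.CP.PsiLemma
import Pool.Agent.Helper11.CP.UpperC

/-!
# Cores, and the forward functions
-/

set_option autoImplicit false
set_option linter.unusedSectionVars false

namespace Pool.Agent.CP

open Finset

/-! ### More on `psi` -/

section psi

variable {V : Type*} [DecidableEq V]

lemma psi_ge_of_inter {C : Finset V} {a : ℕ → ℝ} {q : ℝ} {v : Finset V → ℝ} (ha : Antitone a)
    {A : Finset V} (h : (A ∩ C).Nonempty) : 1 - a 1 ≤ psi C a q v A := by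
  unfold psi
  refine le_trans ?_ (le_max_right _ _)
  unfold cardFun
  have : a (A ∩ C).card ≤ a 1 := ha (Finset.card_pos.mpr h)
  linarith

lemma psi_le_of_inter_empty {C : Finset V} {a : ℕ → ℝ} {q : ℝ} {v : Finset V → ℝ} (ha : a 0 = 1)
    (hq : 0 ≤ q) {A : Finset V} (hv0 : 0 ≤ v A) (hv1 : v A ≤ 1) (h : ¬ (A ∩ C).Nonempty) :
    psi C a q v A ≤ v A := by
  rw [Finset.not_nonempty_iff_eq_empty] at h
  unfold psi cardFun
  rw [h, Finset.card_empty, ha]
  apply max_le
  · nlinarith
  · linarith

lemma psi_eq_one {C : Finset V} {a : ℕ → ℝ} {q : ℝ} {v : Finset V → ℝ} (ha : ∀ i, 0 < a i)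
    {A : Finset V} (hv : v A = 1) : psi C a q v A = 1 := by
  unfold psi
  rw [hv, sub_self, mul_zero, mul_zero, sub_zero]
  apply max_eq_left
  have := ha (A ∩ C).card
  unfold cardFun
  linarith

end psi

/-! ### Step factors -/

lemma c1_pos {kap : ℝ} (hk : 0 ≤ kap) : 0 < c1 kap := by unfold c1; positivity

lemma c1_le {kap : ℝ} (hk : 0 ≤ kap) : c1 kap ≤ 1 := by
  unfold c1; rw [div_le_one (by positivity)]; linarith

lemma c1_eq {kap : ℝ} (hk : 0 ≤ kap) (r : ℝ) :
    kap * (c1 kap * r) = - (c1 kap * r) + (1 / 100) * (((1 : ℕ) : ℝ) * (r - c1 kap * r)) := by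
  unfold c1
  have : (1 : ℝ) + 1 / 100 + kap ≠ 0 := by positivity
  push_cast
  field_simp
  ring

lemma c16_pos {kap : ℝ} (hk : 0 ≤ kap) : 0 < c16 kap := by unfold c16; positivity

lemma c16_le {kap : ℝ} (hk : 0 ≤ kap) : c16 kap ≤ 1 := by
  unfold c16; rw [div_le_one (by positivity)]; linarith

lemma c16_eq {kap : ℝ} (hk : 0 ≤ kap) (r : ℝ) :
    kap * (c16 kap * r) = - (c16 kap * r) + (1 / 100) * (((16 : ℕ) : ℝ) * (r - c16 kap * r)) := by
  unfold c16
  have : (1 : ℝ) + 16 / 100 + kap ≠ 0 := by positivity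
  push_cast
  field_simp
  ring

lemma ce_pos {kap : ℝ} (hk : 0 ≤ kap) {M : ℕ} (hM : 4 ≤ M) : 0 < ce kap M := by
  unfold ce
  have : (4 : ℝ) ≤ M := by exact_mod_cast hM
  have h2 : 0 < (1 / 100) * ((M : ℝ) - 2) := by linarith
  exact div_pos h2 (by linarith)

lemma ce_le {kap : ℝ} (hk : 0 ≤ kap) {M : ℕ} (hM : 4 ≤ M) : ce kap M ≤ 1 := by
  unfold ce
  have : (4 : ℝ) ≤ M := by exact_mod_cast hM
  have h2 : 0 < (1 / 100) * ((M : ℝ) - 2) := by linarith
  rw [div_le_one (by linarith)]; linarith

lemma ce_eq {kap : ℝ} (hk : 0 ≤ kap) {M : ℕ} (hM : 4 ≤ M) :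
    kap * ce kap M = - ce kap M + (1 / 100) * (((M - 2 : ℕ) : ℝ) * (1 - ce kap M)) := by
  have h4 : (4 : ℝ) ≤ M := by exact_mod_cast hM
  have h2 : 0 < (1 / 100) * ((M : ℝ) - 2) := by linarith
  have h3 : (1 : ℝ) + (1 / 100) * ((M : ℝ) - 2) + kap ≠ 0 := by
    have : 0 < (1 : ℝ) + (1 / 100) * ((M : ℝ) - 2) + kap := by linarith
    exact this.ne'
  have h5 : ((M - 2 : ℕ) : ℝ) = (M : ℝ) - 2 := by
    rw [Nat.cast_sub (by omega)]; norm_num
  rw [h5]
  unfold ce
  rw [eq_comm, ← sub_eq_zero]
  have : - ((1 / 100) * ((M : ℝ) - 2) / (1 + (1 / 100) * ((M : ℝ) - 2) + kap))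
      + (1 / 100) * (((M : ℝ) - 2) * (1 - (1 / 100) * ((M : ℝ) - 2)
        / (1 + (1 / 100) * ((M : ℝ) - 2) + kap)))
      - kap * ((1 / 100) * ((M : ℝ) - 2) / (1 + (1 / 100) * ((M : ℝ) - 2) + kap))
      = ((1 / 100) * ((M : ℝ) - 2)) * (1 - (1 + (1 / 100) * ((M : ℝ) - 2) + kap)
        / (1 + (1 / 100) * ((M : ℝ) - 2) + kap)) := by ring
  rw [this, div_self h3, sub_self, mul_zero]

/-! ### Cores -/

variable (N m l : ℕ → ℕ)

/-- core of a cluster -/
def core (n x : ℕ) : Finset Vx := (Finset.Ico 1 (N n - 1)).image (Vx.cl n x)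

lemma mem_core {n x : ℕ} {v : Vx} : v ∈ core N n x ↔ ∃ i, 1 ≤ i ∧ i < N n - 1 ∧ v = .cl n x i := by
  unfold core
  rw [mem_image]
  constructor
  · rintro ⟨i, hi, rfl⟩
    rw [mem_Ico] at hi
    exact ⟨i, hi.1, hi.2, rfl⟩
  · rintro ⟨i, h1, h2, rfl⟩
    exact ⟨i, mem_Ico.mpr ⟨h1, h2⟩, rfl⟩

lemma card_core (n x : ℕ) : (core N n x).card = N n - 2 := by
  unfold core
  rw [Finset.card_image_of_injective, Nat.card_Ico]
  · omega
  · intro a b h
    simpa using h

lemma mem_nbG_cl (hl : ∀ n, 1 ≤ l n) (hN : ∀ n, 1 ≤ N n) {n x i j : ℕ} (hx : x < W m n)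
    (hi : i < N n) (hj : j < N n) (hij : i ≠ j) : Vx.cl n x j ∈ nbG N m l (.cl n x i) := by
  rw [mem_nbG_iff N m l hl hN]
  exact ⟨⟨hx, hi⟩, ⟨hx, hj⟩, Or.inl ⟨rfl, rfl, hij⟩⟩

lemma mk_psiHyp (hl : ∀ n, 1 ≤ l n) {n x : ℕ} (hx : x < W m n) (hN4 : ∀ n, 4 ≤ N n) {b : Vx}
    (hb : b = .cl n x 0 ∨ b = .cl n x (N n - 1)) {la lam q kap : ℝ} (hla : 0 < la)
    (hlam : la ≤ lam) (hq0 : 0 < q) (hq1 : q ≤ 1) (hk0 : 0 < kap) (hk1 : kap ≤ lam)
    {v : Finset Vx → ℝ} (v0 : ∀ B, 0 ≤ v B) (v1 : ∀ B, v B ≤ 1)
    (vmono : ∀ A B, A ⊆ B → v A ≤ v B) (verase : ∀ A, ∀ z ∈ core N n x, v (A.erase z) = v A)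
    (vinsert : ∀ A, ∀ z ∈ core N n x, v (insert z A) = v A) (vq : ∀ A, b ∈ A → q ≤ v A) :
    PsiHyp (nbG N m l) lam (core N n x) b (afun la (kap * q / 8) (N n - 2)) q kap v := by
  have hNn := hN4 n
  have hN1 : ∀ n, 1 ≤ N n := fun n => le_trans (by norm_num) (hN4 n)
  have hM : 1 ≤ N n - 2 := by omega
  have heps : 0 ≤ kap * q / 8 := by positivity
  refine
    { hb := ?_
      hCb := ?_
      hCC := ?_
      a0 := afun_zero hla.le heps hM
      apos := afun_pos hla.le heps hM
      aanti := afun_anti hla.le heps hM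
      arec := ?_
      v0 := v0
      v1 := v1
      vmono := vmono
      verase := verase
      vinsert := vinsert
      vq := vq
      q0 := hq0
      q1 := hq1
      kap0 := hk0
      kap1 := hk1 }
  · intro h
    obtain ⟨i, h1, h2, h3⟩ := (mem_core N).mp h
    rcases hb with hb | hb
    · rw [hb] at h3; simp only [Vx.cl.injEq] at h3; omega
    · rw [hb] at h3; simp only [Vx.cl.injEq] at h3; omega
  · intro z hz
    obtain ⟨i, h1, h2, rfl⟩ := (mem_core N).mp hz
    rcases hb with hb | hb
    · rw [hb]; exact mem_nbG_cl N m l hl hN1 hx (by omega) (by omega) (by omega)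
    · rw [hb]; exact mem_nbG_cl N m l hl hN1 hx (by omega) (by omega) (by omega)
  · intro z hz w hw
    obtain ⟨i, h1, h2, rfl⟩ := (mem_core N).mp hz
    rw [mem_erase] at hw
    obtain ⟨j, h3, h4, rfl⟩ := (mem_core N).mp hw.2
    exact mem_nbG_cl N m l hl hN1 hx (by omega) (by omega) (fun h => hw.1 (by rw [h]))
  · intro i h1 hi
    rw [card_core] at hi ⊢
    exact afun_rec hla.le heps hM hlam i h1 hi

/-! ### Forward functions -/

/-- value of the hub vertices at depth `k` -/
noncomputable def ffw (kap : ℝ) (mn ln N' : ℕ) (k : ℕ) : ℝ :=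
  c16 kap ^ (mn - k) * (c1 kap * (ce kap N' * pfun ln (1 / 100) kap {ln - 1}))

/-- the values of the vertices -/
noncomputable def valF0 (kap : ℝ) (n x : ℕ) : Vx → ℝ
  | .cl n' x' i => if n' = n ∧ x' = x ∧ i + 1 = N n then
        c1 kap * ffw kap (m n) (l n) (N (n + 1)) 0
      else if n' = n + 1 ∧ x' / 16 ^ (m n) = x then
        (if i = 0 then ce kap (N (n + 1)) else if i + 1 < N (n + 1) then 1 else 0)
      else 0
  | .hb n' k y => if n' = n ∧ y / 16 ^ k = x then ffw kap (m n) (l n) (N (n + 1)) k else 0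
  | .pa _ _ _ => 0

open Classical in
noncomputable def valF (kap : ℝ) (n x : ℕ) (w : Vx) : ℝ :=
  if valid N m l w then valF0 N m l kap n x w else 0

/-- terminal vertices of the forward function -/
def termF (n x : ℕ) (w : Vx) : Prop := ∃ y, y / 16 ^ (m n) = x ∧ w ∈ core N (n + 1) y

/-- the paths below the cluster -/
def YF (n x : ℕ) : Finset ℕ := (range (W m (n + 1))).filter (fun y => y / 16 ^ (m n) = x)

/-- the forward function of a cluster -/
noncomputable def vF (kap : ℝ) (n x : ℕ) : Finset Vx → ℝ :=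
  wit (1 / 100) kap (valF N m l kap n x) (YF m n x) (fun _ => l n) (fun y => edn l n y)
    (fun y => .cl (n + 1) y 0)

section forward

variable (hl : ∀ n, 1 ≤ l n) (hN4 : ∀ n, 4 ≤ N n)
include hl hN4

lemma ffw_nonneg {kap : ℝ} (hk : 0 ≤ kap) (n k : ℕ) :
    0 < ffw kap (m n) (l n) (N (n + 1)) k := by
  unfold ffw
  have h1 := c16_pos hk
  have h2 := c1_pos hk
  have h3 := ce_pos hk (hN4 (n + 1))
  have h4 := pfun_pos_all (l n) (lam := 1 / 100) (by norm_num) hk (l n - 1)
    (by have := hl n; omega)
  positivity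

lemma ffw_le_one {kap : ℝ} (hk : 0 ≤ kap) (n k : ℕ) :
    ffw kap (m n) (l n) (N (n + 1)) k ≤ 1 := by
  unfold ffw
  have h1 := c16_pos hk
  have h1' := c16_le hk
  have h2 := c1_pos hk
  have h2' := c1_le hk
  have h3 := ce_pos hk (hN4 (n + 1))
  have h3' := ce_le hk (hN4 (n + 1))
  obtain ⟨p0, p1, -⟩ := pfun_spec (l n) (1 / 100) kap (by norm_num) hk
  have h4 : ce kap (N (n + 1)) * pfun (l n) (1 / 100) kap {l n - 1} ≤ 1 :=
    mul_le_one₀ h3' (p0 _) (p1 _)
  have h5 : 0 ≤ ce kap (N (n + 1)) * pfun (l n) (1 / 100) kap {l n - 1} :=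
    mul_nonneg h3.le (p0 _)
  have h6 : c1 kap * (ce kap (N (n + 1)) * pfun (l n) (1 / 100) kap {l n - 1}) ≤ 1 :=
    mul_le_one₀ h2' h5 h4
  exact mul_le_one₀ (pow_le_one₀ h1.le h1') (mul_nonneg h2.le h5) h6

lemma valF_nonneg {kap : ℝ} (hk : 0 ≤ kap) (n x : ℕ) (w : Vx) : 0 ≤ valF N m l kap n x w := by
  unfold valF
  split_ifs with hv
  · cases w with
    | cl n' x' i =>
      simp only [valF0]
      have h3 := ce_pos hk (hN4 (n + 1))
      have h1 := mul_pos (c1_pos hk) (ffw_nonneg N m l hl hN4 hk n 0)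
      split_ifs
      · exact h1.le
      · exact h3.le
      · exact zero_le_one
      · exact le_rfl
      · exact le_rfl
    | hb n' k y =>
      simp only [valF0]
      split_ifs
      · exact (ffw_nonneg N m l hl hN4 hk n k).le
      · exact le_rfl
    | pa n' j y => exact le_rfl
  · exact le_rfl

lemma valF_le_one {kap : ℝ} (hk : 0 ≤ kap) (n x : ℕ) (w : Vx) : valF N m l kap n x w ≤ 1 := by
  unfold valF
  split_ifs with hv
  · cases w with
    | cl n' x' i =>
      simp only [valF0]
      have h3 := ce_le hk (hN4 (n + 1))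
      have h1 := mul_le_one₀ (c1_le hk) (ffw_nonneg N m l hl hN4 hk n 0).le
        (ffw_le_one N m l hl hN4 hk n 0)
      split_ifs
      · exact h1
      · exact h3
      · exact le_rfl
      · exact zero_le_one
      · exact zero_le_one
    | hb n' k y =>
      simp only [valF0]
      split_ifs
      · exact ffw_le_one N m l hl hN4 hk n k
      · exact zero_le_one
    | pa n' j y => exact zero_le_one
  · exact zero_le_one

lemma witHyp_F {kap : ℝ} (hk : 0 ≤ kap) (n x : ℕ) :
    WitHyp (nbG N m l) (1 / 100) kap (valF N m l kap n x) (termF N m n x) (YF m n x)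
      (fun _ => l n) (fun y => edn l n y) (fun y => Vx.cl (n + 1) y 0) := by
  have hN1 : ∀ n, 1 ≤ N n := fun n => le_trans (by norm_num) (hN4 n)
  have hln := hl n
  have hNn := hN4 n
  have hNn1 := hN4 (n + 1)
  refine
    { val0 := valF_nonneg N m l hl hN4 hk n x
      val1 := valF_le_one N m l hl hN4 hk n x
      emb := ?_
      Lpos := fun _ _ => hl n
      tne := ?_
      tnb := ?_
      step := ?_ }
  · intro y hy
    rw [YF, mem_filter, mem_range] at hy
    exact pathEmb_dn N m l hl hN1 n y hy.1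
  · intro y _ j _ h
    simp [edn] at h
  · intro y hy
    rw [YF, mem_filter, mem_range] at hy
    rw [mem_nbG_iff N m l hl hN1]
    refine ⟨⟨?_, hy.1⟩, ⟨hy.1, by omega⟩, Or.inl ⟨rfl, rfl, rfl, ?_⟩⟩
    · simp only [Nat.sub_zero]; omega
    · simp only [Nat.sub_zero]; omega
  · intro w hterm hpos
    have hv : valid N m l w := by
      by_contra hv
      unfold valF at hpos
      rw [if_neg hv] at hpos
      exact lt_irrefl _ hpos
    have hval : valF N m l kap n x w = valF0 N m l kap n x w := by
      unfold valF; rw [if_pos hv]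
    rw [hval] at hpos
    cases w with
    | cl n' x' i =>
      simp only [valF0] at hpos
      by_cases h1 : n' = n ∧ x' = x ∧ i + 1 = N n
      · -- exit vertex
        have hval2 : valF0 N m l kap n x (.cl n' x' i)
            = c1 kap * ffw kap (m n) (l n) (N (n + 1)) 0 := by
          simp only [valF0]; rw [if_pos h1]
        obtain ⟨h2, h3, h4⟩ := h1
        subst h2; subst h3
        have hvalid : valid N m l (.hb n' 0 x') := ⟨Nat.zero_le _, by simpa using hv.1⟩
        refine ⟨{.hb n' 0 x'}, ?_, ffw kap (m n') (l n') (N (n' + 1)) 0, ?_, ?_⟩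
        · intro z hz
          rw [mem_singleton] at hz
          subst hz
          rw [mem_nbG_iff N m l hl hN1]
          exact ⟨hv, hvalid, Or.inl ⟨rfl, rfl, rfl, h4⟩⟩
        · intro c hc
          rw [mem_singleton] at hc
          subst hc
          refine le_trans (le_of_eq ?_) (val_le_wit (mem_singleton_self _))
          unfold valF
          rw [if_pos hvalid]
          simp only [valF0]
          rw [if_pos ⟨trivial, by simp⟩]
        · rw [hval, hval2, card_singleton]
          exact (c1_eq hk _).le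
      · rw [if_neg h1] at hpos
        by_cases h2 : n' = n + 1 ∧ x' / 16 ^ (m n) = x
        · rw [if_pos h2] at hpos
          obtain ⟨h3, h4⟩ := h2
          subst h3
          by_cases h5 : i = 0
          · -- entry vertex of the next cluster
            subst h5
            have hval2 : valF0 N m l kap n x (.cl (n + 1) x' 0) = ce kap (N (n + 1)) := by
              simp only [valF0]; rw [if_neg h1, if_pos ⟨trivial, h4⟩]; simp
            refine ⟨core N (n + 1) x', ?_, 1, ?_, ?_⟩
            · intro z hz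
              obtain ⟨j, h6, h7, rfl⟩ := (mem_core N).mp hz
              exact mem_nbG_cl N m l hl hN1 hv.1 (by omega) (by omega) (by omega)
            · intro c hc
              refine le_trans (le_of_eq ?_) (val_le_wit (mem_singleton_self _))
              obtain ⟨j, h6, h7, rfl⟩ := (mem_core N).mp hc
              unfold valF
              rw [if_pos ⟨hv.1, by omega⟩]
              simp only [valF0]
              rw [if_neg (by omega), if_pos ⟨trivial, h4⟩, if_neg (by omega), if_pos (by omega)]
            · rw [hval, hval2, card_core]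
              exact (ce_eq hk hNn1).le
          · exfalso
            rw [if_neg h5] at hpos
            by_cases h6 : i + 1 < N (n + 1)
            · exact hterm ⟨x', h4, (mem_core N).mpr ⟨i, by omega, by omega, rfl⟩⟩
            · rw [if_neg h6] at hpos; exact lt_irrefl _ hpos
        · exfalso
          rw [if_neg h2] at hpos; exact lt_irrefl _ hpos
    | hb n' k y =>
      simp only [valF0] at hpos
      by_cases h1 : n' = n ∧ y / 16 ^ k = x
      · have hval2 : valF0 N m l kap n x (.hb n' k y) = ffw kap (m n) (l n) (N (n + 1)) k := by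
          simp only [valF0]; rw [if_pos h1]
        obtain ⟨h2, h3⟩ := h1
        subst h2
        obtain ⟨hk1, hy⟩ := hv
        rcases Nat.lt_or_ge k (m n') with hkm | hkm
        · -- inner vertex of the hub
          refine ⟨hdown m n' k y, ?_, ffw kap (m n') (l n') (N (n' + 1)) (k + 1), ?_, ?_⟩
          · intro z hz
            unfold nbG
            rw [if_pos ⟨hk1, hy⟩]
            simp only [nb0, mem_union]
            exact Or.inr hz
          · intro c hc
            unfold hdown at hc
            rw [if_pos hkm, mem_image] at hc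
            obtain ⟨d, hd, rfl⟩ := hc
            rw [mem_range] at hd
            refine le_trans (le_of_eq ?_) (val_le_wit (mem_singleton_self _))
            unfold valF
            rw [if_pos]
            · simp only [valF0]
              rw [if_pos ⟨trivial, by rw [div_pow_succ' y d k hd]; exact h3⟩]
            · refine ⟨by omega, ?_⟩
              calc 16 * y + d < 16 * (y + 1) := by omega
                _ ≤ 16 * (W m n' * 16 ^ k) := Nat.mul_le_mul_left _ hy
                _ = W m n' * 16 ^ (k + 1) := by rw [pow_succ]; ring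
          · have hcard : (hdown m n' k y).card = 16 := by
              unfold hdown
              rw [if_pos hkm, Finset.card_image_of_injOn, card_range]
              intro d _ d' _ h
              simp only [Vx.hb.injEq] at h
              omega
            rw [hval, hval2, hcard]
            have hstep : ffw kap (m n') (l n') (N (n' + 1)) k
                = c16 kap * ffw kap (m n') (l n') (N (n' + 1)) (k + 1) := by
              unfold ffw
              have : m n' - k = (m n' - (k + 1)) + 1 := by omega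
              rw [this, pow_succ]; ring
            rw [hstep]
            exact (c16_eq hk _).le
        · -- last vertex of the hub
          have hkm' : k = m n' := by omega
          subst hkm'
          have hyY : y ∈ YF m n' x := by
            rw [YF, mem_filter, mem_range]; exact ⟨hy, h3⟩
          refine ⟨{.pa n' 0 y}, ?_,
            ce kap (N (n' + 1)) * pfun (l n') (1 / 100) kap {l n' - 1}, ?_, ?_⟩
          · intro z hz
            rw [mem_singleton] at hz
            subst hz
            rw [mem_nbG_iff N m l hl hN1]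
            exact ⟨⟨hk1, hy⟩, ⟨by omega, hy⟩, Or.inl ⟨rfl, rfl, rfl, rfl⟩⟩
          · intro c hc
            rw [mem_singleton] at hc
            subst hc
            refine le_trans (le_of_eq ?_) (path_le_wit hyY)
            have hpull : pull (l n') (edn l n' y) ({.pa n' 0 y} : Finset Vx) = {l n' - 1} := by
              ext j
              rw [mem_pull, mem_singleton, mem_singleton]
              simp only [edn, Vx.pa.injEq, true_and, and_true]
              omega
            have hvt : valF N m l kap n' x (.cl (n' + 1) y 0) = ce kap (N (n' + 1)) := by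
              unfold valF
              rw [if_pos ⟨hy, by omega⟩]
              simp only [valF0]
              rw [if_neg (by omega), if_pos ⟨trivial, h3⟩]
              simp
            rw [hpull, hvt]
          · rw [hval, hval2, card_singleton]
            have : ffw kap (m n') (l n') (N (n' + 1)) (m n')
                = c1 kap * (ce kap (N (n' + 1)) * pfun (l n') (1 / 100) kap {l n' - 1}) := by
              unfold ffw
              rw [Nat.sub_self, pow_zero, one_mul]
            rw [this]
            exact (c1_eq hk _).le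
      · exfalso
        rw [if_neg h1] at hpos; exact lt_irrefl _ hpos
    | pa n' j y =>
      exfalso
      simp only [valF0] at hpos
      exact lt_irrefl _ hpos

lemma qf_eq (kap : ℝ) (n : ℕ) :
    qf kap (m n) (l n) (N (n + 1)) = c1 kap * ffw kap (m n) (l n) (N (n + 1)) 0 := by
  unfold qf ffw
  rw [Nat.sub_zero]; ring

lemma qf_pos {kap : ℝ} (hk : 0 ≤ kap) (n : ℕ) : 0 < qf kap (m n) (l n) (N (n + 1)) := by
  rw [qf_eq N m l hl hN4]
  exact mul_pos (c1_pos hk) (ffw_nonneg N m l hl hN4 hk n 0)

lemma qf_le_one {kap : ℝ} (hk : 0 ≤ kap) (n : ℕ) : qf kap (m n) (l n) (N (n + 1)) ≤ 1 := by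
  rw [qf_eq N m l hl hN4]
  exact mul_le_one₀ (c1_le hk) (ffw_nonneg N m l hl hN4 hk n 0).le
    (ffw_le_one N m l hl hN4 hk n 0)

lemma valF_core {kap : ℝ} (n x : ℕ) {z : Vx} (hz : z ∈ core N n x) :
    valF N m l kap n x z = 0 := by
  obtain ⟨i, h1, h2, rfl⟩ := (mem_core N).mp hz
  unfold valF
  split_ifs
  · simp only [valF0]
    rw [if_neg (by omega), if_neg (by omega)]
  · rfl

lemma psiHyp_F {kap lam : ℝ} (hk : 0 < kap) (hk1 : kap ≤ 1 / 100) (hlam : 1 / 100 ≤ lam)
    (n x : ℕ) (hx : x < W m n) :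
    PsiHyp (nbG N m l) lam (core N n x) (.cl n x (N n - 1))
      (afun (1 / 100) (kap * qf kap (m n) (l n) (N (n + 1)) / 8) (N n - 2))
      (qf kap (m n) (l n) (N (n + 1))) kap (vF N m l kap n x) := by
  have hNn := hN4 n
  have h100 : (0 : ℝ) < 1 / 100 := by norm_num
  apply mk_psiHyp N m l hl hx hN4 (Or.inr rfl) h100 hlam (qf_pos N m l hl hN4 hk.le n)
    (qf_le_one N m l hl hN4 hk.le n) hk (le_trans hk1 hlam)
  · exact fun B => wit_nonneg B
  · exact fun B => wit_le_one h100 hk.le (valF_le_one N m l hl hN4 hk.le n x) B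
  · exact fun A B h => wit_mono h100 hk.le (valF_nonneg N m l hl hN4 hk.le n x) A B h
  · intro A z hz
    apply wit_erase_of_val_zero h100 hk.le (valF_nonneg N m l hl hN4 hk.le n x)
      (valF_core N m l hl hN4 n x hz)
    intro y _ j _ h
    obtain ⟨i, _, _, rfl⟩ := (mem_core N).mp hz
    simp [edn] at h
  · intro A z hz
    apply wit_insert_of_val_zero h100 hk.le (valF_nonneg N m l hl hN4 hk.le n x)
      (valF_core N m l hl hN4 n x hz)
    intro y _ j _ h
    obtain ⟨i, _, _, rfl⟩ := (mem_core N).mp hz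
    simp [edn] at h
  · intro A hA
    refine le_trans (le_of_eq ?_) (val_le_wit hA)
    unfold valF
    rw [if_pos ⟨hx, by omega⟩]
    simp only [valF0]
    rw [if_pos ⟨trivial, trivial, by omega⟩]
    exact qf_eq N m l hl hN4 kap n

lemma vF_eq_zero {kap : ℝ} (hk : 0 ≤ kap) (n x : ℕ) {B : Finset Vx} (hB : ∀ v ∈ B, lev v < n) :
    vF N m l kap n x B = 0 := by
  apply le_antisymm _ (wit_nonneg B)
  unfold wit
  apply max_le
  · apply fmax_le le_rfl
    intro w hw
    have h := hB w hw
    unfold valF
    split_ifs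
    · cases w with
      | cl n' x' i =>
        simp only [lev] at h
        simp only [valF0]
        rw [if_neg (by omega), if_neg (by omega)]
      | hb n' k y =>
        simp only [lev] at h
        simp only [valF0]
        rw [if_neg (by omega)]
      | pa n' j y => exact le_rfl
    · exact le_rfl
  · apply fmax_le le_rfl
    intro y _
    obtain ⟨-, -, pe, -⟩ := pfun_spec (l n) (1 / 100) kap (by norm_num) hk
    rw [pull_eq_empty (n := n) (edn l n y) (fun j => rfl)
      (fun v hv hn => by have := hB v hv; omega), pe, mul_zero]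

lemma vF_eq_one_of_term {kap : ℝ} (hk : 0 ≤ kap) (n x y : ℕ) (hy : y / 16 ^ (m n) = x)
    (hyW : y < W m (n + 1)) {A : Finset Vx} (h : (A ∩ core N (n + 1) y).Nonempty) :
    vF N m l kap n x A = 1 := by
  apply le_antisymm (wit_le_one (by norm_num) hk (valF_le_one N m l hl hN4 hk n x) A)
  obtain ⟨w, hw⟩ := h
  rw [mem_inter] at hw
  refine le_trans (le_of_eq ?_) (val_le_wit hw.1)
  obtain ⟨i, h1, h2, rfl⟩ := (mem_core N).mp hw.2
  unfold valF
  rw [if_pos ⟨hyW, by omega⟩]
  simp only [valF0]
  rw [if_neg (by omega), if_pos ⟨trivial, hy⟩, if_neg (by omega), if_pos (by omega)]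

end forward

end Pool.Agent.CP
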