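import Mathlib
import Pool.Agent.Helper11.CP.LowerB

/-!
# The upward functions
-/

set_option autoImplicit false
set_option linter.unusedSectionVars false

namespace Pool.Agent.CP

open Finset

variable (N m l : ℕ → ℕ)

/-- the values of the vertices for the upward function of the cluster `(n + 1, y)` -/
noncomputable def valU0 (kap : ℝ) (n y : ℕ) : Vx → ℝ
  | .cl n' x' i => if n' = n + 1 ∧ x' = y ∧ i = 0 then qu kap (m n) (l n) (N n)
      else if n' = n ∧ x' = y / 16 ^ (m n) then
        (if i + 1 = N n then ce kap (N n) else if 1 ≤ i then 1 else 0)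
      else 0
  | .hb n' k x' => if n' = n ∧ x' = y / 16 ^ (m n - k) then c1 kap ^ (k + 1) * ce kap (N n) else 0
  | .pa _ _ _ => 0

open Classical in
noncomputable def valU (kap : ℝ) (n y : ℕ) (w : Vx) : ℝ :=
  if valid N m l w then valU0 N m l kap n y w else 0

/-- terminal vertices of the upward function -/
def termU (n y : ℕ) (w : Vx) : Prop := w ∈ core N n (y / 16 ^ (m n))

/-- the upward function of the cluster `(n + 1, y)` -/
noncomputable def vU (kap : ℝ) (n y : ℕ) : Finset Vx → ℝ :=
  wit (1 / 100) kap (valU N m l kap n y) ({y} : Finset ℕ) (fun _ => l n) (fun y => eup n y)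
    (fun y => .hb n (m n) y)

section upward

variable (hl : ∀ n, 1 ≤ l n) (hN4 : ∀ n, 4 ≤ N n)
include hl hN4

lemma qu_pos {kap : ℝ} (hk : 0 ≤ kap) (n : ℕ) : 0 < qu kap (m n) (l n) (N n) := by
  unfold qu
  have h2 := c1_pos hk
  have h3 := ce_pos hk (hN4 n)
  have h4 := pfun_pos_all (l n) (lam := 1 / 100) (by norm_num) hk (l n - 1)
    (by have := hl n; omega)
  positivity

lemma qu_le_one {kap : ℝ} (hk : 0 ≤ kap) (n : ℕ) : qu kap (m n) (l n) (N n) ≤ 1 := by
  unfold qu
  have h2 := c1_pos hk
  have h2' := c1_le hk
  have h3 := ce_pos hk (hN4 n)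
  have h3' := ce_le hk (hN4 n)
  obtain ⟨p0, p1, -⟩ := pfun_spec (l n) (1 / 100) kap (by norm_num) hk
  have h4 : c1 kap ^ (m n + 1) * ce kap (N n) ≤ 1 :=
    mul_le_one₀ (pow_le_one₀ h2.le h2') h3.le h3'
  have h5 : 0 ≤ c1 kap ^ (m n + 1) * ce kap (N n) := by positivity
  have h6 : pfun (l n) (1 / 100) kap {l n - 1} * (c1 kap ^ (m n + 1) * ce kap (N n)) ≤ 1 :=
    mul_le_one₀ (p1 _) h5 h4
  exact mul_le_one₀ h2' (mul_nonneg (p0 _) h5) h6

lemma valU_nonneg {kap : ℝ} (hk : 0 ≤ kap) (n y : ℕ) (w : Vx) : 0 ≤ valU N m l kap n y w := by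
  unfold valU
  split_ifs with hv
  · cases w with
    | cl n' x' i =>
      simp only [valU0]
      have h3 := ce_pos hk (hN4 n)
      have h1 := qu_pos N m l hl hN4 hk n
      split_ifs
      · exact h1.le
      · exact h3.le
      · exact zero_le_one
      · exact le_rfl
      · exact le_rfl
    | hb n' k x =>
      simp only [valU0]
      have h2 := c1_pos hk
      have h3 := ce_pos hk (hN4 n)
      split_ifs
      · positivity
      · exact le_rfl
    | pa n' j x => exact le_rfl
  · exact le_rfl

lemma valU_le_one {kap : ℝ} (hk : 0 ≤ kap) (n y : ℕ) (w : Vx) : valU N m l kap n y w ≤ 1 := by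
  unfold valU
  split_ifs with hv
  · cases w with
    | cl n' x' i =>
      simp only [valU0]
      have h3 := ce_le hk (hN4 n)
      have h1 := qu_le_one N m l hl hN4 hk n
      split_ifs
      · exact h1
      · exact h3
      · exact le_rfl
      · exact zero_le_one
      · exact zero_le_one
    | hb n' k x =>
      simp only [valU0]
      have h2 := c1_pos hk
      have h2' := c1_le hk
      have h3 := ce_pos hk (hN4 n)
      have h3' := ce_le hk (hN4 n)
      split_ifs
      · exact mul_le_one₀ (pow_le_one₀ h2.le h2') h3.le h3'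
      · exact zero_le_one
    | pa n' j x => exact zero_le_one
  · exact zero_le_one

lemma witHyp_U {kap : ℝ} (hk : 0 ≤ kap) (n y : ℕ) (hy : y < W m (n + 1)) :
    WitHyp (nbG N m l) (1 / 100) kap (valU N m l kap n y) (termU N m n y) ({y} : Finset ℕ)
      (fun _ => l n) (fun y => eup n y) (fun y => Vx.hb n (m n) y) := by
  have hN1 : ∀ n, 1 ≤ N n := fun n => le_trans (by norm_num) (hN4 n)
  have hln := hl n
  have hNn := hN4 n
  have hNn1 := hN4 (n + 1)
  have hW : W m (n + 1) = W m n * 16 ^ (m n) := rfl
  have hvt : valU N m l kap n y (.hb n (m n) y) = c1 kap ^ (m n + 1) * ce kap (N n) := by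
    unfold valU
    rw [if_pos ⟨le_rfl, hy⟩]
    simp only [valU0]
    rw [if_pos ⟨trivial, by simp⟩]
  refine
    { val0 := valU_nonneg N m l hl hN4 hk n y
      val1 := valU_le_one N m l hl hN4 hk n y
      emb := ?_
      Lpos := fun _ _ => hl n
      tne := ?_
      tnb := ?_
      step := ?_ }
  · intro y' hy'
    rw [mem_singleton] at hy'
    subst hy'
    exact pathEmb_up N m l hl hN1 n y' hy
  · intro y' _ j _ h
    simp [eup] at h
  · intro y' hy'
    rw [mem_singleton] at hy'
    subst hy'
    rw [mem_nbG_iff N m l hl hN1]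
    exact ⟨⟨by omega, hy⟩, ⟨le_rfl, hy⟩, Or.inr ⟨rfl, rfl, rfl, rfl⟩⟩
  · intro w hterm hpos
    have hv : valid N m l w := by
      by_contra hv
      unfold valU at hpos
      rw [if_neg hv] at hpos
      exact lt_irrefl _ hpos
    have hval : valU N m l kap n y w = valU0 N m l kap n y w := by
      unfold valU; rw [if_pos hv]
    rw [hval] at hpos
    cases w with
    | cl n' x' i =>
      simp only [valU0] at hpos
      by_cases h1 : n' = n + 1 ∧ x' = y ∧ i = 0
      · have hval2 : valU0 N m l kap n y (.cl n' x' i) = qu kap (m n) (l n) (N n) := by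
          simp only [valU0]; rw [if_pos h1]
        obtain ⟨h2, h3, h4⟩ := h1
        subst h2; subst h3; subst h4
        refine ⟨{.pa n (l n - 1) x'}, ?_,
          pfun (l n) (1 / 100) kap {l n - 1} * (c1 kap ^ (m n + 1) * ce kap (N n)), ?_, ?_⟩
        · intro z hz
          rw [mem_singleton] at hz
          subst hz
          rw [mem_nbG_iff N m l hl hN1]
          exact ⟨hv, ⟨by omega, hy⟩, Or.inr ⟨rfl, rfl, rfl, by omega⟩⟩
        · intro c hc
          rw [mem_singleton] at hc
          subst hc
          refine le_trans (le_of_eq ?_) (path_le_wit (mem_singleton_self x'))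
          have hpull : pull (l n) (eup n x') ({.pa n (l n - 1) x'} : Finset Vx) = {l n - 1} := by
            ext j
            rw [mem_pull, mem_singleton, mem_singleton]
            simp only [eup, Vx.pa.injEq, true_and, and_true]
            omega
          rw [hpull, hvt]
          ring
        · rw [hval, hval2, card_singleton]
          exact (c1_eq hk _).le
      · rw [if_neg h1] at hpos
        by_cases h2 : n' = n ∧ x' = y / 16 ^ (m n)
        · rw [if_pos h2] at hpos
          by_cases h3 : i + 1 = N n
          · have hval2 : valU0 N m l kap n y (.cl n' x' i) = ce kap (N n) := by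
              simp only [valU0]; rw [if_neg h1, if_pos h2, if_pos h3]
            obtain ⟨h4, h5⟩ := h2
            subst h4
            refine ⟨core N n' x', ?_, 1, ?_, ?_⟩
            · intro z hz
              obtain ⟨j, h6, h7, rfl⟩ := (mem_core N).mp hz
              exact mem_nbG_cl N m l hl hN1 hv.1 (by omega) (by omega) (by omega)
            · intro c hc
              refine le_trans (le_of_eq ?_) (val_le_wit (mem_singleton_self _))
              obtain ⟨j, h6, h7, rfl⟩ := (mem_core N).mp hc
              unfold valU
              rw [if_pos ⟨hv.1, by omega⟩]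
              simp only [valU0]
              rw [if_neg (by omega), if_pos ⟨trivial, h5⟩, if_neg (by omega), if_pos h6]
            · rw [hval, hval2, card_core]
              exact (ce_eq hk hNn).le
          · exfalso
            rw [if_neg h3] at hpos
            by_cases h4 : 1 ≤ i
            · apply hterm
              obtain ⟨h5, h6⟩ := h2
              subst h5
              have := hv.2
              exact (mem_core N).mpr ⟨i, h4, by omega, by rw [h6]⟩
            · rw [if_neg h4] at hpos; exact lt_irrefl _ hpos
        · exfalso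
          rw [if_neg h2] at hpos; exact lt_irrefl _ hpos
    | hb n' k x =>
      simp only [valU0] at hpos
      by_cases h1 : n' = n ∧ x = y / 16 ^ (m n - k)
      · have hval2 : valU0 N m l kap n y (.hb n' k x) = c1 kap ^ (k + 1) * ce kap (N n) := by
          simp only [valU0]; rw [if_pos h1]
        obtain ⟨h2, h3⟩ := h1
        subst h2
        obtain ⟨hk1, hx⟩ := hv
        rcases Nat.eq_zero_or_pos k with hk0 | hk0
        · subst hk0
          have hxW : x < W m n' := by simpa using hx
          refine ⟨{.cl n' x (N n' - 1)}, ?_, ce kap (N n'), ?_, ?_⟩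
          · intro z hz
            rw [mem_singleton] at hz
            subst hz
            rw [mem_nbG_iff N m l hl hN1]
            exact ⟨⟨hk1, hx⟩, ⟨hxW, by omega⟩, Or.inr ⟨rfl, rfl, rfl, by omega⟩⟩
          · intro c hc
            rw [mem_singleton] at hc
            subst hc
            refine le_trans (le_of_eq ?_) (val_le_wit (mem_singleton_self _))
            unfold valU
            rw [if_pos ⟨hxW, by omega⟩]
            simp only [valU0]
            rw [if_neg (by omega), if_pos ⟨trivial, by simpa using h3⟩, if_pos (by omega)]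
          · rw [hval, hval2, card_singleton, pow_one]
            exact (c1_eq hk _).le
        · obtain ⟨k', rfl⟩ : ∃ k', k = k' + 1 := ⟨k - 1, by omega⟩
          have hx' : x / 16 < W m n' * 16 ^ k' := by
            rw [Nat.div_lt_iff_lt_mul (by norm_num)]
            calc x < W m n' * 16 ^ (k' + 1) := hx
              _ = W m n' * 16 ^ k' * 16 := by rw [pow_succ]; ring
          refine ⟨{.hb n' k' (x / 16)}, ?_, c1 kap ^ (k' + 1) * ce kap (N n'), ?_, ?_⟩
          · intro z hz
            rw [mem_singleton] at hz
            subst hz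
            rw [mem_nbG_iff N m l hl hN1]
            exact ⟨⟨hk1, hx⟩, ⟨by omega, hx'⟩, Or.inr ⟨rfl, rfl, rfl⟩⟩
          · intro c hc
            rw [mem_singleton] at hc
            subst hc
            refine le_trans (le_of_eq ?_) (val_le_wit (mem_singleton_self _))
            unfold valU
            rw [if_pos ⟨by omega, hx'⟩]
            simp only [valU0]
            rw [if_pos]
            refine ⟨trivial, ?_⟩
            rw [h3, Nat.div_div_eq_div_mul, ← pow_succ]
            congr 2
            omega
          · rw [hval, hval2, card_singleton]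
            have : c1 kap ^ (k' + 1 + 1) * ce kap (N n')
                = c1 kap * (c1 kap ^ (k' + 1) * ce kap (N n')) := by
              rw [pow_succ (c1 kap) (k' + 1)]; ring
            rw [this]
            exact (c1_eq hk _).le
      · exfalso
        rw [if_neg h1] at hpos; exact lt_irrefl _ hpos
    | pa n' j x =>
      exfalso
      simp only [valU0] at hpos
      exact lt_irrefl _ hpos

lemma valU_core {kap : ℝ} (n y : ℕ) {z : Vx} (hz : z ∈ core N (n + 1) y) :
    valU N m l kap n y z = 0 := by
  obtain ⟨i, h1, h2, rfl⟩ := (mem_core N).mp hz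
  unfold valU
  split_ifs
  · simp only [valU0]
    rw [if_neg (by omega), if_neg (by omega)]
  · rfl

lemma psiHyp_U {kap lam : ℝ} (hk : 0 < kap) (hk1 : kap ≤ 1 / 100) (hlam : 1 / 100 ≤ lam)
    (n y : ℕ) (hy : y < W m (n + 1)) :
    PsiHyp (nbG N m l) lam (core N (n + 1) y) (.cl (n + 1) y 0)
      (afun lam (kap * qu kap (m n) (l n) (N n) / 8) (N (n + 1) - 2))
      (qu kap (m n) (l n) (N n)) kap (vU N m l kap n y) := by
  have hNn := hN4 (n + 1)
  have h100 : (0 : ℝ) < 1 / 100 := by norm_num
  apply mk_psiHyp N m l hl hy hN4 (Or.inl rfl) (lt_of_lt_of_le h100 hlam) le_rfl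
    (qu_pos N m l hl hN4 hk.le n) (qu_le_one N m l hl hN4 hk.le n) hk (le_trans hk1 hlam)
  · exact fun B => wit_nonneg B
  · exact fun B => wit_le_one h100 hk.le (valU_le_one N m l hl hN4 hk.le n y) B
  · exact fun A B h => wit_mono h100 hk.le (valU_nonneg N m l hl hN4 hk.le n y) A B h
  · intro A z hz
    apply wit_erase_of_val_zero h100 hk.le (valU_nonneg N m l hl hN4 hk.le n y)
      (valU_core N m l hl hN4 n y hz)
    intro y' _ j _ h
    obtain ⟨i, _, _, rfl⟩ := (mem_core N).mp hz
    simp [eup] at h
  · intro A z hz
    apply wit_insert_of_val_zero h100 hk.le (valU_nonneg N m l hl hN4 hk.le n y)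
      (valU_core N m l hl hN4 n y hz)
    intro y' _ j _ h
    obtain ⟨i, _, _, rfl⟩ := (mem_core N).mp hz
    simp [eup] at h
  · intro A hA
    refine le_trans (le_of_eq ?_) (val_le_wit hA)
    unfold valU
    rw [if_pos ⟨hy, by omega⟩]
    simp only [valU0]
    rw [if_pos ⟨trivial, trivial, trivial⟩]

end upward

end Pool.Agent.CP
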