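import Mathlib
import Pool.Agent.Helper11.CP.LowerC

/-!
# Lower potentials
-/

set_option autoImplicit false

namespace Pool.Agent.CP

open Finset

section general

variable {V : Type*} [DecidableEq V] (nb : V → Finset V) {lam : ℝ}

lemma gen_ge_of_touch_mul (hlam : 0 ≤ lam) {f g : Finset V → ℝ} {A : Finset V} {c : ℝ}
    (h0 : f A = c * g A) (h1 : ∀ B, c * g B ≤ f B) : c * gen nb lam g A ≤ gen nb lam f A := by
  rw [← gen_const_mul]
  exact gen_le_of_touch nb lam hlam h0 (fun x _ => h1 _) (fun x _ y _ => h1 _)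

/-- Growth at a vertex, for functions bounded below by `r ^ d`. -/
lemma gen_ge_of_dist (hlam : 0 < lam) {r k0 c : ℝ} (hr : 0 < r) (hr1 : r ≤ 1) (hc : 0 ≤ c)
    (hk0 : 0 ≤ k0) (hrk : r * (1 + lam + k0) = lam) {d : V → ℕ} {f : Finset V → ℝ}
    (hf : ∀ B, ∀ v ∈ B, c * r ^ (d v) ≤ f B) (hf0 : ∀ B, 0 ≤ f B)
    {A : Finset V} {v w : V} (hv : v ∈ A) (hfA : f A = c * r ^ (d v)) (hw : w ∈ nb v)
    (hd : d w < d v) : k0 * f A ≤ gen nb lam f A := by
  -- the touching function
  set g : Finset V → ℝ := fun B => max (if v ∈ B then c * r ^ (d v) else 0)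
    (if w ∈ B then c * r ^ (d w) else 0) with hg
  have hrpow : c * r ^ (d v) ≤ c * r ^ (d w) :=
    mul_le_mul_of_nonneg_left (pow_le_pow_of_le_one hr.le hr1 hd.le) hc
  by_cases hwA : w ∈ A
  · -- then `f A ≥ c r^(d w)`, so `f A = 0`
    have h1 := hf A w hwA
    rw [hfA] at h1
    have h2 : c * r ^ (d v) ≤ r * (c * r ^ (d w)) := by
      have : r ^ (d v) ≤ r ^ (d w + 1) := pow_le_pow_of_le_one hr.le hr1 hd
      rw [pow_succ] at this
      calc c * r ^ (d v) ≤ c * (r ^ (d w) * r) := mul_le_mul_of_nonneg_left this hc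
        _ = _ := by ring
    have h3 : r < 1 := by
      rcases hr1.lt_or_eq with h | h
      · exact h
      · exfalso; rw [h] at hrk; linarith
    have h4 : 0 ≤ c * r ^ (d w) := by positivity
    have h5 : c * r ^ (d w) ≤ 0 := by nlinarith
    have h6 : f A = 0 := by rw [hfA]; apply le_antisymm; linarith; positivity
    rw [h6, mul_zero]
    exact gen_nonneg_of_zero nb lam hlam.le hf0 h6
  · have hle : ∀ B, g B ≤ f B := by
      intro B
      simp only [hg]
      apply max_le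
      · split_ifs with h
        · exact hf B v h
        · exact hf0 B
      · split_ifs with h
        · exact hf B w h
        · exact hf0 B
    have hgA : g A = c * r ^ (d v) := by
      simp only [hg]
      rw [if_pos hv, if_neg hwA]
      apply max_eq_left; positivity
    have htouch : gen nb lam g A ≤ gen nb lam f A :=
      gen_le_of_touch nb lam hlam.le (by rw [hfA, hgA]) (fun x _ => hle _) (fun x _ y _ => hle _)
    refine le_trans ?_ htouch
    have hmono : ∀ x ∈ A, ∀ y ∈ nb x, g A ≤ g (insert y A) := by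
      intro x _ y _
      rw [hgA]
      simp only [hg]
      rw [if_pos (mem_insert_of_mem hv)]
      exact le_max_left _ _
    have h1 := gen_vertex_witness nb lam hlam.le g A v hv (c * r ^ (d w)) {w}
      (by intro z hz; rw [mem_singleton] at hz; rw [hz]; exact hw) hmono
      (by
        simp only [hg]
        apply le_max_of_le_left
        split_ifs
        · positivity
        · exact le_rfl)
      (by
        intro x hx hxv
        rw [hgA]
        simp only [hg]
        rw [if_pos (mem_erase.mpr ⟨fun h => hxv h.symm, hv⟩)]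
        exact le_max_left _ _)
      (by
        intro y hy
        rw [mem_singleton] at hy
        subst hy
        simp only [hg]
        rw [if_pos (mem_insert_self _ _)]
        exact le_max_right _ _)
    refine le_trans ?_ h1
    rw [hfA, hgA, card_singleton, Nat.cast_one, one_mul]
    have h2 : c * r ^ (d v) ≤ r * (c * r ^ (d w)) := by
      have : r ^ (d v) ≤ r ^ (d w + 1) := pow_le_pow_of_le_one hr.le hr1 hd
      rw [pow_succ] at this
      calc c * r ^ (d v) ≤ c * (r ^ (d w) * r) := mul_le_mul_of_nonneg_left this hc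
        _ = _ := by ring
    -- lam * c r^(d w) ≥ (1 + lam + k0) * c r^(d v)
    have h3 : (1 + lam + k0) * (c * r ^ (d v)) ≤ lam * (c * r ^ (d w)) := by
      calc (1 + lam + k0) * (c * r ^ (d v)) ≤ (1 + lam + k0) * (r * (c * r ^ (d w))) :=
            mul_le_mul_of_nonneg_left h2 (by linarith)
        _ = (r * (1 + lam + k0)) * (c * r ^ (d w)) := by ring
        _ = _ := by rw [hrk]
    linarith

end general

variable (N m l : ℕ → ℕ) (kap : ℕ → ℝ)

/-- forward subharmonic function of the cluster `(n, x)` -/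
noncomputable def VFn (n x : ℕ) : Finset Vx → ℝ :=
  psi (core N n x) (afun (1 / 100) (kap n * qf (kap n) (m n) (l n) (N (n + 1)) / 8) (N n - 2))
    (qf (kap n) (m n) (l n) (N (n + 1))) (vF N m l (kap n) n x)

/-- upward subharmonic function of the cluster `(n + 1, y)` -/
noncomputable def VUn (lam : ℝ) (n y : ℕ) : Finset Vx → ℝ :=
  psi (core N (n + 1) y) (afun lam (kap n * qu (kap n) (m n) (l n) (N n) / 8) (N (n + 1) - 2))
    (qu (kap n) (m n) (l n) (N n)) (vU N m l (kap n) n y)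

variable {N m l kap} (G : GoodParams N m l kap)
include G

lemma hyp_F {lam : ℝ} (hlam : 1 / 100 ≤ lam) (n x : ℕ) (hx : x < W m n) :
    PsiHyp (nbG N m l) lam (core N n x) (.cl n x (N n - 1))
      (afun (1 / 100) (kap n * qf (kap n) (m n) (l n) (N (n + 1)) / 8) (N n - 2))
      (qf (kap n) (m n) (l n) (N (n + 1))) (kap n) (vF N m l (kap n) n x) :=
  psiHyp_F N m l G.hl G.hN (G.hkap0 n) (G.hkap1 n) hlam n x hx

lemma hyp_U {lam : ℝ} (hlam : 1 / 100 ≤ lam) (n y : ℕ) (hy : y < W m (n + 1)) :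
    PsiHyp (nbG N m l) lam (core N (n + 1) y) (.cl (n + 1) y 0)
      (afun lam (kap n * qu (kap n) (m n) (l n) (N n) / 8) (N (n + 1) - 2))
      (qu (kap n) (m n) (l n) (N n)) (kap n) (vU N m l (kap n) n y) :=
  psiHyp_U N m l G.hl G.hN (G.hkap0 n) (G.hkap1 n) hlam n y hy

lemma VFn_nonneg (n x : ℕ) (hx : x < W m n) (B : Finset Vx) : 0 ≤ VFn N m l kap n x B :=
  psi_nonneg _ _ (hyp_F G le_rfl n x hx) B

lemma VFn_le_one (n x : ℕ) (hx : x < W m n) (B : Finset Vx) : VFn N m l kap n x B ≤ 1 :=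
  psi_le_one _ _ (hyp_F G le_rfl n x hx) B

lemma VUn_nonneg {lam : ℝ} (hlam : 1 / 100 ≤ lam) (n y : ℕ) (hy : y < W m (n + 1))
    (B : Finset Vx) : 0 ≤ VUn N m l kap lam n y B :=
  psi_nonneg _ _ (hyp_U G hlam n y hy) B

lemma VUn_le_one {lam : ℝ} (hlam : 1 / 100 ≤ lam) (n y : ℕ) (hy : y < W m (n + 1))
    (B : Finset Vx) : VUn N m l kap lam n y B ≤ 1 :=
  psi_le_one _ _ (hyp_U G hlam n y hy) B

lemma VFn_eq_zero (n x : ℕ) (hx : x < W m n) {B : Finset Vx} (hB : ∀ v ∈ B, lev v < n) :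
    VFn N m l kap n x B = 0 := by
  apply le_antisymm _ (VFn_nonneg G n x hx B)
  have H := hyp_F G le_rfl n x hx
  have h0 := vF_eq_zero N m l G.hl G.hN (G.hkap0 n).le n x hB
  rw [← h0]
  apply psi_le_of_inter_empty H.a0 H.q0.le (H.v0 B) (H.v1 B)
  rintro ⟨w, hw⟩
  rw [mem_inter] at hw
  obtain ⟨i, _, _, rfl⟩ := (mem_core N).mp hw.2
  have := hB _ hw.1
  simp only [lev] at this
  omega

lemma VFn_ge (n x : ℕ) (hx : x < W m n) {A : Finset Vx} (h : (A ∩ core N n x).Nonempty) :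
    1 - 1 / ((n : ℝ) + 2) ^ 2 ≤ VFn N m l kap n x A := by
  have H := hyp_F G le_rfl n x hx
  have h1 := psi_ge_of_inter (q := qf (kap n) (m n) (l n) (N (n + 1)))
    (v := vF N m l (kap n) n x) H.aanti h
  have h2 := G.hfwd n
  unfold VFn
  linarith

lemma VUn_ge {lam : ℝ} (hlam : 1 / 100 ≤ lam) {n : ℕ}
    (hup : afun lam (kap n * qu (kap n) (m n) (l n) (N n) / 8) (N (n + 1) - 2) 1
        ≤ 1 / ((n : ℝ) + 2) ^ 2)
    (y : ℕ) (hy : y < W m (n + 1)) {A : Finset Vx} (h : (A ∩ core N (n + 1) y).Nonempty) :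
    1 - 1 / ((n : ℝ) + 2) ^ 2 ≤ VUn N m l kap lam n y A := by
  have H := hyp_U G hlam n y hy
  have h1 := psi_ge_of_inter (q := qu (kap n) (m n) (l n) (N n))
    (v := vU N m l (kap n) n y) H.aanti h
  unfold VUn
  linarith

lemma VFn_le_vF (n x : ℕ) (hx : x < W m n) {A : Finset Vx} (h : ¬ (A ∩ core N n x).Nonempty) :
    VFn N m l kap n x A ≤ vF N m l (kap n) n x A := by
  have H := hyp_F G le_rfl n x hx
  exact psi_le_of_inter_empty H.a0 H.q0.le (H.v0 A) (H.v1 A) h

lemma gen_vF_ge {lam : ℝ} (hlam : 1 / 100 ≤ lam) (n x : ℕ) {A : Finset Vx}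
    (hA : ∀ v ∈ A, ¬ termF N m n x v) :
    kap n * vF N m l (kap n) n x A ≤ gen (nbG N m l) lam (vF N m l (kap n) n x) A :=
  gen_wit_ge (nbG N m l) lam (witHyp_F N m l G.hl G.hN (G.hkap0 n).le n x) (by norm_num)
    (G.hkap0 n).le hlam A hA

lemma gen_vU_ge {lam : ℝ} (hlam : 1 / 100 ≤ lam) (n y : ℕ) (hy : y < W m (n + 1)) {A : Finset Vx}
    (hA : ∀ v ∈ A, ¬ termU N m n y v) :
    kap n * vU N m l (kap n) n y A ≤ gen (nbG N m l) lam (vU N m l (kap n) n y) A :=
  gen_wit_ge (nbG N m l) lam (witHyp_U N m l G.hl G.hN (G.hkap0 n).le n y hy) (by norm_num)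
    (G.hkap0 n).le hlam A hA

lemma gen_VFn_ge {lam : ℝ} (hlam : 1 / 100 ≤ lam) (n x : ℕ) (hx : x < W m n) {A : Finset Vx}
    (hA : ∀ v ∈ A, ¬ termF N m n x v) :
    0 ≤ gen (nbG N m l) lam (VFn N m l kap n x) A := by
  have H := hyp_F G hlam n x hx
  have h := gen_psi_ge _ _ H A (gen_vF_ge G hlam n x hA)
  refine le_trans ?_ h
  have h1 := H.apos (core N n x).card
  have h2 := H.kap0
  have h3 := H.q0
  have h4 := psi_nonneg _ _ H A
  positivity

lemma gen_VUn_ge {lam : ℝ} (hlam : 1 / 100 ≤ lam) (n y : ℕ) (hy : y < W m (n + 1))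
    {A : Finset Vx} (hA : ∀ v ∈ A, ¬ termU N m n y v) :
    (afun lam (kap n * qu (kap n) (m n) (l n) (N n) / 8) (N (n + 1) - 2) (N (n + 1) - 2)
      * (kap n * qu (kap n) (m n) (l n) (N n) / 8)) * VUn N m l kap lam n y A
      ≤ gen (nbG N m l) lam (VUn N m l kap lam n y) A := by
  have H := hyp_U G hlam n y hy
  have h := gen_psi_ge _ _ H A (gen_vU_ge G hlam n y hy hA)
  rw [card_core] at h
  exact h

/-! ### The function `h` -/

omit G in
/-- weights -/
noncomputable def cw (n : ℕ) : ℝ := ((n : ℝ) + 1) / ((n : ℝ) + 2)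

omit G in
lemma cw_pos (n : ℕ) : 0 < cw n := by unfold cw; positivity

omit G in
lemma cw_le_one (n : ℕ) : cw n ≤ 1 := by
  unfold cw; rw [div_le_one (by positivity)]; linarith

omit G in
lemma cw_lt (n : ℕ) : cw n < cw (n + 1) * (1 - 1 / (((n + 1 : ℕ) : ℝ) + 2) ^ 2) := by
  unfold cw
  push_cast
  have h2 : (0 : ℝ) < (n : ℝ) + 2 := by positivity
  have h3 : (0 : ℝ) < (n : ℝ) + 3 := by positivity
  have e : ((n : ℝ) + 1 + 1) / ((n : ℝ) + 1 + 2) * (1 - 1 / ((n : ℝ) + 1 + 2) ^ 2)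
      - ((n : ℝ) + 1) / ((n : ℝ) + 2)
      = (2 * (n : ℝ) + 5) / (((n : ℝ) + 3) ^ 3 * ((n : ℝ) + 2)) := by
    have h4 : (n : ℝ) + 1 + 2 ≠ 0 := by positivity
    have h5 : (n : ℝ) + 1 + 2 = (n : ℝ) + 3 := by ring
    rw [h5]
    field_simp
    ring
  have h6 : 0 < (2 * (n : ℝ) + 5) / (((n : ℝ) + 3) ^ 3 * ((n : ℝ) + 2)) := by positivity
  linarith

/-- If a function dominating all forward functions is equal to one of them at `A`, then its
generator is nonnegative there. -/
lemma gen_nonneg_of_touch_F {lam : ℝ} (hlam : 1 / 100 ≤ lam) {f : Finset Vx → ℝ}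
    (hf : ∀ n x, x < W m n → ∀ B, cw n * VFn N m l kap n x B ≤ f B) {A : Finset Vx}
    {n x : ℕ} (hx : x < W m n) (hA : f A = cw n * VFn N m l kap n x A)
    (hval : ∀ v ∈ A, valid N m l v) :
    0 ≤ gen (nbG N m l) lam f A := by
  have hlam0 : 0 ≤ lam := by linarith
  by_cases hterm : ∀ v ∈ A, ¬ termF N m n x v
  · have h1 := gen_ge_of_touch_mul (nbG N m l) hlam0 hA (hf n x hx)
    have h2 := gen_VFn_ge G hlam n x hx hterm
    have h3 := mul_nonneg (cw_pos n).le h2
    linarith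
  · exfalso
    push Not at hterm
    obtain ⟨v, hvA, y, hy, hvc⟩ := hterm
    have hyW : y < W m (n + 1) := by
      obtain ⟨i, _, _, rfl⟩ := (mem_core N).mp hvc
      exact (hval _ hvA).1
    have h1 := VFn_ge G (n + 1) y hyW ⟨v, mem_inter.mpr ⟨hvA, hvc⟩⟩
    have h2 := hf (n + 1) y hyW A
    have h3 := cw_lt n
    have h4 := mul_le_mul_of_nonneg_left h1 (cw_pos (n + 1)).le
    have h5 := mul_le_mul_of_nonneg_left (VFn_le_one G n x hx A) (cw_pos n).le
    linarith

omit G in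
/-- index set -/
def idx (m : ℕ → ℕ) (K : ℕ) : Finset (Σ _ : ℕ, ℕ) := (range K).sigma (fun n => range (W m n))

omit G in
variable (N m l kap) in
/-- the function `h` -/
noncomputable def hfun (B : Finset Vx) : ℝ :=
  fmax (idx m (topv B)) (fun i => cw i.1 * VFn N m l kap i.1 i.2 B)

lemma hfun_ge (n x : ℕ) (hx : x < W m n) (B : Finset Vx) :
    cw n * VFn N m l kap n x B ≤ hfun N m l kap B := by
  rcases Nat.lt_or_ge n (topv B) with h | h
  · exact le_fmax (fun i : (Σ _ : ℕ, ℕ) => cw i.1 * VFn N m l kap i.1 i.2 B)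
      (i := ⟨n, x⟩) (mem_sigma.mpr ⟨mem_range.mpr h, mem_range.mpr hx⟩)
  · rw [VFn_eq_zero G n x hx (fun v hv => by have := lev_lt_topv hv h; omega), mul_zero]
    exact fmax_nonneg _ _

omit G in
lemma hfun_cases (B : Finset Vx) : hfun N m l kap B = 0 ∨
    ∃ n x, n < topv B ∧ x < W m n ∧ hfun N m l kap B = cw n * VFn N m l kap n x B := by
  rcases fmax_cases (idx m (topv B)) (fun i => cw i.1 * VFn N m l kap i.1 i.2 B) with h | ⟨i, hi, h⟩
  · exact Or.inl h
  · obtain ⟨n, x⟩ := i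
    rw [idx, mem_sigma, mem_range, mem_range] at hi
    exact Or.inr ⟨n, x, hi.1, hi.2, h⟩

lemma hfun_le_one (B : Finset Vx) : hfun N m l kap B ≤ 1 := by
  rcases hfun_cases (N := N) (m := m) (l := l) (kap := kap) B with h | ⟨n, x, _, hx, h⟩
  · rw [h]; exact zero_le_one
  · rw [h]
    exact mul_le_one₀ (cw_le_one n) (VFn_nonneg G n x hx B) (VFn_le_one G n x hx B)

omit G in
/-- distance-like functions -/
def DistLike (N m l : ℕ → ℕ) (o : Vx) (d : Vx → ℕ) : Prop :=
  ∀ v, valid N m l v → v ≠ o → ∃ w ∈ nbG N m l v, d w < d v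

omit G in
variable (N m l kap) in
/-- the function for global survival -/
noncomputable def phi (r : ℝ) (d : Vx → ℕ) (B : Finset Vx) : ℝ :=
  max (hfun N m l kap B) (fmax B (fun v => 3 / 8 * r ^ (d v)))

omit G in
lemma phi_nonneg (r : ℝ) (d : Vx → ℕ) (B : Finset Vx) : 0 ≤ phi N m l kap r d B :=
  le_max_of_le_left (fmax_nonneg _ _)

lemma phi_le_one {r : ℝ} (hr : 0 ≤ r) (hr1 : r ≤ 1) (d : Vx → ℕ) (B : Finset Vx) :
    phi N m l kap r d B ≤ 1 := by
  apply max_le (hfun_le_one G B)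
  apply fmax_le zero_le_one
  intro v _
  have : r ^ (d v) ≤ 1 := pow_le_one₀ hr hr1
  linarith

omit G in
lemma phi_empty (r : ℝ) (d : Vx → ℕ) : phi N m l kap r d ∅ = 0 := by
  apply le_antisymm _ (phi_nonneg _ _ _)
  apply max_le
  · apply fmax_le le_rfl
    intro i hi
    rw [idx, mem_sigma, mem_range] at hi
    have : topv (∅ : Finset Vx) = 0 := rfl
    rw [this] at hi
    exact absurd hi.1 (Nat.not_lt_zero _)
  · exact fmax_le le_rfl (fun i hi => absurd hi (Finset.notMem_empty i))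

omit G in
lemma phi_pos {r : ℝ} (hr : 0 < r) (d : Vx → ℕ) {B : Finset Vx} (hB : B.Nonempty) :
    0 < phi N m l kap r d B := by
  obtain ⟨v, hv⟩ := hB
  have h1 := le_fmax (fun v => 3 / 8 * r ^ (d v)) hv
  have h2 : 0 < 3 / 8 * r ^ (d v) := by positivity
  exact lt_of_lt_of_le (lt_of_lt_of_le h2 h1) (le_max_right _ _)

omit G in
lemma W_zero_pos (m : ℕ → ℕ) : 0 < W m 0 := Nat.one_pos

/-- the function for global survival is subharmonic -/
theorem gen_phi_nonneg {lam : ℝ} (hlam : 1 / 100 ≤ lam) {r k0 : ℝ} (hr : 0 < r) (hr1 : r ≤ 1)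
    (hk0 : 0 ≤ k0) (hrk : r * (1 + lam + k0) = lam) {d : Vx → ℕ}
    (hd : DistLike N m l (.cl 0 0 1) d) {A : Finset Vx} (hval : ∀ v ∈ A, valid N m l v) :
    0 ≤ gen (nbG N m l) lam (phi N m l kap r d) A := by
  have hlam0 : 0 < lam := by linarith
  have hdom : ∀ n x, x < W m n → ∀ B, cw n * VFn N m l kap n x B ≤ phi N m l kap r d B :=
    fun n x hx B => le_trans (hfun_ge G n x hx B) (le_max_left _ _)
  have hN0 := G.hN 0
  rcases max_choice (hfun N m l kap A) (fmax A (fun v => 3 / 8 * r ^ (d v))) with h | h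
  · rcases hfun_cases (N := N) (m := m) (l := l) (kap := kap) A with h' | ⟨n, x, _, hx, h'⟩
    · exact gen_nonneg_of_zero _ _ hlam0.le (phi_nonneg r d) (by unfold phi; rw [h, h'])
    · exact gen_nonneg_of_touch_F G hlam hdom hx (by unfold phi; rw [h, h']) hval
  · rcases fmax_cases A (fun v => 3 / 8 * r ^ (d v)) with h' | ⟨v, hv, h'⟩
    · exact gen_nonneg_of_zero _ _ hlam0.le (phi_nonneg r d) (by unfold phi; rw [h, h'])
    · have hphi : phi N m l kap r d A = 3 / 8 * r ^ (d v) := by unfold phi; rw [h, h']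
      by_cases hvo : v = .cl 0 0 1
      · subst hvo
        have h1 : (A ∩ core N 0 0).Nonempty :=
          ⟨_, mem_inter.mpr ⟨hv, (mem_core N).mpr ⟨1, le_rfl, by omega, rfl⟩⟩⟩
        have h2 := VFn_ge G 0 0 (W_zero_pos m) h1
        have h3 := hdom 0 0 (W_zero_pos m) A
        have h4 : r ^ (d (.cl 0 0 1)) ≤ 1 := pow_le_one₀ hr.le hr1
        have h5 : cw 0 = 1 / 2 := by unfold cw; norm_num
        have h6 : phi N m l kap r d A = cw 0 * VFn N m l kap 0 0 A := by
          apply le_antisymm _ h3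
          rw [hphi, h5]
          norm_num at h2
          linarith
        exact gen_nonneg_of_touch_F G hlam hdom (W_zero_pos m) h6 hval
      · obtain ⟨w, hw, hdw⟩ := hd v (hval v hv) hvo
        have h1 := gen_ge_of_dist (nbG N m l) hlam0 hr hr1 (by norm_num : (0 : ℝ) ≤ 3 / 8) hk0 hrk
          (d := d) (f := phi N m l kap r d)
          (fun B v hv => le_trans (le_fmax (fun v => 3 / 8 * r ^ (d v)) hv) (le_max_right _ _))
          (phi_nonneg r d) hv hphi hw hdw
        refine le_trans (mul_nonneg hk0 (phi_nonneg r d A)) h1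

end Pool.Agent.CP
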