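import Mathlib
import Pool.Agent.Helper11.CP.LowerD

/-!
# The potential for local survival
-/

set_option autoImplicit false

namespace Pool.Agent.CP

open Finset

lemma exists_pos_le (K : ℕ) (g : ℕ → ℝ) (hg : ∀ n, 0 < g n) : ∃ ε > 0, ∀ n < K, ε ≤ g n := by
  induction K with
  | zero => exact ⟨1, one_pos, fun n hn => absurd hn (Nat.not_lt_zero n)⟩
  | succ K ih =>
    obtain ⟨ε, hε, h⟩ := ih
    refine ⟨min ε (g K), lt_min hε (hg K), fun n hn => ?_⟩
    rcases Nat.lt_or_ge n K with h' | h'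
    · exact le_trans (min_le_left _ _) (h n h')
    · have : n = K := by omega
      rw [this]; exact min_le_right _ _

/-- weights of the upward functions -/
noncomputable def cu (c0 : ℝ) (n : ℕ) : ℝ := c0 * (((n : ℝ) + 3) / ((n : ℝ) + 1))

lemma cu_pos {c0 : ℝ} (h : 0 < c0) (n : ℕ) : 0 < cu c0 n := by unfold cu; positivity

lemma cu_gt {c0 : ℝ} (h : 0 < c0) (n : ℕ) : c0 < cu c0 n := by
  unfold cu
  have h1 : (1 : ℝ) < ((n : ℝ) + 3) / ((n : ℝ) + 1) := by
    rw [one_lt_div (by positivity)]; linarith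
  nlinarith

lemma cu_le {c0 : ℝ} (h : 0 < c0) (n : ℕ) : cu c0 n ≤ 3 * c0 := by
  unfold cu
  have h1 : ((n : ℝ) + 3) / ((n : ℝ) + 1) ≤ 3 := by
    rw [div_le_iff₀ (by positivity)]; linarith [(Nat.cast_nonneg n : (0 : ℝ) ≤ n)]
  nlinarith

lemma cu_lt {c0 : ℝ} (h : 0 < c0) (n : ℕ) :
    cu c0 (n + 1) < cu c0 n * (1 - 1 / ((n : ℝ) + 2) ^ 2) := by
  unfold cu
  push_cast
  have e : c0 * (((n : ℝ) + 3) / ((n : ℝ) + 1)) * (1 - 1 / ((n : ℝ) + 2) ^ 2)
      - c0 * (((n : ℝ) + 1 + 3) / ((n : ℝ) + 1 + 1))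
      = c0 * (1 / ((n : ℝ) + 2) ^ 2) := by
    have h5 : (n : ℝ) + 1 + 1 = (n : ℝ) + 2 := by ring
    rw [h5]
    field_simp
    ring
  have h6 : 0 < c0 * (1 / ((n : ℝ) + 2) ^ 2) := by positivity
  linarith

variable (N m l : ℕ → ℕ) (kap : ℕ → ℝ)

/-- index set of the upward functions -/
def idxU (m : ℕ → ℕ) (n1 n2 : ℕ) : Finset (Σ _ : ℕ, ℕ) :=
  (Finset.Ico n1 n2).sigma (fun n => range (W m (n + 1)))

/-- the function `e` -/
noncomputable def efun (lam : ℝ) (r : ℝ) (d : Vx → ℕ) (c0 : ℝ) (n1 n2 : ℕ) (B : Finset Vx) : ℝ :=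
  max (fmax B (fun v => 1 * r ^ (d v)))
    (max (fmax (idxU m n1 n2) (fun i => cu c0 i.1 * VUn N m l kap lam i.1 i.2 B))
      (fmax (idx m n2) (fun i => c0 * vF N m l (kap i.1) i.1 i.2 B)))

variable {N m l kap}

section basic

variable {lam r c0 : ℝ} {d : Vx → ℕ} {n1 n2 : ℕ}

lemma efun_nonneg (B : Finset Vx) : 0 ≤ efun N m l kap lam r d c0 n1 n2 B :=
  le_max_of_le_left (fmax_nonneg _ _)

lemma efun_ge_dist {B : Finset Vx} {v : Vx} (hv : v ∈ B) :
    1 * r ^ (d v) ≤ efun N m l kap lam r d c0 n1 n2 B :=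
  le_max_of_le_left (le_fmax (fun v => 1 * r ^ (d v)) hv)

lemma efun_ge_U {n y : ℕ} (h1 : n1 ≤ n) (h2 : n < n2) (hy : y < W m (n + 1)) (B : Finset Vx) :
    cu c0 n * VUn N m l kap lam n y B ≤ efun N m l kap lam r d c0 n1 n2 B :=
  le_max_of_le_right (le_max_of_le_left
    (le_fmax (fun i : (Σ _ : ℕ, ℕ) => cu c0 i.1 * VUn N m l kap lam i.1 i.2 B) (i := ⟨n, y⟩)
      (mem_sigma.mpr ⟨mem_Ico.mpr ⟨h1, h2⟩, mem_range.mpr hy⟩)))

lemma efun_ge_F {n x : ℕ} (h2 : n < n2) (hx : x < W m n) (B : Finset Vx) :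
    c0 * vF N m l (kap n) n x B ≤ efun N m l kap lam r d c0 n1 n2 B :=
  le_max_of_le_right (le_max_of_le_right
    (le_fmax (fun i : (Σ _ : ℕ, ℕ) => c0 * vF N m l (kap i.1) i.1 i.2 B) (i := ⟨n, x⟩)
      (mem_sigma.mpr ⟨mem_range.mpr h2, mem_range.mpr hx⟩)))

lemma efun_cases (B : Finset Vx) : efun N m l kap lam r d c0 n1 n2 B = 0
    ∨ (∃ v ∈ B, efun N m l kap lam r d c0 n1 n2 B = 1 * r ^ (d v))
    ∨ (∃ n y, n1 ≤ n ∧ n < n2 ∧ y < W m (n + 1) ∧
        efun N m l kap lam r d c0 n1 n2 B = cu c0 n * VUn N m l kap lam n y B)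
    ∨ (∃ n x, n < n2 ∧ x < W m n ∧
        efun N m l kap lam r d c0 n1 n2 B = c0 * vF N m l (kap n) n x B) := by
  unfold efun
  rcases max_choice (fmax B (fun v => 1 * r ^ (d v)))
    (max (fmax (idxU m n1 n2) (fun i => cu c0 i.1 * VUn N m l kap lam i.1 i.2 B))
      (fmax (idx m n2) (fun i => c0 * vF N m l (kap i.1) i.1 i.2 B))) with h | h
  · rw [h]
    rcases fmax_cases B (fun v => 1 * r ^ (d v)) with h' | ⟨v, hv, h'⟩
    · exact Or.inl h'
    · exact Or.inr (Or.inl ⟨v, hv, h'⟩)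
  · rw [h]
    rcases max_choice (fmax (idxU m n1 n2) (fun i => cu c0 i.1 * VUn N m l kap lam i.1 i.2 B))
      (fmax (idx m n2) (fun i => c0 * vF N m l (kap i.1) i.1 i.2 B)) with h2 | h2
    · rw [h2]
      rcases fmax_cases (idxU m n1 n2) (fun i => cu c0 i.1 * VUn N m l kap lam i.1 i.2 B)
        with h' | ⟨⟨n, y⟩, hi, h'⟩
      · exact Or.inl h'
      · rw [idxU, mem_sigma, mem_Ico, mem_range] at hi
        exact Or.inr (Or.inr (Or.inl ⟨n, y, hi.1.1, hi.1.2, hi.2, h'⟩))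
    · rw [h2]
      rcases fmax_cases (idx m n2) (fun i => c0 * vF N m l (kap i.1) i.1 i.2 B)
        with h' | ⟨⟨n, x⟩, hi, h'⟩
      · exact Or.inl h'
      · rw [idx, mem_sigma, mem_range, mem_range] at hi
        exact Or.inr (Or.inr (Or.inr ⟨n, x, hi.1, hi.2, h'⟩))

end basic

/-- hypotheses on the parameters of `efun` -/
structure EHyp (N m l : ℕ → ℕ) (kap : ℕ → ℝ) (lam r k0 c0 : ℝ) (d : Vx → ℕ) (n1 : ℕ) (o : Vx) :
    Prop where
  lam1 : 1 / 100 < lam
  r0 : 0 < r
  r1 : r ≤ 1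
  hk0 : 0 < k0
  rk : r * (1 + lam + k0) = lam
  c00 : 0 < c0
  dist : DistLike N m l o d
  near : ∀ v, valid N m l v → lev v ≤ n1 → 3 * c0 < r ^ (d v)
  up : ∀ n, n1 ≤ n → afun lam (kap n * qu (kap n) (m n) (l n) (N n) / 8) (N (n + 1) - 2) 1
        ≤ 1 / ((n : ℝ) + 2) ^ 2

variable (G : GoodParams N m l kap)
include G

section

variable {lam r k0 c0 : ℝ} {d : Vx → ℕ} {n1 : ℕ} {o : Vx}

lemma efun_le_one (H : EHyp N m l kap lam r k0 c0 d n1 o) (hc : 3 * c0 ≤ 1) (n2 : ℕ)
    (B : Finset Vx) : efun N m l kap lam r d c0 n1 n2 B ≤ 1 := by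
  have h3 := H.c00
  rcases efun_cases (N := N) (m := m) (l := l) (kap := kap) (lam := lam) (r := r) (c0 := c0)
    (d := d) (n1 := n1) (n2 := n2) B with h | ⟨v, _, h⟩ | ⟨n, y, _, _, hy, h⟩ | ⟨n, x, _, hx, h⟩
  · rw [h]; exact zero_le_one
  · rw [h, one_mul]; exact pow_le_one₀ H.r0.le H.r1
  · rw [h]
    exact mul_le_one₀ (le_trans (cu_le H.c00 n) hc) (VUn_nonneg G H.lam1.le n y hy B)
      (VUn_le_one G H.lam1.le n y hy B)
  · rw [h]
    have hF := hyp_F G le_rfl n x hx
    exact mul_le_one₀ (by linarith) (hF.v0 B) (hF.v1 B)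

lemma efun_empty (H : EHyp N m l kap lam r k0 c0 d n1 o) (n2 : ℕ) :
    efun N m l kap lam r d c0 n1 n2 ∅ = 0 := by
  rcases efun_cases (N := N) (m := m) (l := l) (kap := kap) (lam := lam) (r := r) (c0 := c0)
    (d := d) (n1 := n1) (n2 := n2) ∅ with h | ⟨v, hv, h⟩ | ⟨n, y, _, _, hy, h⟩ | ⟨n, x, _, hx, h⟩
  · exact h
  · exact absurd hv (Finset.notMem_empty v)
  · rw [h]
    have hU := hyp_U G H.lam1.le n y hy
    have h1 : VUn N m l kap lam n y ∅ ≤ vU N m l (kap n) n y ∅ := by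
      apply psi_le_of_inter_empty hU.a0 hU.q0.le (hU.v0 ∅) (hU.v1 ∅)
      simp
    have h2 : vU N m l (kap n) n y ∅ = 0 := wit_empty (by norm_num) (G.hkap0 n).le
    have h3 := VUn_nonneg G H.lam1.le n y hy ∅
    have h4 : VUn N m l kap lam n y ∅ = 0 := le_antisymm (by linarith) h3
    rw [h4, mul_zero]
  · rw [h]
    have h2 : vF N m l (kap n) n x ∅ = 0 := wit_empty (by norm_num) (G.hkap0 n).le
    rw [h2, mul_zero]

/-- lower bound for `efun` when the core of a cluster of level at most `n2` is infected -/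
lemma efun_ge_core (H : EHyp N m l kap lam r k0 c0 d n1 o) {n2 n x : ℕ} (hn : n ≤ n2)
    (hx : x < W m n) {A : Finset Vx} (h : (A ∩ core N n x).Nonempty) :
    c0 < efun N m l kap lam r d c0 n1 n2 A ∧ ∀ k, n ≤ k → cu c0 k
      < efun N m l kap lam r d c0 n1 n2 A := by
  have hc0 := H.c00
  have hanti : ∀ k k', k ≤ k' → cu c0 k' ≤ cu c0 k := by
    intro k k' hk
    have hmono : Antitone (cu c0) := antitone_nat_of_succ_le (fun k => by
      have h1 := cu_lt hc0 k
      have h2 := cu_pos hc0 k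
      have h3 : 0 ≤ 1 / ((k : ℝ) + 2) ^ 2 := by positivity
      nlinarith)
    exact hmono hk
  rcases Nat.lt_or_ge n1 n with hlt | hge
  · -- the upward function of the cluster
    obtain ⟨n', rfl⟩ : ∃ n', n = n' + 1 := ⟨n - 1, by omega⟩
    have h1 := VUn_ge G H.lam1.le (H.up n' (by omega)) x hx h
    have h2 := efun_ge_U (N := N) (m := m) (l := l) (kap := kap) (lam := lam) (r := r) (c0 := c0)
      (d := d) (n1 := n1) (n2 := n2) (by omega : n1 ≤ n') (by omega : n' < n2) hx A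
    have h3 := mul_le_mul_of_nonneg_left h1 (cu_pos hc0 n').le
    have h4 := cu_lt hc0 n'
    have h5 := cu_gt hc0 (n' + 1)
    refine ⟨by linarith, fun k hk => ?_⟩
    have := hanti _ _ hk
    linarith
  · obtain ⟨v, hv⟩ := h
    rw [mem_inter] at hv
    obtain ⟨i, h1, h2, rfl⟩ := (mem_core N).mp hv.2
    have h3 := H.near (.cl n x i) ⟨hx, by omega⟩ hge
    have h4 := efun_ge_dist (N := N) (m := m) (l := l) (kap := kap) (lam := lam) (r := r)
      (c0 := c0) (d := d) (n1 := n1) (n2 := n2) hv.1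
    rw [one_mul] at h4
    refine ⟨by linarith, fun k _ => ?_⟩
    have := cu_le hc0 k
    linarith

/-- growth of `efun` as long as the target is healthy -/
theorem gen_efun_ge (H : EHyp N m l kap lam r k0 c0 d n1 o) (n2 : ℕ) :
    ∃ ε : ℝ, 0 < ε ∧ ∀ A, (∀ v ∈ A, valid N m l v) → o ∉ A →
      ε * efun N m l kap lam r d c0 n1 n2 A
        ≤ gen (nbG N m l) lam (efun N m l kap lam r d c0 n1 n2) A := by
  have hlam0 : 0 < lam := by have := H.lam1; linarith
  have hM : ∀ n, 1 ≤ N n - 2 := fun n => by have := G.hN n; omega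
  obtain ⟨ε1, hε1, h1⟩ := exists_pos_le n2 kap G.hkap0
  obtain ⟨ε2, hε2, h2⟩ := exists_pos_le n2
    (fun n => afun lam (kap n * qu (kap n) (m n) (l n) (N n) / 8) (N (n + 1) - 2) (N (n + 1) - 2)
      * (kap n * qu (kap n) (m n) (l n) (N n) / 8)) (fun n => by
        have hq := qu_pos N m l G.hl G.hN (G.hkap0 n).le n
        have hk := G.hkap0 n
        have ha := afun_pos hlam0.le (eps := kap n * qu (kap n) (m n) (l n) (N n) / 8)
          (by positivity) (hM (n + 1)) (N (n + 1) - 2)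
        positivity)
  refine ⟨min k0 (min ε1 ε2), lt_min H.hk0 (lt_min hε1 hε2), fun A hval hoA => ?_⟩
  have hε0 : 0 < min k0 (min ε1 ε2) := lt_min H.hk0 (lt_min hε1 hε2)
  have he0 := efun_nonneg (N := N) (m := m) (l := l) (kap := kap) (lam := lam) (r := r)
      (c0 := c0) (d := d) (n1 := n1) (n2 := n2) A
  rcases efun_cases (N := N) (m := m) (l := l) (kap := kap) (lam := lam) (r := r) (c0 := c0)
    (d := d) (n1 := n1) (n2 := n2) A
    with h | ⟨v, hv, h⟩ | ⟨n, y, hn1, hn2, hy, h⟩ | ⟨n, x, hn2, hx, h⟩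
  · rw [h, mul_zero]
    exact gen_nonneg_of_zero _ _ hlam0.le (fun B => efun_nonneg B) h
  · have hvo : v ≠ o := fun hvo => hoA (hvo ▸ hv)
    obtain ⟨w, hw, hdw⟩ := H.dist v (hval v hv) hvo
    have h3 := gen_ge_of_dist (nbG N m l) hlam0 H.r0 H.r1 zero_le_one H.hk0.le H.rk
      (d := d) (f := efun N m l kap lam r d c0 n1 n2)
      (fun B v hv => efun_ge_dist hv) (fun B => efun_nonneg B) hv h hw hdw
    exact le_trans (mul_le_mul_of_nonneg_right (min_le_left _ _) he0) h3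
  · -- upward function
    have hterm : ∀ v ∈ A, ¬ termU N m n y v := by
      intro v hv ht
      unfold termU at ht
      have hxW : y / 16 ^ (m n) < W m n := by
        obtain ⟨i, _, _, rfl⟩ := (mem_core N).mp ht
        exact (hval _ hv).1
      have h3 := (efun_ge_core G H (n2 := n2) hn2.le hxW ⟨v, mem_inter.mpr ⟨hv, ht⟩⟩).2 n le_rfl
      rw [h] at h3
      have h4 := VUn_le_one G H.lam1.le n y hy A
      have h5 := cu_pos H.c00 n
      nlinarith
    have h3 := gen_VUn_ge G H.lam1.le n y hy hterm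
    have h4 := gen_ge_of_touch_mul (nbG N m l) hlam0.le h
      (fun B => efun_ge_U hn1 hn2 hy B)
    refine le_trans ?_ h4
    rw [h]
    have h5 := cu_pos H.c00 n
    have h6 : min k0 (min ε1 ε2) * VUn N m l kap lam n y A
        ≤ gen (nbG N m l) lam (VUn N m l kap lam n y) A := by
      refine le_trans (mul_le_mul_of_nonneg_right ?_ (VUn_nonneg G H.lam1.le n y hy A)) h3
      exact le_trans (min_le_right _ _) (le_trans (min_le_right _ _) (h2 n hn2))
    calc min k0 (min ε1 ε2) * (cu c0 n * VUn N m l kap lam n y A)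
        = cu c0 n * (min k0 (min ε1 ε2) * VUn N m l kap lam n y A) := by ring
      _ ≤ _ := mul_le_mul_of_nonneg_left h6 h5.le
  · -- forward function
    have hterm : ∀ v ∈ A, ¬ termF N m n x v := by
      rintro v hv ⟨y, hy, ht⟩
      have hyW : y < W m (n + 1) := by
        obtain ⟨i, _, _, rfl⟩ := (mem_core N).mp ht
        exact (hval _ hv).1
      have h3 := (efun_ge_core G H (n2 := n2) (by omega : n + 1 ≤ n2) hyW
        ⟨v, mem_inter.mpr ⟨hv, ht⟩⟩).1
      rw [h] at h3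
      have hF := hyp_F G le_rfl n x hx
      have h4 := hF.v1 A
      have h5 := H.c00
      nlinarith
    have h3 := gen_vF_ge G H.lam1.le n x hterm
    have h4 := gen_ge_of_touch_mul (nbG N m l) hlam0.le h
      (fun B => efun_ge_F hn2 hx B)
    refine le_trans ?_ h4
    rw [h]
    have hF := hyp_F G le_rfl n x hx
    have h6 : min k0 (min ε1 ε2) * vF N m l (kap n) n x A
        ≤ gen (nbG N m l) lam (vF N m l (kap n) n x) A := by
      refine le_trans (mul_le_mul_of_nonneg_right ?_ (hF.v0 A)) h3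
      exact le_trans (min_le_right _ _) (le_trans (min_le_left _ _) (h1 n hn2))
    calc min k0 (min ε1 ε2) * (c0 * vF N m l (kap n) n x A)
        = c0 * (min k0 (min ε1 ε2) * vF N m l (kap n) n x A) := by ring
      _ ≤ _ := mul_le_mul_of_nonneg_left h6 H.c00.le

/-- comparison of `phi` with `efun` -/
theorem phi_le_efun (H : EHyp N m l kap lam r k0 c0 d n1 o) {d' : Vx → ℕ} {D : ℕ}
    (hdd : ∀ v, valid N m l v → d v ≤ d' v + D) {A : Finset Vx}
    (hval : ∀ v ∈ A, valid N m l v) {n2 : ℕ} (hn2 : topv A ≤ n2) :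
    phi N m l kap r d' A ≤ (1 / c0 + 1 / r ^ D) * efun N m l kap lam r d c0 n1 n2 A := by
  have he0 := efun_nonneg (N := N) (m := m) (l := l) (kap := kap) (lam := lam) (r := r)
      (c0 := c0) (d := d) (n1 := n1) (n2 := n2) A
  have hc0 := H.c00
  have hr0 := H.r0
  have hrD : 0 < r ^ D := by positivity
  unfold phi
  apply max_le
  · -- the function h
    have key : hfun N m l kap A ≤ 1 / c0 * efun N m l kap lam r d c0 n1 n2 A := by
      rcases hfun_cases (N := N) (m := m) (l := l) (kap := kap) A with h | ⟨n, x, hn, hx, h⟩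
      · rw [h]; positivity
      · by_cases hcore : (A ∩ core N n x).Nonempty
        · have h1 := (efun_ge_core G H (n2 := n2) (by omega : n ≤ n2) hx hcore).1
          have h2 := hfun_le_one G A
          have h3 : (1 : ℝ) ≤ 1 / c0 * efun N m l kap lam r d c0 n1 n2 A := by
            rw [one_div, ← div_eq_inv_mul, le_div_iff₀ hc0]; linarith
          linarith
        · rw [h]
          have h1 := VFn_le_vF G n x hx hcore
          have h2 := efun_ge_F (N := N) (m := m) (l := l) (kap := kap) (lam := lam) (r := r)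
            (c0 := c0) (d := d) (n1 := n1) (n2 := n2) (by omega : n < n2) hx A
          have h3 : vF N m l (kap n) n x A ≤ 1 / c0 * efun N m l kap lam r d c0 n1 n2 A := by
            rw [one_div, ← div_eq_inv_mul, le_div_iff₀ hc0]; linarith
          have h4 := cw_le_one n
          have h5 := VFn_nonneg G n x hx A
          have h6 : cw n * VFn N m l kap n x A ≤ 1 * VFn N m l kap n x A :=
            mul_le_mul_of_nonneg_right h4 h5
          linarith
    have h7 : 0 ≤ 1 / r ^ D * efun N m l kap lam r d c0 n1 n2 A := by positivity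
    linarith
  · apply fmax_le (by positivity)
    intro v hv
    have h1 := efun_ge_dist (N := N) (m := m) (l := l) (kap := kap) (lam := lam) (r := r)
      (c0 := c0) (d := d) (n1 := n1) (n2 := n2) hv
    have h2 : r ^ (d' v + D) ≤ r ^ (d v) := pow_le_pow_of_le_one hr0.le H.r1 (hdd v (hval v hv))
    have h3 : r ^ (d' v) ≤ 1 / r ^ D * efun N m l kap lam r d c0 n1 n2 A := by
      rw [one_div, ← div_eq_inv_mul, le_div_iff₀ hrD, ← pow_add]
      linarith
    have h4 : 0 ≤ 1 / c0 * efun N m l kap lam r d c0 n1 n2 A := by positivity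
    have h5 : 0 ≤ r ^ (d' v) := by positivity
    linarith

end

end Pool.Agent.CP
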