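import Mathlib
import Pool.Agent.Helper11.CP.UpperC

/-!
# Lyapunov function for non-explosion
-/

set_option autoImplicit false

namespace Pool.Agent.CP

open Finset

variable (N m l : ℕ → ℕ)

lemma gen_indic_le (hl : ∀ n, 1 ≤ l n) (hN : ∀ n, 1 ≤ N n) {lam : ℝ} (hlam : 0 ≤ lam)
    (n x : ℕ) (A : Finset Vx) :
    gen (nbG N m l) lam (fun B => if (B ∩ clus N n x).Nonempty then (1 : ℝ) else 0) A
      ≤ lam * (ind A (.hb n 0 x) + iup l A n x) := by
  have h0 : 0 ≤ lam * (ind A (.hb n 0 x) + iup l A n x) :=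
    mul_nonneg hlam (add_nonneg (ind_nonneg _ _) (iup_nonneg _ _ _ _))
  by_cases hne : (A ∩ clus N n x).Nonempty
  · refine le_trans ?_ h0
    unfold gen
    have e1 : ∑ y ∈ A, ((if ((A.erase y) ∩ clus N n x).Nonempty then (1 : ℝ) else 0)
        - (if (A ∩ clus N n x).Nonempty then 1 else 0)) ≤ 0 := by
      apply Finset.sum_nonpos
      intro y _
      rw [if_pos hne]
      split_ifs <;> norm_num
    have e2 : ∑ x_1 ∈ A, ∑ y ∈ nbG N m l x_1,
        ((if ((insert y A) ∩ clus N n x).Nonempty then (1 : ℝ) else 0)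
        - (if (A ∩ clus N n x).Nonempty then 1 else 0)) ≤ 0 := by
      apply Finset.sum_nonpos
      intro z _
      apply Finset.sum_nonpos
      intro y _
      rw [if_pos hne]
      split_ifs <;> norm_num
    have := mul_nonpos_of_nonneg_of_nonpos hlam e2
    linarith
  · have h := gen_clf_le_of_empty (nbG N m l) lam hlam (clus N n x) (fun _ => (1 : ℝ)) 1
      (fun _ => 0) A le_rfl (fun _ _ => rfl) zero_le_one rfl hne
    have e : clf (clus N n x) (fun _ => (1 : ℝ)) 1 (fun _ => 0)
        = fun B => if (B ∩ clus N n x).Nonempty then (1 : ℝ) else 0 := by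
      funext B
      unfold clf
      split_ifs <;> norm_num
    rw [e, gen_zero, zero_add, one_mul] at h
    have h2 := mul_le_mul_of_nonneg_left (inflow_le_empty N m l hl hN n x A hne) hlam
    linarith

/-- weights of the previous level -/
noncomputable def hprev : ℕ → Finset Vx → ℝ
  | 0 => fun _ => 0
  | (n + 1) => fun A => hh n A

lemma sum_hb_le (n k M : ℕ) (A : Finset Vx) :
    ∑ x ∈ range M, ind A (.hb n k x) ≤ hh n A := by
  have e := sum_ind_swap A M (fun _ => (1 : ℝ)) (Vx.hb n k)
  simp only [one_mul] at e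
  rw [e]
  unfold hh
  refine Finset.sum_le_sum (fun v _ => ?_)
  have hI : Function.Injective (Vx.hb n k) := fun a b h => by simpa using h
  cases v with
  | cl n' x i =>
    rw [sum_ite_P_ne _ (P := Vx.hb n k) (by intro y _ h; simp at h)]
    exact linW_nonneg _ _
  | hb n' k' x =>
    by_cases h : n' = n ∧ k' = k ∧ x < M
    · obtain ⟨h1, h2, h3⟩ := h
      subst h1; subst h2
      rw [sum_ite_P_eq (fun _ => (1 : ℝ)) hI h3]
      simp [linW]
    · rw [sum_ite_P_ne _ (P := Vx.hb n k) (by
        intro y hy h'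
        simp only [Vx.hb.injEq] at h'
        exact h ⟨h'.1, h'.2.1, h'.2.2 ▸ hy⟩)]
      exact linW_nonneg _ _
  | pa n' j x =>
    rw [sum_ite_P_ne _ (P := Vx.hb n k) (by intro y _ h; simp at h)]
    exact linW_nonneg _ _

lemma sum_iup_le (n M : ℕ) (A : Finset Vx) :
    ∑ x ∈ range M, iup l A n x ≤ hprev n A := by
  cases n with
  | zero => simp [iup, upv, hprev]
  | succ n =>
    simp only [iup, upv, hprev, Finset.sum_singleton]
    have e := sum_ind_swap A M (fun _ => (1 : ℝ)) (Vx.pa n (l n - 1))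
    simp only [one_mul] at e
    rw [e]
    unfold hh
    refine Finset.sum_le_sum (fun v _ => ?_)
    have hI : Function.Injective (Vx.pa n (l n - 1)) := fun a b h => by simpa using h
    cases v with
    | cl n' x i =>
      rw [sum_ite_P_ne _ (P := Vx.pa n (l n - 1)) (by intro y _ h; simp at h)]
      exact linW_nonneg _ _
    | hb n' k' x =>
      rw [sum_ite_P_ne _ (P := Vx.pa n (l n - 1)) (by intro y _ h; simp at h)]
      exact linW_nonneg _ _
    | pa n' j x =>
      by_cases h : n' = n ∧ j = l n - 1 ∧ x < M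
      · obtain ⟨h1, h2, h3⟩ := h
        subst h1; subst h2
        rw [sum_ite_P_eq (fun _ => (1 : ℝ)) hI h3]
        simp [linW]
      · rw [sum_ite_P_ne _ (P := Vx.pa n (l n - 1)) (by
          intro y hy h'
          simp only [Vx.pa.injEq] at h'
          exact h ⟨h'.1, h'.2.1, h'.2.2 ▸ hy⟩)]
        exact linW_nonneg _ _

lemma gen_II_le (hl : ∀ n, 1 ≤ l n) (hN : ∀ n, 1 ≤ N n) {lam : ℝ} (hlam : 0 ≤ lam)
    (n : ℕ) (A : Finset Vx) :
    gen (nbG N m l) lam (II N m n) A ≤ lam * (hh n A + hprev n A) := by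
  have e : II N m n = fun B => ∑ x ∈ range (W m n),
      (fun x B => if (B ∩ clus N n x).Nonempty then (1 : ℝ) else 0) x B := rfl
  rw [e, gen_sum]
  calc _ ≤ ∑ x ∈ range (W m n), lam * (ind A (.hb n 0 x) + iup l A n x) :=
        Finset.sum_le_sum (fun x _ => gen_indic_le N m l hl hN hlam n x A)
    _ = lam * (∑ x ∈ range (W m n), ind A (.hb n 0 x) + ∑ x ∈ range (W m n), iup l A n x) := by
        rw [← Finset.mul_sum, Finset.sum_add_distrib]
    _ ≤ _ := mul_le_mul_of_nonneg_left (add_le_add (sum_hb_le n 0 _ A) (sum_iup_le l n _ A)) hlam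

lemma gen_hh_le' (hl : ∀ n, 1 ≤ l n) (hN : ∀ n, 1 ≤ N n) {lam : ℝ} (hlam : 0 ≤ lam)
    (n : ℕ) (A : Finset Vx) (hA : ∀ v ∈ A, valid N m l v) :
    gen (nbG N m l) lam (hh n) A
      ≤ lam * (17 * hh n A + II N m n A + II N m (n + 1) A) := by
  have h1 := gen_linear_le (nbG N m l) lam hlam (linW n) (linW_nonneg n) A
  refine le_trans h1 ?_
  have e1 := sum_ind_swap A (W m n) (fun _ => (1 : ℝ)) (fun x => Vx.cl n x (N n - 1))
  have e2 := sum_ind_swap A (W m (n + 1)) (fun _ => (1 : ℝ)) (fun x => Vx.cl (n + 1) x 0)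
  simp only [one_mul] at e1 e2
  have hb := bb_le_II N m hN n A
  have ha := aa_le_II N m hN (n + 1) A
  have key : ∑ x ∈ A, (- linW n x + lam * ∑ y ∈ nbG N m l x, linW n y)
      ≤ lam * (17 * hh n A + bb N m n A + aa m (n + 1) A) := by
    unfold bb aa hh
    rw [e1, e2, Finset.mul_sum, ← Finset.sum_add_distrib, ← Finset.sum_add_distrib, Finset.mul_sum]
    refine Finset.sum_le_sum (fun v hv => ?_)
    have h2 := linW_nb_le N m l hl hN n v (hA v hv)
    have h3 := mul_le_mul_of_nonneg_left h2 hlam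
    have h5 := linW_nonneg n v
    linarith
  refine le_trans key (mul_le_mul_of_nonneg_left ?_ hlam)
  linarith

/-- The Lyapunov function. -/
theorem exists_lyapunov (hl : ∀ n, 1 ≤ l n) (hN : ∀ n, 1 ≤ N n) :
    ∃ Y : Finset Vx → ℝ, (∀ A, 0 ≤ Y A) ∧
      (∀ lam : ℝ, 0 ≤ lam → ∀ A, (∀ v ∈ A, valid N m l v) →
        gen (nbG N m l) lam Y A ≤ (20 * lam) * Y A) ∧
      (∀ A, (∀ v ∈ A, valid N m l v) → ∀ v ∈ A, (2 : ℝ) ^ (lev v) ≤ Y A) := by
  set F : ℕ → Finset Vx → ℝ := fun n B => 2 ^ n * (II N m n B + hh n B) with hF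
  have hF0 : ∀ n B, 0 ≤ F n B := fun n B =>
    mul_nonneg (by positivity) (add_nonneg (II_nonneg _ _ _ _) (hh_nonneg _ _))
  have htop : ∀ B n, topv B ≤ n → F n B = 0 := by
    intro B n hn
    have h1 : ∀ v ∈ B, lev v ≠ n := fun v hv h => by have := lev_lt_topv hv hn; omega
    simp only [hF]
    rw [II_eq_zero N m h1]
    have h3 : hh n B = 0 := Finset.sum_eq_zero (fun v hv => linW_eq_zero (h1 v hv))
    rw [h3]; ring
  refine ⟨lfsum F topv, fun A => Finset.sum_nonneg (fun n _ => hF0 n A), ?_, ?_⟩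
  · intro lam hlam A hA
    obtain ⟨K0, hK0⟩ := gen_lfsum (nbG N m l) lam htop A
    set K := max K0 (topv A) with hK
    have hKtop : topv A ≤ K := le_max_right _ _
    rw [hK0 K (le_max_left _ _), lfsum_eq htop A K hKtop]
    have hIK : II N m K A = 0 := II_eq_zero N m (fun v hv h => by
      have := lev_lt_topv hv hKtop; omega)
    have hgenF : ∀ n, gen (nbG N m l) lam (F n) A
        ≤ 2 ^ n * (lam * (hh n A + hprev n A)
          + lam * (17 * hh n A + II N m n A + II N m (n + 1) A)) := by
      intro n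
      have e : gen (nbG N m l) lam (F n) A
          = 2 ^ n * (gen (nbG N m l) lam (II N m n) A + gen (nbG N m l) lam (hh n) A) := by
        simp only [hF]
        rw [gen_const_mul, gen_add]
      rw [e]
      exact mul_le_mul_of_nonneg_left (add_le_add (gen_II_le N m l hl hN hlam n A)
        (gen_hh_le' N m l hl hN hlam n A hA)) (by positivity)
    refine le_trans (Finset.sum_le_sum (fun n _ => hgenF n)) ?_
    have e1 : ∑ n ∈ range K, (2 : ℝ) ^ n * (lam * (hh n A + hprev n A)
          + lam * (17 * hh n A + II N m n A + II N m (n + 1) A))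
        = lam * (18 * ∑ n ∈ range K, 2 ^ n * hh n A + ∑ n ∈ range K, 2 ^ n * hprev n A
          + ∑ n ∈ range K, 2 ^ n * II N m n A
          + (1 / 2) * ∑ n ∈ range K, 2 ^ (n + 1) * II N m (n + 1) A) := by
      rw [Finset.mul_sum, Finset.mul_sum, ← Finset.sum_add_distrib, ← Finset.sum_add_distrib,
        ← Finset.sum_add_distrib, Finset.mul_sum]
      exact Finset.sum_congr rfl (fun n _ => by rw [pow_succ]; ring)
    rw [e1]
    have e2 : ∑ n ∈ range K, (2 : ℝ) ^ n * hprev n A ≤ 2 * ∑ n ∈ range K, 2 ^ n * hh n A := by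
      have h1 := Finset.sum_range_succ (fun n => (2 : ℝ) ^ n * hprev n A) K
      have h2 := Finset.sum_range_succ' (fun n => (2 : ℝ) ^ n * hprev n A) K
      have h3 : (2 : ℝ) ^ 0 * hprev 0 A = 0 := by simp [hprev]
      have h4 : 0 ≤ (2 : ℝ) ^ K * hprev K A := by
        refine mul_nonneg (by positivity) ?_
        cases K with
        | zero => exact le_rfl
        | succ K => exact hh_nonneg _ _
      have h5 : ∑ k ∈ range K, (2 : ℝ) ^ (k + 1) * hprev (k + 1) A
          = 2 * ∑ n ∈ range K, 2 ^ n * hh n A := by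
        rw [Finset.mul_sum]
        refine Finset.sum_congr rfl (fun k _ => ?_)
        rw [pow_succ]
        simp only [hprev]
        ring
      linarith
    have e3 : ∑ n ∈ range K, (2 : ℝ) ^ (n + 1) * II N m (n + 1) A
        ≤ ∑ n ∈ range K, 2 ^ n * II N m n A :=
      sum_shift_le (d := fun n => (2 : ℝ) ^ n * II N m n A) K
        (mul_nonneg (by positivity) (II_nonneg _ _ _ _)) (by rw [hIK, mul_zero])
    have e4 : ∑ n ∈ range K, F n A
        = ∑ n ∈ range K, 2 ^ n * II N m n A + ∑ n ∈ range K, 2 ^ n * hh n A := by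
      rw [← Finset.sum_add_distrib]
      exact Finset.sum_congr rfl (fun n _ => by simp only [hF]; ring)
    rw [e4]
    have s1 : 0 ≤ ∑ n ∈ range K, (2 : ℝ) ^ n * II N m n A :=
      Finset.sum_nonneg (fun n _ => mul_nonneg (by positivity) (II_nonneg _ _ _ _))
    have s2 : 0 ≤ ∑ n ∈ range K, (2 : ℝ) ^ n * hh n A :=
      Finset.sum_nonneg (fun n _ => mul_nonneg (by positivity) (hh_nonneg _ _))
    have e5 : 18 * ∑ n ∈ range K, (2 : ℝ) ^ n * hh n A + ∑ n ∈ range K, (2 : ℝ) ^ n * hprev n A
          + ∑ n ∈ range K, (2 : ℝ) ^ n * II N m n A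
          + (1 / 2) * ∑ n ∈ range K, (2 : ℝ) ^ (n + 1) * II N m (n + 1) A
        ≤ 20 * (∑ n ∈ range K, (2 : ℝ) ^ n * II N m n A + ∑ n ∈ range K, (2 : ℝ) ^ n * hh n A) := by
      linarith
    have := mul_le_mul_of_nonneg_left e5 hlam
    linarith
  · intro A hA v hv
    have hval := hA v hv
    have hlevK : lev v ∈ range (topv A) := by
      rw [mem_range]; have := lev_lt_topv hv le_rfl; omega
    have h1 : F (lev v) A ≤ lfsum F topv A := by
      unfold lfsum
      exact Finset.single_le_sum (f := fun n => F n A) (fun n _ => hF0 n A) hlevK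
    refine le_trans ?_ h1
    simp only [hF]
    have h2 : 1 ≤ II N m (lev v) A + hh (lev v) A := by
      cases v with
      | cl n x i =>
        simp only [lev] at *
        have h1 : 1 ≤ II N m n A := by
          unfold II
          refine le_trans ?_ (Finset.single_le_sum
            (f := fun x => if (A ∩ clus N n x).Nonempty then (1 : ℝ) else 0)
            (fun x _ => by split_ifs <;> norm_num) (mem_range.mpr hval.1))
          rw [if_pos ⟨_, mem_inter.mpr ⟨hv, (mem_clus N).mpr ⟨i, hval.2, rfl⟩⟩⟩]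
        linarith [hh_nonneg n A]
      | hb n k x =>
        simp only [lev] at *
        have h1 : 1 ≤ hh n A := by
          unfold hh
          refine le_trans ?_ (Finset.single_le_sum (f := fun v => linW n v)
            (fun v _ => linW_nonneg n v) hv)
          simp [linW]
        linarith [II_nonneg N m n A]
      | pa n j x =>
        simp only [lev] at *
        have h1 : 1 ≤ hh n A := by
          unfold hh
          refine le_trans ?_ (Finset.single_le_sum (f := fun v => linW n v)
            (fun v _ => linW_nonneg n v) hv)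
          simp [linW]
        linarith [II_nonneg N m n A]
    have h3 : (0 : ℝ) < 2 ^ (lev v) := by positivity
    nlinarith

end Pool.Agent.CP
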