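import Mathlib
import Pool.Agent.Helper11.CP.Basic

/-!
# The contact process as a continuous-time pure-jump Markov process

The contact process started from a finite set of infected vertices of a locally finite graph is
the continuous-time Markov chain on finite sets of vertices in which every infected vertex
recovers at rate `1`, and every healthy vertex becomes infected at rate `lam` times the number of
its infected neighbours.  It is constructed from its jump chain and from independent exponential
holding times.
-/

set_option autoImplicit false

open MeasureTheory ProbabilityTheory Filter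
open scoped ENNReal NNReal

namespace Pool.Agent.CP

/-- The sigma-algebra of all sets of finite configurations. -/
instance instMSConf {V : Type} : MeasurableSpace (Finset V) := ⊤

instance instDMSConf {V : Type} : DiscreteMeasurableSpace (Finset V) := ⟨fun _ => trivial⟩

variable {V : Type} [DecidableEq V]

/-- The total rate at which the configuration `A` changes: each infected vertex recovers at rate
`1`, and each pair (infected vertex `x`, healthy neighbour `y` of `x`) contributes an infection of
`y` at rate `lam`. -/
noncomputable def totalRate (nb : V → Finset V) (lam : ℝ≥0) (A : Finset V) : ℝ≥0 :=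
  (A.card : ℝ≥0) + lam * ∑ x ∈ A, ((nb x \ A).card : ℝ≥0)

/-- The law of the next configuration when the current configuration is `A`: `A` minus an infected
vertex `x` with weight `1`, `A` plus `y` with weight `lam` for every pair of an infected vertex `x`
and a healthy neighbour `y` of `x`, normalised by the total rate.  The empty configuration is
absorbing. -/
noncomputable def jumpLaw (nb : V → Finset V) (lam : ℝ≥0) (A : Finset V) : Measure (Finset V) :=
  if A = ∅ then Measure.dirac ∅
  else (totalRate nb lam A : ℝ≥0∞)⁻¹ •
    (∑ x ∈ A, Measure.dirac (A.erase x)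
      + (lam : ℝ≥0∞) • ∑ x ∈ A, ∑ y ∈ nb x \ A, Measure.dirac (insert y A))

/-- The rate of the exponential holding time in the configuration `A`; it is the total rate if
`A` is nonempty.  (The empty configuration is absorbing; it is convenient to let the chain make
fictitious jumps from `∅` to `∅` at rate `1`.) -/
noncomputable def holdRate (nb : V → Finset V) (lam : ℝ≥0) (A : Finset V) : ℝ≥0 :=
  if A = ∅ then 1 else totalRate nb lam A

lemma totalRate_pos (nb : V → Finset V) (lam : ℝ≥0) {A : Finset V} (hA : A ≠ ∅) :
    1 ≤ totalRate nb lam A := by
  unfold totalRate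
  have h : (1 : ℝ≥0) ≤ (A.card : ℝ≥0) := by
    exact_mod_cast Finset.card_pos.mpr (Finset.nonempty_iff_ne_empty.mpr hA)
  exact le_trans h (le_add_of_nonneg_right zero_le)

lemma one_le_holdRate (nb : V → Finset V) (lam : ℝ≥0) (A : Finset V) :
    1 ≤ holdRate nb lam A := by
  unfold holdRate
  split_ifs with h
  · exact le_rfl
  · exact totalRate_pos nb lam h

instance instProbJump (nb : V → Finset V) (lam : ℝ≥0) (A : Finset V) :
    IsProbabilityMeasure (jumpLaw nb lam A) := by
  unfold jumpLaw
  split_ifs with h
  · infer_instance
  · refine ⟨?_⟩
    have hpos : (totalRate nb lam A : ℝ≥0∞) ≠ 0 := by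
      have := totalRate_pos nb lam h
      exact_mod_cast (lt_of_lt_of_le zero_lt_one this).ne'
    have htop : (totalRate nb lam A : ℝ≥0∞) ≠ ∞ := ENNReal.coe_ne_top
    have key : (∑ x ∈ A, Measure.dirac (A.erase x)
      + (lam : ℝ≥0∞) • ∑ x ∈ A, ∑ y ∈ nb x \ A, Measure.dirac (insert y A)) Set.univ
        = (totalRate nb lam A : ℝ≥0∞) := by
      simp only [Measure.add_apply, Measure.smul_apply, Measure.finsetSum_apply,
        measure_univ, Finset.sum_const, smul_eq_mul, nsmul_eq_mul, mul_one]
      unfold totalRate
      push_cast
      rfl
    rw [Measure.smul_apply, key, smul_eq_mul]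
    exact ENNReal.inv_mul_cancel hpos htop

/-- The transition kernel of the jump chain, as a kernel on histories. -/
noncomputable def jumpKernel (nb : V → Finset V) (lam : ℝ≥0) (n : ℕ) :
    Kernel (Π _ : Finset.Iic n, Finset V) (Finset V) where
  toFun h := jumpLaw nb lam (h ⟨n, Finset.mem_Iic.2 le_rfl⟩)
  measurable' := (Measurable.of_discrete (f := jumpLaw nb lam)).comp (measurable_pi_apply _)

instance instMarkovJump (nb : V → Finset V) (lam : ℝ≥0) (n : ℕ) :
    IsMarkovKernel (jumpKernel nb lam n) :=
  ⟨fun h => instProbJump nb lam (h ⟨n, Finset.mem_Iic.2 le_rfl⟩)⟩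

/-- The law of the jump chain (the sequence of successive configurations) started from `A₀`. -/
noncomputable def chainLaw (nb : V → Finset V) (lam : ℝ≥0) (A₀ : Finset V) :
    Measure (ℕ → Finset V) :=
  Kernel.trajMeasure (X := fun _ => Finset V) (Measure.dirac A₀) (jumpKernel nb lam)

/-- The joint law of the jump chain started from `A₀` and of an independent sequence of
independent exponential random variables of mean `1`. -/
noncomputable def law (nb : V → Finset V) (lam : ℝ≥0) (A₀ : Finset V) :
    Measure ((ℕ → Finset V) × (ℕ → ℝ)) :=
  (chainLaw nb lam A₀).prod (Measure.infinitePi (fun _ : ℕ => expMeasure 1))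

/-- The time of the `n`-th jump: the `k`-th configuration `ω.1 k` is held during an exponential
time of rate `holdRate (ω.1 k)`. -/
noncomputable def jumpTime (nb : V → Finset V) (lam : ℝ≥0) (ω : (ℕ → Finset V) × (ℕ → ℝ))
    (n : ℕ) : ℝ :=
  ∑ k ∈ Finset.range n, ω.2 k / (holdRate nb lam (ω.1 k) : ℝ)

/-- The set of infected vertices at time `t`. -/
def config (nb : V → Finset V) (lam : ℝ≥0) (ω : (ℕ → Finset V) × (ℕ → ℝ)) (t : ℝ) : Set V :=
  {x | ∃ n, jumpTime nb lam ω n ≤ t ∧ t < jumpTime nb lam ω (n + 1) ∧ x ∈ ω.1 n}

end Pool.Agent.CP
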