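import Mathlib
import Pool.Agent.Helper11.CP.ProcDef

/-!
# Criteria for survival and extinction in terms of the generator  (module T1)
-/

set_option autoImplicit false

open MeasureTheory ProbabilityTheory Filter
open scoped ENNReal NNReal

namespace Pool.Agent.CP

variable {V : Type} [DecidableEq V]

/-- Non-explosion, at the level of the jump chain. -/
def NonExpl (nb : V → Finset V) (lam : ℝ≥0) : Prop :=
  ∀ A₀ : Finset V, ∀ᵐ Y ∂(chainLaw nb lam A₀),
    ∑' n, ((holdRate nb lam (Y n) : ℝ≥0∞))⁻¹ = ∞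

/-! ### The one-step operator -/

instance instProbChain (nb : V → Finset V) (lam : ℝ≥0) (A₀ : Finset V) :
    IsProbabilityMeasure (chainLaw nb lam A₀) := by
  unfold chainLaw; infer_instance

/-- The one step operator of the jump chain. -/
noncomputable def stepOp (nb : V → Finset V) (lam : ℝ≥0) (g : Finset V → ℝ≥0∞)
    (A : Finset V) : ℝ≥0∞ := ∫⁻ B, g B ∂(jumpLaw nb lam A)

lemma stepOp_mono (nb : V → Finset V) (lam : ℝ≥0) {g h : Finset V → ℝ≥0∞}
    (hgh : ∀ B, g B ≤ h B) (A : Finset V) : stepOp nb lam g A ≤ stepOp nb lam h A :=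
  lintegral_mono hgh

lemma stepOp_add (nb : V → Finset V) (lam : ℝ≥0) (g h : Finset V → ℝ≥0∞)
    (A : Finset V) : stepOp nb lam (fun B => g B + h B) A
      = stepOp nb lam g A + stepOp nb lam h A :=
  lintegral_add_left (Measurable.of_discrete) _

lemma stepOp_const (nb : V → Finset V) (lam : ℝ≥0) (c : ℝ≥0∞)
    (A : Finset V) : stepOp nb lam (fun _ => c) A = c := by
  unfold stepOp
  simp

/-- Value of the one step operator on a nonempty configuration. -/
lemma stepOp_eq (nb : V → Finset V) (lam : ℝ≥0) (g : Finset V → ℝ≥0∞) {A : Finset V}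
    (hA : A ≠ ∅) : stepOp nb lam g A = (holdRate nb lam A : ℝ≥0∞)⁻¹ *
      (∑ x ∈ A, g (A.erase x) + lam * ∑ x ∈ A, ∑ y ∈ nb x \ A, g (insert y A)) := by
  unfold stepOp jumpLaw holdRate
  rw [if_neg hA, if_neg hA]
  rw [lintegral_smul_measure, lintegral_add_measure, lintegral_smul_measure,
    lintegral_finsetSum_measure, lintegral_finsetSum_measure]
  simp only [lintegral_finsetSum_measure, lintegral_dirac, smul_eq_mul]

lemma stepOp_empty (nb : V → Finset V) (lam : ℝ≥0) (g : Finset V → ℝ≥0∞) :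
    stepOp nb lam g ∅ = g ∅ := by
  unfold stepOp jumpLaw
  rw [if_pos rfl, lintegral_dirac]

lemma gen_eq_sdiff (nb : V → Finset V) (lam : ℝ≥0) (f : Finset V → ℝ) (A : Finset V) :
    gen nb lam f A = ∑ x ∈ A, f (A.erase x) + lam * ∑ x ∈ A, ∑ y ∈ nb x \ A, f (insert y A)
      - (totalRate nb lam A : ℝ) * f A := by
  unfold gen totalRate
  have h2 : ∀ x ∈ A, ∑ y ∈ nb x, (f (insert y A) - f A)
      = ∑ y ∈ nb x \ A, f (insert y A) - ((nb x \ A).card : ℝ) * f A := by
    intro x hx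
    have h3 : ∑ y ∈ nb x, (f (insert y A) - f A) = ∑ y ∈ nb x \ A, (f (insert y A) - f A) := by
      symm
      apply Finset.sum_subset Finset.sdiff_subset
      intro y hy hy2
      have : y ∈ A := by
        by_contra h
        exact hy2 (Finset.mem_sdiff.mpr ⟨hy, h⟩)
      rw [Finset.insert_eq_of_mem this, sub_self]
    rw [h3, Finset.sum_sub_distrib, Finset.sum_const, nsmul_eq_mul]
  rw [Finset.sum_congr rfl h2, Finset.sum_sub_distrib, Finset.sum_sub_distrib, Finset.sum_const,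
    nsmul_eq_mul, ← Finset.sum_mul]
  push_cast
  ring

/-- The one step operator in terms of the generator. -/
lemma stepOp_ofReal (nb : V → Finset V) (lam : ℝ≥0) (f : Finset V → ℝ) (hf : ∀ A, 0 ≤ f A)
    (A : Finset V) : stepOp nb lam (fun B => ENNReal.ofReal (f B)) A
      = ENNReal.ofReal (f A + gen nb lam f A / (holdRate nb lam A : ℝ)) := by
  by_cases hA : A = ∅
  · subst hA
    rw [stepOp_empty]
    congr 1
    simp [gen]
  · rw [stepOp_eq nb lam _ hA, gen_eq_sdiff]
    have hq : holdRate nb lam A = totalRate nb lam A := by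
      unfold holdRate; rw [if_neg hA]
    have hq1 := one_le_holdRate nb lam A
    rw [← hq]
    have hpos : (0 : ℝ) < (holdRate nb lam A : ℝ) := by
      have : (0 : ℝ≥0) < holdRate nb lam A := lt_of_lt_of_le zero_lt_one hq1
      exact_mod_cast this
    have e1 : f A + (∑ x ∈ A, f (A.erase x) + lam * ∑ x ∈ A, ∑ y ∈ nb x \ A, f (insert y A)
        - (holdRate nb lam A : ℝ) * f A) / (holdRate nb lam A : ℝ)
        = (holdRate nb lam A : ℝ)⁻¹ * (∑ x ∈ A, f (A.erase x) +
          lam * ∑ x ∈ A, ∑ y ∈ nb x \ A, f (insert y A)) := by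
      field_simp
      ring
    rw [e1, ENNReal.ofReal_mul (by positivity), ENNReal.ofReal_inv_of_pos hpos,
      ENNReal.ofReal_coe_nnreal, ENNReal.ofReal_add (Finset.sum_nonneg (fun x _ => hf _))
        (mul_nonneg (by positivity) (Finset.sum_nonneg (fun x _ => Finset.sum_nonneg
          (fun y _ => hf _)))), ENNReal.ofReal_mul (by positivity), ENNReal.ofReal_coe_nnreal,
      ENNReal.ofReal_sum_of_nonneg (fun x _ => hf _), ENNReal.ofReal_sum_of_nonneg
        (fun x _ => Finset.sum_nonneg (fun y _ => hf _))]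
    congr 3
    refine Finset.sum_congr rfl (fun x _ => ?_)
    rw [ENNReal.ofReal_sum_of_nonneg (fun y _ => hf _)]

/-- The Markov property of the jump chain, one step. -/
lemma lintegral_step (nb : V → Finset V) (lam : ℝ≥0) (A₀ : Finset V) (n : ℕ)
    (H : (Π _ : Finset.Iic n, Finset V) → ℝ≥0∞) (hH : Measurable H) (g : Finset V → ℝ≥0∞) :
    ∫⁻ Y, H (Preorder.frestrictLe n Y) * g (Y (n + 1)) ∂(chainLaw nb lam A₀)
      = ∫⁻ Y, H (Preorder.frestrictLe n Y) * stepOp nb lam g (Y n) ∂(chainLaw nb lam A₀) := by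
  have key := Kernel.map_frestrictLe_trajMeasure_compProd_eq_map_trajMeasure
    (X := fun _ => Finset V) (μ₀ := Measure.dirac A₀) (κ := jumpKernel nb lam) (a := n)
  have hg : Measurable g := Measurable.of_discrete
  have hF : Measurable (fun p : (Π _ : Finset.Iic n, Finset V) × Finset V => H p.1 * g p.2) :=
    (hH.comp measurable_fst).mul (hg.comp measurable_snd)
  have h1 : ∫⁻ Y, H (Preorder.frestrictLe n Y) * g (Y (n + 1)) ∂(chainLaw nb lam A₀)
      = ∫⁻ p, H p.1 * g p.2 ∂((chainLaw nb lam A₀).map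
        (fun x ↦ (Preorder.frestrictLe n x, x (n + 1)))) := by
    rw [lintegral_map hF (by fun_prop)]
  rw [h1]
  unfold chainLaw
  rw [← key, Measure.lintegral_compProd hF, lintegral_map _ (by fun_prop)]
  · refine lintegral_congr (fun Y => ?_)
    show ∫⁻ b, H (Preorder.frestrictLe n Y) * g b ∂_ = _
    rw [lintegral_const_mul _ hg]
    rfl
  · apply Measurable.lintegral_kernel_prod_right' hF

lemma chainLaw_map_zero (nb : V → Finset V) (lam : ℝ≥0) (A₀ : Finset V) :
    (chainLaw nb lam A₀).map (fun Y => Y 0) = Measure.dirac A₀ := by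
  unfold chainLaw Kernel.trajMeasure
  have h1 : (fun Y : ℕ → Finset V => Y 0) =
      (fun h : (Π _ : Finset.Iic 0, Finset V) => h ⟨0, by simp⟩) ∘ (Preorder.frestrictLe 0) := by
    funext Y; rfl
  rw [h1, ← Measure.map_map (by fun_prop) (by fun_prop), Measure.map_comp _ _ (by fun_prop),
    Kernel.traj_map_frestrictLe, Kernel.partialTraj_self, Measure.id_comp,
    Measure.map_dirac' (MeasurableEquiv.measurable _), Measure.map_dirac' (by fun_prop)]
  rfl

lemma lintegral_zero_coord (nb : V → Finset V) (lam : ℝ≥0) (A₀ : Finset V)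
    (g : Finset V → ℝ≥0∞) : ∫⁻ Y, g (Y 0) ∂(chainLaw nb lam A₀) = g A₀ := by
  have hg : Measurable g := Measurable.of_discrete
  have h := lintegral_map (μ := chainLaw nb lam A₀) hg (show Measurable (fun Y : ℕ → Finset V => Y 0) by fun_prop)
  rw [chainLaw_map_zero, lintegral_dirac] at h
  exact h.symm

/-- Functions of the history up to time `n`. -/
def Adap (n : ℕ) (W : (ℕ → Finset V) → ℝ≥0∞) : Prop :=
  ∃ H : (Π _ : Finset.Iic n, Finset V) → ℝ≥0∞, Measurable H ∧
    W = fun Y => H (Preorder.frestrictLe n Y)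

omit [DecidableEq V] in
lemma Adap.measurable {n : ℕ} {W : (ℕ → Finset V) → ℝ≥0∞} (h : Adap n W) : Measurable W := by
  obtain ⟨H, hH, rfl⟩ := h
  exact hH.comp (by fun_prop)

omit [DecidableEq V] in
lemma adap_const (n : ℕ) (c : ℝ≥0∞) : Adap (V := V) n (fun _ => c) :=
  ⟨fun _ => c, measurable_const, rfl⟩

omit [DecidableEq V] in
lemma Adap.mul {n : ℕ} {W W' : (ℕ → Finset V) → ℝ≥0∞} (h : Adap n W) (h' : Adap n W') :
    Adap n (fun Y => W Y * W' Y) := by
  obtain ⟨H, hH, rfl⟩ := h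
  obtain ⟨H', hH', rfl⟩ := h'
  exact ⟨fun x => H x * H' x, hH.mul hH', rfl⟩

omit [DecidableEq V] in
lemma adap_coord {n j : ℕ} (hj : j ≤ n) (g : Finset V → ℝ≥0∞) :
    Adap n (fun Y : ℕ → Finset V => g (Y j)) := by
  refine ⟨fun h => g (h ⟨j, Finset.mem_Iic.2 hj⟩), ?_, rfl⟩
  exact (Measurable.of_discrete (f := g)).comp (measurable_pi_apply _)

omit [DecidableEq V] in
lemma Adap.mono {n m : ℕ} (hnm : n ≤ m) {W : (ℕ → Finset V) → ℝ≥0∞} (h : Adap n W) :
    Adap m W := by
  obtain ⟨H, hH, rfl⟩ := h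
  refine ⟨fun x => H (Preorder.frestrictLe₂ (π := fun _ => Finset V) hnm x),
    hH.comp (Preorder.measurable_frestrictLe₂ _), rfl⟩

omit [DecidableEq V] in
lemma adap_prod {n m : ℕ} (hm : m ≤ n + 1) (g : Finset V → ℝ≥0∞) :
    Adap n (fun Y : ℕ → Finset V => ∏ j ∈ Finset.range m, g (Y j)) := by
  induction m with
  | zero => simpa using adap_const n 1
  | succ m ih =>
    simp only [Finset.prod_range_succ]
    exact (ih (by omega)).mul (adap_coord (by omega) g)

lemma lintegral_adap_step (nb : V → Finset V) (lam : ℝ≥0) (A₀ : Finset V) (n : ℕ)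
    {W : (ℕ → Finset V) → ℝ≥0∞} (hW : Adap n W) (g : Finset V → ℝ≥0∞) :
    ∫⁻ Y, W Y * g (Y (n + 1)) ∂(chainLaw nb lam A₀)
      = ∫⁻ Y, W Y * stepOp nb lam g (Y n) ∂(chainLaw nb lam A₀) := by
  obtain ⟨H, hH, rfl⟩ := hW
  exact lintegral_step nb lam A₀ n H hH g

lemma lintegral_step_one (nb : V → Finset V) (lam : ℝ≥0) (A₀ : Finset V) (n : ℕ)
    (g : Finset V → ℝ≥0∞) :
    ∫⁻ Y, g (Y (n + 1)) ∂(chainLaw nb lam A₀)
      = ∫⁻ Y, stepOp nb lam g (Y n) ∂(chainLaw nb lam A₀) := by
  have := lintegral_adap_step nb lam A₀ n (adap_const n 1) g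
  simpa using this

/-- Potential bound. -/
lemma potential_le (nb : V → Finset V) (lam : ℝ≥0) (f g : Finset V → ℝ≥0∞)
    (h : ∀ A, stepOp nb lam f A + g A ≤ f A) (A₀ : Finset V) :
    ∫⁻ Y, ∑' n, g (Y n) ∂(chainLaw nb lam A₀) ≤ f A₀ := by
  have hmeas : ∀ (g : Finset V → ℝ≥0∞) (n : ℕ), Measurable (fun Y : ℕ → Finset V => g (Y n)) :=
    fun g n => (Measurable.of_discrete (f := g)).comp (measurable_pi_apply _)
  rw [lintegral_tsum (fun n => (hmeas g n).aemeasurable)]
  have key : ∀ n, ∫⁻ Y, f (Y n) ∂(chainLaw nb lam A₀)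
      + ∑ k ∈ Finset.range n, ∫⁻ Y, g (Y k) ∂(chainLaw nb lam A₀) ≤ f A₀ := by
    intro n
    induction n with
    | zero => simp [lintegral_zero_coord]
    | succ n ih =>
      refine le_trans ?_ ih
      rw [Finset.sum_range_succ, lintegral_step_one, add_comm (∑ k ∈ _, _), ← add_assoc,
        ← lintegral_add_left (hmeas _ n)]
      gcongr with Y
      exact h (Y n)
  refine ENNReal.tsum_le_of_sum_range_le (fun n => ?_)
  exact le_trans (le_add_self) (key n)

/-- Weighted supermartingale bound. -/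
lemma super_le (nb : V → Finset V) (lam : ℝ≥0) (F u : Finset V → ℝ≥0∞)
    (h : ∀ A, u A * stepOp nb lam F A ≤ F A) (A₀ : Finset V) (n : ℕ) :
    ∫⁻ Y, (∏ j ∈ Finset.range n, u (Y j)) * F (Y n) ∂(chainLaw nb lam A₀) ≤ F A₀ := by
  induction n with
  | zero => simp [lintegral_zero_coord]
  | succ n ih =>
    refine le_trans ?_ ih
    rw [lintegral_adap_step nb lam A₀ n (adap_prod le_rfl u) F]
    refine lintegral_mono (fun Y => ?_)
    rw [Finset.prod_range_succ, mul_assoc]
    gcongr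
    exact h (Y n)

omit [DecidableEq V] in
lemma measurable_coord (g : Finset V → ℝ≥0∞) (n : ℕ) :
    Measurable (fun Y : ℕ → Finset V => g (Y n)) :=
  (Measurable.of_discrete (f := g)).comp (measurable_pi_apply _)

/-- Lyapunov criterion for non-explosion. -/
theorem nonExpl_of_lyapunov (nb : V → Finset V) (lam : ℝ≥0) (Y : Finset V → ℝ) (C : ℝ)
    (hC : 0 ≤ C) (hY : ∀ A, 0 ≤ Y A) (hgen : ∀ A, gen nb lam Y A ≤ C * (1 + Y A))
    (hfin : ∀ K : ℝ, ∃ R : ℝ≥0, ∀ A, Y A ≤ K → holdRate nb lam A ≤ R) :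
    NonExpl nb lam := by
  intro A₀
  set q : Finset V → ℝ := fun A => (holdRate nb lam A : ℝ) with hq
  have hq1 : ∀ A, 1 ≤ q A := fun A => by
    have := one_le_holdRate nb lam A
    exact_mod_cast this
  set F : Finset V → ℝ≥0∞ := fun A => ENNReal.ofReal (1 + Y A) with hF
  set u : Finset V → ℝ≥0∞ := fun A => ENNReal.ofReal ((1 + C / q A)⁻¹) with hu
  have hstep : ∀ A, u A * stepOp nb lam F A ≤ F A := by
    intro A
    have hqA := hq1 A
    have h1 : (0:ℝ) ≤ C / q A := div_nonneg hC (by linarith)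
    rw [hF, stepOp_ofReal nb lam (fun B => 1 + Y B) (fun B => by linarith [hY B]), hu]
    simp only
    rw [← ENNReal.ofReal_mul (by positivity)]
    apply ENNReal.ofReal_le_ofReal
    have hgen' : gen nb lam (fun B => 1 + Y B) A = gen nb lam Y A := by
      rw [gen_add nb lam (fun _ => 1) Y A, gen_const, zero_add]
    rw [hgen', inv_mul_le_iff₀ (by linarith)]
    have h2 : gen nb lam Y A / q A ≤ C * (1 + Y A) / q A :=
      div_le_div_of_nonneg_right (hgen A) (by linarith)
    have h3 : C * (1 + Y A) / q A = C / q A * (1 + Y A) := by ring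
    show 1 + Y A + gen nb lam Y A / q A ≤ (1 + C / q A) * (1 + Y A)
    linarith
  have hbd := super_le nb lam F u hstep A₀
  have hmeasZ : ∀ n, Measurable (fun Z : ℕ → Finset V =>
      (∏ j ∈ Finset.range n, u (Z j)) * F (Z n)) := by
    intro n
    refine Measurable.mul ?_ (measurable_coord F n)
    exact Finset.measurable_prod _ (fun j _ => measurable_coord u j)
  have hfatou : ∫⁻ Z, liminf (fun n => (∏ j ∈ Finset.range n, u (Z j)) * F (Z n)) atTop
      ∂(chainLaw nb lam A₀) ≤ F A₀ := by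
    refine le_trans (lintegral_liminf_le hmeasZ) ?_
    refine liminf_le_of_frequently_le' ?_
    exact Frequently.of_forall (fun n => hbd n)
  have hlt := ae_lt_top (Measurable.liminf hmeasZ)
    (ne_of_lt (lt_of_le_of_lt hfatou ENNReal.ofReal_lt_top))
  filter_upwards [hlt] with Z hZ
  by_contra hne
  -- summable real
  have hsumm : Summable (fun n => (q (Z n))⁻¹) := by
    have := ENNReal.summable_toReal hne
    simpa [hq] using this
  set S : ℝ := ∑' n, (q (Z n))⁻¹ with hS
  have hprod : ∀ n, ENNReal.ofReal (Real.exp (-(C * S))) ≤ ∏ j ∈ Finset.range n, u (Z j) := by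
    intro n
    rw [hu, ← ENNReal.ofReal_prod_of_nonneg (fun j _ => by
      have := hq1 (Z j); positivity)]
    apply ENNReal.ofReal_le_ofReal
    have h1 : ∀ j, Real.exp (-(C * (q (Z j))⁻¹)) ≤ (1 + C / q (Z j))⁻¹ := by
      intro j
      have hqj := hq1 (Z j)
      have h2 : 1 + C / q (Z j) ≤ Real.exp (C * (q (Z j))⁻¹) := by
        have := Real.add_one_le_exp (C * (q (Z j))⁻¹)
        rw [div_eq_mul_inv]; linarith
      rw [Real.exp_neg]
      exact inv_anti₀ (by positivity) h2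
    calc Real.exp (-(C * S)) ≤ Real.exp (∑ j ∈ Finset.range n, -(C * (q (Z j))⁻¹)) := by
          apply Real.exp_le_exp.mpr
          rw [Finset.sum_neg_distrib, ← Finset.mul_sum]
          have h3 : ∑ j ∈ Finset.range n, (q (Z j))⁻¹ ≤ S :=
            hsumm.sum_le_tsum _ (fun j _ => by have := hq1 (Z j); positivity)
          have := mul_le_mul_of_nonneg_left h3 hC
          linarith
      _ = ∏ j ∈ Finset.range n, Real.exp (-(C * (q (Z j))⁻¹)) := Real.exp_sum _ _
      _ ≤ ∏ j ∈ Finset.range n, (1 + C / q (Z j))⁻¹ :=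
          Finset.prod_le_prod (fun j _ => (Real.exp_pos _).le) (fun j _ => h1 j)
  set δ : ℝ := Real.exp (-(C * S)) with hδ
  have hδpos : 0 < δ := Real.exp_pos _
  obtain ⟨K, hK1, hK2⟩ := ENNReal.lt_iff_exists_nnreal_btwn.mp hZ
  have hfreq := frequently_lt_of_liminf_lt (by isBoundedDefault) hK1
  obtain ⟨R, hR⟩ := hfin ((K : ℝ) / δ)
  have hfreq2 : ∃ᶠ n in atTop, (R : ℝ≥0∞)⁻¹ ≤ (holdRate nb lam (Z n) : ℝ≥0∞)⁻¹ := by
    refine hfreq.mono (fun n hn => ?_)
    apply ENNReal.inv_le_inv.mpr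
    have h1 : ENNReal.ofReal δ * F (Z n) < K := lt_of_le_of_lt (by gcongr; exact hprod n) hn
    rw [hF, ← ENNReal.ofReal_mul hδpos.le] at h1
    have h2 : δ * (1 + Y (Z n)) < K := by
      have := ENNReal.ofReal_lt_iff_lt_toReal (mul_nonneg hδpos.le (by linarith [hY (Z n)]))
        ENNReal.coe_ne_top |>.mp h1
      simpa using this
    have h3 : Y (Z n) ≤ (K : ℝ) / δ := by
      rw [le_div_iff₀ hδpos]
      nlinarith
    exact_mod_cast hR _ h3
  have hRpos : (0 : ℝ≥0∞) < (R : ℝ≥0∞)⁻¹ := by simp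
  have htend := ENNReal.tendsto_atTop_zero_of_tsum_ne_top hne
  have hev := htend.eventually (gt_mem_nhds hRpos)
  obtain ⟨n, hn1, hn2⟩ := (hfreq2.and_eventually hev).exists
  exact absurd hn2 (not_lt.mpr hn1)

instance instProbExp : IsProbabilityMeasure (expMeasure 1) :=
  isProbabilityMeasure_expMeasure zero_lt_one

/-- Law of the sequence of holding variables. -/
noncomputable abbrev expSeq : Measure (ℕ → ℝ) := Measure.infinitePi (fun _ : ℕ => expMeasure 1)

lemma expMeasure_eq : expMeasure 1 = volume.withDensity (exponentialPDF 1) := rfl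

lemma laplace_exp (r : ℝ) (hr : 0 ≤ r) :
    ∫⁻ x, ENNReal.ofReal (Real.exp (-(x * r))) ∂(expMeasure 1)
      = ENNReal.ofReal ((1 + r)⁻¹) := by
  have hm : Measurable (exponentialPDF 1) := by
    unfold exponentialPDF
    fun_prop
  rw [expMeasure_eq, lintegral_withDensity_eq_lintegral_mul _ hm (by fun_prop)]
  have h1 : ∀ x, (exponentialPDF 1 * fun x => ENNReal.ofReal (Real.exp (-(x * r)))) x
      = ENNReal.ofReal ((1 + r)⁻¹) * exponentialPDF (1 + r) x := by
    intro x
    simp only [Pi.mul_apply, exponentialPDF_eq]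
    rw [← ENNReal.ofReal_mul (by positivity)]
    by_cases hx : 0 ≤ x
    · rw [if_pos hx, if_pos hx, ← ENNReal.ofReal_mul (by positivity)]
      congr 1
      have : (1 + r) ≠ 0 := by positivity
      rw [inv_mul_cancel_left₀ this, one_mul, ← Real.exp_add]
      congr 1; ring
    · rw [if_neg hx, if_neg hx]; simp
  rw [lintegral_congr h1, lintegral_const_mul' _ _ ENNReal.ofReal_ne_top,
    lintegral_exponentialPDF_eq_one (by positivity), mul_one]

lemma expMeasure_Iic : expMeasure 1 (Set.Iic 0) = 0 := by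
  rw [expMeasure_eq, withDensity_apply _ measurableSet_Iic,
    ← setLIntegral_congr (Iio_ae_eq_Iic (μ := volume) (a := (0:ℝ)))]
  exact lintegral_exponentialPDF_of_nonpos le_rfl

lemma ae_expSeq_pos : ∀ᵐ e ∂expSeq, ∀ k, 0 < e k := by
  rw [ae_all_iff]
  intro k
  have h := Measure.infinitePi_map_eval (fun _ : ℕ => expMeasure 1) k
  have h2 : (expSeq.map (fun x => x k)) (Set.Iic 0) = 0 := by
    rw [h]; exact expMeasure_Iic
  rw [Measure.map_apply (by fun_prop) measurableSet_Iic] at h2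
  rw [ae_iff]
  refine le_antisymm (le_trans (measure_mono ?_) h2.le) zero_le
  intro e he
  simp only [Set.mem_ofPred_eq, not_lt] at he
  exact he

lemma tendsto_sum_exp (r : ℕ → ℝ) (hr : ∀ k, 0 ≤ r k) (hsum : ¬ Summable r) :
    ∀ᵐ e ∂expSeq, Tendsto (fun n => ∑ k ∈ Finset.range n, e k * r k) atTop atTop := by
  have hG : ∀ n, ∫⁻ e, ∏ k ∈ Finset.range n, ENNReal.ofReal (Real.exp (-(e k * r k))) ∂expSeq
      = ENNReal.ofReal (∏ k ∈ Finset.range n, (1 + r k)⁻¹) := by
    intro n
    have hind : iIndepFun (fun k (e : ℕ → ℝ) => ENNReal.ofReal (Real.exp (-(e k * r k)))) expSeq :=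
      iIndepFun_infinitePi (P := fun _ : ℕ => expMeasure 1)
        (X := fun k x => ENNReal.ofReal (Real.exp (-(x * r k)))) (fun k => by fun_prop)
    rw [lintegral_prod_eq_prod_lintegral_of_indepFun (Finset.range n)
      (fun k (e : ℕ → ℝ) => ENNReal.ofReal (Real.exp (-(e k * r k)))) hind
      (fun k => by fun_prop), ENNReal.ofReal_prod_of_nonneg (fun k _ => by
        have := hr k; positivity)]
    refine Finset.prod_congr rfl (fun k _ => ?_)
    rw [← laplace_exp (r k) (hr k)]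
    have h := Measure.infinitePi_map_eval (fun _ : ℕ => expMeasure 1) k
    rw [← h, lintegral_map (by fun_prop) (by fun_prop)]
  have htend : Tendsto (fun n => ENNReal.ofReal (∏ k ∈ Finset.range n, (1 + r k)⁻¹)) atTop
      (nhds 0) := by
    have h1 : Tendsto (fun n => ∑ k ∈ Finset.range n, r k) atTop atTop :=
      (not_summable_iff_tendsto_nat_atTop_of_nonneg hr).mp hsum
    have h2 : Tendsto (fun n => ∏ k ∈ Finset.range n, (1 + r k)) atTop atTop := by
      refine tendsto_atTop_mono (fun n => ?_) h1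
      have h5 : ∀ n, 1 + ∑ k ∈ Finset.range n, r k ≤ ∏ k ∈ Finset.range n, (1 + r k) := by
        intro n
        induction n with
        | zero => simp
        | succ n ih =>
          rw [Finset.sum_range_succ, Finset.prod_range_succ]
          have h6 : 0 ≤ ∑ k ∈ Finset.range n, r k := Finset.sum_nonneg (fun k _ => hr k)
          nlinarith [hr n, mul_nonneg h6 (hr n), mul_le_mul_of_nonneg_right ih (hr n)]
      linarith [h5 n]
    have h3 : Tendsto (fun n => (∏ k ∈ Finset.range n, (1 + r k))⁻¹) atTop (nhds 0) :=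
      tendsto_inv_atTop_zero.comp h2
    have h4 := ENNReal.tendsto_ofReal h3
    rw [ENNReal.ofReal_zero] at h4
    refine h4.congr (fun n => ?_)
    rw [Finset.prod_inv_distrib]
  have hinf : ∫⁻ e, ⨅ n, ∏ k ∈ Finset.range n, ENNReal.ofReal (Real.exp (-(e k * r k))) ∂expSeq
      = 0 := by
    refine le_antisymm (ge_of_tendsto' htend (fun n => ?_)) zero_le
    rw [← hG n]
    exact lintegral_mono (fun e => iInf_le _ n)
  have hmeas : Measurable (fun e : ℕ → ℝ =>
      ⨅ n, ∏ k ∈ Finset.range n, ENNReal.ofReal (Real.exp (-(e k * r k)))) := by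
    refine Measurable.iInf (fun n => ?_)
    fun_prop
  rw [lintegral_eq_zero_iff hmeas] at hinf
  filter_upwards [hinf, ae_expSeq_pos] with e he hpos
  have hmono : Monotone (fun n => ∑ k ∈ Finset.range n, e k * r k) := by
    refine monotone_nat_of_le_succ (fun n => ?_)
    rw [Finset.sum_range_succ]
    have := mul_nonneg (hpos n).le (hr n)
    linarith
  refine tendsto_atTop_atTop_of_monotone hmono (fun M => ?_)
  by_contra hcon
  push Not at hcon
  have hlow : ENNReal.ofReal (Real.exp (-M)) ≤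
      ⨅ n, ∏ k ∈ Finset.range n, ENNReal.ofReal (Real.exp (-(e k * r k))) := by
    refine le_iInf (fun n => ?_)
    rw [← ENNReal.ofReal_prod_of_nonneg (fun k _ => (Real.exp_pos _).le), ← Real.exp_sum,
      Finset.sum_neg_distrib]
    apply ENNReal.ofReal_le_ofReal
    apply Real.exp_le_exp.mpr
    have := hcon n
    linarith
  rw [he] at hlow
  simp only [Pi.zero_apply, nonpos_iff_eq_zero, ENNReal.ofReal_eq_zero] at hlow
  exact absurd hlow (not_le.mpr (Real.exp_pos _))

lemma measurable_jumpTime (nb : V → Finset V) (lam : ℝ≥0) (n : ℕ) :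
    Measurable (fun ω => jumpTime nb lam ω n) := by
  unfold jumpTime
  refine Finset.measurable_sum _ (fun k _ => ?_)
  refine Measurable.div ?_ ?_
  · exact (measurable_pi_apply k).comp measurable_snd
  · have h1 : Measurable (fun A : Finset V => (holdRate nb lam A : ℝ)) := Measurable.of_discrete
    exact h1.comp ((measurable_pi_apply k).comp measurable_fst)

theorem ae_tendsto_jumpTime (nb : V → Finset V) (lam : ℝ≥0) (h : NonExpl nb lam)
    (A₀ : Finset V) :
    ∀ᵐ ω ∂(law nb lam A₀), Tendsto (fun n => jumpTime nb lam ω n) atTop atTop := by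
  unfold law
  rw [Measure.ae_prod_iff_ae_ae (measurableSet_tendsto atTop (measurable_jumpTime nb lam))]
  filter_upwards [h A₀] with Y hY
  have hns : ¬ Summable (fun n => ((holdRate nb lam (Y n) : ℝ))⁻¹) := by
    intro hs
    have h1 : Summable (fun n => (holdRate nb lam (Y n))⁻¹) := by
      rw [← NNReal.summable_coe]
      simpa using hs
    have h2 := ENNReal.tsum_coe_ne_top_iff_summable.mpr h1
    apply h2
    rw [← hY]
    refine tsum_congr (fun n => ?_)
    rw [ENNReal.coe_inv]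
    have := one_le_holdRate nb lam (Y n)
    exact (lt_of_lt_of_le zero_lt_one this).ne'
  have := tendsto_sum_exp (fun n => ((holdRate nb lam (Y n) : ℝ))⁻¹)
    (fun k => by positivity) hns
  filter_upwards [this] with e he
  refine he.congr (fun n => ?_)
  unfold jumpTime
  refine Finset.sum_congr rfl (fun k _ => ?_)
  rw [div_eq_mul_inv]

lemma ae_law_fst (nb : V → Finset V) (lam : ℝ≥0) (A₀ : Finset V) {p : (ℕ → Finset V) → Prop}
    (h : ∀ᵐ Y ∂(chainLaw nb lam A₀), p Y) : ∀ᵐ ω ∂(law nb lam A₀), p ω.1 :=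
  Measure.quasiMeasurePreserving_fst.ae h

lemma ae_law_pos (nb : V → Finset V) (lam : ℝ≥0) (A₀ : Finset V) :
    ∀ᵐ ω ∂(law nb lam A₀), ∀ k, 0 < ω.2 k :=
  Measure.quasiMeasurePreserving_snd.ae ae_expSeq_pos

lemma ae_absorb (nb : V → Finset V) (lam : ℝ≥0) (A₀ : Finset V) :
    ∀ᵐ Y ∂(chainLaw nb lam A₀), ∀ n, Y n = ∅ → Y (n + 1) = ∅ := by
  rw [ae_all_iff]
  intro n
  have h := lintegral_adap_step nb lam A₀ n
    (adap_coord le_rfl (fun A : Finset V => if A = ∅ then (1 : ℝ≥0∞) else 0))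
    (fun A : Finset V => if A = ∅ then (0 : ℝ≥0∞) else 1)
  have h0 : ∀ Y : ℕ → Finset V, (if Y n = ∅ then (1 : ℝ≥0∞) else 0) *
      stepOp nb lam (fun A : Finset V => if A = ∅ then (0 : ℝ≥0∞) else 1) (Y n) = 0 := by
    intro Y
    by_cases hY : Y n = ∅
    · rw [hY, stepOp_empty]; simp
    · rw [if_neg hY, zero_mul]
  have hm : Measurable (fun Y : ℕ → Finset V => (if Y n = ∅ then (1 : ℝ≥0∞) else 0) *
      (if Y (n + 1) = ∅ then (0 : ℝ≥0∞) else 1)) :=
    (measurable_coord (fun A : Finset V => if A = ∅ then (1 : ℝ≥0∞) else 0) n).mul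
      (measurable_coord (fun A : Finset V => if A = ∅ then (0 : ℝ≥0∞) else 1) (n + 1))
  rw [lintegral_congr h0, lintegral_zero, lintegral_eq_zero_iff hm] at h
  filter_upwards [h] with Y hY hn
  by_contra hne
  simp [hn, hne] at hY

lemma jumpTime_zero (nb : V → Finset V) (lam : ℝ≥0) (ω : (ℕ → Finset V) × (ℕ → ℝ)) :
    jumpTime nb lam ω 0 = 0 := by simp [jumpTime]

lemma jumpTime_lt_succ (nb : V → Finset V) (lam : ℝ≥0) (ω : (ℕ → Finset V) × (ℕ → ℝ))
    (hω : ∀ k, 0 < ω.2 k) (n : ℕ) : jumpTime nb lam ω n < jumpTime nb lam ω (n + 1) := by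
  unfold jumpTime
  rw [Finset.sum_range_succ]
  have h1 : (0 : ℝ) < (holdRate nb lam (ω.1 n) : ℝ) := by
    have := one_le_holdRate nb lam (ω.1 n)
    exact_mod_cast lt_of_lt_of_le zero_lt_one this
  have := div_pos (hω n) h1
  linarith

lemma jumpTime_mono (nb : V → Finset V) (lam : ℝ≥0) (ω : (ℕ → Finset V) × (ℕ → ℝ))
    (hω : ∀ k, 0 < ω.2 k) : StrictMono (jumpTime nb lam ω) :=
  strictMono_nat_of_lt_succ (jumpTime_lt_succ nb lam ω hω)

lemma holdRate_real_pos (nb : V → Finset V) (lam : ℝ≥0) (A : Finset V) :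
    (0 : ℝ) < (holdRate nb lam A : ℝ) := by
  have := one_le_holdRate nb lam A
  exact_mod_cast lt_of_lt_of_le zero_lt_one this

lemma add_gen_div_nonneg (nb : V → Finset V) (lam : ℝ≥0) (f : Finset V → ℝ)
    (hf0 : ∀ A, 0 ≤ f A) (A : Finset V) :
    0 ≤ f A + gen nb lam f A / (holdRate nb lam A : ℝ) := by
  have hq1 := holdRate_real_pos nb lam A
  by_cases hA : A = ∅
  · subst hA
    simp [gen, hf0]
  have e4 : f A + gen nb lam f A / (holdRate nb lam A : ℝ)
    = ((holdRate nb lam A : ℝ) * f A + gen nb lam f A) / (holdRate nb lam A : ℝ) := by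
    field_simp
  rw [e4]
  apply div_nonneg _ hq1.le
  rw [gen_eq_sdiff]
  have hq : holdRate nb lam A = totalRate nb lam A := by
    unfold holdRate; rw [if_neg hA]
  rw [hq]
  have e5 : 0 ≤ ∑ x ∈ A, f (A.erase x) := Finset.sum_nonneg (fun x _ => hf0 _)
  have e6 : 0 ≤ (lam : ℝ) * ∑ x ∈ A, ∑ y ∈ nb x \ A, f (insert y A) :=
    mul_nonneg (by positivity) (Finset.sum_nonneg (fun x _ => Finset.sum_nonneg
      (fun y _ => hf0 _)))
  linarith

lemma coe_holdRate_inv (nb : V → Finset V) (lam : ℝ≥0) (A : Finset V) :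
    (holdRate nb lam A : ℝ≥0∞)⁻¹ = ENNReal.ofReal ((holdRate nb lam A : ℝ)⁻¹) := by
  rw [ENNReal.ofReal_inv_of_pos (holdRate_real_pos nb lam A), ENNReal.ofReal_coe_nnreal]

lemma stepOp_le_of_gen (nb : V → Finset V) (lam : ℝ≥0) (f : Finset V → ℝ) (hf0 : ∀ A, 0 ≤ f A)
    (A : Finset V) (hf : gen nb lam f A ≤ -1) :
    stepOp nb lam (fun B => ENNReal.ofReal (f B)) A +
      (holdRate nb lam A : ℝ≥0∞)⁻¹ ≤ ENNReal.ofReal (f A) := by
  have hq1 := holdRate_real_pos nb lam A
  rw [stepOp_ofReal nb lam f hf0, coe_holdRate_inv,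
    ← ENNReal.ofReal_add (add_gen_div_nonneg nb lam f hf0 A) (by positivity)]
  apply ENNReal.ofReal_le_ofReal
  have e2 : gen nb lam f A / (holdRate nb lam A : ℝ) ≤ (-1) / (holdRate nb lam A : ℝ) :=
    div_le_div_of_nonneg_right hf hq1.le
  have e7 : (-1) / (holdRate nb lam A : ℝ) = - (holdRate nb lam A : ℝ)⁻¹ := by
    rw [neg_div, one_div]
  linarith

/-- Extinction criterion. -/
theorem extinct_of (nb : V → Finset V) (lam : ℝ≥0) (h : NonExpl nb lam)
    (f : Finset V → ℝ) (hf0 : ∀ A, 0 ≤ f A) (hf : ∀ A, A ≠ ∅ → gen nb lam f A ≤ -1)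
    (A₀ : Finset V) :
    law nb lam A₀ {ω | ∀ t : ℝ, 0 ≤ t → (config nb lam ω t).Nonempty} = 0 := by
  set g : Finset V → ℝ≥0∞ := fun A => if A = ∅ then 0 else (holdRate nb lam A : ℝ≥0∞)⁻¹ with hg
  have hstep : ∀ A, stepOp nb lam (fun B => ENNReal.ofReal (f B)) A + g A
      ≤ ENNReal.ofReal (f A) := by
    intro A
    by_cases hA : A = ∅
    · subst hA
      rw [stepOp_empty, hg]
      simp
    · simp only [hg]
      rw [if_neg hA]
      exact stepOp_le_of_gen nb lam f hf0 A (hf A hA)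
  have hpot := potential_le nb lam _ g hstep A₀
  have hfin := ae_lt_top (Measurable.tsum (fun n => measurable_coord g n))
    (ne_of_lt (lt_of_le_of_lt hpot ENNReal.ofReal_lt_top))
  have hexists : ∀ᵐ Y ∂(chainLaw nb lam A₀), ∃ n, Y n = ∅ := by
    filter_upwards [hfin, h A₀] with Y h1 h2
    by_contra hcon
    push Not at hcon
    apply h1.ne
    rw [← h2]
    refine tsum_congr (fun n => ?_)
    simp only [hg]
    rw [if_neg (hcon n).ne_empty]
  have hall := (ae_law_fst nb lam A₀ hexists).and ((ae_law_fst nb lam A₀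
    (ae_absorb nb lam A₀)).and (ae_law_pos nb lam A₀))
  refine measure_mono_null ?_ hall
  intro ω hω hcon
  obtain ⟨⟨n, hn⟩, habs, hpos⟩ := hcon
  have hmono := (jumpTime_mono nb lam ω hpos)
  have h0 : 0 ≤ jumpTime nb lam ω n := by
    rw [← jumpTime_zero nb lam ω]; exact hmono.monotone (Nat.zero_le n)
  obtain ⟨x, k, hk1, hk2, hk3⟩ := hω _ h0
  have hkn : n ≤ k := by
    have := hmono.lt_iff_lt.mp hk2
    omega
  have : ω.1 k = ∅ := by
    clear hk1 hk2 hk3
    induction k, hkn using Nat.le_induction with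
    | base => exact hn
    | succ k _ ih => exact habs k ih
  rw [this] at hk3
  simp at hk3

omit [DecidableEq V] in
lemma measurableSet_coord (S : Set (Finset V)) (n : ℕ) :
    MeasurableSet {Y : ℕ → Finset V | Y n ∈ S} :=
  (measurable_pi_apply n) (MeasurableSet.of_discrete (s := S))

/-- Local extinction criterion. -/
theorem local_extinct_of (nb : V → Finset V) (lam : ℝ≥0) (h : NonExpl nb lam) (o : V)
    (f : Finset V → ℝ) (hf0 : ∀ A, 0 ≤ f A)
    (hf : ∀ A, gen nb lam f A ≤ - (if o ∈ A then 1 else 0))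
    (A₀ : Finset V) :
    law nb lam A₀ {ω | ∀ s : ℝ, ∃ t : ℝ, s ≤ t ∧ o ∈ config nb lam ω t} = 0 := by
  set g : Finset V → ℝ≥0∞ := fun A => if o ∈ A then (holdRate nb lam A : ℝ≥0∞)⁻¹ else 0 with hg
  have hstep : ∀ A, stepOp nb lam (fun B => ENNReal.ofReal (f B)) A + g A
      ≤ ENNReal.ofReal (f A) := by
    intro A
    have hfA := hf A
    by_cases hA : o ∈ A
    · simp only [hg]
      rw [if_pos hA] at hfA ⊢
      exact stepOp_le_of_gen nb lam f hf0 A hfA
    · simp only [hg]
      rw [if_neg hA] at hfA ⊢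
      rw [add_zero, stepOp_ofReal nb lam f hf0]
      apply ENNReal.ofReal_le_ofReal
      have := div_nonpos_of_nonpos_of_nonneg (by linarith : gen nb lam f A ≤ 0)
        (holdRate_real_pos nb lam A).le
      linarith
  have hpot := potential_le nb lam _ g hstep A₀
  have hfin := ae_lt_top (Measurable.tsum (fun n => measurable_coord g n))
    (ne_of_lt (lt_of_le_of_lt hpot ENNReal.ofReal_lt_top))
  -- exits
  have hms : ∀ n, MeasurableSet {Y : ℕ → Finset V | o ∈ Y n ∧ o ∉ Y (n + 1)} := by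
    intro n
    exact (measurableSet_coord {A | o ∈ A} n).inter (measurableSet_coord {A | o ∉ A} (n + 1))
  have hexit : ∀ n, chainLaw nb lam A₀ {Y | o ∈ Y n ∧ o ∉ Y (n + 1)}
      ≤ ∫⁻ Y, g (Y n) ∂(chainLaw nb lam A₀) := by
    intro n
    rw [← lintegral_indicator_one (hms n)]
    set i1 : Finset V → ℝ≥0∞ := fun A => if o ∈ A then (1 : ℝ≥0∞) else 0 with hi1
    set i2 : Finset V → ℝ≥0∞ := fun A => if o ∈ A then (0 : ℝ≥0∞) else 1 with hi2
    have e1 : ∀ Y : ℕ → Finset V,
        ({Y : ℕ → Finset V | o ∈ Y n ∧ o ∉ Y (n + 1)}).indicator (1 : (ℕ → Finset V) → ℝ≥0∞) Y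
        = i1 (Y n) * i2 (Y (n + 1)) := by
      intro Y
      by_cases h1 : o ∈ Y n <;> by_cases h2 : o ∈ Y (n + 1) <;>
        simp [Set.indicator, h1, h2, hi1, hi2]
    rw [lintegral_congr e1, lintegral_adap_step nb lam A₀ n
      (adap_coord le_rfl i1) i2]
    refine lintegral_mono (fun Y => ?_)
    by_cases h1 : o ∈ Y n
    · simp only [hg, hi1, hi2]
      rw [if_pos h1, if_pos h1, one_mul, stepOp_eq nb lam _ (Finset.ne_empty_of_mem h1)]
      have e2 : ∑ x ∈ Y n, (if o ∈ (Y n).erase x then (0 : ℝ≥0∞) else 1) = 1 := by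
        rw [Finset.sum_eq_single_of_mem o h1]
        · simp
        · intro x _ hx
          rw [if_pos (Finset.mem_erase.mpr ⟨hx.symm, h1⟩)]
      have e3 : ∑ x ∈ Y n, ∑ y ∈ nb x \ Y n, (if o ∈ insert y (Y n) then (0 : ℝ≥0∞) else 1)
          = 0 := by
        refine Finset.sum_eq_zero (fun x _ => Finset.sum_eq_zero (fun y _ => ?_))
        rw [if_pos (Finset.mem_insert_of_mem h1)]
      rw [e2, e3]
      simp
    · simp [h1, hg, hi1]
  have hsum : ∑' n, chainLaw nb lam A₀ {Y | o ∈ Y n ∧ o ∉ Y (n + 1)} ≠ ∞ := by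
    refine ne_of_lt (lt_of_le_of_lt (ENNReal.tsum_le_tsum hexit) ?_)
    rw [← lintegral_tsum (fun n => (measurable_coord g n).aemeasurable)]
    exact lt_of_le_of_lt hpot ENNReal.ofReal_lt_top
  have hbc := ae_eventually_notMem hsum
  have hev : ∀ᵐ Y ∂(chainLaw nb lam A₀), ∃ N, ∀ n, N ≤ n → o ∉ Y n := by
    filter_upwards [hfin, h A₀, hbc] with Y h1 h2 h3
    by_contra hcon
    push Not at hcon
    obtain ⟨N, hN⟩ := eventually_atTop.mp h3
    obtain ⟨M, hMN, hM⟩ := hcon N
    have hin : ∀ n, M ≤ n → o ∈ Y n := by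
      intro n hn
      induction n, hn using Nat.le_induction with
      | base => exact hM
      | succ n hn ih =>
        by_contra hc
        exact hN n (by omega) ⟨ih, hc⟩
    -- the tail sum is infinite
    have h4 : ∑' n, ((holdRate nb lam (Y (n + M)) : ℝ≥0∞))⁻¹ = ∞ := by
      by_contra hne
      have h5 : ∑' n, ((holdRate nb lam (Y n) : ℝ≥0∞))⁻¹ ≠ ∞ := by
        rw [← Summable.sum_add_tsum_nat_add' (f := fun n => ((holdRate nb lam (Y n) : ℝ≥0∞))⁻¹)
          (k := M) ENNReal.summable]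
        refine ENNReal.add_ne_top.mpr ⟨?_, hne⟩
        refine ENNReal.sum_ne_top.mpr (fun n _ => ?_)
        rw [coe_holdRate_inv]
        exact ENNReal.ofReal_ne_top
      exact h5 h2
    apply h1.ne
    rw [eq_top_iff, ← h4]
    have h6 : ∀ n, ((holdRate nb lam (Y (n + M)) : ℝ≥0∞))⁻¹ = g (Y (n + M)) := by
      intro n
      simp only [hg]
      rw [if_pos (hin _ (by omega))]
    have h7 : ∑' n, ((holdRate nb lam (Y (n + M)) : ℝ≥0∞))⁻¹ = ∑' n, g (Y (n + M)) :=
      tsum_congr h6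
    rw [h7, ← Summable.sum_add_tsum_nat_add' (f := fun n => g (Y n)) (k := M) ENNReal.summable]
    exact le_add_self
  have hall := (ae_law_fst nb lam A₀ hev).and (ae_law_pos nb lam A₀)
  refine measure_mono_null ?_ hall
  intro ω hω hcon
  obtain ⟨⟨N, hN⟩, hpos⟩ := hcon
  have hmono := (jumpTime_mono nb lam ω hpos)
  obtain ⟨t, ht, k, hk1, hk2, hk3⟩ := hω (jumpTime nb lam ω N)
  have hkn : N ≤ k := by
    have := hmono.lt_iff_lt.mp (lt_of_le_of_lt ht hk2)
    omega
  exact hN k hkn hk3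

/-- Submartingale bound. -/
lemma sub_ge (nb : V → Finset V) (lam : ℝ≥0) (φ : Finset V → ℝ) (h0 : ∀ A, 0 ≤ φ A)
    (hg : ∀ A, 0 ≤ gen nb lam φ A) (A₀ : Finset V) (n : ℕ) :
    ENNReal.ofReal (φ A₀) ≤ ∫⁻ Y, ENNReal.ofReal (φ (Y n)) ∂(chainLaw nb lam A₀) := by
  induction n with
  | zero => rw [lintegral_zero_coord nb lam A₀ (fun A => ENNReal.ofReal (φ A))]
  | succ n ih =>
    refine le_trans ih ?_
    rw [lintegral_step_one nb lam A₀ n (fun A => ENNReal.ofReal (φ A))]
    refine lintegral_mono (fun Y => ?_)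
    simp only
    rw [stepOp_ofReal nb lam φ h0]
    apply ENNReal.ofReal_le_ofReal
    have := div_nonneg (hg (Y n)) (holdRate_real_pos nb lam (Y n)).le
    linarith

instance instProbLaw (nb : V → Finset V) (lam : ℝ≥0) (A₀ : Finset V) :
    IsProbabilityMeasure (law nb lam A₀) := by
  unfold law; infer_instance

lemma law_fst_preimage (nb : V → Finset V) (lam : ℝ≥0) (A₀ : Finset V)
    {E : Set (ℕ → Finset V)} (hE : MeasurableSet E) :
    law nb lam A₀ {ω | ω.1 ∈ E} = chainLaw nb lam A₀ E := by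
  have h1 : {ω : (ℕ → Finset V) × (ℕ → ℝ) | ω.1 ∈ E} = E ×ˢ Set.univ := by
    ext ω; simp
  rw [h1]
  unfold law
  rw [Measure.prod_prod, measure_univ, mul_one]

/-- Global survival criterion. -/
theorem survive_of (nb : V → Finset V) (lam : ℝ≥0) (h : NonExpl nb lam)
    (φ : Finset V → ℝ) (h0 : ∀ A, 0 ≤ φ A) (h1 : ∀ A, φ A ≤ 1) (he : φ ∅ = 0)
    (hg : ∀ A, 0 ≤ gen nb lam φ A) (A₀ : Finset V) (hA : 0 < φ A₀) :
    0 < law nb lam A₀ {ω | ∀ t : ℝ, 0 ≤ t → (config nb lam ω t).Nonempty} := by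
  set E : ℕ → Set (ℕ → Finset V) := fun n => {Y | ∀ k, k ≤ n → Y k ≠ ∅} with hE
  have hEm : ∀ n, MeasurableSet (E n) := by
    intro n
    have : E n = ⋂ k, ⋂ (_ : k ≤ n), {Y : ℕ → Finset V | Y k ∈ {A : Finset V | A ≠ ∅}} := by
      ext Y; simp [hE]
    rw [this]
    exact MeasurableSet.iInter (fun k => MeasurableSet.iInter (fun _ => measurableSet_coord _ k))
  have hEn : ∀ n, ENNReal.ofReal (φ A₀) ≤ chainLaw nb lam A₀ (E n) := by
    intro n
    refine le_trans (sub_ge nb lam φ h0 hg A₀ n) ?_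
    rw [← lintegral_indicator_one (hEm n)]
    refine lintegral_mono_ae ?_
    filter_upwards [ae_absorb nb lam A₀] with Y hY
    by_cases hn : Y n = ∅
    · rw [hn, he]; simp
    · have hmem : Y ∈ E n := by
        intro k hk hk0
        have : ∀ m, k ≤ m → Y m = ∅ := by
          intro m hm
          induction m, hm using Nat.le_induction with
          | base => exact hk0
          | succ m _ ih => exact hY m ih
        exact hn (this n hk)
      rw [Set.indicator_of_mem hmem]
      simpa using h1 (Y n)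
  have hanti : Antitone E := by
    intro n m hnm Y hY k hk
    exact hY k (hk.trans hnm)
  have hlim : ENNReal.ofReal (φ A₀) ≤ chainLaw nb lam A₀ (⋂ n, E n) := by
    rw [hanti.measure_iInter (fun n => (hEm n).nullMeasurableSet) ⟨0, measure_ne_top _ _⟩]
    exact le_iInf hEn
  have hpos : 0 < law nb lam A₀ {ω | ω.1 ∈ ⋂ n, E n} := by
    rw [law_fst_preimage nb lam A₀ (MeasurableSet.iInter hEm)]
    exact lt_of_lt_of_le (ENNReal.ofReal_pos.mpr hA) hlim
  refine lt_of_lt_of_le hpos (measure_mono_ae ?_)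
  filter_upwards [ae_tendsto_jumpTime nb lam h A₀, ae_law_pos nb lam A₀] with ω ht hp hω
  intro t ht0
  have hω' : ∀ n, ω.1 n ≠ ∅ := by
    intro n
    have := Set.mem_iInter.mp hω n
    exact this n le_rfl
  obtain ⟨N, hN⟩ := (ht.eventually_gt_atTop t).exists
  classical
  have hex : ∃ n, t < jumpTime nb lam ω n := ⟨N, hN⟩
  set n := Nat.find hex with hn
  have hn1 : t < jumpTime nb lam ω n := Nat.find_spec hex
  have hn0 : n ≠ 0 := by
    intro h
    rw [h, jumpTime_zero] at hn1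
    linarith
  obtain ⟨m, hm⟩ := Nat.exists_eq_succ_of_ne_zero hn0
  have hm2 : ¬ t < jumpTime nb lam ω m := Nat.find_min hex (by omega)
  obtain ⟨x, hx⟩ := Finset.nonempty_iff_ne_empty.mpr (hω' m)
  refine ⟨x, m, not_lt.mp hm2, ?_, hx⟩
  rw [← Nat.succ_eq_add_one, ← hm]
  exact hn1

/-- Probability to see `o` infected within `k` jumps. -/
noncomputable def hitFn (nb : V → Finset V) (lam : ℝ≥0) (o : V) : ℕ → Finset V → ℝ≥0∞
  | 0, A => if o ∈ A then 1 else 0
  | (k + 1), A => if o ∈ A then 1 else stepOp nb lam (hitFn nb lam o k) A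

lemma hitFn_le_one (nb : V → Finset V) (lam : ℝ≥0) (o : V) (k : ℕ) (A : Finset V) :
    hitFn nb lam o k A ≤ 1 := by
  induction k generalizing A with
  | zero => unfold hitFn; split_ifs <;> simp
  | succ k ih =>
    unfold hitFn
    split_ifs
    · exact le_rfl
    · calc stepOp nb lam (hitFn nb lam o k) A ≤ stepOp nb lam (fun _ => 1) A :=
            stepOp_mono nb lam ih A
        _ = 1 := stepOp_const nb lam 1 A

lemma hitFn_succ_ge (nb : V → Finset V) (lam : ℝ≥0) (o : V) (k : ℕ) (A : Finset V) :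
    hitFn nb lam o k A ≤ hitFn nb lam o (k + 1) A := by
  induction k generalizing A with
  | zero =>
    rw [hitFn, hitFn]
    split_ifs
    · exact le_rfl
    · exact zero_le
  | succ k ih =>
    rw [hitFn, hitFn]
    split_ifs
    · exact le_rfl
    · exact stepOp_mono nb lam ih A

lemma hitFn_mono (nb : V → Finset V) (lam : ℝ≥0) (o : V) (A : Finset V) :
    Monotone (fun k => hitFn nb lam o k A) :=
  monotone_nat_of_le_succ (fun k => hitFn_succ_ge nb lam o k A)

/-- Indicator that `o` is infected at some time in `[n, n+k]`. -/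
noncomputable def hitInd (o : V) : ℕ → ℕ → (ℕ → Finset V) → ℝ≥0∞
  | 0, n, Y => if o ∈ Y n then 1 else 0
  | (k + 1), n, Y => if o ∈ Y n then 1 else hitInd o k (n + 1) Y

lemma hitInd_le (o : V) (k n : ℕ) (Y : ℕ → Finset V) :
    hitInd o k n Y ≤ ({Y : ℕ → Finset V | ∃ j, n ≤ j ∧ o ∈ Y j}).indicator 1 Y := by
  induction k generalizing n with
  | zero =>
    unfold hitInd
    split_ifs with h
    · rw [Set.indicator_of_mem (show Y ∈ {Y : ℕ → Finset V | ∃ j, n ≤ j ∧ o ∈ Y j} from
        ⟨n, le_rfl, h⟩)]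
      simp
    · exact zero_le
  | succ k ih =>
    unfold hitInd
    split_ifs with h
    · rw [Set.indicator_of_mem (show Y ∈ {Y : ℕ → Finset V | ∃ j, n ≤ j ∧ o ∈ Y j} from
        ⟨n, le_rfl, h⟩)]
      simp
    · refine le_trans (ih (n + 1)) ?_
      refine Set.indicator_le_indicator_of_subset ?_ (fun _ => zero_le) Y
      rintro Z ⟨j, hj, hj2⟩
      exact ⟨j, by omega, hj2⟩

lemma measurable_hitInd (o : V) (k n : ℕ) : Measurable (hitInd o k n) := by
  induction k generalizing n with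
  | zero =>
    exact measurable_coord (fun A => if o ∈ A then (1 : ℝ≥0∞) else 0) n
  | succ k ih =>
    have : hitInd o (k + 1) n = fun Y => (fun A => if o ∈ A then (1 : ℝ≥0∞) else 0) (Y n)
        + (fun A => if o ∈ A then (0 : ℝ≥0∞) else 1) (Y n) * hitInd o k (n + 1) Y := by
      funext Y
      rw [hitInd]
      by_cases h : o ∈ Y n <;> simp [h]
    rw [this]
    exact (measurable_coord (fun A => if o ∈ A then (1 : ℝ≥0∞) else 0) n).add
      ((measurable_coord (fun A => if o ∈ A then (0 : ℝ≥0∞) else 1) n).mul (ih (n + 1)))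

lemma lintegral_hitFn (nb : V → Finset V) (lam : ℝ≥0) (A₀ : Finset V) (o : V) (k n : ℕ)
    {W : (ℕ → Finset V) → ℝ≥0∞} (hW : Adap n W) :
    ∫⁻ Y, W Y * hitFn nb lam o k (Y n) ∂(chainLaw nb lam A₀)
      = ∫⁻ Y, W Y * hitInd o k n Y ∂(chainLaw nb lam A₀) := by
  induction k generalizing n W with
  | zero => rfl
  | succ k ih =>
    set i1 : Finset V → ℝ≥0∞ := fun A => if o ∈ A then (1 : ℝ≥0∞) else 0 with hi1
    set i2 : Finset V → ℝ≥0∞ := fun A => if o ∈ A then (0 : ℝ≥0∞) else 1 with hi2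
    have e1 : ∀ Y : ℕ → Finset V, W Y * hitFn nb lam o (k + 1) (Y n)
        = W Y * i1 (Y n) + (W Y * i2 (Y n)) * stepOp nb lam (hitFn nb lam o k) (Y n) := by
      intro Y
      rw [hitFn]
      by_cases h : o ∈ Y n <;> simp [h, hi1, hi2]
    have e2 : ∀ Y : ℕ → Finset V, W Y * hitInd o (k + 1) n Y
        = W Y * i1 (Y n) + (W Y * i2 (Y n)) * hitInd o k (n + 1) Y := by
      intro Y
      rw [hitInd]
      by_cases h : o ∈ Y n <;> simp [h, hi1, hi2]
    have hW2 : Adap n (fun Y => W Y * i2 (Y n)) := hW.mul (adap_coord le_rfl i2)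
    have hm1 : Measurable (fun Y => W Y * i1 (Y n)) := (hW.mul (adap_coord le_rfl i1)).measurable
    rw [lintegral_congr e1, lintegral_congr e2, lintegral_add_left hm1, lintegral_add_left hm1,
      ← lintegral_adap_step nb lam A₀ n hW2, ih (n + 1) (hW2.mono (Nat.le_succ n))]

/-- Discount function. -/
noncomputable def discFn (nb : V → Finset V) (lam : ℝ≥0) (u : Finset V → ℝ≥0∞) :
    ℕ → Finset V → ℝ≥0∞
  | 0, _ => 1
  | (k + 1), A => u A * stepOp nb lam (discFn nb lam u k) A

lemma lintegral_discFn (nb : V → Finset V) (lam : ℝ≥0) (A₀ : Finset V) (u : Finset V → ℝ≥0∞)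
    (k n : ℕ) {W : (ℕ → Finset V) → ℝ≥0∞} (hW : Adap n W) :
    ∫⁻ Y, W Y * discFn nb lam u k (Y n) ∂(chainLaw nb lam A₀)
      = ∫⁻ Y, W Y * ∏ j ∈ Finset.range k, u (Y (n + j)) ∂(chainLaw nb lam A₀) := by
  induction k generalizing n W with
  | zero => simp [discFn]
  | succ k ih =>
    have e1 : ∀ Y : ℕ → Finset V, W Y * discFn nb lam u (k + 1) (Y n)
        = (W Y * u (Y n)) * stepOp nb lam (discFn nb lam u k) (Y n) := by
      intro Y
      rw [discFn, mul_assoc]
    have hW2 : Adap n (fun Y => W Y * u (Y n)) := hW.mul (adap_coord le_rfl u)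
    rw [lintegral_congr e1, ← lintegral_adap_step nb lam A₀ n hW2,
      ih (n + 1) (hW2.mono (Nat.le_succ n))]
    refine lintegral_congr (fun Y => ?_)
    rw [Finset.prod_range_succ', mul_assoc, add_zero, mul_comm (u (Y n))]
    congr 2
    refine Finset.prod_congr rfl (fun j _ => ?_)
    congr 2
    omega

lemma discFn_eq (nb : V → Finset V) (lam : ℝ≥0) (A₀ : Finset V) (u : Finset V → ℝ≥0∞)
    (k : ℕ) : discFn nb lam u k A₀
      = ∫⁻ Y, ∏ j ∈ Finset.range k, u (Y j) ∂(chainLaw nb lam A₀) := by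
  have h := lintegral_discFn nb lam A₀ u k 0 (adap_const 0 1)
  simp only [one_mul, zero_add] at h
  rw [← h, lintegral_zero_coord]

lemma prod_inv_tendsto_zero (r : ℕ → ℝ) (hr : ∀ k, 0 ≤ r k) (hsum : ¬ Summable r) :
    Tendsto (fun n => ∏ k ∈ Finset.range n, (1 + r k)⁻¹) atTop (nhds 0) := by
  have h1 : Tendsto (fun n => ∑ k ∈ Finset.range n, r k) atTop atTop :=
    (not_summable_iff_tendsto_nat_atTop_of_nonneg hr).mp hsum
  have h5 : ∀ n, 1 + ∑ k ∈ Finset.range n, r k ≤ ∏ k ∈ Finset.range n, (1 + r k) := by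
    intro n
    induction n with
    | zero => simp
    | succ n ih =>
      rw [Finset.sum_range_succ, Finset.prod_range_succ]
      have h6 : 0 ≤ ∑ k ∈ Finset.range n, r k := Finset.sum_nonneg (fun k _ => hr k)
      nlinarith [hr n, mul_nonneg h6 (hr n), mul_le_mul_of_nonneg_right ih (hr n)]
  have h2 : Tendsto (fun n => ∏ k ∈ Finset.range n, (1 + r k)) atTop atTop :=
    tendsto_atTop_mono (fun n => by linarith [h5 n]) h1
  have h3 : Tendsto (fun n => (∏ k ∈ Finset.range n, (1 + r k))⁻¹) atTop (nhds 0) :=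
    tendsto_inv_atTop_zero.comp h2
  refine h3.congr (fun n => ?_)
  rw [Finset.prod_inv_distrib]

lemma NonExpl.not_summable {nb : V → Finset V} {lam : ℝ≥0} {Y : ℕ → Finset V}
    (hY : ∑' n, ((holdRate nb lam (Y n) : ℝ≥0∞))⁻¹ = ∞) :
    ¬ Summable (fun n => ((holdRate nb lam (Y n) : ℝ))⁻¹) := by
  intro hs
  have h1 : Summable (fun n => (holdRate nb lam (Y n))⁻¹) := by
    rw [← NNReal.summable_coe]
    simpa using hs
  have h2 := ENNReal.tsum_coe_ne_top_iff_summable.mpr h1
  apply h2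
  rw [← hY]
  refine tsum_congr (fun n => ?_)
  rw [ENNReal.coe_inv]
  have := one_le_holdRate nb lam (Y n)
  exact (lt_of_lt_of_le zero_lt_one this).ne'

lemma discFn_tendsto (nb : V → Finset V) (lam : ℝ≥0) (h : NonExpl nb lam) (A₀ : Finset V)
    (ε : ℝ) (hε : 0 < ε) :
    Tendsto (fun k => discFn nb lam
      (fun A => ENNReal.ofReal ((1 + ε / (holdRate nb lam A : ℝ))⁻¹)) k A₀) atTop (nhds 0) := by
  set u : Finset V → ℝ≥0∞ := fun A => ENNReal.ofReal ((1 + ε / (holdRate nb lam A : ℝ))⁻¹) with hu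
  have hu1 : ∀ A, u A ≤ 1 := by
    intro A
    rw [hu]
    simp only
    rw [ENNReal.ofReal_le_one]
    have := div_pos hε (holdRate_real_pos nb lam A)
    exact inv_le_one_of_one_le₀ (by linarith)
  have e0 : (fun k => discFn nb lam u k A₀)
      = fun k => ∫⁻ Y, ∏ j ∈ Finset.range k, u (Y j) ∂(chainLaw nb lam A₀) := by
    funext k; exact discFn_eq nb lam A₀ u k
  rw [e0]
  have hz : (0 : ℝ≥0∞) = ∫⁻ Y, (0 : ℝ≥0∞) ∂(chainLaw nb lam A₀) := by simp
  rw [hz]
  refine tendsto_lintegral_of_dominated_convergence (fun _ => 1)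
    (fun k => Finset.measurable_prod _ (fun j _ => measurable_coord u j)) ?_ ?_ ?_
  · intro k
    refine Eventually.of_forall (fun Y => ?_)
    exact Finset.prod_le_one (fun _ _ => zero_le) (fun j _ => hu1 _)
  · simp
  · filter_upwards [h A₀] with Y hY
    have hns := NonExpl.not_summable hY
    have hns2 : ¬ Summable (fun n => ε / (holdRate nb lam (Y n) : ℝ)) := by
      intro hs
      apply hns
      have := hs.mul_left ε⁻¹
      refine this.congr (fun n => ?_)
      field_simp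
    have h3 := prod_inv_tendsto_zero _ (fun k => (div_pos hε (holdRate_real_pos nb lam (Y k))).le)
      hns2
    have h4 := ENNReal.tendsto_ofReal h3
    rw [ENNReal.ofReal_zero] at h4
    refine h4.congr (fun n => ?_)
    rw [ENNReal.ofReal_prod_of_nonneg (fun k _ => by
      have := div_pos hε (holdRate_real_pos nb lam (Y k)); positivity)]

lemma e_le_hit_add_disc (nb : V → Finset V) (lam : ℝ≥0) (o : V) (e : Finset V → ℝ) (ε : ℝ)
    (hε : 0 < ε) (he0 : ∀ B, 0 ≤ e B) (he1 : ∀ B, e B ≤ 1)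
    (heg : ∀ B, o ∉ B → ε * e B ≤ gen nb lam e B) (k : ℕ) (B : Finset V) :
    ENNReal.ofReal (e B) ≤ hitFn nb lam o k B + discFn nb lam
      (fun A => ENNReal.ofReal ((1 + ε / (holdRate nb lam A : ℝ))⁻¹)) k B := by
  set u : Finset V → ℝ≥0∞ := fun A => ENNReal.ofReal ((1 + ε / (holdRate nb lam A : ℝ))⁻¹) with hu
  have hu1 : ∀ A, u A ≤ 1 := by
    intro A
    rw [hu]
    simp only
    rw [ENNReal.ofReal_le_one]
    have := div_pos hε (holdRate_real_pos nb lam A)
    exact inv_le_one_of_one_le₀ (by linarith)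
  have hone : ∀ B, ENNReal.ofReal (e B) ≤ 1 := fun B => by
    rw [ENNReal.ofReal_le_one]; exact he1 B
  induction k generalizing B with
  | zero =>
    refine le_trans (hone B) ?_
    rw [discFn]
    exact le_add_self
  | succ k ih =>
    rw [hitFn, discFn]
    by_cases hB : o ∈ B
    · rw [if_pos hB]
      exact le_trans (hone B) le_self_add
    · rw [if_neg hB]
      have hq := holdRate_real_pos nb lam B
      have h1 : ENNReal.ofReal (e B) ≤ u B * stepOp nb lam (fun C => ENNReal.ofReal (e C)) B := by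
        rw [stepOp_ofReal nb lam e he0, hu]
        simp only
        have hpos : 0 < 1 + ε / (holdRate nb lam B : ℝ) := by
          have := div_pos hε hq; linarith
        rw [← ENNReal.ofReal_mul (inv_nonneg.mpr hpos.le)]
        apply ENNReal.ofReal_le_ofReal
        rw [le_inv_mul_iff₀ hpos]
        have h2 : ε * e B / (holdRate nb lam B : ℝ) ≤ gen nb lam e B / (holdRate nb lam B : ℝ) :=
          div_le_div_of_nonneg_right (heg B hB) hq.le
        have h3 : (1 + ε / (holdRate nb lam B : ℝ)) * e B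
            = e B + ε * e B / (holdRate nb lam B : ℝ) := by ring
        rw [h3]; linarith
      refine le_trans h1 ?_
      calc u B * stepOp nb lam (fun C => ENNReal.ofReal (e C)) B
          ≤ u B * stepOp nb lam (fun C => hitFn nb lam o k C + discFn nb lam u k C) B := by
            gcongr
            exact stepOp_mono nb lam ih B
        _ = u B * stepOp nb lam (hitFn nb lam o k) B
            + u B * stepOp nb lam (discFn nb lam u k) B := by
            rw [stepOp_add, mul_add]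
        _ ≤ stepOp nb lam (hitFn nb lam o k) B
            + u B * stepOp nb lam (discFn nb lam u k) B := by
            gcongr
            exact mul_le_of_le_one_left zero_le (hu1 B)

/-- Local survival criterion. -/
theorem local_survive_of (nb : V → Finset V) (lam : ℝ≥0) (h : NonExpl nb lam) (o : V)
    (φ : Finset V → ℝ) (h0 : ∀ A, 0 ≤ φ A) (h1 : ∀ A, φ A ≤ 1)
    (hg : ∀ A, 0 ≤ gen nb lam φ A) (C : ℝ) (hC : 0 < C)
    (hR : ∀ A, ∃ e : Finset V → ℝ, ∃ ε : ℝ, 0 < ε ∧ (∀ B, 0 ≤ e B) ∧ (∀ B, e B ≤ 1) ∧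
      e ∅ = 0 ∧ (∀ B, o ∉ B → ε * e B ≤ gen nb lam e B) ∧ φ A ≤ C * e A)
    (A₀ : Finset V) (hA : 0 < φ A₀) :
    0 < law nb lam A₀ {ω | ∀ s : ℝ, ∃ t : ℝ, s ≤ t ∧ o ∈ config nb lam ω t} := by
  -- pointwise bound
  have hpt : ∀ A, ENNReal.ofReal (φ A) ≤ ENNReal.ofReal C * ⨆ k, hitFn nb lam o k A := by
    intro A
    obtain ⟨e, ε, hε, he0, he1, _, heg, hφ⟩ := hR A
    have ht := discFn_tendsto nb lam h A ε hε
    have ht2 : Tendsto (fun k => ENNReal.ofReal C * ((⨆ k, hitFn nb lam o k A) + discFn nb lam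
      (fun A => ENNReal.ofReal ((1 + ε / (holdRate nb lam A : ℝ))⁻¹)) k A)) atTop
      (nhds (ENNReal.ofReal C * ((⨆ k, hitFn nb lam o k A) + 0))) := by
      refine ENNReal.Tendsto.const_mul ?_ (Or.inr ENNReal.ofReal_ne_top)
      exact Tendsto.add tendsto_const_nhds ht
    rw [add_zero] at ht2
    refine ge_of_tendsto' ht2 (fun k => ?_)
    calc ENNReal.ofReal (φ A) ≤ ENNReal.ofReal (C * e A) := ENNReal.ofReal_le_ofReal hφ
      _ = ENNReal.ofReal C * ENNReal.ofReal (e A) := ENNReal.ofReal_mul hC.le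
      _ ≤ _ := by
        gcongr
        refine le_trans (e_le_hit_add_disc nb lam o e ε hε he0 he1 heg k A) ?_
        gcongr
        exact le_iSup (fun k => hitFn nb lam o k A) k
  set G : ℕ → Set (ℕ → Finset V) := fun n => {Y | ∃ j, n ≤ j ∧ o ∈ Y j} with hG
  have hGm : ∀ n, MeasurableSet (G n) := by
    intro n
    have : G n = ⋃ j, ⋃ (_ : n ≤ j), {Y : ℕ → Finset V | Y j ∈ {A : Finset V | o ∈ A}} := by
      ext Y; simp [hG]
    rw [this]
    exact MeasurableSet.iUnion (fun k => MeasurableSet.iUnion (fun _ => measurableSet_coord _ k))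
  have hGn : ∀ n, ENNReal.ofReal (φ A₀) ≤ ENNReal.ofReal C * chainLaw nb lam A₀ (G n) := by
    intro n
    refine le_trans (sub_ge nb lam φ h0 hg A₀ n) ?_
    calc ∫⁻ Y, ENNReal.ofReal (φ (Y n)) ∂(chainLaw nb lam A₀)
        ≤ ∫⁻ Y, ENNReal.ofReal C * ⨆ k, hitFn nb lam o k (Y n) ∂(chainLaw nb lam A₀) :=
          lintegral_mono (fun Y => hpt (Y n))
      _ = ENNReal.ofReal C * ∫⁻ Y, ⨆ k, hitFn nb lam o k (Y n) ∂(chainLaw nb lam A₀) := by
          rw [lintegral_const_mul' _ _ ENNReal.ofReal_ne_top]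
      _ = ENNReal.ofReal C * ⨆ k, ∫⁻ Y, hitFn nb lam o k (Y n) ∂(chainLaw nb lam A₀) := by
          rw [lintegral_iSup (fun k => measurable_coord (hitFn nb lam o k) n)]
          intro a b hab Y
          exact hitFn_mono nb lam o (Y n) hab
      _ ≤ ENNReal.ofReal C * chainLaw nb lam A₀ (G n) := by
          gcongr
          refine iSup_le (fun k => ?_)
          have := lintegral_hitFn nb lam A₀ o k n (adap_const n 1)
          simp only [one_mul] at this
          rw [this, ← lintegral_indicator_one (hGm n)]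
          exact lintegral_mono (fun Y => hitInd_le o k n Y)
  have hanti : Antitone G := by
    rintro n m hnm Y ⟨j, hj, hj2⟩
    exact ⟨j, hnm.trans hj, hj2⟩
  have hlim : 0 < chainLaw nb lam A₀ (⋂ n, G n) := by
    rw [hanti.measure_iInter (fun n => (hGm n).nullMeasurableSet) ⟨0, measure_ne_top _ _⟩]
    have hlow : ENNReal.ofReal (φ A₀) / ENNReal.ofReal C ≤ ⨅ n, chainLaw nb lam A₀ (G n) := by
      refine le_iInf (fun n => ?_)
      rw [ENNReal.div_le_iff' (ENNReal.ofReal_pos.mpr hC).ne' ENNReal.ofReal_ne_top]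
      exact hGn n
    refine lt_of_lt_of_le ?_ hlow
    exact ENNReal.div_pos (ENNReal.ofReal_pos.mpr hA).ne' ENNReal.ofReal_ne_top
  have hpos : 0 < law nb lam A₀ {ω | ω.1 ∈ ⋂ n, G n} := by
    rw [law_fst_preimage nb lam A₀ (MeasurableSet.iInter hGm)]
    exact hlim
  refine lt_of_lt_of_le hpos (measure_mono_ae ?_)
  filter_upwards [ae_tendsto_jumpTime nb lam h A₀, ae_law_pos nb lam A₀] with ω ht hp hω
  intro s
  obtain ⟨N, hN⟩ := eventually_atTop.mp (ht.eventually_ge_atTop s)
  obtain ⟨j, hj, hj2⟩ := Set.mem_iInter.mp hω N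
  exact ⟨jumpTime nb lam ω j, hN j hj, j, le_rfl, jumpTime_lt_succ nb lam ω hp j, hj2⟩

end Pool.Agent.CP
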