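import Mathlib
import Pool.Agent.Helper11.CP.UpperC

/-!
# Upper potential: choice of the weights
-/

set_option autoImplicit false

namespace Pool.Agent.CP

open Finset

/-- weights given by their successive ratios -/
noncomputable def cseq (γ : ℕ → ℝ) : ℕ → ℝ
  | 0 => 1
  | (n + 1) => γ n * cseq γ n

lemma cseq_pos {γ : ℕ → ℝ} (hγ : ∀ n, 0 < γ n) (n : ℕ) : 0 < cseq γ n := by
  induction n with
  | zero => simp [cseq]
  | succ n ih => simp only [cseq]; exact mul_pos (hγ n) ih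

lemma pfun_pos (l : ℕ) (hl : 1 ≤ l) : 0 < pfun l (1 / 100) 0 {l - 1} := by
  induction l with
  | zero => omega
  | succ l ih =>
    rcases Nat.eq_zero_or_pos l with h0 | h0
    · subst h0
      have := pfun_one (1 / 100) (by norm_num)
      simp only [zero_add, Nat.sub_self]
      rw [this]; norm_num
    · have h1 := pfun_step l h0 (1 / 100) (by norm_num) (by norm_num)
      have h2 := ih h0
      have h3 : l + 1 - 1 = l := by omega
      rw [h3]
      refine lt_of_lt_of_le ?_ h1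
      positivity

lemma qn_le_const (l : ℕ) (hl : 1 ≤ l) : qn l ≤ 2 / 49 :=
  gl_le l {l - 1} (by intro j hj; rw [mem_singleton] at hj; rw [mem_range]; omega)

variable {N m l : ℕ → ℕ} {kap : ℕ → ℝ}

/-- conditions on the ratios -/
structure GammaOK (N m l : ℕ → ℕ) (lam : ℝ) (γ : ℕ → ℝ) : Prop where
  pos : ∀ n, 0 < γ n
  F : ∀ n, 2 * (1 / 100) ^ 2 * (γ n * Tn lam (N (n + 1)) * qn (l n)) * (1 / 5) ^ (m n) ≤ 1 / 4
  B : ∀ n, Tn lam (N n) * (1 / 100) * (1 / 50) ^ (m n + 1) * qn (l n)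
      + 2 * (1 / 100) ^ 2 * (γ n * Tn lam (N (n + 1)) * qn (l n)) * qn (l n) ≤ γ n / 4

lemma upper_of_gamma (G : GoodParams N m l kap) {lam : ℝ} (hlam : 0 ≤ lam)
    (hlam1 : lam ≤ 1 / 100) {γ : ℕ → ℝ} (hγ : GammaOK N m l lam γ) :
    ∃ f : Finset Vx → ℝ, (∀ A, 0 ≤ f A) ∧ ∀ A, (∀ v ∈ A, valid N m l v) →
      gen (nbG N m l) lam f A ≤ 0 ∧
      ∀ v ∈ A, gen (nbG N m l) lam f A
        ≤ - (min (cseq γ (lev v)) (cseq γ (lev v + 1)) / 4) := by
  have hc := cseq_pos hγ.pos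
  have hN1 : ∀ n, 1 ≤ N n := fun n => le_trans (by norm_num) (G.hN n)
  refine ⟨_, ?_, fun A hA => gen_fup_le N m l G.hl hN1 G.hm hlam hlam1 (c := cseq γ) hc ?_ ?_ A hA⟩
  · apply fup_nonneg N m l hlam
    · exact fun n => (hc n).le
    · exact fun n => (lt_min (hc n) (hc (n + 1))).le
    · intro n
      have h1 := hc (n + 1)
      have h2 := Tn_pos hlam (N (n + 1))
      have h3 := qn_nonneg (l n)
      positivity
  · intro n
    have h := mul_le_mul_of_nonneg_left (hγ.F n) (hc n).le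
    have e : cseq γ (n + 1) = γ n * cseq γ n := rfl
    rw [e]
    linarith
  · intro n
    have h := mul_le_mul_of_nonneg_left (hγ.B n) (hc n).le
    have e : cseq γ (n + 1) = γ n * cseq γ n := rfl
    rw [e]
    linarith

lemma gamma_crit_F (G : GoodParams N m l kap) {lam : ℝ} (hlam : 0 ≤ lam) (hlam1 : lam ≤ 1 / 100)
    (n : ℕ) : 2 * (1 / 100) ^ 2 * ((8 * (1 / 100) * Tn (1 / 100) (N n) * (1 / 50) ^ (m n + 1)
      * qn (l n)) * Tn lam (N (n + 1)) * qn (l n)) * (1 / 5) ^ (m n) ≤ 1 / 4 := by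
  have h := G.hF n
  have hT1 := Tn_mono_lam hlam hlam1 (N (n + 1))
  have hT0 := Tn_pos (lam := 1 / 100) (by norm_num) (N n)
  have hq := qn_nonneg (l n)
  have e : (1 / 250 : ℝ) ^ (m n) = (1 / 50) ^ (m n) * (1 / 5) ^ (m n) := by
    rw [← mul_pow]; norm_num
  rw [e] at h
  have h2 : (2 * (1 / 100) ^ 2 * (8 * (1 / 100) * Tn (1 / 100) (N n) * (1 / 50) ^ (m n + 1)
      * qn (l n)) * qn (l n) * (1 / 5) ^ (m n)) * Tn lam (N (n + 1))
    ≤ (2 * (1 / 100) ^ 2 * (8 * (1 / 100) * Tn (1 / 100) (N n) * (1 / 50) ^ (m n + 1)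
      * qn (l n)) * qn (l n) * (1 / 5) ^ (m n)) * Tn (1 / 100) (N (n + 1)) :=
    mul_le_mul_of_nonneg_left hT1 (by positivity)
  calc _ = (2 * (1 / 100) ^ 2 * (8 * (1 / 100) * Tn (1 / 100) (N n) * (1 / 50) ^ (m n + 1)
      * qn (l n)) * qn (l n) * (1 / 5) ^ (m n)) * Tn lam (N (n + 1)) := by ring
    _ ≤ _ := h2
    _ = (1 / 4) * (64 * (1 / 100) ^ 3 * (1 / 50) * Tn (1 / 100) (N n) * Tn (1 / 100) (N (n + 1))
      * ((1 / 50) ^ (m n) * (1 / 5) ^ (m n)) * qn (l n) ^ 2) := by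
        rw [pow_succ (1 / 50 : ℝ) (m n)]; ring
    _ ≤ (1 / 4) * 1 := mul_le_mul_of_nonneg_left h (by norm_num)
    _ = 1 / 4 := by norm_num

lemma gamma_crit_B (G : GoodParams N m l kap) {lam : ℝ} (hlam : 0 ≤ lam) (hlam1 : lam ≤ 1 / 100)
    (n : ℕ) : Tn lam (N n) * (1 / 100) * (1 / 50) ^ (m n + 1) * qn (l n)
      + 2 * (1 / 100) ^ 2 * ((8 * (1 / 100) * Tn (1 / 100) (N n) * (1 / 50) ^ (m n + 1)
      * qn (l n)) * Tn lam (N (n + 1)) * qn (l n)) * qn (l n)
      ≤ (8 * (1 / 100) * Tn (1 / 100) (N n) * (1 / 50) ^ (m n + 1) * qn (l n)) / 4 := by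
  have h := G.hB n
  have hT1 := Tn_mono_lam hlam hlam1 (N (n + 1))
  have hTn := Tn_mono_lam hlam hlam1 (N n)
  have hT0 := Tn_pos (lam := 1 / 100) (by norm_num) (N n)
  have hq := qn_nonneg (l n)
  set g := 8 * (1 / 100) * Tn (1 / 100) (N n) * (1 / 50) ^ (m n + 1) * qn (l n) with hg
  have hg0 : 0 ≤ g := by rw [hg]; positivity
  have e1 : Tn lam (N n) * (1 / 100) * (1 / 50) ^ (m n + 1) * qn (l n) ≤ g / 8 := by
    have : Tn lam (N n) * ((1 / 100) * (1 / 50) ^ (m n + 1) * qn (l n))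
      ≤ Tn (1 / 100) (N n) * ((1 / 100) * (1 / 50) ^ (m n + 1) * qn (l n)) :=
      mul_le_mul_of_nonneg_right hTn (by positivity)
    rw [hg]; linarith
  have e2 : 2 * (1 / 100) ^ 2 * (g * Tn lam (N (n + 1)) * qn (l n)) * qn (l n) ≤ g / 8 := by
    have h3 : (2 * (1 / 100) ^ 2 * g * qn (l n) ^ 2) * Tn lam (N (n + 1))
      ≤ (2 * (1 / 100) ^ 2 * g * qn (l n) ^ 2) * Tn (1 / 100) (N (n + 1)) :=
      mul_le_mul_of_nonneg_left hT1 (by positivity)
    have h4 := mul_le_mul_of_nonneg_left h (by linarith : 0 ≤ g / 8)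
    nlinarith
  linarith

lemma gamma_crit (G : GoodParams N m l kap) {lam : ℝ} (hlam : 0 ≤ lam) (hlam1 : lam ≤ 1 / 100) :
    GammaOK N m l lam (fun n => 8 * (1 / 100) * Tn (1 / 100) (N n) * (1 / 50) ^ (m n + 1)
      * qn (l n)) where
  pos := fun n => by
    have := Tn_pos (lam := 1 / 100) (by norm_num) (N n)
    have := qn_pos (l n) (G.hl n)
    positivity
  F := fun n => gamma_crit_F G hlam hlam1 n
  B := fun n => gamma_crit_B G hlam hlam1 n

/-- Upper potential at the critical rate. -/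
theorem upper_crit (G : GoodParams N m l kap) (o : Vx) :
    ∃ f : Finset Vx → ℝ, (∀ A, 0 ≤ f A) ∧ ∀ A, (∀ v ∈ A, valid N m l v) →
      gen (nbG N m l) (1 / 100) f A ≤ - (if o ∈ A then 1 else 0) := by
  have hγ := gamma_crit G (lam := 1 / 100) (by norm_num) le_rfl
  obtain ⟨f, hf0, hf⟩ := upper_of_gamma G (by norm_num) le_rfl hγ
  have hc := cseq_pos hγ.pos
  set c := cseq (fun n => 8 * (1 / 100) * Tn (1 / 100) (N n) * (1 / 50) ^ (m n + 1)
      * qn (l n)) with hcdef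
  set δ := min (c (lev o)) (c (lev o + 1)) / 4 with hδ
  have hδ0 : 0 < δ := by rw [hδ]; exact div_pos (lt_min (hc _) (hc _)) (by norm_num)
  refine ⟨fun A => (1 / δ) * f A, fun A => mul_nonneg (by positivity) (hf0 A), fun A hA => ?_⟩
  rw [gen_const_mul]
  obtain ⟨h1, h2⟩ := hf A hA
  split_ifs with ho
  · have h3 := mul_le_mul_of_nonneg_left (h2 o ho) (show 0 ≤ 1 / δ by positivity)
    refine le_trans h3 (le_of_eq ?_)
    rw [← hδ]
    field_simp
  · have h3 := mul_le_mul_of_nonneg_left h1 (show 0 ≤ 1 / δ by positivity)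
    linarith

/-- Upper potential below the critical rate. -/
theorem upper_sub (G : GoodParams N m l kap) {lam : ℝ} (hlam : 0 < lam) (hlam1 : lam < 1 / 100) :
    ∃ f : Finset Vx → ℝ, (∀ A, 0 ≤ f A) ∧ ∀ A, (∀ v ∈ A, valid N m l v) → A ≠ ∅ →
      gen (nbG N m l) lam f A ≤ - 1 := by
  obtain ⟨n1, hn1⟩ := G.hsub lam hlam hlam1
  set γ : ℕ → ℝ := fun n => if n < n1 then 8 * (1 / 100) * Tn (1 / 100) (N n)
    * (1 / 50) ^ (m n + 1) * qn (l n) else 1 with hγdef
  have hγ : GammaOK N m l lam γ := by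
    refine ⟨fun n => ?_, fun n => ?_, fun n => ?_⟩
    · simp only [hγdef]
      split_ifs
      · exact (gamma_crit G hlam.le hlam1.le).pos n
      · norm_num
    · simp only [hγdef]
      split_ifs with h
      · exact gamma_crit_F G hlam.le hlam1.le n
      · have h1 := hn1 n (not_lt.mp h)
        have h2 : (0 : ℝ) ≤ (1 / 5) ^ (m n) := by positivity
        have h3 : (1 / 5 : ℝ) ^ (m n) ≤ 1 := pow_le_one₀ (by norm_num) (by norm_num)
        have h4 := mul_le_mul h1 h3 h2 (by norm_num)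
        nlinarith
    · simp only [hγdef]
      split_ifs with h
      · exact gamma_crit_B G hlam.le hlam1.le n
      · have h1 := hn1 n (not_lt.mp h)
        have hq := qn_nonneg (l n)
        have hq2 := qn_le_const (l n) (G.hl n)
        have hT := Tn_mono hlam.le (G.hmono n)
        have hT0 := (Tn_pos hlam.le (N n)).le
        have h2 : (0 : ℝ) ≤ (1 / 50) ^ (m n + 1) := by positivity
        have h3 : (1 / 50 : ℝ) ^ (m n + 1) ≤ 1 := pow_le_one₀ (by norm_num) (by norm_num)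
        have h4 : Tn lam (N n) * qn (l n) ≤ 1 :=
          le_trans (mul_le_mul_of_nonneg_right hT hq) h1
        have h5 : Tn lam (N n) * qn (l n) * (1 / 50) ^ (m n + 1) ≤ 1 * 1 :=
          mul_le_mul h4 h3 h2 (by norm_num)
        have h6 : Tn lam (N (n + 1)) * qn (l n) * qn (l n) ≤ 1 * (2 / 49) :=
          mul_le_mul h1 hq2 hq (by norm_num)
        nlinarith
  obtain ⟨f, hf0, hf⟩ := upper_of_gamma G hlam.le hlam1.le hγ
  have hc := cseq_pos hγ.pos
  have hconst : ∀ n, n1 ≤ n → cseq γ n = cseq γ n1 := by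
    intro n hn
    induction n, hn using Nat.le_induction with
    | base => rfl
    | succ n hn ih =>
      have : cseq γ (n + 1) = γ n * cseq γ n := rfl
      rw [this, ih]
      have h1 : γ n = 1 := by simp only [hγdef]; rw [if_neg (not_lt.mpr hn)]
      rw [h1, one_mul]
  obtain ⟨δ, hδ0, hδ⟩ : ∃ δ > 0, ∀ n, δ ≤ cseq γ n := by
    obtain ⟨i, hi, hmin⟩ := Finset.exists_min_image (range (n1 + 1)) (cseq γ)
      ⟨0, mem_range.mpr (by omega)⟩
    refine ⟨cseq γ i, hc i, fun n => ?_⟩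
    rcases Nat.lt_or_ge n (n1 + 1) with h | h
    · exact hmin n (mem_range.mpr h)
    · rw [hconst n (by omega)]
      exact hmin n1 (mem_range.mpr (by omega))
  refine ⟨fun A => (4 / δ) * f A, fun A => mul_nonneg (by positivity) (hf0 A), fun A hA hne => ?_⟩
  rw [gen_const_mul]
  obtain ⟨h1, h2⟩ := hf A hA
  obtain ⟨v, hv⟩ := Finset.nonempty_iff_ne_empty.mpr hne
  have h3 : δ / 4 ≤ min (cseq γ (lev v)) (cseq γ (lev v + 1)) / 4 := by
    have := le_min (hδ (lev v)) (hδ (lev v + 1))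
    linarith
  have h4 : gen (nbG N m l) lam f A ≤ - (δ / 4) := le_trans (h2 v hv) (by linarith)
  have h5 := mul_le_mul_of_nonneg_left h4 (show 0 ≤ 4 / δ by positivity)
  refine le_trans h5 (le_of_eq ?_)
  field_simp

end Pool.Agent.CP
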