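import Mathlib
import Pool.Agent.Helper11.CP.ProcThm
import Pool.Agent.Helper11.CP.UpperD
import Pool.Agent.Helper11.CP.LowerE
import Pool.Agent.Helper11.CP.Nonexp

/-!
# The graph as a simple graph, and the transfer of the potentials
-/

set_option autoImplicit false

namespace Pool.Agent.CP

open Finset Filter
open scoped ENNReal NNReal

variable (N m l : ℕ → ℕ)

/-- the vertices of the graph -/
abbrev VV : Type := {v : Vx // valid N m l v}

/-- the graph -/
def GG : SimpleGraph (VV N m l) where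
  Adj v w := down N m l v.1 w.1 ∨ down N m l w.1 v.1
  symm := ⟨fun _ _ h => h.symm⟩
  loopless := ⟨fun v h => by
    obtain ⟨v, hv⟩ := v
    cases v <;> simp only [down, or_self] at h <;> omega⟩

section

variable (hl : ∀ n, 1 ≤ l n) (hN : ∀ n, 1 ≤ N n)

/-- embedding of the vertex set -/
def vemb : VV N m l ↪ Vx := ⟨Subtype.val, Subtype.val_injective⟩

/-- neighbours, as a finite set -/
def nbV (v : VV N m l) : Finset (VV N m l) :=
  ((nbG N m l v.1).filter (valid N m l)).attach.image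
    (fun w => ⟨w.1, (mem_filter.mp w.2).2⟩)

include hl hN

lemma mem_nbV (v w : VV N m l) : w ∈ nbV N m l v ↔ (GG N m l).Adj v w := by
  unfold nbV
  rw [mem_image]
  constructor
  · rintro ⟨⟨u, hu⟩, _, rfl⟩
    have h := (mem_filter.mp hu).1
    rw [mem_nbG_iff N m l hl hN] at h
    exact h.2.2
  · intro h
    have h1 : w.1 ∈ nbG N m l v.1 := by
      rw [mem_nbG_iff N m l hl hN]; exact ⟨v.2, w.2, h⟩
    exact ⟨⟨w.1, mem_filter.mpr ⟨h1, w.2⟩⟩, mem_attach _ _, rfl⟩

/-- the graph is locally finite -/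
@[reducible] noncomputable def locFin : (GG N m l).LocallyFinite := fun v =>
  Fintype.ofFinset (nbV N m l v) (fun w => by
    rw [mem_nbV N m l hl hN]; exact (SimpleGraph.mem_neighborSet _ _ _).symm)

lemma map_nb (v : VV N m l) :
    ((@SimpleGraph.neighborFinset _ (GG N m l) v (locFin N m l hl hN v))).map (vemb N m l)
      = nbG N m l v.1 := by
  ext w
  rw [Finset.mem_map]
  constructor
  · rintro ⟨u, hu, rfl⟩
    rw [SimpleGraph.mem_neighborFinset] at hu
    show u.1 ∈ nbG N m l v.1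
    rw [mem_nbG_iff N m l hl hN]
    exact ⟨v.2, u.2, hu⟩
  · intro h
    have h' := (mem_nbG_iff N m l hl hN v.1 w).mp h
    refine ⟨⟨w, h'.2.1⟩, ?_, rfl⟩
    rw [SimpleGraph.mem_neighborFinset]
    exact h'.2.2

/-- neighbourhood function of the graph -/
noncomputable def nbS (v : VV N m l) : Finset (VV N m l) :=
  @SimpleGraph.neighborFinset _ (GG N m l) v (locFin N m l hl hN v)

lemma gen_transfer (lam : ℝ) (f : Finset Vx → ℝ) (A : Finset (VV N m l)) :
    gen (nbS N m l hl hN) lam (fun B => f (B.map (vemb N m l))) A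
      = gen (nbG N m l) lam f (A.map (vemb N m l)) := by
  unfold gen
  congr 1
  · rw [Finset.sum_map]
    refine Finset.sum_congr rfl (fun x _ => ?_)
    beta_reduce
    rw [Finset.map_erase]
  · congr 1
    rw [Finset.sum_map]
    refine Finset.sum_congr rfl (fun x _ => ?_)
    have h := map_nb N m l hl hN x
    have h2 : ∑ y ∈ nbG N m l (vemb N m l x),
        (f (insert y (A.map (vemb N m l))) - f (A.map (vemb N m l)))
        = ∑ y ∈ (nbS N m l hl hN x).map (vemb N m l),
        (f (insert y (A.map (vemb N m l))) - f (A.map (vemb N m l))) := by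
      rw [show nbG N m l (vemb N m l x) = (nbS N m l hl hN x).map (vemb N m l) from h.symm]
    rw [h2, Finset.sum_map]
    refine Finset.sum_congr rfl (fun y _ => ?_)
    beta_reduce
    rw [Finset.map_insert]

omit hl hN in
lemma valid_map (A : Finset (VV N m l)) : ∀ v ∈ A.map (vemb N m l), valid N m l v := by
  intro v hv
  rw [Finset.mem_map] at hv
  obtain ⟨u, _, rfl⟩ := hv
  exact u.2

omit hl hN in
lemma mem_map_iff (A : Finset (VV N m l)) (o : VV N m l) : o.1 ∈ A.map (vemb N m l) ↔ o ∈ A := by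
  rw [Finset.mem_map]
  constructor
  · rintro ⟨u, hu, h⟩
    have : u = o := Subtype.ext h
    rwa [← this]
  · intro h; exact ⟨o, h, rfl⟩

/-! ### Connectedness -/

omit hl hN in
lemma root_valid (hN0 : 1 ≤ N 0) : valid N m l (.cl 0 0 0) := ⟨Nat.one_pos, hN0⟩

/-- reachability of the root -/
def RR (v : Vx) : Prop := ∀ h : valid N m l v,
  (GG N m l).Reachable ⟨v, h⟩ ⟨.cl 0 0 0, root_valid N m l (hN 0)⟩

lemma RR_step {v w : Vx} (h : w ∈ nbG N m l v) (hw : RR N m l hN w) : RR N m l hN v := by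
  intro hv
  have h' := (mem_nbG_iff N m l hl hN v w).mp h
  have hadj : (GG N m l).Adj ⟨v, hv⟩ ⟨w, h'.2.1⟩ := h'.2.2
  exact hadj.reachable.trans (hw h'.2.1)

lemma RR_cl {n x : ℕ} (h0 : RR N m l hN (.cl n x 0)) (i : ℕ) : RR N m l hN (.cl n x i) := by
  intro hv
  rcases Nat.eq_zero_or_pos i with rfl | hi
  · exact h0 hv
  · exact RR_step N m l hl hN (mem_nbG_cl N m l hl hN hv.1 hv.2 (hN n) (by omega)) h0 hv

lemma RR_hb {n : ℕ} (hcl : ∀ x i, RR N m l hN (.cl n x i)) (k : ℕ) :
    ∀ y, RR N m l hN (.hb n k y) := by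
  have hNn := hN n
  induction k with
  | zero =>
    intro y hv
    apply RR_step N m l hl hN (w := .cl n y (N n - 1)) _ (hcl y (N n - 1)) hv
    rw [mem_nbG_iff N m l hl hN]
    exact ⟨hv, ⟨by simpa using hv.2, by omega⟩, Or.inr ⟨rfl, rfl, rfl, by omega⟩⟩
  | succ k ih =>
    intro y hv
    apply RR_step N m l hl hN (w := .hb n k (y / 16)) _ (ih (y / 16)) hv
    rw [mem_nbG_iff N m l hl hN]
    refine ⟨hv, ⟨by have := hv.1; omega, ?_⟩, Or.inr ⟨rfl, rfl, rfl⟩⟩
    rw [Nat.div_lt_iff_lt_mul (by norm_num)]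
    calc y < W m n * 16 ^ (k + 1) := hv.2
      _ = W m n * 16 ^ k * 16 := by rw [pow_succ]; ring

lemma RR_pa {n : ℕ} (hhb : ∀ y, RR N m l hN (.hb n (m n) y)) (j : ℕ) :
    ∀ y, RR N m l hN (.pa n j y) := by
  induction j with
  | zero =>
    intro y hv
    apply RR_step N m l hl hN (w := .hb n (m n) y) _ (hhb y) hv
    rw [mem_nbG_iff N m l hl hN]
    exact ⟨hv, ⟨le_rfl, hv.2⟩, Or.inr ⟨rfl, rfl, rfl, rfl⟩⟩
  | succ j ih =>
    intro y hv
    apply RR_step N m l hl hN (w := .pa n j y) _ (ih y) hv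
    rw [mem_nbG_iff N m l hl hN]
    exact ⟨hv, ⟨by have := hv.1; omega, hv.2⟩, Or.inr ⟨rfl, rfl, rfl⟩⟩

lemma RR_level (n : ℕ) : ∀ x, RR N m l hN (.cl n x 0) := by
  induction n with
  | zero =>
    intro x hv
    have hx : x = 0 := by
      have := hv.1
      simp only [W] at this
      omega
    subst hx
    exact SimpleGraph.Reachable.refl _
  | succ n ih =>
    have hcl : ∀ x i, RR N m l hN (.cl n x i) := fun x i => RR_cl N m l hl hN (ih x) i
    have hhb := RR_hb N m l hl hN hcl (m n)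
    have hpa := RR_pa N m l hl hN hhb (l n - 1)
    intro y hv
    have hln := hl n
    apply RR_step N m l hl hN (w := .pa n (l n - 1) y) _ (hpa y) hv
    rw [mem_nbG_iff N m l hl hN]
    exact ⟨hv, ⟨by omega, hv.1⟩, Or.inr ⟨rfl, rfl, rfl, by omega⟩⟩

lemma RR_all (v : Vx) : RR N m l hN v := by
  cases v with
  | cl n x i => exact RR_cl N m l hl hN (RR_level N m l hl hN n x) i
  | hb n k y =>
    exact RR_hb N m l hl hN (fun x i => RR_cl N m l hl hN (RR_level N m l hl hN n x) i) k y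
  | pa n j y =>
    exact RR_pa N m l hl hN (RR_hb N m l hl hN
      (fun x i => RR_cl N m l hl hN (RR_level N m l hl hN n x) i) (m n)) j y

theorem GG_connected : (GG N m l).Connected := by
  have : Nonempty (VV N m l) := ⟨⟨.cl 0 0 0, root_valid N m l (hN 0)⟩⟩
  refine ⟨fun v w => ?_⟩
  exact (RR_all N m l hl hN v.1 v.2).trans (RR_all N m l hl hN w.1 w.2).symm

open Classical in
/-- distance to a vertex -/
noncomputable def dd (o : VV N m l) (v : Vx) : ℕ :=
  if h : valid N m l v then (GG N m l).dist ⟨v, h⟩ o else 0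

lemma dd_distLike (o : VV N m l) : DistLike N m l o.1 (dd N m l o) := by
  intro v hv hvo
  have hconn := GG_connected N m l hl hN
  obtain ⟨p, hp⟩ := hconn.exists_walk_length_eq_dist (⟨v, hv⟩ : VV N m l) o
  cases p with
  | nil => exact absurd rfl hvo
  | cons hadj q =>
    rename_i w
    refine ⟨w.1, ?_, ?_⟩
    · rw [mem_nbG_iff N m l hl hN]
      exact ⟨hv, w.2, hadj⟩
    · unfold dd
      rw [dif_pos w.2, dif_pos hv, ← hp, SimpleGraph.Walk.length_cons]
      have := SimpleGraph.dist_le q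
      exact Nat.lt_succ_of_le this

lemma dd_le (o o' : VV N m l) (v : Vx) :
    dd N m l o v ≤ dd N m l o' v + (GG N m l).dist o' o := by
  have hconn := GG_connected N m l hl hN
  unfold dd
  split_ifs with h
  · exact hconn.dist_triangle
  · omega

end

/-! ### Finite sets of vertices of bounded level -/

/-- vertices of level less than `K` -/
def Vlev (K : ℕ) : Finset Vx :=
  (range K).biUnion (fun n =>
    ((range (W m n)).biUnion (fun x => (range (N n)).image (fun i => Vx.cl n x i)))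
    ∪ (((range (m n + 1)).biUnion (fun k => (range (W m n * 16 ^ k)).image (fun y => Vx.hb n k y)))
    ∪ ((range (l n)).biUnion (fun j => (range (W m (n + 1))).image (fun y => Vx.pa n j y)))))

lemma mem_Vlev {K : ℕ} {v : Vx} (hv : valid N m l v) (hK : lev v < K) : v ∈ Vlev N m l K := by
  unfold Vlev
  rw [mem_biUnion]
  refine ⟨lev v, mem_range.mpr hK, ?_⟩
  rw [mem_union, mem_union]
  cases v with
  | cl n x i =>
    left
    rw [mem_biUnion]
    exact ⟨x, mem_range.mpr hv.1, mem_image.mpr ⟨i, mem_range.mpr hv.2, rfl⟩⟩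
  | hb n k y =>
    right; left
    rw [mem_biUnion]
    exact ⟨k, mem_range.mpr (by have := hv.1; simp only [lev]; omega),
      mem_image.mpr ⟨y, mem_range.mpr hv.2, rfl⟩⟩
  | pa n j y =>
    right; right
    rw [mem_biUnion]
    exact ⟨j, mem_range.mpr hv.1, mem_image.mpr ⟨y, mem_range.mpr hv.2, rfl⟩⟩

/-- vertices of the graph of level less than `K` -/
def VVlev (K : ℕ) : Finset (VV N m l) :=
  ((Vlev N m l K).filter (valid N m l)).attach.image (fun w => ⟨w.1, (mem_filter.mp w.2).2⟩)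

lemma mem_VVlev {K : ℕ} {v : VV N m l} (hK : lev v.1 < K) : v ∈ VVlev N m l K := by
  unfold VVlev
  rw [mem_image]
  exact ⟨⟨v.1, mem_filter.mpr ⟨mem_Vlev N m l v.2 hK, v.2⟩⟩, mem_attach _ _, rfl⟩

/-! ### Non-explosion -/

lemma totalRate_le {V : Type} [DecidableEq V] (nb : V → Finset V) (lam : ℝ≥0) {A S : Finset V}
    (h : A ⊆ S) : holdRate nb lam A
      ≤ (S.card : ℝ≥0) + lam * ∑ x ∈ S, ((nb x).card : ℝ≥0) + 1 := by
  have h1 : totalRate nb lam A ≤ (S.card : ℝ≥0) + lam * ∑ x ∈ S, ((nb x).card : ℝ≥0) := by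
    unfold totalRate
    apply add_le_add
    · exact_mod_cast Finset.card_le_card h
    · apply mul_le_mul_right
      calc ∑ x ∈ A, ((nb x \ A).card : ℝ≥0) ≤ ∑ x ∈ A, ((nb x).card : ℝ≥0) :=
            Finset.sum_le_sum (fun x _ => by
              exact_mod_cast Finset.card_le_card Finset.sdiff_subset)
        _ ≤ ∑ x ∈ S, ((nb x).card : ℝ≥0) :=
            Finset.sum_le_sum_of_subset_of_nonneg h (fun _ _ _ => zero_le)
  unfold holdRate
  split_ifs with h2
  · exact le_add_of_nonneg_left zero_le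
  · exact le_trans h1 (le_add_of_nonneg_right zero_le)

theorem nonExpl_GG (hl : ∀ n, 1 ≤ l n) (hN : ∀ n, 1 ≤ N n) (lam : ℝ≥0) :
    NonExpl (nbS N m l hl hN) lam := by
  obtain ⟨Y, hY0, hYgen, hYlev⟩ := exists_lyapunov N m l hl hN
  apply nonExpl_of_lyapunov (nbS N m l hl hN) lam (fun A => Y (A.map (vemb N m l)))
    (20 * (lam : ℝ)) (by positivity) (fun A => hY0 _)
  · intro A
    rw [gen_transfer]
    have h1 := hYgen lam lam.2 (A.map (vemb N m l)) (valid_map N m l A)
    have h2 : (0 : ℝ) ≤ 20 * (lam : ℝ) := by positivity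
    nlinarith [hY0 (A.map (vemb N m l))]
  · intro K
    obtain ⟨n0, hn0⟩ := pow_unbounded_of_one_lt K (by norm_num : (1 : ℝ) < 2)
    refine ⟨((VVlev N m l n0).card : ℝ≥0)
      + lam * ∑ x ∈ VVlev N m l n0, ((nbS N m l hl hN x).card : ℝ≥0) + 1, fun A hA => ?_⟩
    apply totalRate_le
    intro v hv
    apply mem_VVlev
    by_contra hcon
    push Not at hcon
    have h1 := hYlev (A.map (vemb N m l)) (valid_map N m l A) v.1 ((mem_map_iff N m l A v).mpr hv)
    have h2 : (2 : ℝ) ^ n0 ≤ 2 ^ (lev v.1) := pow_le_pow_right₀ (by norm_num) hcon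
    linarith

/-! ### The phase diagram -/

variable {N m l} {kap : ℕ → ℝ} (G : GoodParams N m l kap)

/-- the neighbourhood function for good parameters -/
noncomputable def nbP : VV N m l → Finset (VV N m l) :=
  nbS N m l G.hl (fun n => le_trans (by norm_num) (G.hN n))

include G

lemma nbG_good_hN : ∀ n, 1 ≤ N n := fun n => le_trans (by norm_num) (G.hN n)

theorem GG_extinct {lam : ℝ≥0} (h0 : 0 < lam) (h1 : (lam : ℝ) < 1 / 100)
    (A₀ : Finset (VV N m l)) :
    law (nbP G) lam A₀ {ω | ∀ t : ℝ, 0 ≤ t → (config (nbP G) lam ω t).Nonempty} = 0 := by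
  obtain ⟨f, hf0, hf⟩ := upper_sub G (lam := lam) (by exact_mod_cast h0) h1
  apply extinct_of (nbP G) lam (nonExpl_GG N m l G.hl (nbG_good_hN G) lam)
    (fun A => f (A.map (vemb N m l))) (fun A => hf0 _)
  intro A hA
  unfold nbP
  rw [gen_transfer]
  exact hf _ (valid_map N m l A) (by
    intro h; rw [Finset.map_eq_empty] at h; exact hA h)

theorem GG_local_extinct_sub {lam : ℝ≥0} (h0 : 0 < lam) (h1 : (lam : ℝ) < 1 / 100)
    (o : VV N m l) (A₀ : Finset (VV N m l)) :
    law (nbP G) lam A₀ {ω | ∀ s : ℝ, ∃ t : ℝ, s ≤ t ∧ o ∈ config (nbP G) lam ω t} = 0 := by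
  obtain ⟨f, hf0, hf⟩ := upper_sub G (lam := lam) (by exact_mod_cast h0) h1
  apply local_extinct_of (nbP G) lam (nonExpl_GG N m l G.hl (nbG_good_hN G) lam) o
    (fun A => f (A.map (vemb N m l))) (fun A => hf0 _)
  intro A
  unfold nbP
  rw [gen_transfer]
  rcases A.eq_empty_or_nonempty with rfl | hne
  · simp [gen]
  · have h2 := hf _ (valid_map N m l A) (by
      intro h; rw [Finset.map_eq_empty] at h; exact hne.ne_empty h)
    split_ifs <;> linarith

theorem GG_local_extinct_crit (o : VV N m l) (A₀ : Finset (VV N m l)) :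
    law (nbP G) (1 / 100) A₀
      {ω | ∀ s : ℝ, ∃ t : ℝ, s ≤ t ∧ o ∈ config (nbP G) (1 / 100) ω t} = 0 := by
  obtain ⟨f, hf0, hf⟩ := upper_crit G o.1
  apply local_extinct_of (nbP G) (1 / 100) (nonExpl_GG N m l G.hl (nbG_good_hN G) _) o
    (fun A => f (A.map (vemb N m l))) (fun A => hf0 _)
  intro A
  unfold nbP
  rw [gen_transfer]
  have h2 := hf _ (valid_map N m l A)
  have h3 : (((1 / 100 : ℝ≥0)) : ℝ) = 1 / 100 := by push_cast; ring
  rw [h3]
  refine le_trans h2 (le_of_eq ?_)
  congr 1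
  simp only [mem_map_iff]

/-- the vertex `cl 0 0 1` -/
def oone : VV N m l := ⟨.cl 0 0 1, ⟨W_zero_pos m, by have := G.hN 0; omega⟩⟩

theorem GG_survive {lam : ℝ≥0} (h1 : (1 / 100 : ℝ) ≤ lam) (A₀ : Finset (VV N m l))
    (hA : A₀.Nonempty) :
    0 < law (nbP G) lam A₀ {ω | ∀ t : ℝ, 0 ≤ t → (config (nbP G) lam ω t).Nonempty} := by
  have hlam0 : (0 : ℝ) < lam := by linarith
  set r : ℝ := lam / (2 + lam) with hr
  have hr0 : 0 < r := by rw [hr]; positivity
  have hr1 : r ≤ 1 := by rw [hr, div_le_one (by positivity)]; linarith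
  have hrk : r * (1 + lam + 1) = lam := by
    rw [hr]
    have : (2 : ℝ) + lam ≠ 0 := by positivity
    field_simp
    ring
  set d := dd N m l (oone G) with hd
  have hdl : DistLike N m l (.cl 0 0 1) d :=
    dd_distLike N m l G.hl (nbG_good_hN G) (oone G)
  apply survive_of (nbP G) lam (nonExpl_GG N m l G.hl (nbG_good_hN G) lam)
    (fun A => phi N m l kap r d (A.map (vemb N m l)))
  · intro A; exact phi_nonneg r d _
  · intro A; exact phi_le_one G hr0.le hr1 d _
  · simp only [Finset.map_empty]; exact phi_empty r d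
  · intro A
    unfold nbP
    rw [gen_transfer]
    exact gen_phi_nonneg G h1 hr0 hr1 zero_le_one hrk hdl (valid_map N m l A)
  · apply phi_pos hr0
    rwa [Finset.map_nonempty]

theorem GG_local_survive {lam : ℝ≥0} (h1 : (1 / 100 : ℝ) < lam) (o : VV N m l)
    (A₀ : Finset (VV N m l)) (hA : A₀.Nonempty) :
    0 < law (nbP G) lam A₀ {ω | ∀ s : ℝ, ∃ t : ℝ, s ≤ t ∧ o ∈ config (nbP G) lam ω t} := by
  have hN1 := nbG_good_hN G
  have hlam0 : (0 : ℝ) < lam := by linarith
  set r : ℝ := lam / (2 + lam) with hr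
  have hr0 : 0 < r := by rw [hr]; positivity
  have hr1 : r ≤ 1 := by rw [hr, div_le_one (by positivity)]; linarith
  have hrk : r * (1 + lam + 1) = lam := by
    rw [hr]
    have : (2 : ℝ) + lam ≠ 0 := by positivity
    field_simp
    ring
  set d' := dd N m l (oone G) with hd'
  have hdl' : DistLike N m l (.cl 0 0 1) d' := dd_distLike N m l G.hl hN1 (oone G)
  set d := dd N m l o with hd
  have hdl : DistLike N m l o.1 d := dd_distLike N m l G.hl hN1 o
  obtain ⟨n1, hn1⟩ := G.hup lam h1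
  -- the constant c0
  obtain ⟨c0, hc0, hc1, hcnear⟩ : ∃ c0 : ℝ, 0 < c0 ∧ 3 * c0 ≤ 1 ∧
      ∀ v, valid N m l v → lev v ≤ n1 → 3 * c0 < r ^ (d v) := by
    obtain ⟨v0, _, hmin⟩ := Finset.exists_min_image (insert (.cl 0 0 1) (Vlev N m l (n1 + 1)))
      (fun v => r ^ (d v)) ⟨_, mem_insert_self _ _⟩
    have hpos : 0 < r ^ (d v0) := by positivity
    have hle : r ^ (d v0) ≤ 1 := pow_le_one₀ hr0.le hr1
    refine ⟨r ^ (d v0) / 4, by positivity, by linarith, fun v hv hlev => ?_⟩
    have := hmin v (mem_insert_of_mem (mem_Vlev N m l hv (by omega)))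
    linarith
  have H : EHyp N m l kap lam r 1 c0 d n1 o.1 :=
    { lam1 := h1, r0 := hr0, r1 := hr1, hk0 := one_pos, rk := hrk, c00 := hc0, dist := hdl,
      near := hcnear, up := hn1 }
  set D := (GG N m l).dist (oone G) o with hD
  have hdd : ∀ v, valid N m l v → d v ≤ d' v + D := fun v _ => dd_le N m l G.hl hN1 o (oone G) v
  apply local_survive_of (nbP G) lam (nonExpl_GG N m l G.hl hN1 lam) o
    (fun A => phi N m l kap r d' (A.map (vemb N m l)))
    (fun A => phi_nonneg r d' _) (fun A => phi_le_one G hr0.le hr1 d' _) ?_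
    (1 / c0 + 1 / r ^ D) (by positivity) ?_ A₀ (phi_pos hr0 d' (by rwa [Finset.map_nonempty]))
  · intro A
    unfold nbP
    rw [gen_transfer]
    exact gen_phi_nonneg G h1.le hr0 hr1 zero_le_one hrk hdl' (valid_map N m l A)
  · intro A
    set n2 := topv (A.map (vemb N m l)) with hn2
    obtain ⟨ε, hε, hgen⟩ := gen_efun_ge G H n2
    refine ⟨fun B => efun N m l kap lam r d c0 n1 n2 (B.map (vemb N m l)), ε, hε,
      fun B => efun_nonneg _, fun B => efun_le_one G H hc1 n2 _, ?_, ?_, ?_⟩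
    · simp only [Finset.map_empty]; exact efun_empty G H n2
    · intro B hoB
      unfold nbP
      rw [gen_transfer]
      exact hgen _ (valid_map N m l B) (by rw [mem_map_iff]; exact hoB)
    · exact phi_le_efun G H hdd (valid_map N m l A) le_rfl

end Pool.Agent.CP
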