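import Mathlib
import Pool.Agent.Helper11.CP.ProcThm

/-!
# Measurability of the survival events
-/

set_option autoImplicit false

open MeasureTheory ProbabilityTheory Filter
open scoped ENNReal NNReal

namespace Pool.Agent.CP

variable {V : Type} [DecidableEq V]

lemma exists_jump_interval (nb : V → Finset V) (lam : ℝ≥0) (ω : (ℕ → Finset V) × (ℕ → ℝ))
    (ht : Tendsto (fun n => jumpTime nb lam ω n) atTop atTop) {t : ℝ} (ht0 : 0 ≤ t) :
    ∃ n, jumpTime nb lam ω n ≤ t ∧ t < jumpTime nb lam ω (n + 1) := by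
  obtain ⟨N, hN⟩ := (ht.eventually_gt_atTop t).exists
  classical
  have hex : ∃ n, t < jumpTime nb lam ω n := ⟨N, hN⟩
  set n := Nat.find hex with hn
  have hn1 : t < jumpTime nb lam ω n := Nat.find_spec hex
  have hn0 : n ≠ 0 := by
    intro h
    rw [h, jumpTime_zero] at hn1
    linarith
  obtain ⟨m, hm⟩ := Nat.exists_eq_succ_of_ne_zero hn0
  have hm2 : ¬ t < jumpTime nb lam ω m := Nat.find_min hex (by omega)
  refine ⟨m, not_lt.mp hm2, ?_⟩
  rw [← Nat.succ_eq_add_one, ← hm]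
  exact hn1

/-- Almost surely, the process survives globally if and only if no configuration of the jump chain
is empty. -/
lemma ae_glob_iff (nb : V → Finset V) (lam : ℝ≥0) (h : NonExpl nb lam) (A₀ : Finset V) :
    ∀ᵐ ω ∂(law nb lam A₀),
      (∀ t : ℝ, 0 ≤ t → (config nb lam ω t).Nonempty) ↔ ∀ n, ω.1 n ≠ ∅ := by
  filter_upwards [ae_tendsto_jumpTime nb lam h A₀, ae_law_pos nb lam A₀] with ω ht hp
  have hmono := jumpTime_mono nb lam ω hp
  constructor
  · intro H n hn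
    have h0 : 0 ≤ jumpTime nb lam ω n := by
      rw [← jumpTime_zero nb lam ω]; exact hmono.monotone (Nat.zero_le n)
    obtain ⟨x, k, hk1, hk2, hk3⟩ := H _ h0
    have h1 : k ≤ n := hmono.le_iff_le.mp hk1
    have h2 : n < k + 1 := hmono.lt_iff_lt.mp hk2
    have h3 : k = n := by omega
    rw [h3, hn] at hk3
    simp at hk3
  · intro H t ht0
    obtain ⟨n, hn1, hn2⟩ := exists_jump_interval nb lam ω ht ht0
    obtain ⟨x, hx⟩ := Finset.nonempty_iff_ne_empty.mpr (H n)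
    exact ⟨x, n, hn1, hn2, hx⟩

/-- Almost surely, `o` is infected at arbitrarily large times if and only if it belongs to
infinitely many configurations of the jump chain. -/
lemma ae_loc_iff (nb : V → Finset V) (lam : ℝ≥0) (h : NonExpl nb lam) (A₀ : Finset V) (o : V) :
    ∀ᵐ ω ∂(law nb lam A₀),
      (∀ s : ℝ, ∃ t : ℝ, s ≤ t ∧ o ∈ config nb lam ω t) ↔ ∀ n, ∃ k, n ≤ k ∧ o ∈ ω.1 k := by
  filter_upwards [ae_tendsto_jumpTime nb lam h A₀, ae_law_pos nb lam A₀] with ω ht hp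
  have hmono := jumpTime_mono nb lam ω hp
  constructor
  · intro H n
    obtain ⟨t, ht1, k, hk1, hk2, hk3⟩ := H (jumpTime nb lam ω n)
    refine ⟨k, ?_, hk3⟩
    have h2 : n < k + 1 := hmono.lt_iff_lt.mp (lt_of_le_of_lt ht1 hk2)
    omega
  · intro H s
    obtain ⟨N, hN⟩ := eventually_atTop.mp (ht.eventually_ge_atTop s)
    obtain ⟨j, hj, hj2⟩ := H N
    exact ⟨jumpTime nb lam ω j, hN j hj, j, le_rfl, jumpTime_lt_succ nb lam ω hp j, hj2⟩

theorem nullMeasurableSet_glob (nb : V → Finset V) (lam : ℝ≥0) (h : NonExpl nb lam)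
    (A₀ : Finset V) :
    NullMeasurableSet {ω | ∀ t : ℝ, 0 ≤ t → (config nb lam ω t).Nonempty} (law nb lam A₀) := by
  have hm : MeasurableSet {ω : (ℕ → Finset V) × (ℕ → ℝ) | ∀ n, ω.1 n ≠ ∅} := by
    have : {ω : (ℕ → Finset V) × (ℕ → ℝ) | ∀ n, ω.1 n ≠ ∅}
        = ⋂ n, Prod.fst ⁻¹' {Y : ℕ → Finset V | Y n ∈ {A : Finset V | A ≠ ∅}} := by
      ext ω; simp
    rw [this]
    exact MeasurableSet.iInter (fun n => measurable_fst (measurableSet_coord _ n))
  refine hm.nullMeasurableSet.congr ?_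
  filter_upwards [ae_glob_iff nb lam h A₀] with ω hω
  exact propext hω.symm

theorem nullMeasurableSet_loc (nb : V → Finset V) (lam : ℝ≥0) (h : NonExpl nb lam)
    (A₀ : Finset V) (o : V) :
    NullMeasurableSet {ω | ∀ s : ℝ, ∃ t : ℝ, s ≤ t ∧ o ∈ config nb lam ω t} (law nb lam A₀) := by
  have hm : MeasurableSet {ω : (ℕ → Finset V) × (ℕ → ℝ) | ∀ n, ∃ k, n ≤ k ∧ o ∈ ω.1 k} := by
    have : {ω : (ℕ → Finset V) × (ℕ → ℝ) | ∀ n, ∃ k, n ≤ k ∧ o ∈ ω.1 k}
        = ⋂ n, ⋃ k, ⋃ (_ : n ≤ k),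
          Prod.fst ⁻¹' {Y : ℕ → Finset V | Y k ∈ {A : Finset V | o ∈ A}} := by
      ext ω; simp
    rw [this]
    exact MeasurableSet.iInter (fun n => MeasurableSet.iUnion (fun k =>
      MeasurableSet.iUnion (fun _ => measurable_fst (measurableSet_coord _ k))))
  refine hm.nullMeasurableSet.congr ?_
  filter_upwards [ae_loc_iff nb lam h A₀ o] with ω hω
  exact propext hω.symm

end Pool.Agent.CP
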